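import Mathlib

/-!
# Project HC (helper44): half of the `k`-level conjecture suffices (RH). Definitions and pieces.
-/

set_option autoImplicit false
set_option linter.all false

open Filter Topology MeasureTheory Set

namespace Pool.Agent.J4.H44.RG

noncomputable section

/-- multiplicity of `s` as a zero of the Riemann zeta function -/
def zmult (s : ℂ) : ℕ := analyticOrderNatAt riemannZeta s

/-- the number of nontrivial zeros of `ζ` with ordinate in `(0, t]`, with multiplicity -/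
def NZ (t : ℝ) : ℕ :=
  ∑ᶠ s ∈ {s : ℂ | riemannZeta s = 0 ∧ 0 < s.re ∧ s.re < 1 ∧ 0 < s.im ∧ s.im ≤ t}, zmult s

/-- the `n`-th positive ordinate -/
def γ (n : ℕ) : ℝ := sInf {t : ℝ | n ≤ NZ t}

/-- the counts `N_{k+1}(T; B)` -/
def N {ι : Type} (T : ℝ) (x y : ι → ℝ) : ℕ :=
  {j : Option ι → ℕ | Function.Injective j ∧ (∀ i, 1 ≤ j i ∧ γ (j i) ≤ T) ∧
    ∀ i : ι, (γ (j (some i)) - γ (j none)) * (Real.log T / (2 * Real.pi)) ∈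
      Set.Icc (x i) (y i)}.ncard

def pt {ι : Type} (u : ι → ℝ) (o : Option ι) : ℝ := o.elim 0 u

def A {ι : Type} (u : ι → ℝ) : Matrix (Option ι) (Option ι) ℝ :=
  Matrix.of fun i j => Real.sinc (Real.pi * (pt u i - pt u j))

def ratio {m : ℕ} (T : ℝ) (x y : Fin m → ℝ) : ℝ :=
  (N T x y : ℝ) / (T / (2 * Real.pi) * Real.log T)

def J {m : ℕ} (x y : Fin m → ℝ) : ℝ := ∫ u in Set.Icc x y, (A u).det

def Level (m : ℕ) : Prop :=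
  ∀ x y : Fin m → ℝ, (∀ i, x i ≤ y i) → Tendsto (fun T : ℝ => ratio T x y) atTop (𝓝 (J x y))

def LevelUpper (m : ℕ) : Prop :=
  ∀ x y : Fin m → ℝ, (∀ i, x i ≤ y i) → ∀ ε : ℝ, 0 < ε → ∀ᶠ T : ℝ in atTop, ratio T x y ≤ J x y + ε

def LevelLower (m : ℕ) : Prop :=
  ∀ x y : Fin m → ℝ, (∀ i, x i ≤ y i) → ∀ ε : ℝ, 0 < ε → ∀ᶠ T : ℝ in atTop, J x y - ε ≤ ratio T x y

/-- the density of the predicted limit in the first variable -/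
def jB {m : ℕ} (x y : Fin m → ℝ) (v : ℝ) : ℝ :=
  ∫ u in Set.Icc x y, (A (Fin.cons v u : Fin (m + 1) → ℝ)).det

/-- the scale -/
def sc (T : ℝ) : ℝ := Real.log T / (2 * Real.pi)

/-- the position of the `l`-th zero seen from the `n`-th -/
def ps (T : ℝ) (n l : ℕ) : ℝ := (γ l - γ n) * sc T

/-- the other zeros up to `T` with position in `S` -/
def Ws (T : ℝ) (n : ℕ) (S : Set ℝ) : Finset ℕ := by
  classical
  exact (Finset.Icc 1 (NZ T)).filter (fun l => l ≠ n ∧ ps T n l ∈ S)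

/-- the number of the tuples with base `n` in the box -/
def tup {m : ℕ} (T : ℝ) (x y : Fin m → ℝ) (n : ℕ) : ℕ :=
  {l : Fin m → ℕ | Function.Injective l ∧ ∀ i, l i ∈ Ws T n (Icc (x i) (y i))}.ncard

/-- flat weights -/
structure Nice (ε : ℝ) (G : ℝ → ℝ) (R : ℝ) : Prop where
  cont : Continuous G
  nonneg : ∀ v, 0 ≤ G v
  le_one : ∀ v, G v ≤ 1
  supp : ∀ v, R < |v| → G v = 0
  flat : ∀ v, |v| ≤ 1 / ε → 1 - ε ≤ G v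

/-- the mean of the weight -/
def cc (J : ℕ) : ℝ := (2 ^ (J + 1) - 2) / J

/-- the average of the Fejer kernels at the scales `2 ^ (q+1), …, 2 ^ (q+J)`, cut at `2 ^ q 4 ^ J` -/
def gJ (q J : ℕ) (v : ℝ) : ℝ :=
  if |v| ≤ 2 ^ q * 4 ^ J then (∑ j ∈ Finset.Icc 1 J, Real.sinc (Real.pi * v / 2 ^ (q + j)) ^ 2) / J
  else 0

/-- its average over a unit interval -/
def gbar (q J : ℕ) (v : ℝ) : ℝ := ∫ s in (-(1 / 2 : ℝ))..(1 / 2), gJ q J (v - s)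

/-! ## Facts of the library -/

/-- second and all moments -/
def S_MOMD : Prop := RiemannHypothesis → ∃ C : ℝ, 0 < C ∧ ∀ L : ℝ, 1 ≤ L → ∀ᶠ T : ℝ in atTop,
  ∀ x y : ℝ, |x| ≤ L → |y| ≤ L → x ≤ y →
    ∑ n ∈ Finset.Icc 1 (NZ T), (((Ws T n (Icc x y)).card : ℝ) - (y - x)) ^ 2 ≤
      C * (1 + Real.log L) * (T * Real.log T)

def S_MOMK : Prop := RiemannHypothesis → ∀ (p : ℕ) (R : ℝ), 1 ≤ R → ∃ C : ℝ, 0 < C ∧
  ∀ᶠ T : ℝ in atTop, ∑ n ∈ Finset.Icc 1 (NZ T), ((Ws T n (Icc (-R) R)).card : ℝ) ^ p ≤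
    C * (T * Real.log T)

/-- numbers of zeros -/
def S_NZ : Prop := (∃ C : ℝ, 0 < C ∧ ∀ᶠ T : ℝ in atTop, (NZ T : ℝ) ≤ C * (T * Real.log T)) ∧
  (∃ C : ℝ, 0 < C ∧ ∀ᶠ T : ℝ in atTop, ∀ t : ℝ, 0 ≤ t → t ≤ 2 * T →
    (NZ (t + 2) : ℝ) - NZ t ≤ C * Real.log T) ∧
  Monotone NZ ∧ (∀ n : ℕ, 1 ≤ n → ∀ t : ℝ, 0 ≤ t → (γ n ≤ t ↔ n ≤ NZ t)) ∧
  (∀ n l : ℕ, 1 ≤ n → n ≤ l → γ n ≤ γ l) ∧ (∀ n : ℕ, 1 ≤ n → 0 < γ n)

/-- CNT: the counts as sums over the zeros -/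
def S_CNT : Prop := ∀ (m : ℕ) (T : ℝ) (x y : Fin m → ℝ), 0 ≤ T →
  N T x y = ∑ n ∈ Finset.Icc 1 (NZ T), tup T x y n

/-! ## Pieces -/

/-- L1 (from `Pool.Agent.TH850.UR.main` with `a = 0`): the mean error of the smooth statistic. -/
def S_L1 : Prop := RiemannHypothesis → ∃ (q : ℕ) (C : ℝ), 0 < C ∧ ∀ J : ℕ, 1 ≤ J → ∃ T₀ : ℝ,
  ∀ T : ℝ, T₀ ≤ T →
    ∫ t in T..(2 * T), |2 ^ q * cc J - ∑ l ∈ Finset.Icc 1 (NZ (4 * T)), gJ q J ((γ l - t) * sc T)| ≤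
      C / Real.sqrt J * T

/-- L2: the mean square of the statistic seen from the zeros. -/
def S_L2 : Prop := RiemannHypothesis → ∀ q : ℕ, ∃ C : ℝ, 0 < C ∧ ∀ J : ℕ, 1 ≤ J →
  ∀ᶠ T : ℝ in atTop, ∀ ρ : ℝ, 1 - 1 / 4 ^ J ≤ ρ → ρ ≤ 1 →
    ∑ n ∈ Finset.Icc 1 (NZ T),
      (2 ^ q * cc J - ∑ l ∈ Finset.Icc 1 (NZ T), gbar q J (ρ * ps T n l)) ^ 2 ≤
      C * J * (T * Real.log T)

/-- the block `T / 2 ^ (i+1) + 1 < γ_n ≤ T / 2 ^ i - 1` -/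
def blk (T : ℝ) (i : ℕ) : Finset ℕ := by
  classical
  exact (Finset.Icc 1 (NZ T)).filter (fun n => T / 2 ^ (i + 1) + 1 < γ n ∧ γ n ≤ T / 2 ^ i - 1)

/-- BLK (inputs L1, L2, MOMK, NZ): one dyadic block. -/
def S_BLK : Prop := RiemannHypothesis → ∃ q : ℕ, ∀ (m : ℕ) (x y : Fin m → ℝ), ∃ C : ℝ, 0 < C ∧
  ∀ J : ℕ, 1 ≤ J → ∀ i : ℕ, ∀ᶠ T : ℝ in atTop,
    |∑ n ∈ blk T i, (tup T x y n : ℝ) *
      (2 ^ q * cc J - ∑ l ∈ Finset.Icc 1 (NZ T), gbar q J ((γ l - γ n) * sc (T / 2 ^ (i + 1))))| ≤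
      C * ((J : ℝ) ^ (-(1 / 4 : ℝ)) / 2 ^ i + (J : ℝ) ^ (-(3 / 2 : ℝ))) * (T * Real.log T)

/-- GB: properties of the weight `gbar`. -/
def S_GB : Prop := ∀ q : ℕ, ∃ C : ℝ, 0 < C ∧ ∀ J : ℕ, 1 ≤ J →
  (∃ K : ℝ, 0 ≤ K ∧ ∀ v w : ℝ, |gbar q J v - gbar q J w| ≤ K * |v - w|) ∧
  (∀ v, 0 ≤ gbar q J v) ∧ (∀ v, gbar q J v ≤ 1) ∧ (∀ v, 2 ^ q * 4 ^ J + 1 < |v| → gbar q J v = 0) ∧
  (∀ v, 1 - C * (1 + Real.log (1 + |v|)) / J ≤ gbar q J v) ∧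
  |2 ^ q * cc J - ∫ v, gbar q J v| ≤ C / J

/-- Z (inputs BLK, L2, MOMK, NZ, GB): one more zero, with a flat weight. -/
def S_Z : Prop := RiemannHypothesis → ∀ (m : ℕ) (x y : Fin m → ℝ) (ε : ℝ), 0 < ε →
  ∃ (G : ℝ → ℝ) (R : ℝ), Nice ε G R ∧ ∀ᶠ T : ℝ in atTop,
    |∑ n ∈ Finset.Icc 1 (NZ T), (tup T x y n : ℝ) *
      ((∫ v, G v) - ∑ l ∈ Finset.Icc 1 (NZ T), G (ps T n l))| ≤ ε * (T * Real.log T)

/-- REP: the reproducing property of the sine kernel. -/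
def S_REP : Prop := ∀ a b : ℝ,
  Integrable (fun v : ℝ => Real.sinc (Real.pi * (v - a)) * Real.sinc (Real.pi * (v - b))) ∧
  ∫ v : ℝ, Real.sinc (Real.pi * (v - a)) * Real.sinc (Real.pi * (v - b)) =
    Real.sinc (Real.pi * (a - b))

/-- SIN (input REP): one more point of the sine process, with a flat weight. -/
def S_SIN : Prop := ∀ (m : ℕ) (x y : Fin m → ℝ), ∃ C : ℝ, 0 < C ∧ ∀ (ε : ℝ) (G : ℝ → ℝ) (R : ℝ),
  0 < ε → ε ≤ 1 → Nice ε G R →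
    |(∫ v, G v * (jB x y v - J x y)) + (m + 1) * J x y| ≤ C * ε

/-- JFU: the predicted limits as integrals over the first variable; the density is continuous,
nonnegative and bounded. -/
def S_JFU : Prop := ∀ (m : ℕ) (x y : Fin m → ℝ),
  (∀ a b : ℝ, a ≤ b → J (Fin.cons a x : Fin (m + 1) → ℝ) (Fin.cons b y) = ∫ v in a..b, jB x y v) ∧
  Continuous (jB x y) ∧ (∀ v, 0 ≤ jB x y v) ∧ (∃ C : ℝ, ∀ v, jB x y v ≤ C) ∧ 0 ≤ J x y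

/-- CELU: upper bound of the weighted sum by a step majorant. -/
def S_CELU : Prop := ∀ (m : ℕ) (x y : Fin m → ℝ) (T : ℝ) (G : ℝ → ℝ) (K : ℕ) (a b s : Fin K → ℝ),
  0 ≤ T → (∀ v, 0 ≤ G v) → (∀ v, G v ≤ 1) → (∀ k, 0 ≤ s k) →
  (∀ v, G v ≤ ∑ k, s k * (Icc (a k) (b k)).indicator (fun _ => (1 : ℝ)) v) →
  ∑ n ∈ Finset.Icc 1 (NZ T), (tup T x y n : ℝ) * ∑ l ∈ Finset.Icc 1 (NZ T), G (ps T n l) ≤
    ∑ k, s k * ∑ n ∈ Finset.Icc 1 (NZ T),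
      (tup T (Fin.cons (a k) x : Fin (m + 1) → ℝ) (Fin.cons (b k) y) n : ℝ) +
    (m + 1) * ∑ n ∈ Finset.Icc 1 (NZ T), (tup T x y n : ℝ)

/-- CELL: lower bound of the weighted sum by a step minorant. -/
def S_CELL : Prop := ∀ (m : ℕ) (x y : Fin m → ℝ) (T δ r : ℝ) (G : ℝ → ℝ) (K : ℕ) (a b s : Fin K → ℝ),
  0 ≤ T → (∀ v, 0 ≤ G v) → (∀ v, |v| ≤ r → 1 - δ ≤ G v) → 0 ≤ r → (∀ i, -r ≤ x i) →
  (∀ i, y i ≤ r) → δ ≤ 1 → (∀ k, 0 ≤ s k) →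
  (∀ v, ∑ k, s k * (Icc (a k) (b k)).indicator (fun _ => (1 : ℝ)) v ≤ G v) →
  ∑ k, s k * ∑ n ∈ Finset.Icc 1 (NZ T),
      (tup T (Fin.cons (a k) x : Fin (m + 1) → ℝ) (Fin.cons (b k) y) n : ℝ) +
    (1 - δ) * (m + 1) * ∑ n ∈ Finset.Icc 1 (NZ T), (tup T x y n : ℝ) ≤
  ∑ n ∈ Finset.Icc 1 (NZ T), (tup T x y n : ℝ) * ∑ l ∈ Finset.Icc 1 (NZ T), G (ps T n l)

/-- FINU (inputs Z, SIN, JFU, CELU, CNT). -/
def S_FINU : Prop := RiemannHypothesis → ∀ m : ℕ, Level m → LevelUpper (m + 1) → Level (m + 1)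

/-- FINL (inputs Z, SIN, JFU, CELL, CNT). -/
def S_FINL : Prop := RiemannHypothesis → ∀ m : ℕ, Level m → LevelLower (m + 1) → Level (m + 1)

/-- LEV0: the first level. -/
def S_LEV0 : Prop := Level 0

end

end Pool.Agent.J4.H44.RG
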