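import Pool.Agent.J4.H44.RG.Defs

/-! # Project HC, local version: small boxes suffice, and for the lower bounds boxes off the diagonals -/

set_option autoImplicit false
set_option linter.all false

open Filter Topology MeasureTheory Set

namespace Pool.Agent.J4.H44.RG

/-- the box does not meet the diagonals `u_i = 0`, `u_i = u_j` -/
def OffDiag {m : ℕ} (x y : Fin m → ℝ) : Prop :=
  (∀ i, (0 : ℝ) ∉ Set.Icc (x i) (y i)) ∧
    ∀ i j, i ≠ j → Disjoint (Set.Icc (x i) (y i)) (Set.Icc (x j) (y j))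

/-- upper bounds for all boxes with sides at most `δ` -/
def LocUpper (m : ℕ) (δ : ℝ) : Prop :=
  ∀ x y : Fin m → ℝ, (∀ i, x i ≤ y i ∧ y i ≤ x i + δ) →
    ∀ ε : ℝ, 0 < ε → ∀ᶠ T : ℝ in atTop, ratio T x y ≤ J x y + ε

/-- lower bounds for all boxes with sides at most `δ` off the diagonals -/
def LocLower (m : ℕ) (δ : ℝ) : Prop :=
  ∀ x y : Fin m → ℝ, (∀ i, x i ≤ y i ∧ y i ≤ x i + δ) → OffDiag x y →
    ∀ ε : ℝ, 0 < ε → ∀ᶠ T : ℝ in atTop, J x y - ε ≤ ratio T x y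

/-- JSP: `J` is additive. -/
def S_JSP : Prop := ∀ (m : ℕ) (x y : Fin m → ℝ) (i : Fin m) (c : ℝ), (∀ i, x i ≤ y i) →
  x i ≤ c → c ≤ y i → J x y = J x (Function.update y i c) + J (Function.update x i c) y

/-- NSP: `N` is subadditive. -/
def S_NSP : Prop := ∀ (m : ℕ) (T : ℝ) (x y : Fin m → ℝ) (i : Fin m) (c : ℝ), 2 ≤ T →
  x i ≤ c → c ≤ y i → N T x y ≤ N T x (Function.update y i c) + N T (Function.update x i c) y

/-- UPL (inputs JSP, NSP): by induction on `∑ i, ⌈(y i - x i) / δ⌉₊`: if a side is `> δ`, cut it at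
`x i + δ`. -/
def S_UPL : Prop := ∀ (m : ℕ) (δ : ℝ), 0 < δ → LocUpper m δ → LevelUpper m

/-- DEC (pure analysis): boxes contain finitely many disjoint small boxes off the diagonals with almost
the same integral.  Proof: cells `I_c = [(c+θ)/n, (c+1-θ)/n]`, `c ∈ ℤ`, `|c| ≤ M`; boxes with the sides
`[x i, y i] ∩ I_(c i)` for the injective `c : Fin m → Finset.Icc (-M) M` (only the nonempty ones).
First `n ≥ 1/δ` large: the set where `|u i - u j| ≤ 1/n` for some `i ≠ j` has small measure (continuity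
from above: the diagonal is a null set); then `θ` small: the set where some `n u i` has distance `< θ`
to `ℤ` has small measure.  `det A` is continuous, so bounded on the box. -/
def S_DEC : Prop := ∀ (m : ℕ) (δ ε : ℝ) (x y : Fin m → ℝ), 0 < δ → 0 < ε → (∀ i, x i ≤ y i) →
  ∃ (K : ℕ) (a b : Fin K → Fin m → ℝ), (∀ k i, x i ≤ a k i ∧ a k i ≤ b k i ∧ b k i ≤ y i ∧
      b k i ≤ a k i + δ) ∧ (∀ k, OffDiag (a k) (b k)) ∧
    (∀ k l, k ≠ l → Disjoint (Set.Icc (a k) (b k)) (Set.Icc (a l) (b l))) ∧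
    J x y - ε ≤ ∑ k, J (a k) (b k)

/-- SUP: `N` is superadditive. -/
def S_SUP : Prop := ∀ (m : ℕ) (T : ℝ) (x y : Fin m → ℝ) (K : ℕ) (a b : Fin K → Fin m → ℝ), 2 ≤ T →
  (∀ k i, x i ≤ a k i ∧ b k i ≤ y i) →
  (∀ k l, k ≠ l → Disjoint (Set.Icc (a k) (b k)) (Set.Icc (a l) (b l))) →
  ∑ k, N T (a k) (b k) ≤ N T x y

/-- LOL (inputs DEC, SUP) -/
def S_LOL : Prop := ∀ (m : ℕ) (δ : ℝ), 0 < δ → LocLower m δ → LevelLower m

end Pool.Agent.J4.H44.RG
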