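import Pool.Agent.J4.H44.RG.Defs
import Pool.Agent.TH850.UR.Comp

/-! # Project HC, piece L1: the mean error of the smooth statistic -/

set_option autoImplicit false
set_option linter.all false

open Filter Topology MeasureTheory Set

namespace Pool.Agent.J4.H44.RG

namespace L1

/-- the nontrivial zeros with ordinate in `(0,t]` -/
def ZS (t : ℝ) : Set ℂ :=
  {s : ℂ | riemannZeta s = 0 ∧ 0 < s.re ∧ s.re < 1 ∧ 0 < s.im ∧ s.im ≤ t}

theorem ZS_finite (t : ℝ) : (ZS t).Finite := by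
  have hcomp : IsCompact (Icc (0 : ℝ) 1 ×ℂ Icc 0 t) := isCompact_Icc.reProdIm isCompact_Icc
  refine hcomp.inter_riemannZetaZeros_finite.subset ?_
  rintro s ⟨h0, h1, h2, h3, h4⟩
  exact ⟨⟨⟨h1.le, h2.le⟩, ⟨h3.le, h4⟩⟩, h0⟩

theorem NZ_eq (t : ℝ) : NZ t = ∑ s ∈ (ZS_finite t).toFinset, zmult s :=
  finsum_mem_eq_finite_toFinset_sum _ (ZS_finite t)

/-- the number of the indices with `γ l ≤ t` -/
lemma card_le (hNZ : S_NZ) {t T : ℝ} (ht : 0 ≤ t) (htT : t ≤ T) :
    ((Finset.Icc 1 (NZ T)).filter (fun l => γ l ≤ t)).card = NZ t := by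
  obtain ⟨_, _, hmono, hiff, _, _⟩ := hNZ
  have : (Finset.Icc 1 (NZ T)).filter (fun l => γ l ≤ t) = Finset.Icc 1 (NZ t) := by
    ext l
    simp only [Finset.mem_filter, Finset.mem_Icc]
    constructor
    · rintro ⟨⟨h1, h2⟩, h3⟩
      exact ⟨h1, (hiff l h1 t ht).1 h3⟩
    · rintro ⟨h1, h2⟩
      exact ⟨⟨h1, h2.trans (hmono htT)⟩, (hiff l h1 t ht).2 h2⟩
  rw [this, Nat.card_Icc, Nat.add_sub_cancel]

lemma sum_le {t T : ℝ} (htT : t ≤ T) :
    ∑ s ∈ (ZS_finite T).toFinset.filter (fun s => s.im ≤ t), zmult s = NZ t := by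
  rw [NZ_eq]
  apply Finset.sum_congr _ (fun _ _ => rfl)
  ext s
  simp only [Finset.mem_filter, Set.Finite.mem_toFinset]
  constructor
  · rintro ⟨⟨h1, h2, h3, h4, h5⟩, h6⟩
    exact ⟨h1, h2, h3, h4, h6⟩
  · rintro ⟨h1, h2, h3, h4, h5⟩
    exact ⟨⟨h1, h2, h3, h4, h5.trans htT⟩, h5⟩

/-- the number of the indices with `γ l = u` is the multiplicity of the ordinate `u` -/
lemma fib (hNZ : S_NZ) {u T : ℝ} (hu : 0 < u) (huT : u ≤ T) :
    ((Finset.Icc 1 (NZ T)).filter (fun l => γ l = u)).card =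
      ∑ s ∈ (ZS_finite T).toFinset.filter (fun s => s.im = u), zmult s := by
  classical
  obtain ⟨t', ht0, htu, h1, h2⟩ : ∃ t' : ℝ, 0 ≤ t' ∧ t' < u ∧
      (∀ l ∈ Finset.Icc 1 (NZ T), γ l < u → γ l ≤ t') ∧
      (∀ s ∈ (ZS_finite T).toFinset, s.im < u → s.im ≤ t') := by
    let F : Finset ℝ := insert 0 (((Finset.Icc 1 (NZ T)).image γ).filter (· < u) ∪
      ((ZS_finite T).toFinset.image (fun s => s.im)).filter (· < u))
    have h0 : (0 : ℝ) ∈ F := Finset.mem_insert_self _ _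
    have hF : F.Nonempty := ⟨0, h0⟩
    refine ⟨F.max' hF, F.le_max' 0 h0, ?_, ?_, ?_⟩
    · rw [Finset.max'_lt_iff]
      intro y hy
      rcases Finset.mem_insert.1 hy with h | h
      · rw [h]; exact hu
      · rcases Finset.mem_union.1 h with h | h
        · exact (Finset.mem_filter.1 h).2
        · exact (Finset.mem_filter.1 h).2
    · intro l hl hlu
      apply F.le_max'
      exact Finset.mem_insert_of_mem (Finset.mem_union_left _
        (Finset.mem_filter.2 ⟨Finset.mem_image_of_mem _ hl, hlu⟩))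
    · intro s hs hsu
      apply F.le_max'
      exact Finset.mem_insert_of_mem (Finset.mem_union_right _
        (Finset.mem_filter.2 ⟨Finset.mem_image.2 ⟨s, hs, rfl⟩, hsu⟩))
  have a1 := card_le hNZ hu.le huT
  have a2 := card_le hNZ ht0 (htu.le.trans huT)
  have b1 := sum_le huT
  have b2 := sum_le (htu.le.trans huT)
  have e1 : (Finset.Icc 1 (NZ T)).filter (fun l => γ l ≤ u) =
      (Finset.Icc 1 (NZ T)).filter (fun l => γ l ≤ t') ∪
        (Finset.Icc 1 (NZ T)).filter (fun l => γ l = u) := by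
    ext l
    simp only [Finset.mem_filter, Finset.mem_union]
    constructor
    · rintro ⟨hl, hlu⟩
      rcases lt_or_eq_of_le hlu with h | h
      · exact Or.inl ⟨hl, h1 l hl h⟩
      · exact Or.inr ⟨hl, h⟩
    · rintro (⟨hl, h⟩ | ⟨hl, h⟩)
      · exact ⟨hl, h.trans htu.le⟩
      · exact ⟨hl, h.le⟩
  have d1 : Disjoint ((Finset.Icc 1 (NZ T)).filter (fun l => γ l ≤ t'))
      ((Finset.Icc 1 (NZ T)).filter (fun l => γ l = u)) := by
    rw [Finset.disjoint_left]
    intro l hl hl'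
    have := (Finset.mem_filter.1 hl).2
    have h' := (Finset.mem_filter.1 hl').2
    linarith
  have e2 : (ZS_finite T).toFinset.filter (fun s => s.im ≤ u) =
      (ZS_finite T).toFinset.filter (fun s => s.im ≤ t') ∪
        (ZS_finite T).toFinset.filter (fun s => s.im = u) := by
    ext l
    simp only [Finset.mem_filter, Finset.mem_union]
    constructor
    · rintro ⟨hl, hlu⟩
      rcases lt_or_eq_of_le hlu with h | h
      · exact Or.inl ⟨hl, h2 l hl h⟩
      · exact Or.inr ⟨hl, h⟩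
    · rintro (⟨hl, h⟩ | ⟨hl, h⟩)
      · exact ⟨hl, h.trans htu.le⟩
      · exact ⟨hl, h.le⟩
  have d2 : Disjoint ((ZS_finite T).toFinset.filter (fun s => s.im ≤ t'))
      ((ZS_finite T).toFinset.filter (fun s => s.im = u)) := by
    rw [Finset.disjoint_left]
    intro l hl hl'
    have := (Finset.mem_filter.1 hl).2
    have h' := (Finset.mem_filter.1 hl').2
    linarith
  rw [e1, Finset.card_union_of_disjoint d1, a2] at a1
  rw [e2, Finset.sum_union d2, b2] at b1
  omega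

/-- sums over the indices are sums over the zeros -/
lemma sum_γ (hNZ : S_NZ) {T : ℝ} (hT : 0 ≤ T) (f : ℝ → ℝ) :
    ∑ l ∈ Finset.Icc 1 (NZ T), f (γ l) =
      ∑ s ∈ (ZS_finite T).toFinset, (zmult s : ℝ) * f s.im := by
  classical
  set U : Finset ℝ := ((Finset.Icc 1 (NZ T)).image γ) ∪
    ((ZS_finite T).toFinset.image (fun s => s.im)) with hU
  have e1 : ∑ l ∈ Finset.Icc 1 (NZ T), f (γ l) =
      ∑ u ∈ U, (((Finset.Icc 1 (NZ T)).filter (fun l => γ l = u)).card : ℝ) * f u := by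
    rw [← Finset.sum_fiberwise_of_maps_to (g := γ) (t := U)
      (fun l hl => Finset.mem_union_left _ (Finset.mem_image_of_mem _ hl))]
    refine Finset.sum_congr rfl fun u _ => ?_
    rw [Finset.sum_congr rfl (g := fun _ => f u)
      (by intro l hl; rw [(Finset.mem_filter.1 hl).2]), Finset.sum_const, nsmul_eq_mul]
  have e2 : ∑ s ∈ (ZS_finite T).toFinset, (zmult s : ℝ) * f s.im =
      ∑ u ∈ U, ((∑ s ∈ (ZS_finite T).toFinset.filter (fun s => s.im = u), zmult s : ℕ) : ℝ) *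
        f u := by
    rw [← Finset.sum_fiberwise_of_maps_to (g := fun s : ℂ => s.im) (t := U)
      (fun s hs => Finset.mem_union_right _ (Finset.mem_image.2 ⟨s, hs, rfl⟩))]
    refine Finset.sum_congr rfl fun u _ => ?_
    rw [Nat.cast_sum, Finset.sum_mul]
    refine Finset.sum_congr rfl fun s hs => ?_
    rw [(Finset.mem_filter.1 hs).2]
  rw [e1, e2]
  refine Finset.sum_congr rfl fun u hu => ?_
  have hu' : 0 < u ∧ u ≤ T := by
    rcases Finset.mem_union.1 hu with h | h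
    · obtain ⟨l, hl, rfl⟩ := Finset.mem_image.1 h
      obtain ⟨_, _, _, hiff, _, hpos⟩ := hNZ
      rw [Finset.mem_Icc] at hl
      exact ⟨hpos l hl.1, (hiff l hl.1 T hT).2 hl.2⟩
    · obtain ⟨s, hs, rfl⟩ := Finset.mem_image.1 h
      rw [Set.Finite.mem_toFinset] at hs
      exact ⟨hs.2.2.2.1, hs.2.2.2.2⟩
  rw [fib hNZ hu'.1 hu'.2]

lemma fej_real (x : ℝ) :
    Pool.Agent.TH850.UR.fej (x : ℂ) = ((Real.sinc x ^ 2 : ℝ) : ℂ) := by
  unfold Pool.Agent.TH850.UR.fej
  by_cases hx : x = 0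
  · simp [hx]
  · rw [if_neg (by exact_mod_cast hx), Real.sinc_of_ne_zero hx]
    push_cast
    rfl

lemma phi_real (q J : ℕ) (v : ℝ) :
    Pool.Agent.TH850.UR.phiC J ((v : ℂ) / 2 ^ q) =
      (((∑ j ∈ Finset.Icc 1 J, Real.sinc (Real.pi * v / 2 ^ (q + j)) ^ 2) / J : ℝ) : ℂ) := by
  unfold Pool.Agent.TH850.UR.phiC
  rw [Complex.ofReal_div, Complex.ofReal_sum, Complex.ofReal_natCast]
  congr 1
  refine Finset.sum_congr rfl fun j _ => ?_
  rw [← fej_real]
  congr 1
  push_cast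
  rw [pow_add]
  field_simp

lemma half_of (hRH : RiemannHypothesis) {s : ℂ} (hz : riemannZeta s = 0) (h0 : 0 < s.re)
    (h1 : s.re < 1) : s.re = 1 / 2 := by
  apply hRH s hz
  · rintro ⟨n, hn⟩
    rw [hn] at h0
    simp at h0
    have : (0 : ℝ) ≤ n := Nat.cast_nonneg n
    linarith
  · intro h
    rw [h] at h1
    simp at h1

lemma Z_real (T t : ℝ) {s : ℂ} (hs : s.re = 1 / 2) :
    Pool.Agent.TH850.UR.Z T t s = (((s.im - t) * sc T : ℝ) : ℂ) := by
  unfold Pool.Agent.TH850.UR.Z sc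
  have : H370.zz s = (s.im : ℂ) := by
    apply Complex.ext
    · rw [H370.zz_re, Complex.ofReal_re]
    · rw [H370.zz_im, Complex.ofReal_im, hs]; norm_num
  rw [this]
  push_cast
  ring

lemma X_eq (T t : ℝ) (s : ℂ) : Pool.Agent.TH850.UR.X T t s = (s.im - t) * sc T := by
  unfold Pool.Agent.TH850.UR.X sc
  ring

end L1

open L1 in
theorem t_L1 (hNZ : S_NZ) : S_L1 := by
  classical
  intro hRH
  obtain ⟨C, hC, q, h⟩ := Pool.Agent.TH850.UR.main
  refine ⟨q, C, hC, fun J hJ => ?_⟩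
  obtain ⟨T0, hT0, hT⟩ := h 0 le_rfl J hJ
  obtain ⟨T1, hT1⟩ := (Real.tendsto_log_atTop.eventually_ge_atTop
    (2 * Real.pi * (2 ^ q * 4 ^ J))).exists_forall_of_atTop
  refine ⟨max T0 T1, fun T hT' => ?_⟩
  have k0 : T0 ≤ T := (le_max_left _ _).trans hT'
  have k1 : T1 ≤ T := (le_max_right _ _).trans hT'
  obtain ⟨-, h2⟩ := hT T k0
  have hT10 : 10 ≤ T := hT0.trans k0
  have hl := hT1 T k1
  have hpi := Real.pi_pos
  have hV : (2 : ℝ) ^ q * 4 ^ J ≤ sc T := by
    unfold sc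
    rw [le_div_iff₀ (by positivity)]
    linarith
  have hV0 : (0 : ℝ) < 2 ^ q * 4 ^ J := by positivity
  have hsc : 0 < sc T := hV0.trans_le hV
  -- the zeros of the window
  have hwin : ∀ t ∈ Icc T (2 * T), ∀ s : ℂ, |(s.im - t) * sc T| ≤ 2 ^ q * 4 ^ J →
      0 < s.im ∧ s.im ≤ 4 * T := by
    intro t ht s hs
    rw [abs_mul, abs_of_pos hsc] at hs
    have h3 : |s.im - t| ≤ 1 := by
      by_contra hcon
      push Not at hcon
      have : sc T < |s.im - t| * sc T := by nlinarith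
      linarith
    have h4 := abs_le.1 h3
    have h5 := ht.1
    have h6 := ht.2
    constructor <;> linarith
  have hae : ∀ t ∈ Icc T (2 * T), (∀ s ∈ (ZS_finite (4 * T)).toFinset, s.im ≠ t) →
      |2 ^ q * cc J - ∑ l ∈ Finset.Icc 1 (NZ (4 * T)), gJ q J ((γ l - t) * sc T)| =
        |(Pool.Agent.TH850.UR.count T 0 t : ℝ) - Pool.Agent.TH850.UR.guess q J T 0 t| := by
    intro t ht hno
    have c0 : Pool.Agent.TH850.UR.count T 0 t = 0 := by
      unfold Pool.Agent.TH850.UR.count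
      have : {s : ℂ | s ∈ Pool.Agent.TH850.UR.zeros ∧ |Pool.Agent.TH850.UR.X T t s| ≤ 0} = ∅ := by
        rw [Set.eq_empty_iff_forall_notMem]
        rintro s ⟨⟨hz, hr0, hr1⟩, hs⟩
        rw [X_eq] at hs
        have hw := hwin t ht s (hs.trans hV0.le)
        have h3 : (s.im - t) * sc T = 0 := abs_eq_zero.1 (le_antisymm hs (abs_nonneg _))
        have h4 : s.im - t = 0 := by
          rcases mul_eq_zero.1 h3 with h | h
          · exact h
          · exact absurd h hsc.ne'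
        refine hno s ?_ (by linarith)
        rw [Set.Finite.mem_toFinset]
        exact ⟨hz, hr0, hr1, hw.1, hw.2⟩
      rw [this, finsum_mem_empty]
    have c1 : (Pool.Agent.TH850.UR.outer q J T 0 t).re =
        ∑ l ∈ Finset.Icc 1 (NZ (4 * T)), gJ q J ((γ l - t) * sc T) := by
      rw [sum_γ hNZ (by linarith) (fun u => gJ q J ((u - t) * sc T))]
      unfold Pool.Agent.TH850.UR.outer
      have hset : {s : ℂ | s ∈ Pool.Agent.TH850.UR.zeros ∧ 0 < |Pool.Agent.TH850.UR.X T t s| ∧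
          |Pool.Agent.TH850.UR.X T t s| ≤ 2 ^ q * 4 ^ J} =
          ↑((ZS_finite (4 * T)).toFinset.filter
            (fun s => |(s.im - t) * sc T| ≤ 2 ^ q * 4 ^ J)) := by
        ext s
        simp only [Finset.coe_filter, Set.Finite.mem_toFinset, mem_setOf_eq, X_eq]
        constructor
        · rintro ⟨⟨hz, hr0, hr1⟩, _, hs⟩
          have hw := hwin t ht s hs
          exact ⟨⟨hz, hr0, hr1, hw.1, hw.2⟩, hs⟩
        · rintro ⟨hs1, hs⟩
          refine ⟨⟨hs1.1, hs1.2.1, hs1.2.2.1⟩, ?_, hs⟩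
          rw [abs_pos]
          have h3 : s.im - t ≠ 0 := sub_ne_zero.2 (hno s (by
            rw [Set.Finite.mem_toFinset]; exact hs1))
          exact mul_ne_zero h3 hsc.ne'
      rw [hset, finsum_mem_coe_finset, Finset.sum_filter, Complex.re_sum]
      refine Finset.sum_congr rfl fun s hs => ?_
      rw [Set.Finite.mem_toFinset] at hs
      have hh := half_of hRH hs.1 hs.2.1 hs.2.2.1
      unfold gJ
      split_ifs with h5
      · rw [Z_real T t hh, phi_real, ← Complex.ofReal_natCast, ← Complex.ofReal_mul,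
          Complex.ofReal_re]
        rfl
      · simp
    unfold Pool.Agent.TH850.UR.guess
    rw [c0, c1, Nat.cast_zero, zero_sub, abs_neg]
    rfl
  refine le_trans (le_of_eq ?_) (h2.trans_eq ?_)
  · apply intervalIntegral.integral_congr_ae
    have hfin : volume (↑((ZS_finite (4 * T)).toFinset.image (fun s => s.im)) : Set ℝ) = 0 :=
      (Finset.finite_toSet _).measure_zero _
    filter_upwards [measure_eq_zero_iff_ae_notMem.1 hfin] with t ht htI
    rw [uIoc_of_le (by linarith)] at htI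
    apply hae t ⟨htI.1.le, htI.2⟩
    intro s hs he
    exact ht (Finset.mem_coe.2 (Finset.mem_image.2 ⟨s, hs, he⟩))
  · rw [zero_pow (by norm_num), zero_div, add_zero]
    ring

end Pool.Agent.J4.H44.RG
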