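import Pool.Agent.J4.H44.RG.Defs

set_option autoImplicit false
set_option linter.all false

open Filter Topology MeasureTheory Set

namespace Pool.Agent.J4.H44.RG
namespace L2

noncomputable section

def F (x : ℝ) : ℝ := Real.sinc x ^ 2
def dF (x : ℝ) : ℝ := 2 * Real.sinc x * ((Real.cos x - Real.sinc x) / x)

lemma F_nonneg (x : ℝ) : 0 ≤ F x := sq_nonneg _
lemma F_le_one (x : ℝ) : F x ≤ 1 := by
  unfold F
  have := Real.abs_sinc_le_one x
  exact (sq_le_one_iff_abs_le_one _).2 this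
lemma F_cont : Continuous F := Real.continuous_sinc.pow 2
lemma F_neg (x : ℝ) : F (-x) = F x := by unfold F; rw [Real.sinc_neg]
lemma F_abs (x : ℝ) : F |x| = F x := by
  rcases abs_choice x with h | h
  · rw [h]
  · rw [h, F_neg]

lemma sinc_abs_le {x : ℝ} (hx : 0 < x) : |Real.sinc x| ≤ 1 / x := by
  rw [Real.sinc_of_ne_zero hx.ne', abs_div, abs_of_pos hx]
  exact div_le_div_of_nonneg_right (Real.abs_sin_le_one x) hx.le

lemma F_le {x : ℝ} (hx : 0 < x) : F x ≤ 1 / x ^ 2 := by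
  unfold F
  have := sinc_abs_le hx
  rw [← sq_abs]
  calc |Real.sinc x| ^ 2 ≤ (1 / x) ^ 2 := pow_le_pow_left₀ (abs_nonneg _) this 2
    _ = 1 / x ^ 2 := by rw [div_pow, one_pow]

lemma dF_meas : Measurable dF := by
  unfold dF
  have := Real.continuous_sinc.measurable
  fun_prop

lemma hasDerivAt_F {x : ℝ} (hx : 0 < x) : HasDerivAt F (dF x) x := by
  have h1 : HasDerivAt (fun y : ℝ => Real.sin y / y) ((Real.cos x * x - Real.sin x * 1) / x ^ 2) x :=
    (Real.hasDerivAt_sin x).div (hasDerivAt_id x) hx.ne'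
  have h2 : Real.sinc =ᶠ[𝓝 x] fun y => Real.sin y / y := by
    filter_upwards [lt_mem_nhds hx] with y hy
    exact Real.sinc_of_ne_zero hy.ne'
  have h3 := (h1.congr_of_eventuallyEq h2).pow 2
  have e : Real.sinc x = Real.sin x / x := Real.sinc_of_ne_zero hx.ne'
  refine h3.congr_deriv ?_
  unfold dF
  rw [e]
  have hx0 : x ≠ 0 := hx.ne'
  simp only [Nat.cast_ofNat, Nat.add_one_sub_one, pow_one, mul_one, Nat.reduceSub]
  field_simp

lemma dF_bound {x : ℝ} (hx : 0 < x) : |dF x| ≤ 16 / (1 + x) ^ 2 := by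
  have h0 := sinc_abs_le hx
  have e : |dF x| ≤ 2 / x ^ 2 * |Real.cos x - Real.sinc x| := by
    unfold dF
    rw [abs_mul, abs_mul, abs_div, abs_of_pos hx, abs_of_pos (by norm_num : (0:ℝ) < 2)]
    have h1 : 0 ≤ |Real.cos x - Real.sinc x| / x := by positivity
    calc 2 * |Real.sinc x| * (|Real.cos x - Real.sinc x| / x)
        ≤ 2 * (1 / x) * (|Real.cos x - Real.sinc x| / x) := by gcongr
      _ = 2 / x ^ 2 * |Real.cos x - Real.sinc x| := by field_simp
  rcases le_or_gt x 1 with hx1 | hx1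
  · have h1 : |Real.cos x - Real.sinc x| ≤ x ^ 2 / 2 := by
      rw [abs_le]
      constructor
      · have := Real.one_sub_sq_div_two_le_cos (x := x)
        have := Real.sinc_le_one x
        linarith
      · have h2 := Real.sin_gt_sub_cube hx
        have h3 : Real.sinc x * x = Real.sin x := by
          rw [Real.sinc_of_ne_zero hx.ne']; field_simp
        have h4 := Real.cos_le_one x
        have h5 : 1 - x ^ 2 / 6 ≤ Real.sinc x := by
          by_contra h
          push Not at h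
          nlinarith
        nlinarith [sq_nonneg x]
    have h2 : |dF x| ≤ 1 := by
      refine e.trans ?_
      calc 2 / x ^ 2 * |Real.cos x - Real.sinc x| ≤ 2 / x ^ 2 * (x ^ 2 / 2) := by gcongr
        _ = 1 := by field_simp
    refine h2.trans ?_
    rw [le_div_iff₀ (by positivity)]
    nlinarith
  · have h1 : |Real.cos x - Real.sinc x| ≤ 2 := by
      have := abs_sub (Real.cos x) (Real.sinc x)
      have h2 := Real.abs_cos_le_one x
      have h3 := Real.abs_sinc_le_one x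
      linarith
    have h2 : |dF x| ≤ 4 / x ^ 2 := by
      refine e.trans ?_
      calc 2 / x ^ 2 * |Real.cos x - Real.sinc x| ≤ 2 / x ^ 2 * 2 := by gcongr
        _ = 4 / x ^ 2 := by ring
    refine h2.trans ?_
    rw [div_le_div_iff₀ (by positivity) (by positivity)]
    nlinarith

lemma ii {a b : ℝ} (hab : a ≤ b) {g : ℝ → ℝ} (hg : Measurable g) (M : ℝ)
    (hb : ∀ u ∈ Ioc a b, |g u| ≤ M) : IntervalIntegrable g volume a b := by
  rw [intervalIntegrable_iff_integrableOn_Ioc_of_le hab]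
  refine Measure.integrableOn_of_bounded (M := M) measure_Ioc_lt_top.ne hg.aestronglyMeasurable ?_
  exact (ae_restrict_iff' measurableSet_Ioc).2 (Eventually.of_forall fun u hu => by simpa using hb u hu)

/-- Cauchy–Schwarz with a weight -/
lemma cs {a b : ℝ} (hab : a ≤ b) (w g : ℝ → ℝ) (hw : ∀ x ∈ Icc a b, 0 ≤ w x)
    (iw : IntervalIntegrable w volume a b) (ig : IntervalIntegrable (fun x => w x * g x) volume a b)
    (ig2 : IntervalIntegrable (fun x => w x * g x ^ 2) volume a b) {K : ℝ} (hK0 : 0 < K)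
    (hK : ∫ x in a..b, w x ≤ K) :
    (∫ x in a..b, w x * g x) ^ 2 ≤ K * ∫ x in a..b, w x * g x ^ 2 := by
  set M := ∫ x in a..b, w x * g x with hM
  have h0 : 0 ≤ ∫ x in a..b, w x * (K * g x - M) ^ 2 := by
    apply intervalIntegral.integral_nonneg hab
    intro u hu
    exact mul_nonneg (hw u hu) (sq_nonneg _)
  have h1 : ∫ x in a..b, w x * (K * g x - M) ^ 2 =
      K ^ 2 * (∫ x in a..b, w x * g x ^ 2) - 2 * K * M * M + M ^ 2 * ∫ x in a..b, w x := by
    have e : ∀ x, w x * (K * g x - M) ^ 2 =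
        (K ^ 2 * (w x * g x ^ 2) - 2 * K * M * (w x * g x)) + M ^ 2 * w x := by
      intro x; ring
    simp_rw [e]
    rw [intervalIntegral.integral_add ((ig2.const_mul _).sub (ig.const_mul _)) (iw.const_mul _),
      intervalIntegral.integral_sub (ig2.const_mul _) (ig.const_mul _),
      intervalIntegral.integral_const_mul, intervalIntegral.integral_const_mul,
      intervalIntegral.integral_const_mul, ← hM]
  rw [h1] at h0
  have h2 : M ^ 2 * ∫ x in a..b, w x ≤ M ^ 2 * K := by gcongr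
  have h3 : K * M ^ 2 ≤ K * (K * ∫ x in a..b, w x * g x ^ 2) := by nlinarith
  exact le_of_mul_le_mul_left h3 hK0

/-- tails of the normalized integral -/
lemma tail (hR : S_REP) {W : ℝ} (hW : 0 < W) :
    1 - 1 / W ≤ 2 * ∫ v in (0:ℝ)..W, F (Real.pi * v) ∧ 2 * ∫ v in (0:ℝ)..W, F (Real.pi * v) ≤ 1 := by
  obtain ⟨hi, he⟩ := hR 0 0
  have e1 : (fun v : ℝ => Real.sinc (Real.pi * (v - 0)) * Real.sinc (Real.pi * (v - 0))) =
      fun v => F (Real.pi * |v|) := by
    ext v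
    rw [sub_zero, ← F_abs, abs_mul, abs_of_pos Real.pi_pos, abs_abs, ← abs_of_pos Real.pi_pos,
      ← abs_mul, F_abs, abs_of_pos Real.pi_pos]
    unfold F; ring
  rw [e1] at hi he
  rw [sub_zero, mul_zero, Real.sinc_zero, integral_comp_abs (f := fun v => F (Real.pi * v))] at he
  have hi' : IntegrableOn (fun v => F (Real.pi * v)) (Ioi 0) := by
    refine (hi.integrableOn (s := Ioi 0)).congr_fun ?_ measurableSet_Ioi
    intro v hv
    simp only [abs_of_pos (mem_Ioi.1 hv)]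
  have hW' : IntegrableOn (fun v => F (Real.pi * v)) (Ioi W) :=
    hi'.mono_set (Ioi_subset_Ioi hW.le)
  have h3 := intervalIntegral.integral_interval_add_Ioi hi' hW'
  have h4 : 0 ≤ ∫ v in Ioi W, F (Real.pi * v) :=
    setIntegral_nonneg measurableSet_Ioi (fun v _ => F_nonneg _)
  have h5 : ∫ v in Ioi W, F (Real.pi * v) ≤ 1 / (2 * W) := by
    have h6 : IntegrableOn (fun v : ℝ => (1 / 2) * v ^ (-2 : ℝ)) (Ioi W) :=
      (integrableOn_Ioi_rpow_of_lt (by norm_num) hW).const_mul _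
    calc ∫ v in Ioi W, F (Real.pi * v) ≤ ∫ v in Ioi W, (1 / 2) * v ^ (-2 : ℝ) := by
          apply setIntegral_mono_on hW' h6 measurableSet_Ioi
          intro v hv
          have hv0 : 0 < v := hW.trans hv
          refine (F_le (by positivity)).trans ?_
          rw [Real.rpow_neg hv0.le, Real.rpow_two, mul_pow]
          rw [one_div, mul_inv, one_div]
          have : (Real.pi ^ 2)⁻¹ ≤ (2:ℝ)⁻¹ := by
            apply inv_anti₀ (by norm_num)
            nlinarith [Real.pi_gt_three]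
          gcongr
      _ = 1 / (2 * W) := by
          rw [integral_const_mul, integral_Ioi_rpow_of_lt (by norm_num) hW]
          have : (-2 : ℝ) + 1 = -1 := by norm_num
          rw [this, Real.rpow_neg_one]
          field_simp
  have h7 : 2 * (1 / (2 * W)) = 1 / W := by field_simp
  constructor
  · rw [← h3] at he
    nlinarith
  · rw [← h3] at he
    linarith

def f (a u : ℝ) : ℝ := F (Real.pi * u / a)
def f' (a u : ℝ) : ℝ := dF (Real.pi * u / a) * (Real.pi / a)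
def w (a u : ℝ) : ℝ := 16 / (1 + Real.pi * u / a) ^ 2 * (Real.pi / a)
def G (V a y : ℝ) : ℝ := if |y| ≤ V then f a y else 0
def ind (y u : ℝ) : ℝ := if |y| ≤ u then 1 else 0

lemma f_cont (a : ℝ) : Continuous (f a) := by
  unfold f
  exact F_cont.comp (by fun_prop)

lemma f_abs {a : ℝ} (ha : 0 < a) (y : ℝ) : f a |y| = f a y := by
  unfold f
  rw [← F_abs (Real.pi * y / a), abs_div, abs_mul, abs_of_pos Real.pi_pos, abs_of_pos ha]

lemma f'_meas (a : ℝ) : Measurable (f' a) := by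
  unfold f'
  exact (dF_meas.comp (by fun_prop)).mul_const _

lemma f_deriv {a u : ℝ} (ha : 0 < a) (hu : 0 < u) : HasDerivAt (f a) (f' a u) u := by
  have h1 : HasDerivAt (fun u : ℝ => Real.pi * u / a) (Real.pi / a) u := by
    have := ((hasDerivAt_id u).const_mul Real.pi).div_const a
    simpa using this
  exact (hasDerivAt_F (x := Real.pi * u / a) (by positivity)).comp u h1

lemma f'_le {a u : ℝ} (ha : 0 < a) (hu : 0 ≤ u) : |f' a u| ≤ w a u := by
  rcases hu.eq_or_lt with h | h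
  · subst h
    have : f' a 0 = 0 := by
      unfold f' dF
      simp
    rw [this, abs_zero]
    unfold w
    positivity
  unfold f' w
  have hpa : 0 < Real.pi / a := by positivity
  rw [abs_mul, abs_of_pos hpa]
  exact mul_le_mul_of_nonneg_right (dF_bound (by positivity)) hpa.le

lemma w_nonneg {a u : ℝ} (ha : 0 < a) (hu : 0 ≤ u) : 0 ≤ w a u := by unfold w; positivity

lemma w_le {a u : ℝ} (ha : 0 < a) (hu : 0 ≤ u) : w a u ≤ 16 * (Real.pi / a) := by
  unfold w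
  have hpa : 0 < Real.pi / a := by positivity
  refine mul_le_mul_of_nonneg_right ?_ hpa.le
  have h0 : 0 ≤ Real.pi * u / a := by positivity
  rw [div_le_iff₀ (by positivity)]
  nlinarith

lemma w_meas (a : ℝ) : Measurable (w a) := by
  unfold w
  fun_prop

lemma w_ii {a V : ℝ} (ha : 0 < a) (hV : 0 ≤ V) : IntervalIntegrable (w a) volume 0 V :=
  ii hV (w_meas a) (16 * (Real.pi / a)) (fun u hu => by
    rw [abs_of_nonneg (w_nonneg ha hu.1.le)]; exact w_le ha hu.1.le)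

lemma w_int {a V : ℝ} (ha : 0 < a) (hV : 0 ≤ V) : ∫ u in (0:ℝ)..V, w a u ≤ 16 := by
  have h : ∀ x ∈ uIcc 0 V, HasDerivAt (fun u : ℝ => -(16 / (1 + Real.pi * u / a))) (w a x) x := by
    intro x hx
    rw [uIcc_of_le hV] at hx
    have hx0 := hx.1
    have h0 : 0 ≤ Real.pi * x / a := by positivity
    have h1 : HasDerivAt (fun u : ℝ => 1 + Real.pi * u / a) (Real.pi / a) x := by
      have := (((hasDerivAt_id x).const_mul Real.pi).div_const a).const_add 1
      simpa using this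
    have h2 := ((hasDerivAt_const x (16:ℝ)).div h1 (by positivity)).neg
    refine h2.congr_deriv ?_
    unfold w
    have : (1 + Real.pi * x / a) ≠ 0 := by positivity
    field_simp
    ring
  rw [intervalIntegral.integral_eq_sub_of_hasDerivAt h (w_ii ha hV)]
  have h3 : 0 ≤ 16 / (1 + Real.pi * V / a) := by positivity
  simp only [mul_zero, zero_div, add_zero, div_one]
  linarith

lemma ftc {a c V : ℝ} (ha : 0 < a) (hc : 0 ≤ c) (hcV : c ≤ V) :
    ∫ u in c..V, f' a u = f a V - f a c := by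
  refine intervalIntegral.integral_eq_sub_of_hasDerivAt_of_le hcV (f_cont a).continuousOn ?_ ?_
  · intro x hx; exact f_deriv ha (hc.trans_lt hx.1)
  · exact ii hcV (f'_meas a) (16 * (Real.pi / a))
      (fun u hu => (f'_le ha (hc.trans hu.1.le)).trans (w_le ha (hc.trans hu.1.le)))

lemma ind_meas (y : ℝ) : Measurable (ind y) := by
  unfold ind
  exact Measurable.ite (measurableSet_le measurable_const measurable_id) measurable_const measurable_const

lemma ind_nonneg (y u : ℝ) : 0 ≤ ind y u := by unfold ind; split_ifs <;> norm_num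
lemma ind_le (y u : ℝ) : ind y u ≤ 1 := by unfold ind; split_ifs <;> norm_num

lemma fi_ii {a b c : ℝ} (ha : 0 < a) (hb : 0 ≤ b) (hbc : b ≤ c) (y : ℝ) :
    IntervalIntegrable (fun u => f' a u * ind y u) volume b c :=
  ii hbc ((f'_meas a).mul (ind_meas y)) (16 * (Real.pi / a) * 1) (fun u hu => by
    rw [abs_mul, abs_of_nonneg (ind_nonneg y u)]
    have h1 := (f'_le ha (hb.trans hu.1.le)).trans (w_le ha (hb.trans hu.1.le))
    exact mul_le_mul h1 (ind_le y u) (ind_nonneg y u) (by positivity))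

lemma ind_int {a V : ℝ} (y : ℝ) (ha : 0 < a) (hV : 0 ≤ V) :
    G V a y = f a V * ind y V - ∫ u in (0:ℝ)..V, f' a u * ind y u := by
  unfold G
  split_ifs with h
  · have h1 : ∫ u in (0:ℝ)..|y|, f' a u * ind y u = 0 := by
      apply intervalIntegral.integral_zero_ae
      have h0 : ∀ᵐ u : ℝ, u ≠ |y| := by
        simp [ae_iff]
      filter_upwards [h0] with u hu hu'
      rw [uIoc_of_le (abs_nonneg y)] at hu'
      have : ¬ |y| ≤ u := not_le.2 (lt_of_le_of_ne hu'.2 hu)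
      simp [ind, this]
    have h2 : ∫ u in |y|..V, f' a u * ind y u = ∫ u in |y|..V, f' a u := by
      apply intervalIntegral.integral_congr
      intro u hu
      rw [uIcc_of_le h] at hu
      simp [ind, hu.1]
    rw [← intervalIntegral.integral_add_adjacent_intervals (b := |y|)
      (fi_ii ha le_rfl (abs_nonneg y) y) (fi_ii ha (abs_nonneg y) h y),
      h1, h2, ftc ha (abs_nonneg y) h, f_abs ha]
    simp [ind, h]
  · have h1 : ∫ u in (0:ℝ)..V, f' a u * ind y u = 0 := by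
      rw [intervalIntegral.integral_congr (g := fun _ => (0:ℝ))]
      · simp
      intro u hu
      rw [uIcc_of_le hV] at hu
      have : ¬ |y| ≤ u := fun h' => h (h'.trans hu.2)
      simp [ind, this]
    rw [h1]
    simp [ind, h]

lemma uf_ii {a V : ℝ} (ha : 0 < a) (hV : 0 ≤ V) :
    IntervalIntegrable (fun u => f' a u * u) volume 0 V :=
  ii hV ((f'_meas a).mul measurable_id) (16 * (Real.pi / a) * V) (fun u hu => by
    rw [abs_mul, abs_of_nonneg hu.1.le]
    have h1 := (f'_le ha hu.1.le).trans (w_le ha hu.1.le)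
    exact mul_le_mul h1 hu.2 hu.1.le (by positivity))

lemma uf_int {a V : ℝ} (ha : 0 < a) (hV : 0 ≤ V) :
    ∫ u in (0:ℝ)..V, f' a u * u = f a V * V - ∫ u in (0:ℝ)..V, f a u := by
  have hf : IntervalIntegrable (f a) volume 0 V := (f_cont a).intervalIntegrable _ _
  have h1 : ∫ u in (0:ℝ)..V, (f' a u * u + f a u) = f a V * V - f a 0 * 0 := by
    refine intervalIntegral.integral_eq_sub_of_hasDerivAt_of_le (f := fun u => f a u * u) hV
      ((f_cont a).mul continuous_id).continuousOn ?_ ((uf_ii ha hV).add hf)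
    intro x hx
    have := (f_deriv ha hx.1).mul (hasDerivAt_id x)
    refine this.congr_deriv ?_
    simp
  rw [intervalIntegral.integral_add (uf_ii ha hV) hf] at h1
  linarith

def SS {ι : Type} (s : Finset ι) (y : ι → ℝ) (ρ u : ℝ) : ℝ := (∑ l ∈ s, ind (y l) u) - 2 * u / ρ

lemma SS_meas {ι : Type} (s : Finset ι) (y : ι → ℝ) (ρ : ℝ) : Measurable (SS s y ρ) := by
  unfold SS
  refine Measurable.sub (Finset.measurable_sum _ fun l _ => ind_meas _) (by fun_prop)

lemma SS_bd {ι : Type} (s : Finset ι) (y : ι → ℝ) {ρ V u : ℝ} (hρ : 0 < ρ) (h0 : 0 ≤ u) (hu : u ≤ V) :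
    |SS s y ρ u| ≤ s.card + 2 * V / ρ := by
  unfold SS
  have h1 : 0 ≤ ∑ l ∈ s, ind (y l) u := Finset.sum_nonneg fun l _ => ind_nonneg _ _
  have h2 : ∑ l ∈ s, ind (y l) u ≤ s.card := by
    calc ∑ l ∈ s, ind (y l) u ≤ ∑ l ∈ s, (1:ℝ) := Finset.sum_le_sum fun l _ => ind_le _ _
      _ = s.card := by simp
  have h3 : 0 ≤ 2 * u / ρ := by positivity
  have h4 : 2 * u / ρ ≤ 2 * V / ρ := by gcongr
  rw [abs_le]
  constructor <;> linarith [Nat.cast_nonneg (α := ℝ) s.card]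

lemma stat {ι : Type} (s : Finset ι) (y : ι → ℝ) {a V ρ : ℝ} (ha : 0 < a) (hV : 0 ≤ V) (hρ : 0 < ρ) :
    ∑ l ∈ s, G V a (y l) = (2 * ∫ u in (0:ℝ)..V, f a u) / ρ +
      (f a V * SS s y ρ V - ∫ u in (0:ℝ)..V, f' a u * SS s y ρ u) := by
  have h1 : ∑ l ∈ s, G V a (y l) = f a V * (∑ l ∈ s, ind (y l) V) -
      ∫ u in (0:ℝ)..V, f' a u * ∑ l ∈ s, ind (y l) u := by
    simp_rw [Finset.mul_sum]
    rw [intervalIntegral.integral_finset_sum (fun l _ => fi_ii ha le_rfl hV (y l)),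
      ← Finset.sum_sub_distrib]
    exact Finset.sum_congr rfl fun l _ => ind_int (y l) ha hV
  have h2 : IntervalIntegrable (fun u => f' a u * ∑ l ∈ s, ind (y l) u) volume 0 V := by
    simp_rw [Finset.mul_sum]
    have := IntervalIntegrable.sum s (fun l _ => fi_ii ha le_rfl hV (y l))
    refine this.congr_ae (Eventually.of_forall fun u => ?_)
    simp
  have h3 : ∫ u in (0:ℝ)..V, f' a u * SS s y ρ u =
      (∫ u in (0:ℝ)..V, f' a u * ∑ l ∈ s, ind (y l) u) - 2 / ρ * ∫ u in (0:ℝ)..V, f' a u * u := by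
    rw [← intervalIntegral.integral_const_mul, ← intervalIntegral.integral_sub h2
      ((uf_ii ha hV).const_mul _)]
    apply intervalIntegral.integral_congr
    intro u _
    simp only [SS]
    ring
  rw [h1, h3, uf_int ha hV]
  unfold SS
  ring

lemma wa_ii {ι : Type} (s : Finset ι) (y : ι → ℝ) {a V ρ : ℝ} (ha : 0 < a) (hV : 0 ≤ V) (hρ : 0 < ρ) :
    IntervalIntegrable (fun u => w a u * |SS s y ρ u|) volume 0 V :=
  ii hV ((w_meas a).mul (SS_meas s y ρ).abs) (16 * (Real.pi / a) * (s.card + 2 * V / ρ)) (fun u hu => by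
    rw [abs_mul, abs_abs, abs_of_nonneg (w_nonneg ha hu.1.le)]
    exact mul_le_mul (w_le ha hu.1.le) (SS_bd s y hρ hu.1.le hu.2) (abs_nonneg _) (by positivity))

lemma w2_ii {ι : Type} (s : Finset ι) (y : ι → ℝ) {a V ρ : ℝ} (ha : 0 < a) (hV : 0 ≤ V) (hρ : 0 < ρ) :
    IntervalIntegrable (fun u => w a u * SS s y ρ u ^ 2) volume 0 V :=
  ii hV ((w_meas a).mul ((SS_meas s y ρ).pow_const 2)) (16 * (Real.pi / a) * (s.card + 2 * V / ρ) ^ 2)
    (fun u hu => by
    rw [abs_mul, abs_pow, abs_of_nonneg (w_nonneg ha hu.1.le)]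
    exact mul_le_mul (w_le ha hu.1.le)
      (pow_le_pow_left₀ (abs_nonneg _) (SS_bd s y hρ hu.1.le hu.2) 2) (by positivity) (by positivity))

lemma fS_ii {ι : Type} (s : Finset ι) (y : ι → ℝ) {a V ρ : ℝ} (ha : 0 < a) (hV : 0 ≤ V) (hρ : 0 < ρ) :
    IntervalIntegrable (fun u => f' a u * SS s y ρ u) volume 0 V :=
  ii hV ((f'_meas a).mul (SS_meas s y ρ)) (16 * (Real.pi / a) * (s.card + 2 * V / ρ)) (fun u hu => by
    rw [abs_mul]
    exact mul_le_mul ((f'_le ha hu.1.le).trans (w_le ha hu.1.le)) (SS_bd s y hρ hu.1.le hu.2)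
      (abs_nonneg _) (by positivity))

lemma err {ι : Type} (s : Finset ι) (y : ι → ℝ) {a V ρ : ℝ} (ha : 0 < a) (hV : 0 ≤ V) (hρ : 0 < ρ) :
    (∫ u in (0:ℝ)..V, f' a u * SS s y ρ u) ^ 2 ≤ 16 * ∫ u in (0:ℝ)..V, w a u * SS s y ρ u ^ 2 := by
  have h1 : |∫ u in (0:ℝ)..V, f' a u * SS s y ρ u| ≤ ∫ u in (0:ℝ)..V, w a u * |SS s y ρ u| := by
    refine (intervalIntegral.abs_integral_le_integral_abs hV).trans ?_
    apply intervalIntegral.integral_mono_on hV (fS_ii s y ha hV hρ).abs (wa_ii s y ha hV hρ)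
    intro u hu
    rw [abs_mul]
    exact mul_le_mul_of_nonneg_right (f'_le ha hu.1) (abs_nonneg _)
  have h2 := cs hV (w a) (fun u => |SS s y ρ u|) (fun x hx => w_nonneg ha hx.1) (w_ii ha hV)
    (wa_ii s y ha hV hρ) (by simpa only [sq_abs] using w2_ii s y ha hV hρ) (K := 16) (by norm_num)
    (w_int ha hV)
  simp only [sq_abs] at h2
  refine le_trans ?_ h2
  rw [← sq_abs]
  exact pow_le_pow_left₀ (abs_nonneg _) h1 2

lemma f_le_one (a u : ℝ) : f a u ≤ 1 := F_le_one _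
lemma f_nonneg (a u : ℝ) : 0 ≤ f a u := F_nonneg _

lemma G_nonneg (V a y : ℝ) : 0 ≤ G V a y := by
  unfold G; split_ifs
  · exact f_nonneg _ _
  · exact le_rfl

lemma G_le_one (V a y : ℝ) : G V a y ≤ 1 := by
  unfold G; split_ifs
  · exact f_le_one _ _
  · norm_num

/-- the windows -/
lemma ind_sum (T : ℝ) (n : ℕ) {ρ : ℝ} (hρ : 0 < ρ) (t u : ℝ) :
    ∑ l ∈ (Finset.Icc 1 (NZ T)).erase n, ind (ρ * ps T n l - t) u =
      ((Ws T n (Icc ((t - u) / ρ) ((t + u) / ρ))).card : ℝ) := by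
  classical
  unfold ind Ws
  rw [← Finset.sum_filter, Finset.sum_const, nsmul_eq_mul, mul_one]
  congr 2
  ext l
  simp only [Finset.mem_filter, Finset.mem_erase, mem_Icc, abs_le]
  rw [div_le_iff₀ hρ, le_div_iff₀ hρ]
  constructor
  · rintro ⟨⟨h1, h2⟩, h3, h4⟩
    exact ⟨h2, h1, by linarith, by linarith⟩
  · rintro ⟨h1, h2, h3, h4⟩
    exact ⟨⟨h2, h1⟩, by linarith, by linarith⟩

lemma one {T ρ t a V L D K : ℝ} (hV : 0 ≤ V) (ha : 0 < a) (hρ : 3 / 4 ≤ ρ) (ht : |t| ≤ 1 / 2)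
    (hL : 2 * V + 1 ≤ L)
    (hD : ∀ x y : ℝ, |x| ≤ L → |y| ≤ L → x ≤ y →
      ∑ n ∈ Finset.Icc 1 (NZ T), (((Ws T n (Icc x y)).card : ℝ) - (y - x)) ^ 2 ≤ D)
    (hK : |a - (2 * ∫ u in (0:ℝ)..V, f a u) / ρ| ≤ K) :
    ∑ n ∈ Finset.Icc 1 (NZ T), (a - ∑ l ∈ Finset.Icc 1 (NZ T), G V a (ρ * ps T n l - t)) ^ 2 ≤
      3 * ((K + 1) ^ 2 * NZ T + 257 * D) := by
  classical
  have hρ0 : 0 < ρ := by linarith
  set S : ℕ → ℝ → ℝ := fun n u => SS ((Finset.Icc 1 (NZ T)).erase n) (fun l => ρ * ps T n l - t) ρ u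
    with hS
  have hSe : ∀ n u, S n u = ((Ws T n (Icc ((t - u) / ρ) ((t + u) / ρ))).card : ℝ) -
      ((t + u) / ρ - (t - u) / ρ) := by
    intro n u
    simp only [hS, SS]
    rw [ind_sum T n hρ0]
    ring
  have hb : ∀ u, 0 ≤ u → u ≤ V → ∑ n ∈ Finset.Icc 1 (NZ T), S n u ^ 2 ≤ D := by
    intro u h0 h1
    simp_rw [hSe]
    have ht' := abs_le.1 ht
    apply hD
    · rw [abs_div, abs_of_pos hρ0, div_le_iff₀ hρ0, abs_le]
      constructor <;> nlinarith
    · rw [abs_div, abs_of_pos hρ0, div_le_iff₀ hρ0, abs_le]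
      constructor <;> nlinarith
    · gcongr
      linarith
  have hD0 : 0 ≤ D := le_trans (Finset.sum_nonneg fun n _ => sq_nonneg _) (hb 0 le_rfl hV)
  have hn : ∀ n ∈ Finset.Icc 1 (NZ T),
      (a - ∑ l ∈ Finset.Icc 1 (NZ T), G V a (ρ * ps T n l - t)) ^ 2 ≤
      3 * ((K + 1) ^ 2 + S n V ^ 2 + 16 * ∫ u in (0:ℝ)..V, w a u * S n u ^ 2) := by
    intro n hn
    rw [← Finset.add_sum_erase _ _ hn, stat _ _ ha hV hρ0]
    have h1 := err ((Finset.Icc 1 (NZ T)).erase n) (fun l => ρ * ps T n l - t) ha hV hρ0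
    set E := ∫ u in (0:ℝ)..V, f' a u * SS ((Finset.Icc 1 (NZ T)).erase n)
      (fun l => ρ * ps T n l - t) ρ u with hE
    set X := f a V * SS ((Finset.Icc 1 (NZ T)).erase n) (fun l => ρ * ps T n l - t) ρ V with hX
    have h2 : X ^ 2 ≤ S n V ^ 2 := by
      rw [hX, mul_pow]
      have h3 : f a V ^ 2 ≤ 1 := pow_le_one₀ (f_nonneg _ _) (f_le_one _ _)
      calc f a V ^ 2 * S n V ^ 2 ≤ 1 * S n V ^ 2 := by gcongr
        _ = S n V ^ 2 := one_mul _
    set c := a - (2 * ∫ u in (0:ℝ)..V, f a u) / ρ with hc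
    set g0 := G V a (ρ * ps T n n - t) with hg0
    have hg1 : 0 ≤ g0 := G_nonneg _ _ _
    have hg2 : g0 ≤ 1 := G_le_one _ _ _
    have h4 : (c - g0) ^ 2 ≤ (K + 1) ^ 2 := by
      apply sq_le_sq'
      · have := (abs_le.1 hK).1; linarith
      · have := (abs_le.1 hK).2; linarith
    have h5 : a - (g0 + ((2 * ∫ u in (0:ℝ)..V, f a u) / ρ + (X - E))) = (c - g0) - X + E := by
      rw [hc]; ring
    rw [h5]
    nlinarith [sq_nonneg (c - g0 + X), sq_nonneg (c - g0 - E), sq_nonneg (X + E)]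
  refine (Finset.sum_le_sum hn).trans ?_
  rw [← Finset.mul_sum, Finset.sum_add_distrib, Finset.sum_add_distrib, ← Finset.mul_sum,
    ← intervalIntegral.integral_finset_sum (fun n _ => w2_ii _ _ ha hV hρ0)]
  have h6 : ∫ u in (0:ℝ)..V, ∑ n ∈ Finset.Icc 1 (NZ T), w a u * S n u ^ 2 ≤ 16 * D := by
    calc ∫ u in (0:ℝ)..V, ∑ n ∈ Finset.Icc 1 (NZ T), w a u * S n u ^ 2
        ≤ ∫ u in (0:ℝ)..V, D * w a u := by
          apply intervalIntegral.integral_mono_on hV
          · have := IntervalIntegrable.sum (Finset.Icc 1 (NZ T))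
              (fun n _ => w2_ii ((Finset.Icc 1 (NZ T)).erase n) (fun l => ρ * ps T n l - t) ha hV hρ0)
            refine this.congr_ae (Eventually.of_forall fun u => ?_)
            simp [hS]
          · exact (w_ii ha hV).const_mul _
          · intro u hu
            rw [← Finset.mul_sum, mul_comm]
            exact mul_le_mul_of_nonneg_right (hb u hu.1 hu.2) (w_nonneg ha hu.1)
      _ = D * ∫ u in (0:ℝ)..V, w a u := intervalIntegral.integral_const_mul _ _
      _ ≤ D * 16 := by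
          gcongr
          exact w_int ha hV
      _ = 16 * D := by ring
  have h7 := hb V hV le_rfl
  have h8 : ∑ n ∈ Finset.Icc 1 (NZ T), (K + 1) ^ 2 = (K + 1) ^ 2 * NZ T := by
    simp; ring
  rw [h8]
  linarith

/-- the mean -/
lemma mean (hR : S_REP) {a V ρ B : ℝ} {J : ℕ} (ha : 0 < a) (hB : 0 < B) (hV : V = B * 4 ^ J)
    (haV : a ≤ B * 2 ^ J) (h1 : 1 - 1 / 4 ^ J ≤ ρ) (h34 : 3 / 4 ≤ ρ) (h2 : ρ ≤ 1) :
    |a - (2 * ∫ u in (0:ℝ)..V, f a u) / ρ| ≤ 4 * B := by
  have hV0 : 0 < V := by rw [hV]; positivity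
  have hρ : 0 < ρ := by linarith
  have e : ∫ u in (0:ℝ)..V, f a u = a * ∫ v in (0:ℝ)..(V / a), F (Real.pi * v) := by
    have := intervalIntegral.integral_comp_div (a := 0) (b := V) (fun v => F (Real.pi * v)) ha.ne'
    rw [zero_div, smul_eq_mul] at this
    rw [← this]
    apply intervalIntegral.integral_congr
    intro u _
    simp only [f, mul_div_assoc]
  obtain ⟨t1, t2⟩ := tail hR (W := V / a) (by positivity)
  have hJ4 : (4:ℝ) ^ J = 2 ^ J * 2 ^ J := by rw [← mul_pow]; norm_num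
  have h2J : (1:ℝ) ≤ 2 ^ J := one_le_pow₀ (by norm_num)
  have haV2 : a * (1 / (V / a)) ≤ B := by
    rw [one_div_div, mul_div_assoc', div_le_iff₀ hV0, hV, hJ4]
    calc a * a ≤ (B * 2 ^ J) * (B * 2 ^ J) := by gcongr
      _ = B * (B * (2 ^ J * 2 ^ J)) := by ring
  set I := ∫ v in (0:ℝ)..(V / a), F (Real.pi * v) with hI
  rw [e]
  have hA1 : a - B ≤ 2 * (a * I) := by
    have : a * (1 - 1 / (V / a)) ≤ a * (2 * I) := by gcongr
    nlinarith
  have hA2 : 2 * (a * I) ≤ a := by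
    have : a * (2 * I) ≤ a * 1 := by gcongr
    nlinarith
  have hI0 : 0 ≤ I := by
    apply intervalIntegral.integral_nonneg (by positivity)
    intro u _
    exact F_nonneg _
  have hA0 : 0 ≤ 2 * (a * I) := by positivity
  have h3 : 2 * (a * I) ≤ 2 * (a * I) / ρ := by
    rw [le_div_iff₀ hρ]
    nlinarith
  have h4 : 2 * (a * I) / ρ ≤ a + 2 * B := by
    rw [div_le_iff₀ hρ]
    have h5 : a * (1 - ρ) ≤ B := by
      have h6 : 1 - ρ ≤ 1 / 4 ^ J := by linarith
      calc a * (1 - ρ) ≤ (B * 2 ^ J) * (1 / 4 ^ J) := by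
            apply mul_le_mul haV h6 (by linarith) (by positivity)
        _ = B * (1 / 2 ^ J) := by rw [hJ4]; field_simp
        _ ≤ B * 1 := by
            gcongr
            rw [div_le_one (by positivity)]
            exact h2J
        _ = B := mul_one _
    nlinarith
  rw [abs_le]
  constructor <;> linarith

lemma gJ_eq (q J : ℕ) (y : ℝ) :
    gJ q J y = (∑ j ∈ Finset.Icc 1 J, G (2 ^ q * 4 ^ J) (2 ^ (q + j)) y) / J := by
  unfold gJ G f F
  split_ifs
  · rfl
  · simp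

lemma cc_eq (q J : ℕ) : 2 ^ q * cc J = (∑ j ∈ Finset.Icc 1 J, (2:ℝ) ^ (q + j)) / J := by
  have : ∑ j ∈ Finset.Icc 1 J, (2:ℝ) ^ (q + j) = 2 ^ q * (2 ^ (J + 1) - 2) := by
    induction J with
    | zero => simp
    | succ k ih =>
        rw [Finset.sum_Icc_succ_top (by omega), ih]
        ring
  rw [this]
  unfold cc
  ring

lemma avg {q J : ℕ} (hJ : 1 ≤ J) {T ρ t D K : ℝ} (hρ : 3 / 4 ≤ ρ) (ht : |t| ≤ 1 / 2)
    (hD : ∀ x y : ℝ, |x| ≤ 2 * (2 ^ q * 4 ^ J) + 1 → |y| ≤ 2 * (2 ^ q * 4 ^ J) + 1 → x ≤ y →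
      ∑ n ∈ Finset.Icc 1 (NZ T), (((Ws T n (Icc x y)).card : ℝ) - (y - x)) ^ 2 ≤ D)
    (hK : ∀ j ∈ Finset.Icc 1 J,
      |(2:ℝ) ^ (q + j) - (2 * ∫ u in (0:ℝ)..(2 ^ q * 4 ^ J), f (2 ^ (q + j)) u) / ρ| ≤ K) :
    ∑ n ∈ Finset.Icc 1 (NZ T),
      (2 ^ q * cc J - ∑ l ∈ Finset.Icc 1 (NZ T), gJ q J (ρ * ps T n l - t)) ^ 2 ≤
      3 * ((K + 1) ^ 2 * NZ T + 257 * D) := by
  have hJ0 : (0:ℝ) < J := by exact_mod_cast hJ
  set e : ℕ → ℕ → ℝ := fun j n => (2:ℝ) ^ (q + j) -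
    ∑ l ∈ Finset.Icc 1 (NZ T), G (2 ^ q * 4 ^ J) (2 ^ (q + j)) (ρ * ps T n l - t) with he
  have h1 : ∀ n, 2 ^ q * cc J - ∑ l ∈ Finset.Icc 1 (NZ T), gJ q J (ρ * ps T n l - t) =
      (∑ j ∈ Finset.Icc 1 J, e j n) / J := by
    intro n
    simp only [gJ_eq, cc_eq, he, Finset.sum_sub_distrib]
    rw [← Finset.sum_div, Finset.sum_comm]
    ring
  have h2 : ∀ n, ((∑ j ∈ Finset.Icc 1 J, e j n) / J) ^ 2 ≤ (∑ j ∈ Finset.Icc 1 J, e j n ^ 2) / J := by
    intro n
    have := sq_sum_le_card_mul_sum_sq (s := Finset.Icc 1 J) (f := fun j => e j n)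
    simp only [Nat.card_Icc, Nat.add_sub_cancel] at this
    rw [div_pow, div_le_div_iff₀ (by positivity) hJ0]
    nlinarith
  simp_rw [h1]
  refine (Finset.sum_le_sum fun n _ => h2 n).trans ?_
  rw [← Finset.sum_div, Finset.sum_comm, div_le_iff₀ hJ0]
  calc ∑ j ∈ Finset.Icc 1 J, ∑ n ∈ Finset.Icc 1 (NZ T), e j n ^ 2
      ≤ ∑ j ∈ Finset.Icc 1 J, 3 * ((K + 1) ^ 2 * NZ T + 257 * D) := by
        apply Finset.sum_le_sum
        intro j hj
        exact one (by positivity) (by positivity) hρ ht le_rfl hD (hK j hj)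
    _ = 3 * ((K + 1) ^ 2 * NZ T + 257 * D) * J := by
        rw [Finset.sum_const, Nat.card_Icc, nsmul_eq_mul]
        simp; ring

lemma G_meas (V a : ℝ) : Measurable (G V a) := by
  unfold G
  exact Measurable.ite (measurableSet_le (by fun_prop) measurable_const) (f_cont a).measurable
    measurable_const

lemma gJ_meas (q J : ℕ) : Measurable (gJ q J) := by
  have : gJ q J = fun y => (∑ j ∈ Finset.Icc 1 J, G (2 ^ q * 4 ^ J) (2 ^ (q + j)) y) / J := by
    ext y; exact gJ_eq q J y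
  rw [this]
  exact (Finset.measurable_sum _ fun j _ => G_meas _ _).div_const _

lemma gJ_nonneg (q J : ℕ) (y : ℝ) : 0 ≤ gJ q J y := by
  rw [gJ_eq]
  exact div_nonneg (Finset.sum_nonneg fun j _ => G_nonneg _ _ _) (Nat.cast_nonneg _)

lemma gJ_le_one (q J : ℕ) (y : ℝ) : gJ q J y ≤ 1 := by
  rw [gJ_eq]
  apply div_le_one_of_le₀ _ (Nat.cast_nonneg _)
  calc ∑ j ∈ Finset.Icc 1 J, G (2 ^ q * 4 ^ J) (2 ^ (q + j)) y ≤ ∑ j ∈ Finset.Icc 1 J, (1:ℝ) :=
        Finset.sum_le_sum fun j _ => G_le_one _ _ _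
    _ = J := by simp

/-- integration over the unit interval -/
lemma smooth {q J : ℕ} {T ρ B : ℝ}
    (h : ∀ t : ℝ, |t| ≤ 1 / 2 → ∑ n ∈ Finset.Icc 1 (NZ T),
      (2 ^ q * cc J - ∑ l ∈ Finset.Icc 1 (NZ T), gJ q J (ρ * ps T n l - t)) ^ 2 ≤ B) :
    ∑ n ∈ Finset.Icc 1 (NZ T),
      (2 ^ q * cc J - ∑ l ∈ Finset.Icc 1 (NZ T), gbar q J (ρ * ps T n l)) ^ 2 ≤ B := by
  set H : ℕ → ℝ → ℝ := fun n t =>
    2 ^ q * cc J - ∑ l ∈ Finset.Icc 1 (NZ T), gJ q J (ρ * ps T n l - t) with hH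
  have hab : (-(1 / 2 : ℝ)) ≤ 1 / 2 := by norm_num
  have hg : ∀ c : ℝ, IntervalIntegrable (fun t => gJ q J (c - t)) volume (-(1 / 2 : ℝ)) (1 / 2) :=
    fun c => ii hab ((gJ_meas q J).comp (by fun_prop)) 1 (fun u _ => by
      rw [abs_of_nonneg (gJ_nonneg _ _ _)]; exact gJ_le_one _ _ _)
  have hm : ∀ n, Measurable (H n) := fun n => measurable_const.sub
    (Finset.measurable_sum _ fun l _ => (gJ_meas q J).comp (by fun_prop))
  have hbd : ∀ n t, |H n t| ≤ |2 ^ q * cc J| + NZ T := by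
    intro n t
    have h0 : 0 ≤ ∑ l ∈ Finset.Icc 1 (NZ T), gJ q J (ρ * ps T n l - t) :=
      Finset.sum_nonneg fun l _ => gJ_nonneg _ _ _
    have h1 : ∑ l ∈ Finset.Icc 1 (NZ T), gJ q J (ρ * ps T n l - t) ≤ NZ T := by
      calc ∑ l ∈ Finset.Icc 1 (NZ T), gJ q J (ρ * ps T n l - t)
          ≤ ∑ l ∈ Finset.Icc 1 (NZ T), (1:ℝ) := Finset.sum_le_sum fun l _ => gJ_le_one _ _ _
        _ = NZ T := by simp
    have h2 := abs_sub (2 ^ q * cc J) (∑ l ∈ Finset.Icc 1 (NZ T), gJ q J (ρ * ps T n l - t))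
    rw [abs_of_nonneg h0] at h2
    simp only [hH]
    linarith
  have hi1 : ∀ n, IntervalIntegrable (H n) volume (-(1 / 2 : ℝ)) (1 / 2) := fun n =>
    ii hab (hm n) _ (fun u _ => hbd n u)
  have hi2 : ∀ n, IntervalIntegrable (fun t => H n t ^ 2) volume (-(1 / 2 : ℝ)) (1 / 2) := fun n =>
    ii hab ((hm n).pow_const 2) ((|2 ^ q * cc J| + NZ T) ^ 2) (fun u _ => by
      rw [abs_pow]; exact pow_le_pow_left₀ (abs_nonneg _) (hbd n u) 2)
  have he : ∀ n, 2 ^ q * cc J - ∑ l ∈ Finset.Icc 1 (NZ T), gbar q J (ρ * ps T n l) =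
      ∫ t in (-(1 / 2 : ℝ))..(1 / 2), H n t := by
    intro n
    simp only [hH, gbar]
    rw [intervalIntegral.integral_sub (by simp) (by
      have := IntervalIntegrable.sum (Finset.Icc 1 (NZ T)) (fun l _ => hg (ρ * ps T n l))
      refine this.congr_ae (Eventually.of_forall fun u => ?_)
      simp), intervalIntegral.integral_finset_sum (fun l _ => hg _)]
    simp
    norm_num
  have hc : ∀ n, (∫ t in (-(1 / 2 : ℝ))..(1 / 2), H n t) ^ 2 ≤
      ∫ t in (-(1 / 2 : ℝ))..(1 / 2), H n t ^ 2 := by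
    intro n
    have := cs hab (fun _ => (1:ℝ)) (H n) (fun _ _ => zero_le_one) (by simp)
      (by simpa using hi1 n) (by simpa using hi2 n) (K := 1) one_pos (by simp; norm_num)
    simpa using this
  simp_rw [he]
  calc ∑ n ∈ Finset.Icc 1 (NZ T), (∫ t in (-(1 / 2 : ℝ))..(1 / 2), H n t) ^ 2
      ≤ ∑ n ∈ Finset.Icc 1 (NZ T), ∫ t in (-(1 / 2 : ℝ))..(1 / 2), H n t ^ 2 :=
        Finset.sum_le_sum fun n _ => hc n
    _ = ∫ t in (-(1 / 2 : ℝ))..(1 / 2), ∑ n ∈ Finset.Icc 1 (NZ T), H n t ^ 2 :=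
        (intervalIntegral.integral_finset_sum (fun n _ => hi2 n)).symm
    _ ≤ ∫ t in (-(1 / 2 : ℝ))..(1 / 2), B := by
        apply intervalIntegral.integral_mono_on hab
        · have := IntervalIntegrable.sum (Finset.Icc 1 (NZ T)) (fun n _ => hi2 n)
          refine this.congr_ae (Eventually.of_forall fun u => ?_)
          simp
        · simp
        · intro t ht
          exact h t (abs_le.2 ⟨ht.1, ht.2⟩)
    _ = B := by simp; norm_num

/-- the number of zeros, from the second moment -/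
lemma nz_le {T D : ℝ} (h : ∑ n ∈ Finset.Icc 1 (NZ T), (((Ws T n (Icc 0 (1 / 2))).card : ℝ) - (1 / 2 - 0)) ^ 2 ≤ D) :
    (NZ T : ℝ) ≤ 4 * D := by
  have h1 : ∀ c : ℕ, (1 / 4 : ℝ) ≤ ((c : ℝ) - (1 / 2 - 0)) ^ 2 := by
    intro c
    rcases Nat.eq_zero_or_pos c with hc | hc
    · subst hc; norm_num
    · have : (1:ℝ) ≤ c := by exact_mod_cast hc
      nlinarith
  have h2 : ∑ n ∈ Finset.Icc 1 (NZ T), (1 / 4 : ℝ) ≤ D :=
    (Finset.sum_le_sum fun n _ => h1 _).trans h
  rw [Finset.sum_const, Nat.card_Icc, nsmul_eq_mul] at h2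
  simp only [Nat.add_sub_cancel] at h2
  linarith

end

end L2

open L2 in
/-- L2 -/
theorem t_L2 (hM : S_MOMD) (hR : S_REP) : S_L2 := by
  intro rh q
  obtain ⟨C, hC, hM⟩ := hM rh
  refine ⟨3 * (4 * (4 * 2 ^ q + 1) ^ 2 + 257) * (C * (2 * q + 5)), by positivity, ?_⟩
  intro J hJ
  have hJ1 : (1:ℝ) ≤ J := by exact_mod_cast hJ
  have h4J : (4:ℝ) ≤ 4 ^ J := by
    calc (4:ℝ) = 4 ^ 1 := by norm_num
      _ ≤ 4 ^ J := pow_le_pow_right₀ (by norm_num) hJ
  have h2q : (1:ℝ) ≤ 2 ^ q := one_le_pow₀ (by norm_num)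
  set L : ℝ := 2 * (2 ^ q * 4 ^ J) + 1 with hL
  have hL1 : 1 ≤ L := by rw [hL]; linarith [show (0:ℝ) ≤ 2 ^ q * 4 ^ J by positivity]
  have hlog : 1 + Real.log L ≤ (2 * q + 5) * J := by
    have h1 : L ≤ 4 ^ (q + J + 1) := by
      rw [hL]
      have h2 : (2:ℝ) ^ q ≤ 4 ^ q := pow_le_pow_left₀ (by norm_num) (by norm_num) q
      have h3 : (1:ℝ) ≤ 4 ^ q * 4 ^ J := by
        have : (1:ℝ) ≤ 4 ^ q := one_le_pow₀ (by norm_num)
        nlinarith
      calc 2 * ((2:ℝ) ^ q * 4 ^ J) + 1 ≤ 2 * (4 ^ q * 4 ^ J) + 4 ^ q * 4 ^ J := by gcongr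
        _ ≤ 4 ^ (q + J + 1) := by
            rw [pow_succ, pow_add]
            nlinarith
    have h2 : Real.log L ≤ (q + J + 1) * Real.log 4 := by
      have := Real.log_le_log (by linarith) h1
      rw [Real.log_pow] at this
      push_cast at this
      exact this
    have h3 : Real.log 4 ≤ 3 / 2 := by
      have h4 : Real.log 4 = 2 * Real.log 2 := by
        rw [show (4:ℝ) = 2 ^ 2 by norm_num, Real.log_pow]; norm_num
      have := Real.log_two_lt_d9
      rw [h4]; linarith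
    have h5 : ((q:ℝ) + J + 1) * Real.log 4 ≤ ((q:ℝ) + J + 1) * (3 / 2) := by gcongr
    have hq0 : (0:ℝ) ≤ q := Nat.cast_nonneg q
    nlinarith
  filter_upwards [hM L hL1, eventually_ge_atTop (1:ℝ)] with T hT hT1 ρ hρ1 hρ2
  set X := T * Real.log T with hX
  have hρ : 3 / 4 ≤ ρ := by
    have : (1:ℝ) / 4 ^ J ≤ 1 / 4 := by
      apply one_div_le_one_div_of_le (by norm_num) h4J
    linarith
  have hX0 : 0 ≤ X := mul_nonneg (by linarith) (Real.log_nonneg hT1)
  have hN : (NZ T : ℝ) ≤ 4 * (C * (1 + Real.log L) * X) := by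
    apply nz_le
    apply hT 0 (1 / 2)
    · simp; linarith
    · rw [abs_of_pos (by norm_num)]; linarith
    · norm_num
  have hmain : ∀ t : ℝ, |t| ≤ 1 / 2 → ∑ n ∈ Finset.Icc 1 (NZ T),
      (2 ^ q * cc J - ∑ l ∈ Finset.Icc 1 (NZ T), gJ q J (ρ * ps T n l - t)) ^ 2 ≤
      3 * ((4 * 2 ^ q + 1) ^ 2 * NZ T + 257 * (C * (1 + Real.log L) * X)) := by
    intro t ht
    apply avg hJ hρ ht hT
    intro j hj
    have hj' := (Finset.mem_Icc.1 hj).2
    apply mean hR (J := J) (by positivity) (by positivity) rfl _ hρ1 hρ hρ2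
    rw [pow_add]
    gcongr
    norm_num
  refine (smooth hmain).trans ?_
  have hlog0 := Real.log_nonneg hL1
  calc 3 * ((4 * 2 ^ q + 1) ^ 2 * (NZ T : ℝ) + 257 * (C * (1 + Real.log L) * X))
      ≤ 3 * ((4 * 2 ^ q + 1) ^ 2 * (4 * (C * (1 + Real.log L) * X)) +
        257 * (C * (1 + Real.log L) * X)) := by gcongr
    _ = 3 * (4 * (4 * 2 ^ q + 1) ^ 2 + 257) * (C * (1 + Real.log L)) * X := by ring
    _ ≤ 3 * (4 * (4 * 2 ^ q + 1) ^ 2 + 257) * (C * ((2 * q + 5) * J)) * X := by gcongr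
    _ = 3 * (4 * (4 * 2 ^ q + 1) ^ 2 + 257) * (C * (2 * q + 5)) * J * X := by ring

end Pool.Agent.J4.H44.RG
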