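import Pool.Agent.J4.H44.RG.Main1
import Pool.Agent.J4.H44.RG.T_L1
import Pool.Agent.J4.H44.RG.T_L2

/-! # Project HC: the main theorem -/

set_option autoImplicit false
set_option linter.all false

open Filter Topology MeasureTheory Set

namespace Pool.Agent.J4.H44.RG

theorem main (hRH : RiemannHypothesis) :
    (∀ m : ℕ, LevelUpper m ↔ Level m) ∧ (∀ m : ℕ, LevelLower m ↔ Level m) ∧
    (∀ m k : ℕ, k ≤ m → Level m → Level k) ∧
    ((∀ m : ℕ, Level m) ↔ ∃ᶠ m : ℕ in atTop, LevelUpper m ∨ LevelLower m) :=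
  main1 hRH (t_L1 t_NZ) (t_L2 t_MOMD t_REP)

/-- one-sided bounds for one level give all lower levels in full -/
theorem main2 (hRH : RiemannHypothesis) :
    (∀ m k : ℕ, k ≤ m → LevelUpper m → Level k) ∧ (∀ m k : ℕ, k ≤ m → LevelLower m → Level k) ∧
    ((∀ m : ℕ, Level m) ↔ ∃ᶠ m : ℕ in atTop, LevelUpper m ∨ LevelLower m) := by
  obtain ⟨h1, h2, h3, h4⟩ := main hRH
  exact ⟨fun m k hk h => h3 m k hk ((h1 m).1 h), fun m k hk h => h3 m k hk ((h2 m).1 h), h4⟩

end Pool.Agent.J4.H44.RG
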