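import Pool.Agent.J4.H44.RG.T_LIB
import Pool.Agent.H370R2.Count

/-! # Project HC: LEV0, the number of the zeros -/

set_option autoImplicit false
set_option linter.all false

open Filter Topology MeasureTheory Set

namespace Pool.Agent.J4.H44.RG

lemma LEV0.NN_eq {V : ℝ} (hV : 1 ≤ V) : (SG.NZ (2 * V) : ℝ) - SG.NZ V = H370.NN riemannZeta V (2 * V) := by
  classical
  have hfin := H370.zset_finite H370.good_zeta V (2 * V) hV
  have hNN : H370.NN riemannZeta V (2 * V) = ∑ s ∈ hfin.toFinset, SG.zmult s :=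
    finsum_mem_eq_finite_toFinset_sum _ hfin
  have h1 : SG.NZ (2 * V) = SG.NZ V + H370.NN riemannZeta V (2 * V) := by
    rw [SG.NZ_eq, SG.NZ_eq, hNN, ← Finset.sum_filter_add_sum_filter_not _ (fun s : ℂ => s.im ≤ V)]
    congr 1
    · apply Finset.sum_congr _ fun _ _ => rfl
      ext s
      rw [Finset.mem_filter, Set.Finite.mem_toFinset, Set.Finite.mem_toFinset]
      constructor
      · rintro ⟨h, h2⟩
        exact ⟨h.1, h.2.1, h.2.2.1, h.2.2.2.1, h2⟩
      · rintro ⟨h, h2, h3, h4, h5⟩
        exact ⟨⟨h, h2, h3, h4, by linarith⟩, h5⟩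
    · apply Finset.sum_congr _ fun _ _ => rfl
      ext s
      rw [Finset.mem_filter, Set.Finite.mem_toFinset, Set.Finite.mem_toFinset]
      constructor
      · rintro ⟨h, h2⟩
        exact ⟨h.2.1, h.2.2.1, not_le.mp h2, h.2.2.2.2, h.1⟩
      · rintro ⟨h, h2, h3, h4, h5⟩
        exact ⟨⟨h5, h, h2, by linarith, h4⟩, not_le.mpr h3⟩
  rw [h1]
  push_cast
  ring

lemma LEV0.big : ∃ C V0 : ℝ, 0 < C ∧ 10 ≤ V0 ∧ ∀ T : ℝ, V0 ≤ T →
    |(SG.NZ T : ℝ) - T * Real.log T / (2 * Real.pi)| ≤ C * T := by
  obtain ⟨C, V0, hC, hV0, h⟩ := H370.nn_asymp H370.good_zeta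
  have hpi := Real.pi_gt_three
  obtain ⟨f, hf⟩ : ∃ f : ℝ → ℝ, f = fun T => (SG.NZ T : ℝ) - T * Real.log T / (2 * Real.pi) := ⟨_, rfl⟩
  have hstep : ∀ V, V0 ≤ V → |f (2 * V) - f V| ≤ (C + 1) * V := by
    intro V hV
    have h1 := h V hV V (2 * V) le_rfl (by linarith) (by linarith) le_rfl
    rw [← LEV0.NN_eq (by linarith)] at h1
    have e : f (2 * V) - f V = ((SG.NZ (2 * V) : ℝ) - SG.NZ V - V * Real.log V / (2 * Real.pi)) -
        2 * V * Real.log 2 / (2 * Real.pi) := by
      rw [hf]
      simp only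
      rw [Real.log_mul (by norm_num) (by linarith)]
      ring
    rw [e]
    have h2 : |2 * V * Real.log 2 / (2 * Real.pi)| ≤ V := by
      have hl := Real.log_two_lt_d9
      have hl0 : 0 < Real.log 2 := Real.log_pos (by norm_num)
      have hV0' : 0 ≤ V := by linarith
      rw [abs_of_nonneg (by positivity), div_le_iff₀ (by positivity)]
      nlinarith
    have := abs_sub ((SG.NZ (2 * V) : ℝ) - SG.NZ V - V * Real.log V / (2 * Real.pi))
      (2 * V * Real.log 2 / (2 * Real.pi))
    linarith
  obtain ⟨M, hM⟩ : ∃ M : ℝ, M = (SG.NZ (2 * V0) : ℝ) + 2 * V0 * Real.log (2 * V0) := ⟨_, rfl⟩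
  have hM0 : 0 ≤ M := by
    rw [hM]
    have := Real.log_nonneg (show 1 ≤ 2 * V0 by linarith)
    positivity
  have hbase : ∀ T, V0 ≤ T → T ≤ 2 * V0 → |f T| ≤ M := by
    intro T h1 h2
    have h3 : (SG.NZ T : ℝ) ≤ SG.NZ (2 * V0) := by exact_mod_cast SG.NZ_mono h2
    have h4 : 0 ≤ (SG.NZ T : ℝ) := Nat.cast_nonneg _
    have h5 : 0 ≤ Real.log T := Real.log_nonneg (by linarith)
    have h6 : Real.log T ≤ Real.log (2 * V0) := Real.log_le_log (by linarith) h2
    have h7 : T * Real.log T ≤ 2 * V0 * Real.log (2 * V0) := mul_le_mul h2 h6 h5 (by linarith)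
    have h8 : 0 ≤ T * Real.log T := mul_nonneg (by linarith) h5
    have h9 : T * Real.log T / (2 * Real.pi) ≤ T * Real.log T := div_le_self h8 (by linarith)
    have h10 : 0 ≤ T * Real.log T / (2 * Real.pi) := by positivity
    rw [hf, hM, abs_le]
    constructor
    · simp only
      have : (0 : ℝ) ≤ SG.NZ (2 * V0) := Nat.cast_nonneg _
      linarith
    · simp only
      linarith
  have hind : ∀ n : ℕ, ∀ T, V0 ≤ T → T ≤ 2 ^ (n + 1) * V0 → |f T| ≤ (C + 1) * T + M := by
    intro n
    induction n with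
    | zero =>
      intro T h1 h2
      have h2' : T ≤ 2 * V0 := by simpa using h2
      have h3 := hbase T h1 h2'
      have h4 : 0 ≤ (C + 1) * T := mul_nonneg (by linarith) (by linarith)
      linarith
    | succ n ih =>
      intro T h1 h2
      rcases le_total T (2 * V0) with h3 | h3
      · have h5 := hbase T h1 h3
        have h6 : 0 ≤ (C + 1) * T := mul_nonneg (by linarith) (by linarith)
        linarith
      · have h4 := ih (T / 2) (by linarith) (by rw [pow_succ] at h2; linarith)
        have h5 := hstep (T / 2) (by linarith)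
        have e2 : 2 * (T / 2) = T := by ring
        rw [e2] at h5
        have h6 := abs_sub_abs_le_abs_sub (f T) (f (T / 2))
        linarith
  refine ⟨C + 1 + M, V0, by positivity, hV0, fun T hT => ?_⟩
  obtain ⟨n, hn⟩ := pow_unbounded_of_one_lt (T / V0) (one_lt_two)
  have h1 := hind n T hT (by
    have : T < 2 ^ n * V0 := by rwa [div_lt_iff₀ (by linarith)] at hn
    rw [pow_succ]
    have : (0 : ℝ) < 2 ^ n := by positivity
    nlinarith)
  have h2 : M ≤ M * T := le_mul_of_one_le_right hM0 (by linarith)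
  rw [hf] at h1
  simp only at h1
  nlinarith

theorem LEV0.lim : Tendsto (fun T : ℝ => (NZ T : ℝ) / (T / (2 * Real.pi) * Real.log T)) atTop (𝓝 1) := by
  obtain ⟨C, V0, hC, hV0, h⟩ := LEV0.big
  rw [Metric.tendsto_nhds]
  intro ε hε
  filter_upwards [eventually_ge_atTop V0, Real.tendsto_log_atTop.eventually_gt_atTop (C * (2 * Real.pi) / ε)]
    with T hT hl
  have hpi := Real.pi_pos
  have hlp : 0 < Real.log T := lt_of_le_of_lt (by positivity) hl
  have hT0 : 0 < T := by linarith
  have h1 := h T hT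
  have hD : 0 < T / (2 * Real.pi) * Real.log T := by positivity
  rw [Real.dist_eq]
  have e : (NZ T : ℝ) / (T / (2 * Real.pi) * Real.log T) - 1 =
      ((SG.NZ T : ℝ) - T * Real.log T / (2 * Real.pi)) / (T / (2 * Real.pi) * Real.log T) := by
    rw [LIB.NZ_eq]
    field_simp
  rw [e, abs_div, abs_of_pos hD, div_lt_iff₀ hD]
  refine lt_of_le_of_lt h1 ?_
  rw [div_lt_iff₀ hε] at hl
  have : C * T * (2 * Real.pi) < T * (Real.log T * ε) := by nlinarith
  rw [show ε * (T / (2 * Real.pi) * Real.log T) = T * (Real.log T * ε) / (2 * Real.pi) by ring, lt_div_iff₀ (by positivity)]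
  exact this

theorem t_LEV0 : S_LEV0 := by
  intro x y hxy
  have h1 : J x y = 1 := by
    unfold J
    have e : ∀ u : Fin 0 → ℝ, (A u).det = 1 := by
      intro u
      have hA : A u = 1 := by
        ext i j
        have hi : i = none := by
          cases i with
          | none => rfl
          | some i => exact i.elim0
        have hj : j = none := by
          cases j with
          | none => rfl
          | some j => exact j.elim0
        subst hi hj
        simp [A, pt]
      rw [hA, Matrix.det_one]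
    simp only [e]
    have h2 : Icc x y = Set.univ := by
      ext u
      simp only [mem_univ, iff_true, mem_Icc]
      exact ⟨fun i => i.elim0, fun i => i.elim0⟩
    rw [h2]
    rw [volume_pi, Measure.pi_of_empty]
    simp
  rw [h1]
  have h3 : ∀ T : ℝ, 0 ≤ T → N T x y = NZ T := by
    intro T hT
    rw [t_CNT 0 T x y hT]
    have : ∀ n ∈ Finset.Icc 1 (NZ T), tup T x y n = 1 := by
      intro n _
      unfold tup
      have e : {l : Fin 0 → ℕ | Function.Injective l ∧ ∀ i, l i ∈ Ws T n (Icc (x i) (y i))} = {Fin.elim0} := by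
        ext l
        simp only [mem_setOf_eq, mem_singleton_iff]
        constructor
        · intro _
          funext i
          exact i.elim0
        · intro _
          exact ⟨fun i => i.elim0, fun i => i.elim0⟩
      rw [e, Set.ncard_singleton]
    rw [Finset.sum_congr rfl this]
    simp
  refine LEV0.lim.congr' ?_
  filter_upwards [eventually_ge_atTop (0 : ℝ)] with T hT
  unfold ratio
  rw [h3 T hT]

end Pool.Agent.J4.H44.RG
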