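import Pool.Agent.J4.H44.RG.Step
import Pool.Agent.J4.H44.RG.T_LEV0

/-! # Project HC: the main theorem from FINU and FINL -/

set_option autoImplicit false
set_option linter.all false

open Filter Topology MeasureTheory Set

namespace Pool.Agent.J4.H44.RG

theorem main0 (hRH : RiemannHypothesis) (hU : S_FINU) (hL : S_FINL) :
    (∀ m : ℕ, LevelUpper m ↔ Level m) ∧ (∀ m : ℕ, LevelLower m ↔ Level m) ∧
    (∀ m k : ℕ, k ≤ m → Level m → Level k) ∧
    ((∀ m : ℕ, Level m) ↔ ∃ᶠ m : ℕ in atTop, LevelUpper m ∨ LevelLower m) := by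
  have h1 := upper_iff hRH t_LEV0 hU
  have h2 := lower_iff hRH t_LEV0 hL
  refine ⟨h1, h2, fun m k hk h => level_down hRH h hk, ?_, ?_⟩
  · intro h
    exact (Eventually.of_forall fun m => Or.inl ((h1 m).2 (h m))).frequently
  · intro h m
    obtain ⟨n, hn, hPn⟩ := (frequently_atTop.1 h) m
    rcases hPn with hP | hP
    · exact level_down hRH ((h1 n).1 hP) hn
    · exact level_down hRH ((h2 n).1 hP) hn

end Pool.Agent.J4.H44.RG
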