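import Pool.Agent.J4.H44.RG.Defs

/-!
# Project HC, piece BLK: one dyadic block
-/

set_option autoImplicit false
set_option linter.all false

open Filter Topology MeasureTheory Set

namespace Pool.Agent.J4.H44.RG

noncomputable section

namespace BLK

lemma sinc_sq_le (x : ℝ) : Real.sinc x ^ 2 ≤ 1 := by
  have h := Real.abs_sinc_le_one x
  rw [← sq_abs]
  exact pow_le_one₀ (abs_nonneg _) h

lemma gJ_nonneg (q J : ℕ) (v : ℝ) : 0 ≤ gJ q J v := by
  unfold gJ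
  split_ifs
  · exact div_nonneg (Finset.sum_nonneg fun j _ => sq_nonneg _) (Nat.cast_nonneg _)
  · exact le_rfl

lemma gJ_le (q J : ℕ) (v : ℝ) : gJ q J v ≤ 1 := by
  unfold gJ
  split_ifs
  · rcases Nat.eq_zero_or_pos J with rfl | hJ
    · simp
    · rw [div_le_one (by exact_mod_cast hJ)]
      calc ∑ j ∈ Finset.Icc 1 J, Real.sinc (Real.pi * v / 2 ^ (q + j)) ^ 2
          ≤ ∑ j ∈ Finset.Icc 1 J, (1 : ℝ) := Finset.sum_le_sum fun j _ => sinc_sq_le _
        _ = J := by simp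
  · exact zero_le_one

lemma gJ_meas (q J : ℕ) : Measurable (gJ q J) := by
  unfold gJ
  refine Measurable.ite (measurableSet_le (by fun_prop) measurable_const) ?_ measurable_const
  have hc : Continuous fun v : ℝ => (∑ j ∈ Finset.Icc 1 J, Real.sinc (Real.pi * v / 2 ^ (q + j)) ^ 2) / (J : ℝ) := by
    have := Real.continuous_sinc
    fun_prop
  exact hc.measurable

lemma gJ_zero {q J : ℕ} {v : ℝ} (h : 2 ^ q * 4 ^ J < |v|) : gJ q J v = 0 := if_neg (not_le.2 h)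

/-- the error of the statistic at `t` -/
def DD (q J : ℕ) (L : Finset ℕ) (w t : ℝ) : ℝ := 2 ^ q * cc J - ∑ l ∈ L, gJ q J ((γ l - t) * w)

lemma DD_meas (q J : ℕ) (L : Finset ℕ) (w : ℝ) : Measurable (DD q J L w) := by
  unfold DD
  refine measurable_const.sub (Finset.measurable_fun_sum _ fun l _ => ?_)
  exact (gJ_meas q J).comp (by fun_prop)

lemma DD_bd (q J : ℕ) (L : Finset ℕ) (w t : ℝ) : |DD q J L w t| ≤ |2 ^ q * cc J| + L.card := by
  unfold DD
  refine (abs_sub _ _).trans (add_le_add le_rfl ?_)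
  rw [abs_of_nonneg (Finset.sum_nonneg fun l _ => gJ_nonneg _ _ _)]
  calc ∑ l ∈ L, gJ q J ((γ l - t) * w) ≤ ∑ l ∈ L, (1 : ℝ) := Finset.sum_le_sum fun l _ => gJ_le _ _ _
    _ = L.card := by simp

lemma abs_int (q J : ℕ) (L : Finset ℕ) (w : ℝ) {s : Set ℝ} (hs : volume s < ⊤) :
    IntegrableOn (fun t => |DD q J L w t|) s := by
  refine IntegrableOn.of_bound hs ((DD_meas q J L w).abs.aestronglyMeasurable) (|2 ^ q * cc J| + L.card)
    (ae_of_all _ fun t => ?_)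
  rw [Real.norm_eq_abs, abs_abs]
  exact DD_bd _ _ _ _ _

lemma gJ_ii (q J : ℕ) (a b v : ℝ) : IntervalIntegrable (fun s => gJ q J (v - s)) volume a b := by
  rw [intervalIntegrable_iff]
  refine IntegrableOn.of_bound (by rw [uIoc]; exact measure_Ioc_lt_top) (((gJ_meas q J).comp (by fun_prop)).aestronglyMeasurable) 1
    (ae_of_all _ fun t => ?_)
  rw [Real.norm_eq_abs, abs_of_nonneg (gJ_nonneg _ _ _)]
  exact gJ_le _ _ _

lemma brk (q J : ℕ) (L : Finset ℕ) {w : ℝ} (hw : 0 < w) (g : ℝ) :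
    2 ^ q * cc J - ∑ l ∈ L, gbar q J ((γ l - g) * w) =
      ∫ s in (-(1 / 2 : ℝ))..(1 / 2), DD q J L w (g + s / w) := by
  have e : ∀ s : ℝ, DD q J L w (g + s / w) = 2 ^ q * cc J - ∑ l ∈ L, gJ q J ((γ l - g) * w - s) := by
    intro s
    unfold DD
    congr 1
    refine Finset.sum_congr rfl fun l _ => ?_
    congr 1
    field_simp
    ring
  simp only [e]
  have hs : IntervalIntegrable (fun s => ∑ l ∈ L, gJ q J ((γ l - g) * w - s)) volume (-(1 / 2)) (1 / 2) := by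
    have h := IntervalIntegrable.sum (μ := volume) (a := -(1 / 2 : ℝ)) (b := 1 / 2) L
      (f := fun l s => gJ q J ((γ l - g) * w - s)) (fun l _ => gJ_ii q J _ _ _)
    rwa [Finset.sum_fn] at h
  rw [intervalIntegral.integral_sub (by simp) hs, intervalIntegral.integral_finset_sum (fun l _ => gJ_ii q J _ _ _),
    intervalIntegral.integral_const]
  unfold gbar
  norm_num

lemma abs_brk (q J : ℕ) (L : Finset ℕ) {w : ℝ} (hw : 0 < w) (g : ℝ) :
    |2 ^ q * cc J - ∑ l ∈ L, gbar q J ((γ l - g) * w)| ≤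
      w * ∫ t in Set.Ioc (g - (1 / 2) / w) (g + (1 / 2) / w), |DD q J L w t| := by
  rw [brk q J L hw g]
  refine (intervalIntegral.abs_integral_le_integral_abs (by norm_num)).trans (le_of_eq ?_)
  rw [intervalIntegral.integral_comp_add_div (fun t => |DD q J L w t|) hw.ne' g, smul_eq_mul,
    intervalIntegral.integral_of_le (by
      have : (0 : ℝ) < 1 / 2 / w := by positivity
      rw [neg_div]
      linarith), neg_div, ← sub_eq_add_neg]

/-- the sums over the zeros agree -/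
lemma DD_eq (hNZ : S_NZ) {q J : ℕ} {w t : ℝ} {a b c : ℕ} {U : ℝ} (hU : 0 ≤ U) (hw : 0 < w) (hc : c = NZ U)
    (h : t + (2 ^ q * 4 ^ J + 1 / 4) / w ≤ U) (hca : c ≤ a) (hcb : c ≤ b) :
    DD q J (Finset.Icc 1 a) w t = DD q J (Finset.Icc 1 b) w t := by
  obtain ⟨-, -, hmono, hγ, -, -⟩ := hNZ
  have key : ∀ a : ℕ, c ≤ a → ∑ l ∈ Finset.Icc 1 a, gJ q J ((γ l - t) * w) =
      ∑ l ∈ Finset.Icc 1 c, gJ q J ((γ l - t) * w) := by
    intro a ha
    symm
    refine Finset.sum_subset (Finset.Icc_subset_Icc le_rfl ha) fun l hl hl' => ?_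
    rw [Finset.mem_Icc] at hl hl'
    have h1 : ¬ l ≤ c := fun h => hl' ⟨hl.1, h⟩
    rw [hc] at h1
    have h2 : U < γ l := by
      by_contra hn
      exact h1 ((hγ l hl.1 U hU).1 (not_lt.1 hn))
    apply gJ_zero
    have h3 : (2 ^ q * 4 ^ J + 1 / 4) / w < γ l - t := by linarith
    rw [div_lt_iff₀ hw] at h3
    refine lt_of_lt_of_le ?_ (le_abs_self _)
    linarith
  unfold DD
  rw [key a hca, key b hcb]

/-- the sum over the good indices -/
lemma good (q J : ℕ) (L : Finset ℕ) {w : ℝ} (hw : 0 < w) (F : Finset ℕ) (a b M : ℝ) (hM : 0 ≤ M)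
    (hF : ∀ n ∈ F, a ≤ γ n - (1 / 2) / w ∧ γ n + (1 / 2) / w ≤ b)
    (hcard : ∀ t : ℝ, ((F.filter (fun n => t ∈ Set.Ioc (γ n - (1 / 2) / w) (γ n + (1 / 2) / w))).card : ℝ) ≤ M) :
    ∑ n ∈ F, ∫ t in Set.Ioc (γ n - (1 / 2) / w) (γ n + (1 / 2) / w), |DD q J L w t| ≤
      M * ∫ t in Set.Ioc a b, |DD q J L w t| := by
  classical
  have h1 : ∀ n ∈ F, ∫ t in Set.Ioc (γ n - (1 / 2) / w) (γ n + (1 / 2) / w), |DD q J L w t| =
      ∫ t in Set.Ioc a b, (Set.Ioc (γ n - (1 / 2) / w) (γ n + (1 / 2) / w)).indicator (fun t => |DD q J L w t|) t := by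
    intro n hn
    rw [setIntegral_indicator measurableSet_Ioc]
    congr 2
    rw [Set.inter_eq_right.2]
    exact Set.Ioc_subset_Ioc (hF n hn).1 (hF n hn).2
  rw [Finset.sum_congr rfl h1, ← integral_finset_sum]
  · rw [← integral_const_mul]
    refine setIntegral_mono_on ?_ ?_ measurableSet_Ioc fun t _ => ?_
    · apply integrable_finset_sum
      intro n _
      exact (abs_int q J L w measure_Ioc_lt_top).indicator measurableSet_Ioc
    · exact (abs_int q J L w measure_Ioc_lt_top).const_mul _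
    · have e : ∑ n ∈ F, (Set.Ioc (γ n - (1 / 2) / w) (γ n + (1 / 2) / w)).indicator (fun t => |DD q J L w t|) t =
          ((F.filter (fun n => t ∈ Set.Ioc (γ n - (1 / 2) / w) (γ n + (1 / 2) / w))).card : ℝ) * |DD q J L w t| := by
        rw [Finset.card_filter, Nat.cast_sum, Finset.sum_mul]
        refine Finset.sum_congr rfl fun n _ => ?_
        by_cases h : t ∈ Set.Ioc (γ n - (1 / 2) / w) (γ n + (1 / 2) / w)
        · rw [Set.indicator_of_mem h, if_pos h]; simp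
        · rw [Set.indicator_of_notMem h, if_neg h]; simp
      rw [e]
      exact mul_le_mul_of_nonneg_right (hcard t) (abs_nonneg _)
  · intro n _
    exact (abs_int q J L w measure_Ioc_lt_top).indicator measurableSet_Ioc

lemma mem_Ws {T : ℝ} {n l : ℕ} {S : Set ℝ} : l ∈ Ws T n S ↔ l ∈ Finset.Icc 1 (NZ T) ∧ l ≠ n ∧ ps T n l ∈ S := by
  unfold Ws
  simp only [Finset.mem_filter]

/-- the tuples -/
lemma tup_le {m : ℕ} (T : ℝ) (x y : Fin m → ℝ) (n : ℕ) (R : ℝ) (hx : ∀ i, -R ≤ x i) (hy : ∀ i, y i ≤ R) :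
    (tup T x y n : ℝ) ≤ ((Ws T n (Icc (-R) R)).card : ℝ) ^ m := by
  classical
  have h1 : tup T x y n ≤ (Fintype.piFinset (fun _ : Fin m => Ws T n (Icc (-R) R))).card := by
    unfold tup
    rw [← Set.ncard_coe_finset]
    refine Set.ncard_le_ncard ?_ (Finset.finite_toSet _)
    rintro l ⟨-, hl⟩
    rw [Finset.mem_coe, Fintype.mem_piFinset]
    intro i
    have h2 := hl i
    rw [mem_Ws] at h2 ⊢
    exact ⟨h2.1, h2.2.1, (hx i).trans h2.2.2.1, h2.2.2.2.trans (hy i)⟩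
  rw [Fintype.card_piFinset_const] at h1
  have h2 : ((tup T x y n : ℕ) : ℝ) ≤ (((Ws T n (Icc (-R) R)).card ^ m : ℕ) : ℝ) := by exact_mod_cast h1
  rwa [Nat.cast_pow] at h2

lemma count (T : ℝ) {R w M : ℝ} (hw : 0 < w) (hsc : sc T / w ≤ R) (hsc0 : 0 ≤ sc T) (hM : 0 ≤ M) (F : Finset ℕ)
    (hF : F ⊆ Finset.Icc 1 (NZ T)) (hg : ∀ n ∈ F, ((Ws T n (Icc (-R) R)).card : ℝ) ≤ M) (t : ℝ) :
    ((F.filter (fun n => t ∈ Set.Ioc (γ n - (1 / 2) / w) (γ n + (1 / 2) / w))).card : ℝ) ≤ M + 1 := by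
  classical
  set E := F.filter (fun n => t ∈ Set.Ioc (γ n - (1 / 2) / w) (γ n + (1 / 2) / w)) with hE
  rcases E.eq_empty_or_nonempty with h0 | ⟨n0, hn0⟩
  · rw [h0]
    simp
    linarith
  have hn0' := hn0
  rw [hE, Finset.mem_filter] at hn0'
  have hsub : E.erase n0 ⊆ Ws T n0 (Icc (-R) R) := by
    intro l hl
    rw [Finset.mem_erase, hE, Finset.mem_filter] at hl
    obtain ⟨hne, hlF, hlt⟩ := hl
    rw [mem_Ws]
    refine ⟨hF hlF, hne, ?_⟩
    have h1 := hn0'.2.1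
    have h2 := hn0'.2.2
    have h3 := hlt.1
    have h4 := hlt.2
    have e : (1 / 2) / w + (1 / 2) / w = 1 / w := by ring
    have h5 : |γ l - γ n0| ≤ 1 / w := by
      rw [abs_le]
      constructor <;> linarith
    have h6 : |ps T n0 l| ≤ R := by
      unfold ps
      rw [abs_mul, abs_of_nonneg hsc0]
      calc |γ l - γ n0| * sc T ≤ 1 / w * sc T := mul_le_mul_of_nonneg_right h5 hsc0
        _ = sc T / w := by ring
        _ ≤ R := hsc
    exact abs_le.1 h6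
  have h7 := Finset.card_le_card hsub
  have h8 := Finset.card_erase_add_one hn0
  have h9 : ((E.erase n0).card : ℝ) ≤ M := (by exact_mod_cast h7 : ((E.erase n0).card : ℝ) ≤
    ((Ws T n0 (Icc (-R) R)).card : ℝ)).trans (hg n0 hn0'.1)
  have h10 : (E.card : ℝ) = (E.erase n0).card + 1 := by exact_mod_cast h8.symm
  rw [h10]
  linarith

/-- Cauchy-Schwarz for the bad indices -/
lemma bad (s F : Finset ℕ) (hF : F ⊆ s) (K B : ℕ → ℝ) (hK : ∀ n, 0 ≤ K n) (m k : ℕ) {M c3 c2 : ℝ} (hM : 0 < M)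
    (hbad : ∀ n ∈ F, M ≤ K n) (h3 : ∑ n ∈ s, K n ^ (2 * m + k) ≤ c3) (h2 : ∑ n ∈ s, B n ^ 2 ≤ c2) :
    ∑ n ∈ F, K n ^ m * |B n| ≤ Real.sqrt (c3 / M ^ k * c2) := by
  have h4 := Finset.sum_mul_sq_le_sq_mul_sq F (fun n => K n ^ m) (fun n => |B n|)
  have h5 : ∑ n ∈ F, (K n ^ m) ^ 2 ≤ c3 / M ^ k := by
    rw [le_div_iff₀ (by positivity), Finset.sum_mul]
    refine le_trans ?_ h3
    refine le_trans (Finset.sum_le_sum fun n hn => ?_) (Finset.sum_le_sum_of_subset_of_nonneg hF fun n _ _ => by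
      have := hK n
      positivity)
    have h6 := hbad n hn
    have h7 := hK n
    calc (K n ^ m) ^ 2 * M ^ k ≤ (K n ^ m) ^ 2 * K n ^ k := by gcongr
      _ = K n ^ (2 * m + k) := by rw [← pow_mul, ← pow_add]; congr 1; ring
  have h6 : ∑ n ∈ F, |B n| ^ 2 ≤ c2 := by
    refine le_trans ?_ h2
    refine le_trans (Finset.sum_le_sum_of_subset_of_nonneg hF fun n _ _ => by positivity) (le_of_eq ?_)
    exact Finset.sum_congr rfl fun n _ => sq_abs _
  have h8 : 0 ≤ ∑ n ∈ F, (K n ^ m) ^ 2 := Finset.sum_nonneg fun n _ => sq_nonneg _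
  have h9 : 0 ≤ ∑ n ∈ F, |B n| ^ 2 := Finset.sum_nonneg fun n _ => sq_nonneg _
  apply Real.le_sqrt_of_sq_le
  exact h4.trans (mul_le_mul h5 h6 h9 (h8.trans h5))

lemma J_bad {J : ℕ} (hJ : 1 ≤ J) {C3 C2 X : ℝ} (h3 : 0 < C3) (h2 : 0 < C2) (hX : 0 ≤ X) :
    Real.sqrt (C3 * X / (J : ℝ) ^ 4 * (C2 * J * X)) = Real.sqrt (C3 * C2) * (J : ℝ) ^ (-(3 / 2 : ℝ)) * X := by
  have hJ0 : (0 : ℝ) < J := by exact_mod_cast hJ
  have e : ((J : ℝ) ^ (-(3 / 2 : ℝ))) ^ 2 = ((J : ℝ) ^ 3)⁻¹ := by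
    rw [← Real.rpow_natCast ((J : ℝ) ^ (-(3 / 2 : ℝ))) 2, ← Real.rpow_mul hJ0.le, ← Real.rpow_natCast (J : ℝ) 3,
      ← Real.rpow_neg hJ0.le]
    congr 1
    norm_num
  have h4 : C3 * X / (J : ℝ) ^ 4 * (C2 * J * X) = (Real.sqrt (C3 * C2) * (J : ℝ) ^ (-(3 / 2 : ℝ)) * X) ^ 2 := by
    rw [mul_pow, mul_pow, Real.sq_sqrt (by positivity), e]
    field_simp
  rw [h4, Real.sqrt_sq (by positivity)]

lemma J_good {J : ℕ} (hJ : 1 ≤ J) : (J : ℝ) ^ (1 / 4 : ℝ) / Real.sqrt J = (J : ℝ) ^ (-(1 / 4 : ℝ)) := by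
  have hJ0 : (0 : ℝ) < J := by exact_mod_cast hJ
  rw [Real.sqrt_eq_rpow, ← Real.rpow_sub hJ0]
  congr 1
  norm_num

end BLK

open BLK in
theorem t_BLK (hL1 : S_L1) (hL2 : S_L2) (hMOMK : S_MOMK) (hNZ : S_NZ) : S_BLK := by
  classical
  intro RH
  obtain ⟨q, C1, hC1, hL1⟩ := hL1 RH
  obtain ⟨C2, hC2, hL2⟩ := hL2 RH q
  refine ⟨q, fun m x y => ?_⟩
  obtain ⟨R, hR2, hRx, hRy⟩ : ∃ R : ℝ, 2 ≤ R ∧ (∀ i, -R ≤ x i) ∧ ∀ i, y i ≤ R := by
    have h0 : ∀ i, |x i| + |y i| ≤ ∑ i, (|x i| + |y i|) := fun i =>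
      Finset.single_le_sum (f := fun i => |x i| + |y i|) (fun i _ => by positivity) (Finset.mem_univ i)
    refine ⟨2 + ∑ i, (|x i| + |y i|), ?_, fun i => ?_, fun i => ?_⟩
    · have : 0 ≤ ∑ i, (|x i| + |y i|) := Finset.sum_nonneg fun i _ => by positivity
      linarith
    · have h1 := h0 i
      have h2 := neg_abs_le (x i)
      have h3 := abs_nonneg (y i)
      linarith
    · have h1 := h0 i
      have h2 := le_abs_self (y i)
      have h3 := abs_nonneg (x i)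
      linarith
  obtain ⟨C3, hC3, hM3⟩ := hMOMK RH (2 * m + 16 * (m + 1)) R (by linarith)
  refine ⟨2 * C1 + Real.sqrt (C3 * C2), by positivity, fun J hJ i => ?_⟩
  obtain ⟨T0, hT0⟩ := hL1 J hJ
  have hJ' : (1 : ℝ) ≤ J := by exact_mod_cast hJ
  have hJ0 : (0 : ℝ) < J := by linarith
  obtain ⟨M, hM⟩ : ∃ M : ℝ, M = (J : ℝ) ^ (1 / (4 * ((m : ℝ) + 1))) := ⟨_, rfl⟩
  have hM1 : 1 ≤ M := by
    rw [hM]
    exact Real.one_le_rpow hJ' (by positivity)
  have hM0 : 0 < M := by linarith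
  have hMm : M ^ (m + 1) = (J : ℝ) ^ (1 / 4 : ℝ) := by
    rw [hM, ← Real.rpow_natCast, ← Real.rpow_mul hJ0.le]
    congr 1
    push_cast
    field_simp
  have hM16 : M ^ (16 * (m + 1)) = (J : ℝ) ^ 4 := by
    rw [mul_comm, pow_mul, hMm, ← Real.rpow_natCast, ← Real.rpow_mul hJ0.le, ← Real.rpow_natCast (J : ℝ) 4]
    congr 1
    norm_num
  have hpi := Real.pi_pos
  have hlog2 : 0 < Real.log 2 := Real.log_pos (by norm_num)
  have ev1 : ∀ᶠ T : ℝ in atTop, T0 ≤ T / 2 ^ (i + 1) :=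
    (tendsto_id.atTop_div_const (by positivity)).eventually_ge_atTop T0
  have ev2 : ∀ᶠ T : ℝ in atTop, (i + 1) * Real.log 2 + 2 * Real.pi * (2 ^ q * 4 ^ J + 1) +
      (i + 1) * Real.log 2 * 4 ^ J + 2 * (i + 1) * Real.log 2 ≤ Real.log T :=
    Real.tendsto_log_atTop.eventually_ge_atTop _
  filter_upwards [ev1, ev2, eventually_ge_atTop (1 : ℝ), hL2 J hJ, hM3] with T h1 h2 h3 h4 h5
  have hT0' : 0 < T := by linarith
  obtain ⟨T1, hT1⟩ : ∃ T1 : ℝ, T1 = T / 2 ^ (i + 1) := ⟨_, rfl⟩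
  have hT1p : 0 < T1 := by rw [hT1]; positivity
  have hT2 : T / 2 ^ i = 2 * T1 := by
    rw [hT1, pow_succ]
    field_simp
  have hlogT1 : Real.log T1 = Real.log T - (i + 1) * Real.log 2 := by
    rw [hT1, Real.log_div hT0'.ne' (by positivity), Real.log_pow]
    push_cast
    ring
  obtain ⟨w, hw⟩ : ∃ w : ℝ, w = sc T1 := ⟨_, rfl⟩
  have hi0 : (0 : ℝ) ≤ i := Nat.cast_nonneg i
  have p1 : 0 ≤ (i + 1) * Real.log 2 := by positivity
  have p2 : 0 < 2 * Real.pi * (2 ^ q * 4 ^ J + 1) := by positivity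
  have p3 : 0 ≤ (i + 1) * Real.log 2 * 4 ^ J := by positivity
  have p4 : 0 ≤ 2 * (i + 1) * Real.log 2 := by positivity
  have hlogT : 0 < Real.log T := by linarith
  have hlogT1p : 0 < Real.log T1 := by rw [hlogT1]; linarith
  have hwe : w = Real.log T1 / (2 * Real.pi) := by rw [hw]; rfl
  have hw1 : 2 ^ q * 4 ^ J + 1 ≤ w := by
    rw [hwe, le_div_iff₀ (by positivity), hlogT1]
    linarith
  have hqJ : (1 : ℝ) ≤ 2 ^ q * 4 ^ J := by
    have a1 : (1 : ℝ) ≤ 2 ^ q := one_le_pow₀ (by norm_num)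
    have a2 : (1 : ℝ) ≤ 4 ^ J := one_le_pow₀ (by norm_num)
    nlinarith
  have hw0 : 0 < w := by linarith
  have hsc : sc T = Real.log T / (2 * Real.pi) := rfl
  have hsc0 : 0 < sc T := by rw [hsc]; positivity
  have hrat : w / sc T = Real.log T1 / Real.log T := by
    rw [hwe, hsc]
    field_simp
  have hρ1 : w / sc T ≤ 1 := by
    rw [hrat, div_le_one hlogT, hlogT1]
    linarith
  have hρ0 : 1 - 1 / 4 ^ J ≤ w / sc T := by
    rw [hrat, hlogT1, sub_div, div_self hlogT.ne']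
    have : (i + 1) * Real.log 2 / Real.log T ≤ 1 / 4 ^ J := by
      rw [div_le_div_iff₀ hlogT (by positivity)]
      linarith
    linarith
  have hsc2 : sc T / w ≤ 2 := by
    rw [div_le_iff₀ hw0, hsc, hwe, hlogT1, ← mul_div_assoc, div_le_div_iff_of_pos_right (by positivity)]
    linarith
  have hT1T : 2 * T1 ≤ T := by
    rw [← hT2]
    exact div_le_self hT0'.le (one_le_pow₀ (by norm_num))
  -- notation
  obtain ⟨K, hK⟩ : ∃ K : ℕ → ℝ, K = fun n => ((Ws T n (Icc (-R) R)).card : ℝ) := ⟨_, rfl⟩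
  obtain ⟨B, hB⟩ : ∃ B : ℕ → ℝ, B = fun n => 2 ^ q * cc J - ∑ l ∈ Finset.Icc 1 (NZ T), gbar q J ((γ l - γ n) * w) := ⟨_, rfl⟩
  have hK0 : ∀ n, 0 ≤ K n := fun n => by rw [hK]; positivity
  have hBsq : ∑ n ∈ Finset.Icc 1 (NZ T), B n ^ 2 ≤ C2 * J * (T * Real.log T) := by
    refine le_trans (le_of_eq ?_) (h4 (w / sc T) hρ0 hρ1)
    refine Finset.sum_congr rfl fun n _ => ?_
    rw [hB]
    simp only
    congr 2
    refine Finset.sum_congr rfl fun l _ => ?_
    congr 1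
    unfold ps
    field_simp
  have hKs : ∑ n ∈ Finset.Icc 1 (NZ T), K n ^ (2 * m + 16 * (m + 1)) ≤ C3 * (T * Real.log T) := by
    rw [hK]
    exact h5
  have hblk : blk T i ⊆ Finset.Icc 1 (NZ T) := by
    unfold blk
    exact Finset.filter_subset _ _
  have hblk2 : ∀ n ∈ blk T i, T1 + 1 < γ n ∧ γ n ≤ 2 * T1 - 1 := by
    intro n hn
    unfold blk at hn
    simp only [Finset.mem_filter] at hn
    rw [← hT1, hT2] at hn
    exact hn.2
  have hX0 : 0 ≤ T * Real.log T := by positivity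
  -- reduction
  have hred : |∑ n ∈ blk T i, (tup T x y n : ℝ) *
      (2 ^ q * cc J - ∑ l ∈ Finset.Icc 1 (NZ T), gbar q J ((γ l - γ n) * sc (T / 2 ^ (i + 1))))| ≤
      ∑ n ∈ blk T i, K n ^ m * |B n| := by
    refine (Finset.abs_sum_le_sum_abs _ _).trans (Finset.sum_le_sum fun n _ => ?_)
    rw [abs_mul, Nat.abs_cast, ← hT1, ← hw]
    have e : B n = 2 ^ q * cc J - ∑ l ∈ Finset.Icc 1 (NZ T), gbar q J ((γ l - γ n) * w) := by rw [hB]
    rw [← e]
    refine mul_le_mul_of_nonneg_right ?_ (abs_nonneg _)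
    rw [hK]
    exact tup_le T x y n R hRx hRy
  refine hred.trans ?_
  rw [← Finset.sum_filter_add_sum_filter_not (blk T i) (fun n => K n ≤ M)]
  -- bad
  have hbadle : ∑ n ∈ (blk T i).filter (fun n => ¬ K n ≤ M), K n ^ m * |B n| ≤
      Real.sqrt (C3 * C2) * (J : ℝ) ^ (-(3 / 2 : ℝ)) * (T * Real.log T) := by
    have h6 := bad (Finset.Icc 1 (NZ T)) ((blk T i).filter (fun n => ¬ K n ≤ M))
      ((Finset.filter_subset _ _).trans hblk) K B hK0 m (16 * (m + 1)) hM0 (fun n hn => by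
        rw [Finset.mem_filter] at hn
        exact (not_le.1 hn.2).le) hKs hBsq
    rw [hM16] at h6
    exact h6.trans (le_of_eq (J_bad hJ hC3 hC2 hX0))
  -- good
  have hgoodle : ∑ n ∈ (blk T i).filter (fun n => K n ≤ M), K n ^ m * |B n| ≤
      2 * C1 * ((J : ℝ) ^ (-(1 / 4 : ℝ)) / 2 ^ i) * (T * Real.log T) := by
    set Fg := (blk T i).filter (fun n => K n ≤ M) with hFg
    have hFgs : Fg ⊆ Finset.Icc 1 (NZ T) := (Finset.filter_subset _ _).trans hblk
    have hFgK : ∀ n ∈ Fg, K n ≤ M := fun n hn => (Finset.mem_filter.1 hn).2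
    have hFgb : ∀ n ∈ Fg, T1 + 1 < γ n ∧ γ n ≤ 2 * T1 - 1 := fun n hn => hblk2 n (Finset.mem_filter.1 hn).1
    have hhalf : (1 / 2) / w ≤ 1 / 4 := by
      rw [div_le_iff₀ hw0]
      linarith
    have hBn : ∀ n ∈ Fg, |B n| ≤ w * ∫ t in Set.Ioc (γ n - (1 / 2) / w) (γ n + (1 / 2) / w),
        |DD q J (Finset.Icc 1 (NZ (4 * T1))) w t| := by
      intro n hn
      have h6 := abs_brk q J (Finset.Icc 1 (NZ T)) hw0 (γ n)
      have e : B n = 2 ^ q * cc J - ∑ l ∈ Finset.Icc 1 (NZ T), gbar q J ((γ l - γ n) * w) := by rw [hB]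
      rw [← e] at h6
      refine h6.trans (le_of_eq ?_)
      congr 1
      refine setIntegral_congr_fun measurableSet_Ioc fun t ht => ?_
      have h7 := (hFgb n hn).2
      have h8 : t + (2 ^ q * 4 ^ J + 1 / 4) / w ≤ 2 * T1 := by
        have h9 : (2 ^ q * 4 ^ J + 1 / 4) / w + (1 / 2) / w ≤ 1 := by
          rw [← add_div, div_le_one hw0]
          linarith
        have h10 := ht.2
        linarith
      have h11 : DD q J (Finset.Icc 1 (NZ T)) w t = DD q J (Finset.Icc 1 (NZ (4 * T1))) w t :=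
        DD_eq hNZ (U := 2 * T1) (by linarith) hw0 rfl h8 (hNZ.2.2.1 hT1T)
          (hNZ.2.2.1 (show 2 * T1 ≤ 4 * T1 by linarith))
      exact congrArg abs h11
    have hint : ∫ t in Set.Ioc T1 (2 * T1), |DD q J (Finset.Icc 1 (NZ (4 * T1))) w t| ≤ C1 / Real.sqrt J * T1 := by
      have h6 := hT0 T1 (by rw [hT1]; exact h1)
      rw [intervalIntegral.integral_of_le (by linarith), ← hw] at h6
      exact h6
    have hcnt := good q J (Finset.Icc 1 (NZ (4 * T1))) hw0 Fg T1 (2 * T1) (M + 1) (by linarith)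
      (fun n hn => by
        have h7 := hFgb n hn
        constructor <;> linarith)
      (fun t => count T hw0 (hsc2.trans hR2) hsc0.le hM0.le Fg hFgs (fun n hn => by
        have := hFgK n hn
        rw [hK] at this
        exact this) t)
    have hIn : 0 ≤ ∫ t in Set.Ioc T1 (2 * T1), |DD q J (Finset.Icc 1 (NZ (4 * T1))) w t| :=
      integral_nonneg fun t => abs_nonneg _
    have hw2 : w ≤ Real.log T := by
      rw [hwe, div_le_iff₀ (by positivity), hlogT1]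
      have : Real.log T * 1 ≤ Real.log T * (2 * Real.pi) := by
        apply mul_le_mul_of_nonneg_left _ hlogT.le
        have := Real.pi_gt_three
        linarith
      linarith
    calc ∑ n ∈ Fg, K n ^ m * |B n|
        ≤ ∑ n ∈ Fg, M ^ m * (w * ∫ t in Set.Ioc (γ n - (1 / 2) / w) (γ n + (1 / 2) / w),
            |DD q J (Finset.Icc 1 (NZ (4 * T1))) w t|) := by
          refine Finset.sum_le_sum fun n hn => ?_
          exact mul_le_mul (pow_le_pow_left₀ (hK0 n) (hFgK n hn) m) (hBn n hn) (abs_nonneg _) (by positivity)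
      _ = M ^ m * w * ∑ n ∈ Fg, ∫ t in Set.Ioc (γ n - (1 / 2) / w) (γ n + (1 / 2) / w),
            |DD q J (Finset.Icc 1 (NZ (4 * T1))) w t| := by
          rw [Finset.mul_sum]
          refine Finset.sum_congr rfl fun n _ => ?_
          ring
      _ ≤ M ^ m * w * ((M + 1) * (C1 / Real.sqrt J * T1)) := by
          refine mul_le_mul_of_nonneg_left (hcnt.trans ?_) (by positivity)
          exact mul_le_mul_of_nonneg_left hint (by linarith)
      _ ≤ M ^ m * w * ((2 * M) * (C1 / Real.sqrt J * T1)) := by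
          refine mul_le_mul_of_nonneg_left ?_ (by positivity)
          refine mul_le_mul_of_nonneg_right (by linarith) (by positivity)
      _ = 2 * C1 * (M ^ (m + 1) / Real.sqrt J) * (T1 * w) := by
          rw [pow_succ]
          ring
      _ = 2 * C1 * (J : ℝ) ^ (-(1 / 4 : ℝ)) * (T1 * w) := by rw [hMm, J_good hJ]
      _ ≤ 2 * C1 * (J : ℝ) ^ (-(1 / 4 : ℝ)) * (T / 2 ^ i * Real.log T) := by
          refine mul_le_mul_of_nonneg_left ?_ (by positivity)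
          rw [hT2]
          exact mul_le_mul (by linarith) hw2 hw0.le (by linarith)
      _ = _ := by ring
  refine (add_le_add hgoodle hbadle).trans ?_
  have q1 : 0 ≤ (J : ℝ) ^ (-(1 / 4 : ℝ)) / 2 ^ i := by positivity
  have q2 : 0 ≤ (J : ℝ) ^ (-(3 / 2 : ℝ)) := by positivity
  have q3 : 0 ≤ Real.sqrt (C3 * C2) := Real.sqrt_nonneg _
  have e : (2 * C1 + Real.sqrt (C3 * C2)) * ((J : ℝ) ^ (-(1 / 4 : ℝ)) / 2 ^ i + (J : ℝ) ^ (-(3 / 2 : ℝ))) * (T * Real.log T) =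
      (2 * C1 * ((J : ℝ) ^ (-(1 / 4 : ℝ)) / 2 ^ i) * (T * Real.log T) +
        Real.sqrt (C3 * C2) * (J : ℝ) ^ (-(3 / 2 : ℝ)) * (T * Real.log T)) +
      (2 * C1 * (J : ℝ) ^ (-(3 / 2 : ℝ)) * (T * Real.log T) +
        Real.sqrt (C3 * C2) * ((J : ℝ) ^ (-(1 / 4 : ℝ)) / 2 ^ i) * (T * Real.log T)) := by ring
  rw [e]
  have q4 : 0 ≤ 2 * C1 * (J : ℝ) ^ (-(3 / 2 : ℝ)) * (T * Real.log T) +
        Real.sqrt (C3 * C2) * ((J : ℝ) ^ (-(1 / 4 : ℝ)) / 2 ^ i) * (T * Real.log T) := by positivity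
  linarith

end

end Pool.Agent.J4.H44.RG
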