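import Pool.Agent.J4.H44.RG.T_CELU

/-!
# Project HC, piece CELL (helper43): lower bound of the weighted sum by a step minorant
-/

set_option autoImplicit false

open Filter Topology MeasureTheory Set

namespace Pool.Agent.J4.H44.RG

open Pool.Agent.J4.H44.KL

namespace CELL

lemma one {m K : ℕ} {x y : Fin m → ℝ} {T δ r : ℝ} {G : ℝ → ℝ} {a b s : Fin K → ℝ} {n : ℕ}
    (hn : n ∈ Finset.Icc 1 (NZ T))
    (hr : ∀ v, |v| ≤ r → 1 - δ ≤ G v) (h0 : 0 ≤ r) (hx : ∀ i, -r ≤ x i) (hy : ∀ i, y i ≤ r)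
    (hG : ∀ v, ∑ k, s k * (Icc (a k) (b k)).indicator (fun _ => (1 : ℝ)) v ≤ G v)
    (L : Fin m → ℕ) (hL : L ∈ inj (fun i => Ws T n (Icc (x i) (y i)))) :
    ∑ k, s k * ((Ws T n (Icc (a k) (b k)) \ Finset.univ.image L).card : ℝ) + (1 - δ) * (m + 1) ≤
      ∑ l ∈ Finset.Icc 1 (NZ T), G (ps T n l) := by
  classical
  rw [mem_inj] at hL
  obtain ⟨hL1, hL2⟩ := hL
  have hL3 : ∀ i, L i ∈ Finset.Icc 1 (NZ T) ∧ L i ≠ n ∧ ps T n (L i) ∈ Icc (x i) (y i) :=
    fun i => CELU.mem_Ws.1 (hL1 i)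
  have hsub : insert n (Finset.univ.image L) ⊆ Finset.Icc 1 (NZ T) := by
    intro l hl
    rw [Finset.mem_insert, Finset.mem_image] at hl
    rcases hl with rfl | ⟨i, _, rfl⟩
    · exact hn
    · exact (hL3 i).1
  have hcard : (insert n (Finset.univ.image L)).card = m + 1 := by
    rw [Finset.card_insert_of_notMem, Finset.card_image_of_injective _ hL2, Finset.card_univ,
      Fintype.card_fin]
    rw [Finset.mem_image]
    rintro ⟨i, _, hi⟩
    exact (hL3 i).2.1 hi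
  rw [← Finset.sum_sdiff hsub, ← CELU.cells]
  refine add_le_add (Finset.sum_le_sum fun l _ => hG _) ?_
  have e1 : (1 - δ) * ((m : ℝ) + 1) = ∑ _l ∈ insert n (Finset.univ.image L), (1 - δ) := by
    rw [Finset.sum_const, hcard, nsmul_eq_mul]
    push_cast
    ring
  rw [e1]
  refine Finset.sum_le_sum fun l hl => hr _ ?_
  rw [Finset.mem_insert, Finset.mem_image] at hl
  rcases hl with rfl | ⟨i, _, rfl⟩
  · have : ps T l l = 0 := by
      unfold ps
      rw [sub_self, zero_mul]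
    rw [this, abs_zero]
    exact h0
  · have h1 := (hL3 i).2.2
    rw [abs_le]
    exact ⟨(hx i).trans h1.1, h1.2.trans (hy i)⟩

end CELL

/-- CELL -/
theorem t_CELL : S_CELL := by
  intro m x y T δ r G K a b s _ _ hr h0 hx hy _ _ hG
  have key : ∀ n ∈ Finset.Icc 1 (NZ T),
      ∑ k, s k * (tup T (Fin.cons (a k) x : Fin (m + 1) → ℝ) (Fin.cons (b k) y) n : ℝ) +
        (1 - δ) * (m + 1) * (tup T x y n : ℝ) ≤
      (tup T x y n : ℝ) * ∑ l ∈ Finset.Icc 1 (NZ T), G (ps T n l) := by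
    intro n hn
    rw [CELU.tup_eq T x y n]
    have e1 : ∀ k, (tup T (Fin.cons (a k) x : Fin (m + 1) → ℝ) (Fin.cons (b k) y) n : ℝ) =
        ∑ L ∈ inj (fun i => Ws T n (Icc (x i) (y i))),
          ((Ws T n (Icc (a k) (b k)) \ Finset.univ.image L).card : ℝ) := by
      intro k
      rw [CELU.tup_cons]
      push_cast
      rfl
    simp_rw [e1, Finset.mul_sum (s := inj (fun i => Ws T n (Icc (x i) (y i))))]
    rw [Finset.sum_comm]
    have e2 : ((inj (fun i => Ws T n (Icc (x i) (y i)))).card : ℝ) *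
        ∑ l ∈ Finset.Icc 1 (NZ T), G (ps T n l) =
        ∑ _L ∈ inj (fun i => Ws T n (Icc (x i) (y i))),
          ∑ l ∈ Finset.Icc 1 (NZ T), G (ps T n l) := by
      rw [Finset.sum_const, nsmul_eq_mul]
    have e3 : (1 - δ) * ((m : ℝ) + 1) * ((inj (fun i => Ws T n (Icc (x i) (y i)))).card : ℝ) =
        ∑ _L ∈ inj (fun i => Ws T n (Icc (x i) (y i))), (1 - δ) * ((m : ℝ) + 1) := by
      rw [Finset.sum_const, nsmul_eq_mul, mul_comm]
    rw [e2, e3, ← Finset.sum_add_distrib]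
    exact Finset.sum_le_sum fun L hL => CELL.one hn hr h0 hx hy hG L hL
  refine le_trans (le_of_eq ?_) (Finset.sum_le_sum key)
  rw [Finset.sum_add_distrib, Finset.sum_comm]
  simp_rw [← Finset.mul_sum]

end Pool.Agent.J4.H44.RG
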