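import Pool.Agent.J4.H44.RG.Defs
import Pool.Agent.J4.H44.KL.Tup

/-!
# Project HC, piece CELU (helper43): upper bound of the weighted sum by a step majorant
-/

set_option autoImplicit false

open Filter Topology MeasureTheory Set

namespace Pool.Agent.J4.H44.RG

open Pool.Agent.J4.H44.KL

namespace CELU

lemma mem_Ws {T : ℝ} {n l : ℕ} {S : Set ℝ} :
    l ∈ Ws T n S ↔ l ∈ Finset.Icc 1 (NZ T) ∧ l ≠ n ∧ ps T n l ∈ S := by
  classical
  unfold Ws
  rw [Finset.mem_filter]

lemma tup_eq {m : ℕ} (T : ℝ) (x y : Fin m → ℝ) (n : ℕ) :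
    tup T x y n = (inj (fun i => Ws T n (Icc (x i) (y i)))).card := by
  unfold tup
  rw [← Set.ncard_coe_finset]
  congr 1
  ext l
  rw [Finset.mem_coe, mem_inj]
  exact and_comm

lemma tup_cons {m : ℕ} (T : ℝ) (x y : Fin m → ℝ) (a b : ℝ) (n : ℕ) :
    tup T (Fin.cons a x : Fin (m + 1) → ℝ) (Fin.cons b y) n =
      ∑ L ∈ inj (fun i => Ws T n (Icc (x i) (y i))),
        (Ws T n (Icc a b) \ Finset.univ.image L).card := by
  rw [tup_eq, ← inj_cons]
  congr 2
  funext i
  refine Fin.cases ?_ (fun j => ?_) i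
  · simp
  · simp

/-- the part of the sum outside of a finite set, in terms of cells -/
lemma cells {K : ℕ} (T : ℝ) (n : ℕ) (a b s : Fin K → ℝ) (D : Finset ℕ) :
    ∑ l ∈ Finset.Icc 1 (NZ T) \ insert n D,
        ∑ k, s k * (Icc (a k) (b k)).indicator (fun _ => (1 : ℝ)) (ps T n l) =
      ∑ k, s k * ((Ws T n (Icc (a k) (b k)) \ D).card : ℝ) := by
  classical
  rw [Finset.sum_comm]
  refine Finset.sum_congr rfl fun k _ => ?_
  rw [← Finset.mul_sum]
  congr 1
  have h : Ws T n (Icc (a k) (b k)) \ D =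
      (Finset.Icc 1 (NZ T) \ insert n D).filter (fun l => ps T n l ∈ Icc (a k) (b k)) := by
    ext l
    rw [Finset.mem_sdiff, mem_Ws, Finset.mem_filter, Finset.mem_sdiff, Finset.mem_insert]
    tauto
  rw [h, Finset.card_filter]
  push_cast
  refine Finset.sum_congr rfl fun l _ => ?_
  rw [Set.indicator_apply]

lemma one {m K : ℕ} {T : ℝ} {G : ℝ → ℝ} {a b s : Fin K → ℝ} {n : ℕ} (h1 : ∀ v, G v ≤ 1)
    (hG : ∀ v, G v ≤ ∑ k, s k * (Icc (a k) (b k)).indicator (fun _ => (1 : ℝ)) v)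
    (L : Fin m → ℕ) :
    ∑ l ∈ Finset.Icc 1 (NZ T), G (ps T n l) ≤
      ∑ k, s k * ((Ws T n (Icc (a k) (b k)) \ Finset.univ.image L).card : ℝ) + (m + 1) := by
  classical
  have e1 : ∑ l ∈ Finset.Icc 1 (NZ T), G (ps T n l) =
      ∑ l ∈ Finset.Icc 1 (NZ T) \ insert n (Finset.univ.image L), G (ps T n l) +
      ∑ l ∈ Finset.Icc 1 (NZ T) ∩ insert n (Finset.univ.image L), G (ps T n l) := by
    rw [← Finset.sum_sdiff (Finset.inter_subset_left :
      Finset.Icc 1 (NZ T) ∩ insert n (Finset.univ.image L) ⊆ Finset.Icc 1 (NZ T))]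
    congr 2
    ext l
    simp only [Finset.mem_sdiff, Finset.mem_inter]
    tauto
  have e2 : ∑ l ∈ Finset.Icc 1 (NZ T) ∩ insert n (Finset.univ.image L), G (ps T n l) ≤ m + 1 := by
    refine (Finset.sum_le_sum fun l _ => h1 _).trans ?_
    rw [Finset.sum_const, nsmul_eq_mul, mul_one]
    have e3 : (Finset.Icc 1 (NZ T) ∩ insert n (Finset.univ.image L)).card ≤ m + 1 := by
      refine (Finset.card_le_card Finset.inter_subset_right).trans ?_
      refine (Finset.card_insert_le _ _).trans ?_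
      have : (Finset.univ.image L).card ≤ m := by
        refine Finset.card_image_le.trans ?_
        rw [Finset.card_univ, Fintype.card_fin]
      omega
    exact_mod_cast e3
  rw [e1, ← cells]
  refine add_le_add (Finset.sum_le_sum fun l _ => hG _) e2

end CELU

/-- CELU -/
theorem t_CELU : S_CELU := by
  intro m x y T G K a b s _ _ h1 _ hG
  have key : ∀ n : ℕ, (tup T x y n : ℝ) * ∑ l ∈ Finset.Icc 1 (NZ T), G (ps T n l) ≤
      ∑ k, s k * (tup T (Fin.cons (a k) x : Fin (m + 1) → ℝ) (Fin.cons (b k) y) n : ℝ) +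
        (m + 1) * (tup T x y n : ℝ) := by
    intro n
    rw [CELU.tup_eq T x y n]
    have e1 : ∀ k, (tup T (Fin.cons (a k) x : Fin (m + 1) → ℝ) (Fin.cons (b k) y) n : ℝ) =
        ∑ L ∈ inj (fun i => Ws T n (Icc (x i) (y i))),
          ((Ws T n (Icc (a k) (b k)) \ Finset.univ.image L).card : ℝ) := by
      intro k
      rw [CELU.tup_cons]
      push_cast
      rfl
    simp_rw [e1, Finset.mul_sum (s := inj (fun i => Ws T n (Icc (x i) (y i))))]
    rw [Finset.sum_comm]
    have e2 : ((inj (fun i => Ws T n (Icc (x i) (y i)))).card : ℝ) *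
        ∑ l ∈ Finset.Icc 1 (NZ T), G (ps T n l) =
        ∑ _L ∈ inj (fun i => Ws T n (Icc (x i) (y i))),
          ∑ l ∈ Finset.Icc 1 (NZ T), G (ps T n l) := by
      rw [Finset.sum_const, nsmul_eq_mul]
    have e3 : ((m : ℝ) + 1) * ((inj (fun i => Ws T n (Icc (x i) (y i)))).card : ℝ) =
        ∑ _L ∈ inj (fun i => Ws T n (Icc (x i) (y i))), ((m : ℝ) + 1) := by
      rw [Finset.sum_const, nsmul_eq_mul, mul_comm]
    rw [e2, e3, ← Finset.sum_add_distrib]
    exact Finset.sum_le_sum fun L _ => CELU.one h1 hG L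
  refine (Finset.sum_le_sum fun n _ => key n).trans (le_of_eq ?_)
  rw [Finset.sum_add_distrib, Finset.sum_comm]
  simp_rw [← Finset.mul_sum]

end Pool.Agent.J4.H44.RG
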