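import Pool.Agent.J4.H44.RG.Defs

set_option autoImplicit false

open Filter Topology MeasureTheory Set

namespace Pool.Agent.J4.H44.RG.FINLb

theorem piece (G F : ℝ → ℝ) (hG : Continuous G) (hG0 : ∀ v, 0 ≤ G v) (hG1 : ∀ v, G v ≤ 1)
    (hF : Continuous F) (hF0 : ∀ v, 0 ≤ F v) (M θ w p s : ℝ) (hM : ∀ v, F v ≤ M) (hM0 : 0 ≤ M)
    (hθ : 0 < θ) (hθ4 : θ ≤ 1 / 4) (hw : 0 < w) (hs : ∀ v ∈ Icc p (p + w), G v ≤ s + 2 * θ) :
    ∫ v in p..(p + w), G v * F v ≤
      s * (∫ v in (p + θ * w)..(p + w - θ * w), F v) + 4 * θ * M * w := by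
  have hcont : Continuous (fun v => G v * F v) := hG.mul hF
  have hθw : 0 < θ * w := mul_pos hθ hw
  have hθw4 : θ * w ≤ 1 / 4 * w := mul_le_mul_of_nonneg_right hθ4 hw.le
  have h1 : ∫ v in p..(p + w), G v * F v = (∫ v in p..(p + θ * w), G v * F v) +
      (∫ v in (p + θ * w)..(p + w - θ * w), G v * F v) +
      ∫ v in (p + w - θ * w)..(p + w), G v * F v := by
    rw [intervalIntegral.integral_add_adjacent_intervals (hcont.intervalIntegrable _ _)
      (hcont.intervalIntegrable _ _), intervalIntegral.integral_add_adjacent_intervals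
      (hcont.intervalIntegrable _ _) (hcont.intervalIntegrable _ _)]
  have hGF : ∀ v, G v * F v ≤ M := by
    intro v
    calc G v * F v ≤ 1 * F v := mul_le_mul_of_nonneg_right (hG1 v) (hF0 v)
      _ ≤ M := by rw [one_mul]; exact hM v
  have h2 : ∫ v in p..(p + θ * w), G v * F v ≤ ∫ _v in p..(p + θ * w), M :=
    intervalIntegral.integral_mono_on (by linarith) (hcont.intervalIntegrable _ _)
      (continuous_const.intervalIntegrable _ _) (fun v _ => hGF v)
  have h3 : ∫ v in (p + w - θ * w)..(p + w), G v * F v ≤ ∫ _v in (p + w - θ * w)..(p + w), M :=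
    intervalIntegral.integral_mono_on (by linarith) (hcont.intervalIntegrable _ _)
      (continuous_const.intervalIntegrable _ _) (fun v _ => hGF v)
  have hc4 : Continuous (fun v => s * F v + 2 * θ * M) := (continuous_const.mul hF).add continuous_const
  have h4 : ∫ v in (p + θ * w)..(p + w - θ * w), G v * F v ≤
      ∫ v in (p + θ * w)..(p + w - θ * w), (s * F v + 2 * θ * M) := by
    refine intervalIntegral.integral_mono_on (by linarith) (hcont.intervalIntegrable _ _)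
      (hc4.intervalIntegrable _ _) (fun v hv => ?_)
    have h5 := hs v ⟨by linarith [hv.1], by linarith [hv.2]⟩
    calc G v * F v ≤ (s + 2 * θ) * F v := mul_le_mul_of_nonneg_right h5 (hF0 v)
      _ = s * F v + 2 * θ * F v := by ring
      _ ≤ s * F v + 2 * θ * M := by
        have := mul_le_mul_of_nonneg_left (hM v) (show 0 ≤ 2 * θ by linarith)
        linarith
  have h5 : ∫ v in (p + θ * w)..(p + w - θ * w), (s * F v + 2 * θ * M) =
      s * (∫ v in (p + θ * w)..(p + w - θ * w), F v) + (w - 2 * (θ * w)) * (2 * θ * M) := by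
    have hsF : Continuous (fun v => s * F v) := continuous_const.mul hF
    have h6 : Continuous (fun _ : ℝ => 2 * θ * M) := continuous_const
    rw [intervalIntegral.integral_add (hsF.intervalIntegrable _ _)
      (h6.intervalIntegrable _ _), intervalIntegral.integral_const_mul,
      intervalIntegral.integral_const, smul_eq_mul]
    ring
  rw [intervalIntegral.integral_const, smul_eq_mul] at h2 h3
  rw [h1]
  have h6 : 0 ≤ θ * M * (θ * w) := by positivity
  nlinarith

theorem cells (G F : ℝ → ℝ) (hG : Continuous G) (hG0 : ∀ v, 0 ≤ G v) (hG1 : ∀ v, G v ≤ 1)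
    (hF : Continuous F) (hF0 : ∀ v, 0 ≤ F v) (M : ℝ) (hM : ∀ v, F v ≤ M) (c d : ℝ) (hcd : c < d)
    (η : ℝ) (hη : 0 < η) :
    ∃ (K : ℕ) (a b s : Fin K → ℝ), (∀ k, c < a k ∧ a k ≤ b k ∧ b k < d) ∧ (∀ k, 0 ≤ s k) ∧
      (∀ v, ∑ k, s k * (Icc (a k) (b k)).indicator (fun _ => (1 : ℝ)) v ≤ G v) ∧
      (∫ v in c..d, G v * F v) - η ≤ ∑ k, s k * ∫ v in (a k)..(b k), F v := by
  have hM0 : 0 ≤ M := (hF0 0).trans (hM 0)
  have hdc : 0 < d - c := by linarith
  obtain ⟨θ, hθ, hθ4, hθη⟩ : ∃ θ : ℝ, 0 < θ ∧ θ ≤ 1 / 4 ∧ 4 * θ * M * (d - c) ≤ η := by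
    refine ⟨min (1 / 4) (η / (4 * (M + 1) * (d - c))), lt_min (by norm_num) (by positivity),
      min_le_left _ _, ?_⟩
    have h1 : min (1 / 4) (η / (4 * (M + 1) * (d - c))) ≤ η / (4 * (M + 1) * (d - c)) :=
      min_le_right _ _
    generalize min (1 / 4) (η / (4 * (M + 1) * (d - c))) = z at h1 ⊢
    rw [le_div_iff₀ (by positivity)] at h1
    rcases le_or_gt z 0 with hz | hz
    · have : 0 ≤ -z * M * (d - c) := by
        have : 0 ≤ -z := by linarith
        positivity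
      nlinarith
    · have : 0 ≤ z * (d - c) := by positivity
      nlinarith
  have huc : UniformContinuousOn G (Icc c d) :=
    isCompact_Icc.uniformContinuousOn_of_continuous hG.continuousOn
  obtain ⟨δ, hδ, hδG⟩ := Metric.uniformContinuousOn_iff.1 huc θ hθ
  obtain ⟨N, hN⟩ := exists_nat_gt ((d - c) / δ)
  have hN0 : (0 : ℝ) < N := lt_trans (by positivity) hN
  have hN0' : 0 < N := by exact_mod_cast hN0
  obtain ⟨w, hw⟩ : ∃ w, w = (d - c) / N := ⟨_, rfl⟩
  have hw0 : 0 < w := by rw [hw]; positivity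
  have hNw : N * w = d - c := by rw [hw]; field_simp
  have hwδ : w < δ := by
    rw [hw, div_lt_iff₀ hN0]
    rw [div_lt_iff₀ hδ] at hN
    linarith
  have hθw : 0 < θ * w := mul_pos hθ hw0
  have hθw4 : θ * w ≤ 1 / 4 * w := mul_le_mul_of_nonneg_right hθ4 hw0.le
  have hcell : ∀ k : Fin N, 0 ≤ (k : ℝ) * w ∧ ((k : ℝ) + 1) * w ≤ d - c := by
    intro k
    constructor
    · positivity
    · rw [← hNw]
      apply mul_le_mul_of_nonneg_right _ hw0.le
      exact_mod_cast k.2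
  have hnear : ∀ k : Fin N, ∀ v ∈ Icc (c + (k : ℝ) * w) (c + (k : ℝ) * w + w),
      |G v - G (c + (k : ℝ) * w)| < θ := by
    intro k v hv
    have h1 := hcell k
    have h2 := hδG v ⟨by linarith [hv.1, h1.1], by nlinarith [hv.2, h1.2]⟩ (c + (k : ℝ) * w)
      ⟨by linarith [h1.1], by nlinarith [h1.2]⟩ (by
        rw [Real.dist_eq, abs_of_nonneg (by linarith [hv.1])]
        linarith [hv.2])
    rwa [Real.dist_eq] at h2
  refine ⟨N, fun k => c + (k : ℝ) * w + θ * w, fun k => c + (k : ℝ) * w + w - θ * w,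
    fun k => max (G (c + (k : ℝ) * w) - θ) 0, ?_, fun k => le_max_right _ _, ?_, ?_⟩
  · intro k
    have h1 := hcell k
    refine ⟨by linarith [h1.1], by linarith, by nlinarith [h1.2]⟩
  · intro v
    by_cases h : ∃ k : Fin N, v ∈ Icc (c + (k : ℝ) * w + θ * w) (c + (k : ℝ) * w + w - θ * w)
    · obtain ⟨k, hk⟩ := h
      rw [Finset.sum_eq_single k]
      · rw [indicator_of_mem hk, mul_one]
        apply max_le _ (hG0 v)
        have := (abs_lt.1 (hnear k v ⟨by linarith [hk.1], by linarith [hk.2]⟩)).1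
        linarith
      · intro j _ hjk
        rw [indicator_of_notMem, mul_zero]
        rintro ⟨h1, h2⟩
        rcases lt_or_gt_of_ne hjk with h3 | h3
        · have h4 : ((j : ℕ) : ℝ) + 1 ≤ ((k : ℕ) : ℝ) := by exact_mod_cast h3
          have h5 := mul_le_mul_of_nonneg_right h4 hw0.le
          nlinarith [hk.1]
        · have h4 : ((k : ℕ) : ℝ) + 1 ≤ ((j : ℕ) : ℝ) := by exact_mod_cast h3
          have h5 := mul_le_mul_of_nonneg_right h4 hw0.le
          nlinarith [hk.2]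
      · intro h1
        exact absurd (Finset.mem_univ k) h1
    · push Not at h
      rw [Finset.sum_eq_zero]
      · exact hG0 v
      · intro k _
        rw [indicator_of_notMem (h k), mul_zero]
  · have hcont : Continuous (fun v => G v * F v) := hG.mul hF
    have h1 := intervalIntegral.sum_integral_adjacent_intervals (μ := volume)
      (f := fun v => G v * F v) (a := fun j : ℕ => c + (j : ℝ) * w) (n := N)
      (fun k _ => hcont.intervalIntegrable _ _)
    have e1 : c + ((0 : ℕ) : ℝ) * w = c := by simp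
    have e2 : c + ((N : ℕ) : ℝ) * w = d := by linarith
    rw [e1, e2, Finset.sum_range] at h1
    rw [← h1]
    have h2 : ∀ k : Fin N, ∫ v in (c + ((k : ℕ) : ℝ) * w)..(c + (((k : ℕ) + 1 : ℕ) : ℝ) * w), G v * F v ≤
        max (G (c + (k : ℝ) * w) - θ) 0 *
          (∫ v in (c + (k : ℝ) * w + θ * w)..(c + (k : ℝ) * w + w - θ * w), F v) +
          4 * θ * M * w := by
      intro k
      have h3 := piece G F hG hG0 hG1 hF hF0 M θ w (c + (k : ℝ) * w)
        (max (G (c + (k : ℝ) * w) - θ) 0) hM hM0 hθ hθ4 hw0 (fun v hv => by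
          have h4 := (abs_lt.1 (hnear k v hv)).2
          have h5 := le_max_left (G (c + (k : ℝ) * w) - θ) 0
          linarith)
      have e3 : c + (((k : ℕ) + 1 : ℕ) : ℝ) * w = c + (k : ℝ) * w + w := by push_cast; ring
      rw [e3]
      exact h3
    have h3 := Finset.sum_le_sum (fun k (_ : k ∈ (Finset.univ : Finset (Fin N))) => h2 k)
    rw [Finset.sum_add_distrib, Finset.sum_const, Finset.card_univ, Fintype.card_fin,
      nsmul_eq_mul] at h3
    have h4 : (N : ℝ) * (4 * θ * M * w) = 4 * θ * M * (d - c) := by rw [← hNw]; ring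
    rw [h4] at h3
    linarith

/-- deterministic inequality: `ρ` = ratio of the box, `rB` = ratio of the base box -/
theorem upper (h1 : S_Z) (h2 : S_SIN) (h3 : S_JFU) (h4 : S_CELL) (h5 : S_CNT)
    (hRH : RiemannHypothesis) (m : ℕ) (hm : Level m) (hl : LevelLower (m + 1))
    (x y : Fin m → ℝ) (hxy : ∀ i, x i ≤ y i) (a b : ℝ) (hab : a ≤ b) :
    ∃ C₀ : ℝ, 0 < C₀ ∧ ∀ ε : ℝ, 0 < ε → ε < 1 → (∀ i, -(1 / ε) ≤ x i) → (∀ i, y i ≤ 1 / ε) →
      -(1 / ε) ≤ a → b ≤ 1 / ε → ∀ᶠ T : ℝ in atTop,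
        (1 - ε) * ratio T (Fin.cons a x : Fin (m + 1) → ℝ) (Fin.cons b y) ≤
          J (Fin.cons a x : Fin (m + 1) → ℝ) (Fin.cons b y) + C₀ * ε := by
  obtain ⟨hJ, hFc, hF0, ⟨M, hM⟩, hJ0⟩ := h3 m x y
  obtain ⟨C, hC, hsin⟩ := h2 m x y
  refine ⟨C + (m + 1) * J x y + 2 * Real.pi + 1, by positivity, ?_⟩
  intro ε hε hε1 hx hy ha hb
  obtain ⟨G, R, hN, hZ⟩ := h1 hRH m x y ε hε
  have hs := hsin ε G R hε hε1.le hN
  -- the support
  obtain ⟨R', hR', hR'a, hR'b⟩ : ∃ R' : ℝ, R < R' ∧ -R' < a ∧ b < R' := by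
    refine ⟨max R (max (-a) b) + 1, ?_, ?_, ?_⟩
    · have := le_max_left R (max (-a) b); linarith
    · have h6 := (le_max_left (-a) b).trans (le_max_right R (max (-a) b)); linarith
    · have h6 := (le_max_right (-a) b).trans (le_max_right R (max (-a) b)); linarith
  have hsupp : ∀ v, R' ≤ |v| → G v = 0 := fun v hv => hN.supp v (lt_of_lt_of_le hR' hv)
  have hGF : Continuous (fun v => G v * jB x y v) := hN.cont.mul hFc
  have hcs : ∀ f : ℝ → ℝ, HasCompactSupport (fun v => G v * f v) := by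
    intro f
    refine HasCompactSupport.of_support_subset_isCompact (isCompact_Icc (a := -R') (b := R')) ?_
    intro v hv
    rw [Function.mem_support] at hv
    by_contra h6
    apply hv
    have h7 : R' ≤ |v| := by
      by_contra h8
      push Not at h8
      exact h6 (abs_le.1 h8.le)
    rw [hsupp v h7, zero_mul]
  have hiGF : Integrable (fun v => G v * jB x y v) := hGF.integrable_of_hasCompactSupport (hcs _)
  have hiG : Integrable G := by
    have h6 : HasCompactSupport G := by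
      have h7 := hcs (fun _ => 1)
      simpa using h7
    exact hN.cont.integrable_of_hasCompactSupport h6
  -- the main term
  have hmain : (∫ v, G v) * J x y - (m + 1) * J x y ≤ (∫ v, G v * jB x y v) + C * ε := by
    have e1 : ∫ v, G v * (jB x y v - J x y) = (∫ v, G v * jB x y v) - (∫ v, G v) * J x y := by
      rw [← integral_mul_const, ← integral_sub hiGF (hiG.mul_const _)]
      congr 1
      ext v
      ring
    rw [e1] at hs
    have := (abs_le.1 hs).1
    linarith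
  have hsplit : ∫ v, G v * jB x y v = (∫ v in (-R')..a, G v * jB x y v) +
      (∫ v in a..b, G v * jB x y v) + ∫ v in b..R', G v * jB x y v := by
    rw [intervalIntegral.integral_add_adjacent_intervals (hGF.intervalIntegrable _ _)
      (hGF.intervalIntegrable _ _), intervalIntegral.integral_add_adjacent_intervals
      (hGF.intervalIntegrable _ _) (hGF.intervalIntegrable _ _)]
    rw [intervalIntegral.integral_of_le (by linarith)]
    rw [setIntegral_eq_integral_of_forall_compl_eq_zero]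
    intro v hv
    have h7 : R' ≤ |v| := by
      by_contra h8
      push Not at h8
      have h9 := abs_lt.1 h8
      exact hv ⟨h9.1, h9.2.le⟩
    rw [hsupp v h7, zero_mul]
  have hmid : ∫ v in a..b, G v * jB x y v ≤
      J (Fin.cons a x : Fin (m + 1) → ℝ) (Fin.cons b y) := by
    rw [hJ a b hab]
    refine intervalIntegral.integral_mono_on hab (hGF.intervalIntegrable _ _)
      (hFc.intervalIntegrable _ _) (fun v _ => ?_)
    calc G v * jB x y v ≤ 1 * jB x y v := mul_le_mul_of_nonneg_right (hN.le_one v) (hF0 v)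
      _ = jB x y v := one_mul _
  -- the cells
  obtain ⟨K₁, a₁, b₁, s₁, hc₁, hs₁, hst₁, hi₁⟩ := cells G (jB x y) hN.cont hN.nonneg hN.le_one hFc
    hF0 M hM (-R') a hR'a (ε / 4) (by positivity)
  obtain ⟨K₂, a₂, b₂, s₂, hc₂, hs₂, hst₂, hi₂⟩ := cells G (jB x y) hN.cont hN.nonneg hN.le_one hFc
    hF0 M hM b R' hR'b (ε / 4) (by positivity)
  -- weight and error
  obtain ⟨W, hW⟩ : ∃ W, W = |(∫ v, G v) - (1 - ε) * (m + 1)| + ∑ k, s₁ k + ∑ k, s₂ k := ⟨_, rfl⟩
  have hW0 : 0 ≤ W := by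
    rw [hW]
    have := Finset.sum_nonneg (fun k (_ : k ∈ (Finset.univ : Finset (Fin K₁))) => hs₁ k)
    have := Finset.sum_nonneg (fun k (_ : k ∈ (Finset.univ : Finset (Fin K₂))) => hs₂ k)
    positivity
  obtain ⟨η, hη, hηW⟩ : ∃ η : ℝ, 0 < η ∧ η * W ≤ ε / 2 := by
    refine ⟨ε / 2 / (W + 1), by positivity, ?_⟩
    rw [div_mul_eq_mul_div, div_le_iff₀ (by linarith)]
    nlinarith
  have hB := Metric.tendsto_nhds.1 (hm x y hxy) η hη
  have hcell : ∀ c d : ℝ, c ≤ d → ∀ᶠ T : ℝ in atTop, (∫ v in c..d, jB x y v) - η ≤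
      ratio T (Fin.cons c x : Fin (m + 1) → ℝ) (Fin.cons d y) := by
    intro c d hcd
    have h6 := hl (Fin.cons c x : Fin (m + 1) → ℝ) (Fin.cons d y) (by
      intro i
      refine Fin.cases ?_ (fun j => ?_) i
      · simpa using hcd
      · simpa using hxy j) η hη
    rw [hJ c d hcd] at h6
    exact h6
  have hE₁ : ∀ᶠ T : ℝ in atTop, ∀ k : Fin K₁, (∫ v in (a₁ k)..(b₁ k), jB x y v) - η ≤
      ratio T (Fin.cons (a₁ k) x : Fin (m + 1) → ℝ) (Fin.cons (b₁ k) y) :=
    eventually_all.2 fun k => hcell _ _ (hc₁ k).2.1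
  have hE₂ : ∀ᶠ T : ℝ in atTop, ∀ k : Fin K₂, (∫ v in (a₂ k)..(b₂ k), jB x y v) - η ≤
      ratio T (Fin.cons (a₂ k) x : Fin (m + 1) → ℝ) (Fin.cons (b₂ k) y) :=
    eventually_all.2 fun k => hcell _ _ (hc₂ k).2.1
  filter_upwards [hZ, hB, hE₁, hE₂, eventually_gt_atTop 1] with T hZT hBT hE1T hE2T hT1
  have hD : 0 < T / (2 * Real.pi) * Real.log T :=
    mul_pos (div_pos (by linarith) (by positivity)) (Real.log_pos hT1)
  obtain ⟨D, hDd⟩ : ∃ D, D = T / (2 * Real.pi) * Real.log T := ⟨_, rfl⟩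
  have hTD : T * Real.log T = 2 * Real.pi * D := by rw [hDd]; field_simp
  rw [← hDd] at hD
  -- CELL
  let ι := Option (Fin K₁ ⊕ Fin K₂)
  let e : Fin (Fintype.card ι) ≃ ι := (Fintype.equivFin ι).symm
  let A' : ι → ℝ := fun o => o.elim a (Sum.elim a₁ a₂)
  let B' : ι → ℝ := fun o => o.elim b (Sum.elim b₁ b₂)
  let S' : ι → ℝ := fun o => o.elim (1 - ε) (Sum.elim s₁ s₂)
  have hS' : ∀ o, 0 ≤ S' o := by
    rintro (_ | k | k)
    · show 0 ≤ 1 - ε
      linarith
    · exact hs₁ k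
    · exact hs₂ k
  have hsumι : ∀ f : ι → ℝ, ∑ k, f (e k) = f none + (∑ k, f (some (Sum.inl k)) +
      ∑ k, f (some (Sum.inr k))) := by
    intro f
    rw [Equiv.sum_comp e f, Fintype.sum_option, Fintype.sum_sum_type]
  have hstep : ∀ v, ∑ k, S' (e k) * (Icc (A' (e k)) (B' (e k))).indicator (fun _ => (1 : ℝ)) v ≤
      G v := by
    intro v
    rw [hsumι (fun o => S' o * (Icc (A' o) (B' o)).indicator (fun _ => (1 : ℝ)) v)]
    show (1 - ε) * (Icc a b).indicator (fun _ => (1 : ℝ)) v +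
      (∑ k, s₁ k * (Icc (a₁ k) (b₁ k)).indicator (fun _ => (1 : ℝ)) v +
        ∑ k, s₂ k * (Icc (a₂ k) (b₂ k)).indicator (fun _ => (1 : ℝ)) v) ≤ G v
    have z1 : a ≤ v → ∑ k, s₁ k * (Icc (a₁ k) (b₁ k)).indicator (fun _ => (1 : ℝ)) v = 0 := by
      intro hv
      apply Finset.sum_eq_zero
      intro k _
      rw [indicator_of_notMem, mul_zero]
      rintro ⟨_, h7⟩
      linarith [(hc₁ k).2.2]
    have z2 : v ≤ b → ∑ k, s₂ k * (Icc (a₂ k) (b₂ k)).indicator (fun _ => (1 : ℝ)) v = 0 := by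
      intro hv
      apply Finset.sum_eq_zero
      intro k _
      rw [indicator_of_notMem, mul_zero]
      rintro ⟨h7, _⟩
      linarith [(hc₂ k).1]
    rcases lt_or_ge v a with hva | hva
    · rw [indicator_of_notMem (fun h7 => absurd h7.1 (not_le.2 hva)), mul_zero, zero_add,
        z2 (hva.le.trans hab), add_zero]
      exact hst₁ v
    · rcases lt_or_ge b v with hvb | hvb
      · rw [indicator_of_notMem (fun h7 => absurd h7.2 (not_le.2 hvb)), mul_zero, zero_add,
          z1 hva, zero_add]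
        exact hst₂ v
      · have hvI : v ∈ Icc a b := ⟨hva, hvb⟩
        rw [indicator_of_mem hvI, z1 hva, z2 hvb, mul_one, add_zero, add_zero]
        exact hN.flat v (abs_le.2 ⟨by linarith, by linarith⟩)
  have hcl := h4 m x y T ε (1 / ε) G (Fintype.card ι) (fun k => A' (e k)) (fun k => B' (e k))
    (fun k => S' (e k)) (by linarith) hN.nonneg hN.flat (by positivity) hx hy hε1.le
    (fun k => hS' (e k)) hstep
  rw [hsumι (fun o => S' o * ∑ n ∈ Finset.Icc 1 (NZ T),
    (tup T (Fin.cons (A' o) x : Fin (m + 1) → ℝ) (Fin.cons (B' o) y) n : ℝ))] at hcl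
  -- counts
  have hcnt : ∀ (k : ℕ) (u w : Fin k → ℝ), ∑ n ∈ Finset.Icc 1 (NZ T), (tup T u w n : ℝ) =
      ratio T u w * D := by
    intro k u w
    have h6 := h5 k T u w (by linarith)
    unfold ratio
    rw [← hDd, div_mul_cancel₀ _ hD.ne', h6]
    push_cast
    rfl
  have hcl2 : (1 - ε) * (ratio T (Fin.cons a x : Fin (m + 1) → ℝ) (Fin.cons b y) * D) +
      (∑ k, s₁ k * (ratio T (Fin.cons (a₁ k) x : Fin (m + 1) → ℝ) (Fin.cons (b₁ k) y) * D) +
        ∑ k, s₂ k * (ratio T (Fin.cons (a₂ k) x : Fin (m + 1) → ℝ) (Fin.cons (b₂ k) y) * D)) +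
      (1 - ε) * (m + 1) * (ratio T x y * D) ≤
      ∑ n ∈ Finset.Icc 1 (NZ T), (tup T x y n : ℝ) *
        ∑ l ∈ Finset.Icc 1 (NZ T), G (ps T n l) := by
    simp only [hcnt] at hcl
    exact hcl
  have hZ2 : ∑ n ∈ Finset.Icc 1 (NZ T), (tup T x y n : ℝ) *
        ∑ l ∈ Finset.Icc 1 (NZ T), G (ps T n l) ≤
      (∫ v, G v) * (ratio T x y * D) + ε * (2 * Real.pi * D) := by
    have h6 := (abs_le.1 hZT).1
    rw [hTD] at h6
    have h7 : ∑ n ∈ Finset.Icc 1 (NZ T), (tup T x y n : ℝ) *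
        ((∫ v, G v) - ∑ l ∈ Finset.Icc 1 (NZ T), G (ps T n l)) =
        (∫ v, G v) * (ratio T x y * D) - ∑ n ∈ Finset.Icc 1 (NZ T), (tup T x y n : ℝ) *
          ∑ l ∈ Finset.Icc 1 (NZ T), G (ps T n l) := by
      rw [← hcnt, Finset.mul_sum, ← Finset.sum_sub_distrib]
      refine Finset.sum_congr rfl fun n _ => ?_
      ring
    rw [h7] at h6
    linarith
  have hdiv : (1 - ε) * ratio T (Fin.cons a x : Fin (m + 1) → ℝ) (Fin.cons b y) +
      (∑ k, s₁ k * ratio T (Fin.cons (a₁ k) x : Fin (m + 1) → ℝ) (Fin.cons (b₁ k) y) +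
        ∑ k, s₂ k * ratio T (Fin.cons (a₂ k) x : Fin (m + 1) → ℝ) (Fin.cons (b₂ k) y)) +
      (1 - ε) * (m + 1) * ratio T x y ≤ (∫ v, G v) * ratio T x y + ε * (2 * Real.pi) := by
    have h6 := hcl2.trans hZ2
    have e1 : ∑ k, s₁ k * (ratio T (Fin.cons (a₁ k) x : Fin (m + 1) → ℝ) (Fin.cons (b₁ k) y) * D) =
        (∑ k, s₁ k * ratio T (Fin.cons (a₁ k) x : Fin (m + 1) → ℝ) (Fin.cons (b₁ k) y)) * D := by
      rw [Finset.sum_mul]
      exact Finset.sum_congr rfl fun k _ => by ring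
    have e2 : ∑ k, s₂ k * (ratio T (Fin.cons (a₂ k) x : Fin (m + 1) → ℝ) (Fin.cons (b₂ k) y) * D) =
        (∑ k, s₂ k * ratio T (Fin.cons (a₂ k) x : Fin (m + 1) → ℝ) (Fin.cons (b₂ k) y)) * D := by
      rw [Finset.sum_mul]
      exact Finset.sum_congr rfl fun k _ => by ring
    rw [e1, e2] at h6
    refine le_of_mul_le_mul_right ?_ hD
    linarith
  have hl1 : (∑ k, s₁ k * ∫ v in (a₁ k)..(b₁ k), jB x y v) - η * ∑ k, s₁ k ≤
      ∑ k, s₁ k * ratio T (Fin.cons (a₁ k) x : Fin (m + 1) → ℝ) (Fin.cons (b₁ k) y) := by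
    rw [Finset.mul_sum, ← Finset.sum_sub_distrib]
    refine Finset.sum_le_sum fun k _ => ?_
    have := mul_le_mul_of_nonneg_left (hE1T k) (hs₁ k)
    linarith
  have hl2 : (∑ k, s₂ k * ∫ v in (a₂ k)..(b₂ k), jB x y v) - η * ∑ k, s₂ k ≤
      ∑ k, s₂ k * ratio T (Fin.cons (a₂ k) x : Fin (m + 1) → ℝ) (Fin.cons (b₂ k) y) := by
    rw [Finset.mul_sum, ← Finset.sum_sub_distrib]
    refine Finset.sum_le_sum fun k _ => ?_
    have := mul_le_mul_of_nonneg_left (hE2T k) (hs₂ k)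
    linarith
  have hrB : ((∫ v, G v) - (1 - ε) * (m + 1)) * ratio T x y ≤
      ((∫ v, G v) - (1 - ε) * (m + 1)) * J x y + η * |(∫ v, G v) - (1 - ε) * (m + 1)| := by
    have h6 : |ratio T x y - J x y| ≤ η := by
      rw [← Real.dist_eq]
      exact hBT.le
    have h7 : ((∫ v, G v) - (1 - ε) * (m + 1)) * (ratio T x y - J x y) ≤
        |(∫ v, G v) - (1 - ε) * (m + 1)| * η := by
      refine (le_abs_self _).trans ?_
      rw [abs_mul]
      exact mul_le_mul_of_nonneg_left h6 (abs_nonneg _)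
    linarith
  have hWη : η * |(∫ v, G v) - (1 - ε) * (m + 1)| + η * (∑ k, s₁ k) + η * (∑ k, s₂ k) ≤ ε / 2 := by
    have : η * W = η * |(∫ v, G v) - (1 - ε) * (m + 1)| + η * (∑ k, s₁ k) + η * (∑ k, s₂ k) := by
      rw [hW]; ring
    linarith
  have hfin : (1 - ε) * ratio T (Fin.cons a x : Fin (m + 1) → ℝ) (Fin.cons b y) ≤
      J (Fin.cons a x : Fin (m + 1) → ℝ) (Fin.cons b y) + C * ε + ε * (m + 1) * J x y +
        2 * Real.pi * ε + ε := by
    have e3 : ((∫ v, G v) - (1 - ε) * (m + 1)) * J x y =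
        (∫ v, G v) * J x y - (m + 1) * J x y + ε * (m + 1) * J x y := by ring
    linarith
  linarith

theorem t_FINL (h1 : S_Z) (h2 : S_SIN) (h3 : S_JFU) (h4 : S_CELL) (h5 : S_CNT) : S_FINL := by
  intro hRH m hm hl x y hxy
  obtain ⟨x', hx'⟩ : ∃ x' : Fin m → ℝ, x' = Fin.tail x := ⟨_, rfl⟩
  obtain ⟨y', hy'⟩ : ∃ y' : Fin m → ℝ, y' = Fin.tail y := ⟨_, rfl⟩
  have ex : (Fin.cons (x 0) x' : Fin (m + 1) → ℝ) = x := by rw [hx']; exact Fin.cons_self_tail x
  have ey : (Fin.cons (y 0) y' : Fin (m + 1) → ℝ) = y := by rw [hy']; exact Fin.cons_self_tail y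
  have hxy' : ∀ i, x' i ≤ y' i := by
    intro i
    rw [hx', hy']
    exact hxy i.succ
  obtain ⟨C₀, hC₀, hup⟩ := upper h1 h2 h3 h4 h5 hRH m hm hl x' y' hxy' (x 0) (y 0) (hxy 0)
  rw [ex, ey] at hup
  have hJ0 : 0 ≤ J x y := by
    have h6 := (h3 m x' y').1 (x 0) (y 0) (hxy 0)
    rw [ex, ey] at h6
    rw [h6]
    exact intervalIntegral.integral_nonneg (hxy 0) (fun v _ => (h3 m x' y').2.2.1 v)
  -- bound for the coordinates
  obtain ⟨R, hR, hRx, hRy⟩ : ∃ R : ℝ, 0 < R ∧ (∀ i, -R ≤ x i) ∧ ∀ i, y i ≤ R := by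
    refine ⟨1 + ∑ i, (|x i| + |y i|), ?_, ?_, ?_⟩
    · have : 0 ≤ ∑ i, (|x i| + |y i|) := Finset.sum_nonneg fun i _ => by positivity
      linarith
    · intro i
      have h6 := Finset.single_le_sum (f := fun i => |x i| + |y i|)
        (fun j _ => by positivity) (Finset.mem_univ i)
      have h7 := neg_abs_le (x i)
      have h8 := abs_nonneg (y i)
      linarith
    · intro i
      have h6 := Finset.single_le_sum (f := fun i => |x i| + |y i|)
        (fun j _ => by positivity) (Finset.mem_univ i)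
      have h7 := le_abs_self (y i)
      have h8 := abs_nonneg (x i)
      linarith
  rw [Metric.tendsto_nhds]
  intro ε₀ hε₀
  obtain ⟨ε, hε, hε1, hεR, hεC⟩ : ∃ ε : ℝ, 0 < ε ∧ ε < 1 ∧ R ≤ 1 / ε ∧
      ε * (C₀ + J x y + ε₀ / 2) ≤ ε₀ / 2 := by
    refine ⟨min (1 / 2) (min (1 / R) (ε₀ / 2 / (C₀ + J x y + ε₀ / 2))), ?_, ?_, ?_, ?_⟩
    · refine lt_min (by norm_num) (lt_min (by positivity) (by positivity))
    · exact lt_of_le_of_lt (min_le_left _ _) (by norm_num)
    · have h6 : min (1 / 2) (min (1 / R) (ε₀ / 2 / (C₀ + J x y + ε₀ / 2))) ≤ 1 / R :=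
        (min_le_right _ _).trans (min_le_left _ _)
      have h7 : 0 < min (1 / 2) (min (1 / R) (ε₀ / 2 / (C₀ + J x y + ε₀ / 2))) :=
        lt_min (by norm_num) (lt_min (by positivity) (by positivity))
      rw [le_div_iff₀ h7]
      rw [le_div_iff₀ hR] at h6
      linarith
    · have h6 : min (1 / 2) (min (1 / R) (ε₀ / 2 / (C₀ + J x y + ε₀ / 2))) ≤
          ε₀ / 2 / (C₀ + J x y + ε₀ / 2) := (min_le_right _ _).trans (min_le_right _ _)
      rwa [le_div_iff₀ (by positivity)] at h6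
  have hu := hup ε hε hε1 (fun i => by
      have := hRx i.succ
      rw [hx']
      show -(1 / ε) ≤ x i.succ
      linarith) (fun i => by
      have := hRy i.succ
      rw [hy']
      show y i.succ ≤ 1 / ε
      linarith) (by have := hRx 0; linarith) (by have := hRy 0; linarith)
  filter_upwards [hu, hl x y hxy (ε₀ / 2) (by positivity)] with T hT1 hT2
  rw [Real.dist_eq, abs_lt]
  constructor
  · linarith
  · have h6 : (1 - ε) * ratio T x y ≤ (1 - ε) * (J x y + ε₀ / 2) := by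
      refine hT1.trans ?_
      linarith
    have h7 := le_of_mul_le_mul_left h6 (by linarith : (0 : ℝ) < 1 - ε)
    linarith

end Pool.Agent.J4.H44.RG.FINLb
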