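import Pool.Agent.J4.H44.RG.Defs

/-! Project HC, piece FINU. -/

set_option autoImplicit false
set_option linter.all false

open Filter Topology MeasureTheory Set

namespace Pool.Agent.J4.H44.RG

namespace FINU

lemma cover (f : ℕ → ℝ) (v : ℝ) (h0 : f 0 ≤ v) : ∀ M : ℕ, 0 < M → v ≤ f M →
    ∃ k < M, f k ≤ v ∧ v ≤ f (k + 1) := by
  intro M
  induction M with
  | zero => intro h; exact absurd h (lt_irrefl _)
  | succ M ih =>
    intro _ h1
    by_cases h2 : v ≤ f M
    · rcases Nat.eq_zero_or_pos M with h3 | h3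
      · subst h3
        exact ⟨0, Nat.zero_lt_one, h0, h1⟩
      · obtain ⟨k, hk, h4⟩ := ih h3 h2
        exact ⟨k, by omega, h4⟩
    · exact ⟨M, by omega, (not_le.1 h2).le, h1⟩

lemma steps (φ : ℝ → ℝ) (hφ : Continuous φ) (h0 : ∀ v, 0 ≤ φ v) {c d : ℝ} (hcd : c ≤ d) {ω : ℝ}
    (hω : 0 < ω) (j : ℝ → ℝ) (hj : Continuous j) (hj0 : ∀ v, 0 ≤ j v) :
    ∃ (K : ℕ) (a b s : Fin K → ℝ), (∀ k, a k ≤ b k) ∧ (∀ k, 0 ≤ s k) ∧
      (∀ v ∈ Icc c d, φ v ≤ ∑ k, s k * (Icc (a k) (b k)).indicator (fun _ => (1 : ℝ)) v) ∧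
      ∑ k, s k * (∫ v in (a k)..(b k), j v) ≤ ∫ v in c..d, (φ v + ω) * j v := by
  have huc : UniformContinuousOn φ (Icc c d) :=
    isCompact_Icc.uniformContinuousOn_of_continuous hφ.continuousOn
  rw [Metric.uniformContinuousOn_iff] at huc
  obtain ⟨δ, hδ, h1⟩ := huc (ω / 2) (by positivity)
  obtain ⟨M, hM⟩ := exists_nat_gt ((d - c) / δ)
  have hM0' : (0 : ℝ) < M := lt_of_le_of_lt (div_nonneg (by linarith) hδ.le) hM
  have hM0 : 0 < M := by exact_mod_cast hM0'
  have hmesh : (d - c) / M < δ := by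
    rw [div_lt_iff₀ hM0']
    rw [div_lt_iff₀ hδ] at hM
    linarith
  have hmesh0 : 0 ≤ (d - c) / M := div_nonneg (by linarith) hM0'.le
  set p : ℕ → ℝ := fun k => c + k * ((d - c) / M) with hp
  have hp0 : p 0 = c := by simp [hp]
  have hpM : p M = d := by
    simp only [hp]
    field_simp
    ring
  have hstep : ∀ k, p (k + 1) = p k + (d - c) / M := by
    intro k
    simp only [hp]
    push_cast
    ring
  have hmono : Monotone p := monotone_nat_of_le_succ fun k => by rw [hstep]; linarith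
  have hmem : ∀ k ≤ M, p k ∈ Icc c d := by
    intro k hk
    constructor
    · rw [← hp0]; exact hmono (Nat.zero_le _)
    · rw [← hpM]; exact hmono hk
  have hclose : ∀ k < M, ∀ v, p k ≤ v → v ≤ p (k + 1) → |φ v - φ (p k)| < ω / 2 := by
    intro k hk v h2 h3
    have hv : v ∈ Icc c d := ⟨(hmem k hk.le).1.trans h2, h3.trans (hmem (k + 1) hk).2⟩
    have := h1 v hv (p k) (hmem k hk.le) (by
      rw [Real.dist_eq, abs_of_nonneg (by linarith)]
      rw [hstep] at h3
      linarith)
    rwa [Real.dist_eq] at this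
  refine ⟨M, fun k => p k, fun k => p (k + 1), fun k => φ (p k) + ω / 2,
    fun k => hmono (Nat.le_succ _), fun k => by have := h0 (p k); positivity, ?_, ?_⟩
  · intro v hv
    obtain ⟨k, hk, h2, h3⟩ := cover p v (by rw [hp0]; exact hv.1) M hM0 (by rw [hpM]; exact hv.2)
    have h4 := hclose k hk v h2 h3
    have h5 : φ v ≤ φ (p k) + ω / 2 := by
      have := (abs_lt.1 h4).2
      linarith
    have h6 : (φ (p k) + ω / 2) *
        (Icc (p k) (p (k + 1))).indicator (fun _ => (1 : ℝ)) v ≤
        ∑ i : Fin M, (φ (p i) + ω / 2) *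
          (Icc (p i) (p (i + 1))).indicator (fun _ => (1 : ℝ)) v := by
      refine Finset.single_le_sum (f := fun i : Fin M => (φ (p i) + ω / 2) *
          (Icc (p i) (p (i + 1))).indicator (fun _ => (1 : ℝ)) v) (fun i _ => ?_)
          (Finset.mem_univ (⟨k, hk⟩ : Fin M))
      have h7 : 0 ≤ (Icc (p i) (p (i + 1))).indicator (fun _ => (1 : ℝ)) v :=
        indicator_nonneg (fun _ _ => zero_le_one) _
      have h8 := h0 (p i)
      positivity
    rw [indicator_of_mem (show v ∈ Icc (p k) (p (k + 1)) from ⟨h2, h3⟩), mul_one] at h6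
    exact h5.trans h6
  · have h2 : ∀ k < M, (φ (p k) + ω / 2) * (∫ v in (p k)..(p (k + 1)), j v) ≤
        ∫ v in (p k)..(p (k + 1)), (φ v + ω) * j v := by
      intro k hk
      rw [← intervalIntegral.integral_const_mul]
      refine intervalIntegral.integral_mono_on (hmono (Nat.le_succ _))
        ((continuous_const.mul hj).intervalIntegrable _ _)
        (((hφ.add continuous_const).mul hj).intervalIntegrable _ _) fun v hv => ?_
      have h4 := hclose k hk v hv.1 hv.2
      refine mul_le_mul_of_nonneg_right ?_ (hj0 v)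
      have := (abs_lt.1 h4).1
      linarith
    have h3 : ∑ k ∈ Finset.range M, (∫ v in (p k)..(p (k + 1)), (φ v + ω) * j v) =
        ∫ v in (p 0)..(p M), (φ v + ω) * j v :=
      intervalIntegral.sum_integral_adjacent_intervals fun k _ =>
        ((hφ.add continuous_const).mul hj).intervalIntegrable _ _
    rw [hp0, hpM] at h3
    rw [← h3, ← Fin.sum_univ_eq_sum_range
      (fun k => ∫ v in (p k)..(p (k + 1)), (φ v + ω) * j v) M]
    exact Finset.sum_le_sum fun k _ => h2 k k.2

/-- the integrals of the weight -/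
lemma weight {ε R : ℝ} {G : ℝ → ℝ} (hG : Nice ε G R) (hε : 0 < ε) (j : ℝ → ℝ) (hj : Continuous j)
    (hj0 : ∀ v, 0 ≤ j v) (c : ℝ) {a b R' : ℝ} (ha : |a| ≤ 1 / ε) (hb : |b| ≤ 1 / ε) (hab : a ≤ b)
    (hR : R < R') :
    (∫ v, G v * (j v - c)) = (∫ v, G v * j v) - (∫ v, G v) * c ∧
    (∫ v, G v * j v) = (∫ v in (-R')..a, G v * j v) + (∫ v in a..b, G v * j v) +
      ∫ v in b..R', G v * j v ∧
    (1 - ε) * (∫ v in a..b, j v) ≤ ∫ v in a..b, G v * j v := by
  have hcs : HasCompactSupport G := by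
    refine HasCompactSupport.intro (isCompact_Icc : IsCompact (Icc (-R) R)) fun v hv => ?_
    apply hG.supp
    by_contra h
    exact hv (abs_le.1 (not_lt.1 h))
  have hi1 : Integrable G := hG.cont.integrable_of_hasCompactSupport hcs
  have hi2 : Integrable fun v => G v * j v :=
    (hG.cont.mul hj).integrable_of_hasCompactSupport hcs.mul_right
  refine ⟨?_, ?_, ?_⟩
  · have h1 : (fun v => G v * (j v - c)) = fun v => G v * j v - G v * c := by
      funext v
      ring
    rw [h1, integral_sub hi2 (hi1.mul_const c), integral_mul_const]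
  · have h1 : Function.support (fun v => G v * j v) ⊆ Ioc (-R') R' := by
      intro v hv
      have h2 : G v ≠ 0 := left_ne_zero_of_mul hv
      have h3 : |v| ≤ R := by
        by_contra h
        exact h2 (hG.supp v (not_le.1 h))
      have h4 := abs_le.1 h3
      exact ⟨by linarith [h4.1], by linarith [h4.2]⟩
    have hint : ∀ u w : ℝ, IntervalIntegrable (fun v => G v * j v) volume u w := fun u w =>
      (hG.cont.mul hj).intervalIntegrable _ _
    rw [← intervalIntegral.integral_eq_integral_of_support_subset h1,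
      intervalIntegral.integral_add_adjacent_intervals (hint _ _) (hint _ _),
      intervalIntegral.integral_add_adjacent_intervals (hint _ _) (hint _ _)]
  · rw [← intervalIntegral.integral_const_mul]
    refine intervalIntegral.integral_mono_on hab ((continuous_const.mul hj).intervalIntegrable _ _)
      ((hG.cont.mul hj).intervalIntegrable _ _) fun v hv => ?_
    refine mul_le_mul_of_nonneg_right (hG.flat v ?_) (hj0 v)
    rw [abs_le] at ha hb ⊢
    exact ⟨ha.1.trans hv.1, hv.2.trans hb.2⟩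

lemma fin1 {W c1 c2 X r' D IG M J' ε₂ ε₁ B1 B2 : ℝ} (hcell : W ≤ c1 + c2 + X + M * (r' * D))
    (hz : IG * (r' * D) - W ≤ ε₁ * (2 * Real.pi * D)) (h1 : c1 ≤ B1 * D) (h2 : c2 ≤ B2 * D)
    (h3 : ((IG - M) * J' - ε₂) * D ≤ (IG - M) * r' * D) :
    ((IG - M) * J' - ε₂ - 2 * Real.pi * ε₁ - B1 - B2) * D ≤ X := by
  linarith

lemma fin2 {X IG M J' ε ε₂ ε₁ ω P0 P1 P2 Q1 Q2 Sa Sb C I : ℝ}
    (h1 : (IG - M) * J' - ε₂ - 2 * Real.pi * ε₁ - (P1 + ω * Q1 + Sa * ε₂) -
      (P2 + ω * Q2 + Sb * ε₂) ≤ X)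
    (h2 : P1 + P0 + P2 - IG * J' + M * J' ≤ C * ε₁) (h3 : (1 - ε₁) * I ≤ P0)
    (h4 : ω * (Q1 + Q2) ≤ ε / 4) (h5 : ε₁ * (I + C + 2 * Real.pi) ≤ ε / 2)
    (h6 : ε₂ * (1 + Sa + Sb) = ε / 4) : I - ε ≤ X := by
  linarith

end FINU

open FINU in
theorem t_FINU (hZ : S_Z) (hS : S_SIN) (hJ : S_JFU) (hC : S_CELU) (hN : S_CNT) : S_FINU := by
  intro hRH m hL hU x y hxy
  have lower : ∀ ε : ℝ, 0 < ε → ∀ᶠ T : ℝ in atTop, J x y - ε ≤ ratio T x y := by
    intro ε hε
    obtain ⟨a, x', hx⟩ : ∃ (a : ℝ) (x' : Fin m → ℝ), x = (Fin.cons a x' : Fin (m + 1) → ℝ) :=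
      ⟨x 0, Fin.tail x, (Fin.cons_self_tail x).symm⟩
    obtain ⟨b, y', hy⟩ : ∃ (b : ℝ) (y' : Fin m → ℝ), y = (Fin.cons b y' : Fin (m + 1) → ℝ) :=
      ⟨y 0, Fin.tail y, (Fin.cons_self_tail y).symm⟩
    have hab : a ≤ b := by
      have := hxy 0
      rw [hx, hy] at this
      simpa using this
    have hxy' : ∀ i, x' i ≤ y' i := by
      intro i
      have := hxy i.succ
      rw [hx, hy] at this
      simpa using this
    obtain ⟨C, hC0, hSIN⟩ := hS m x' y'
    obtain ⟨hJint, hjc, hjn, -, hJ0⟩ := hJ m x' y'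
    have hI : J x y = ∫ v in a..b, jB x' y' v := by rw [hx, hy]; exact hJint a b hab
    have hI0 : 0 ≤ ∫ v in a..b, jB x' y' v :=
      intervalIntegral.integral_nonneg hab fun v _ => hjn v
    set I := ∫ v in a..b, jB x' y' v with hIdef
    have hπ := Real.pi_pos
    have hE : 0 < I + C + 2 * Real.pi := by positivity
    set ε₁ := min (1 / (|a| + |b| + 1)) (ε / (2 * (I + C + 2 * Real.pi))) with hε₁
    have hab0 : 0 < |a| + |b| + 1 := by positivity
    have hε₁0 : 0 < ε₁ := lt_min (by positivity) (by positivity)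
    have hε₁1 : ε₁ ≤ 1 := by
      refine (min_le_left _ _).trans ?_
      rw [div_le_one hab0]
      linarith [abs_nonneg a, abs_nonneg b]
    have hinv : |a| + |b| + 1 ≤ 1 / ε₁ := by
      rw [le_div_iff₀ hε₁0]
      have := min_le_left (1 / (|a| + |b| + 1)) (ε / (2 * (I + C + 2 * Real.pi)))
      rw [← hε₁, le_div_iff₀ hab0] at this
      linarith
    have hεE : ε₁ * (I + C + 2 * Real.pi) ≤ ε / 2 := by
      have := min_le_right (1 / (|a| + |b| + 1)) (ε / (2 * (I + C + 2 * Real.pi)))
      rw [← hε₁, le_div_iff₀ (by positivity)] at this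
      linarith
    obtain ⟨G, R, hG, hZ'⟩ := hZ hRH m x' y' ε₁ hε₁0
    set R' := max R (|a| + |b|) + 1 with hR'
    have hRR' : R < R' := by
      have := le_max_left R (|a| + |b|)
      linarith
    have hR'a : -R' ≤ a := by
      have := le_max_right R (|a| + |b|)
      linarith [neg_abs_le a, abs_nonneg b]
    have hR'b : b ≤ R' := by
      have := le_max_right R (|a| + |b|)
      linarith [le_abs_self b, abs_nonneg a]
    have hQ1 : 0 ≤ ∫ v in (-R')..a, jB x' y' v :=
      intervalIntegral.integral_nonneg hR'a fun v _ => hjn v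
    have hQ2 : 0 ≤ ∫ v in b..R', jB x' y' v :=
      intervalIntegral.integral_nonneg hR'b fun v _ => hjn v
    set Q1 := ∫ v in (-R')..a, jB x' y' v with hQ1d
    set Q2 := ∫ v in b..R', jB x' y' v with hQ2d
    set ω := ε / (4 * (Q1 + Q2 + 1)) with hω
    have hω0 : 0 < ω := by positivity
    have hωQ : ω * (Q1 + Q2) ≤ ε / 4 := by
      have h1 : ω * (Q1 + Q2 + 1) = ε / 4 := by
        rw [hω]
        field_simp
      nlinarith
    obtain ⟨K1, a1, b1, s1, h1ab, h1s, h1c, h1i⟩ :=
      steps G hG.cont hG.nonneg hR'a hω0 (jB x' y') hjc hjn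
    obtain ⟨K2, a2, b2, s2, h2ab, h2s, h2c, h2i⟩ :=
      steps G hG.cont hG.nonneg hR'b hω0 (jB x' y') hjc hjn
    obtain ⟨hw1, hw2, hw3⟩ := weight hG hε₁0 (jB x' y') hjc hjn (J x' y')
      (a := a) (b := b) (R' := R') (by linarith [abs_nonneg b]) (by linarith [abs_nonneg a])
      hab hRR'
    rw [← hIdef] at hw3
    have hSIN' := hSIN ε₁ G R hε₁0 hε₁1 hG
    rw [hw1] at hSIN'
    set P1 := ∫ v in (-R')..a, G v * jB x' y' v with hP1
    set P0 := ∫ v in a..b, G v * jB x' y' v with hP0
    set P2 := ∫ v in b..R', G v * jB x' y' v with hP2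
    set IG := ∫ v, G v with hIG
    have hsplit : ∀ u w : ℝ, ∫ v in u..w, (G v + ω) * jB x' y' v =
        (∫ v in u..w, G v * jB x' y' v) + ω * ∫ v in u..w, jB x' y' v := by
      intro u w
      have h4 : (fun v => (G v + ω) * jB x' y' v) =
          fun v => G v * jB x' y' v + ω * jB x' y' v := by
        funext v
        ring
      have h5 : IntervalIntegrable (fun v => G v * jB x' y' v) volume u w :=
        (hG.cont.mul hjc).intervalIntegrable _ _
      have h6 : IntervalIntegrable (fun v => ω * jB x' y' v) volume u w :=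
        (continuous_const.mul hjc).intervalIntegrable _ _
      rw [h4, intervalIntegral.integral_add h5 h6, intervalIntegral.integral_const_mul]
    rw [hsplit] at h1i h2i
    rw [← hP1, ← hQ1d] at h1i
    rw [← hP2, ← hQ2d] at h2i
    set Sa := ∑ k, s1 k with hSa
    set Sb := ∑ k, s2 k with hSb
    have hSa' : 0 ≤ Sa := Finset.sum_nonneg fun k _ => h1s k
    have hSb' : 0 ≤ Sb := Finset.sum_nonneg fun k _ => h2s k
    set ε₂ := ε / (4 * (1 + Sa + Sb)) with hε₂
    have hε₂0 : 0 < ε₂ := by positivity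
    have hε₂' : ε₂ * (1 + Sa + Sb) = ε / 4 := by
      rw [hε₂]
      field_simp
    -- the eventual inequalities
    have e1 : ∀ᶠ T : ℝ in atTop, ∀ k : Fin K1,
        ratio T (Fin.cons (a1 k) x' : Fin (m + 1) → ℝ) (Fin.cons (b1 k) y') ≤
          (∫ v in (a1 k)..(b1 k), jB x' y' v) + ε₂ := by
      rw [eventually_all]
      intro k
      rw [← hJint _ _ (h1ab k)]
      refine hU _ _ (fun i => ?_) ε₂ hε₂0
      refine Fin.cases ?_ (fun i => ?_) i
      · simpa using h1ab k
      · simpa using hxy' i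
    have e2 : ∀ᶠ T : ℝ in atTop, ∀ k : Fin K2,
        ratio T (Fin.cons (a2 k) x' : Fin (m + 1) → ℝ) (Fin.cons (b2 k) y') ≤
          (∫ v in (a2 k)..(b2 k), jB x' y' v) + ε₂ := by
      rw [eventually_all]
      intro k
      rw [← hJint _ _ (h2ab k)]
      refine hU _ _ (fun i => ?_) ε₂ hε₂0
      refine Fin.cases ?_ (fun i => ?_) i
      · simpa using h2ab k
      · simpa using hxy' i
    have e3 : ∀ᶠ T : ℝ in atTop,
        (IG - (m + 1)) * J x' y' - ε₂ ≤ (IG - (m + 1)) * ratio T x' y' := by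
      have h1 : Tendsto (fun T : ℝ => (IG - (m + 1)) * ratio T x' y') atTop
          (𝓝 ((IG - (m + 1)) * J x' y')) := (hL x' y' hxy').const_mul _
      exact (h1.eventually (lt_mem_nhds (by linarith :
        (IG - (m + 1)) * J x' y' - ε₂ < (IG - (m + 1)) * J x' y'))).mono fun _ h => h.le
    filter_upwards [hZ', e1, e2, e3, eventually_gt_atTop (1 : ℝ)] with T hz h1 h2 h3 hT
    have hlog : 0 < Real.log T := Real.log_pos hT
    have hT0 : 0 < T := by linarith
    set D := T / (2 * Real.pi) * Real.log T with hD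
    have hD0 : 0 < D := by positivity
    have hTD : T * Real.log T = 2 * Real.pi * D := by
      rw [hD]
      field_simp
    -- numbers
    have hNr : ∀ (k : ℕ) (u w : Fin k → ℝ),
        ∑ n ∈ Finset.Icc 1 (NZ T), (tup T u w n : ℝ) = ratio T u w * D := by
      intro k u w
      have h4 : (N T u w : ℝ) = ∑ n ∈ Finset.Icc 1 (NZ T), (tup T u w n : ℝ) := by
        exact_mod_cast hN k T u w hT0.le
      rw [← h4]
      unfold ratio
      rw [← hD, div_mul_cancel₀ _ hD0.ne']
    -- the majorant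
    have hcell := hC m x' y' T G (K1 + K2 + 1) (Fin.append (Fin.append a1 a2) fun _ => a)
      (Fin.append (Fin.append b1 b2) fun _ => b) (Fin.append (Fin.append s1 s2) fun _ => 1)
      hT0.le hG.nonneg hG.le_one ?_ ?_
    rotate_left
    · intro k
      refine Fin.addCases (fun k => ?_) (fun k => ?_) k
      · rw [Fin.append_left]
        refine Fin.addCases (fun k => ?_) (fun k => ?_) k
        · rw [Fin.append_left]; exact h1s k
        · rw [Fin.append_right]; exact h2s k
      · rw [Fin.append_right]; exact zero_le_one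
    · intro v
      rw [Fin.sum_univ_add, Fin.sum_univ_add]
      simp only [Fin.append_left, Fin.append_right, Fin.sum_univ_one, one_mul]
      have n1 : 0 ≤ ∑ k, s1 k * (Icc (a1 k) (b1 k)).indicator (fun _ => (1 : ℝ)) v :=
        Finset.sum_nonneg fun k _ => mul_nonneg (h1s k)
          (indicator_nonneg (fun _ _ => zero_le_one) _)
      have n2 : 0 ≤ ∑ k, s2 k * (Icc (a2 k) (b2 k)).indicator (fun _ => (1 : ℝ)) v :=
        Finset.sum_nonneg fun k _ => mul_nonneg (h2s k)
          (indicator_nonneg (fun _ _ => zero_le_one) _)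
      have n3 : 0 ≤ (Icc a b).indicator (fun _ => (1 : ℝ)) v :=
        indicator_nonneg (fun _ _ => zero_le_one) _
      by_cases c1 : |v| ≤ R'
      · rw [abs_le] at c1
        rcases le_total v a with c2 | c2
        · have := h1c v ⟨c1.1, c2⟩
          linarith
        · rcases le_total v b with c3 | c3
          · rw [indicator_of_mem (show v ∈ Icc a b from ⟨c2, c3⟩)]
            have := hG.le_one v
            linarith
          · have := h2c v ⟨c3, c1.2⟩
            linarith
      · rw [hG.supp v (by linarith [not_le.1 c1])]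
        linarith
    rw [Fin.sum_univ_add, Fin.sum_univ_add] at hcell
    simp only [Fin.append_left, Fin.append_right, Fin.sum_univ_one, one_mul] at hcell
    simp only [hNr] at hcell
    rw [← hx, ← hy] at hcell
    -- the law of the further zero
    have hz2 : ∑ n ∈ Finset.Icc 1 (NZ T), (tup T x' y' n : ℝ) *
        (IG - ∑ l ∈ Finset.Icc 1 (NZ T), G (ps T n l)) = IG * (ratio T x' y' * D) -
        ∑ n ∈ Finset.Icc 1 (NZ T), (tup T x' y' n : ℝ) *
          ∑ l ∈ Finset.Icc 1 (NZ T), G (ps T n l) := by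
      rw [← hNr, Finset.mul_sum, ← Finset.sum_sub_distrib]
      refine Finset.sum_congr rfl fun n _ => ?_
      ring
    rw [hz2, hTD] at hz
    have hz3 := (abs_le.1 hz).2
    -- the other cells
    have c1 : ∑ k, s1 k * (ratio T (Fin.cons (a1 k) x' : Fin (m + 1) → ℝ)
        (Fin.cons (b1 k) y') * D) ≤ (P1 + ω * Q1 + Sa * ε₂) * D := by
      calc _ ≤ ∑ k, (s1 k * (∫ v in (a1 k)..(b1 k), jB x' y' v) + s1 k * ε₂) * D := by
            refine Finset.sum_le_sum fun k _ => ?_
            have := mul_le_mul_of_nonneg_right (h1 k) hD0.le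
            have := mul_le_mul_of_nonneg_left this (h1s k)
            linarith
        _ = (∑ k, s1 k * (∫ v in (a1 k)..(b1 k), jB x' y' v) + Sa * ε₂) * D := by
            rw [← Finset.sum_mul, Finset.sum_add_distrib, ← Finset.sum_mul]
        _ ≤ _ := by
            refine mul_le_mul_of_nonneg_right ?_ hD0.le
            linarith
    have c2 : ∑ k, s2 k * (ratio T (Fin.cons (a2 k) x' : Fin (m + 1) → ℝ)
        (Fin.cons (b2 k) y') * D) ≤ (P2 + ω * Q2 + Sb * ε₂) * D := by
      calc _ ≤ ∑ k, (s2 k * (∫ v in (a2 k)..(b2 k), jB x' y' v) + s2 k * ε₂) * D := by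
            refine Finset.sum_le_sum fun k _ => ?_
            have := mul_le_mul_of_nonneg_right (h2 k) hD0.le
            have := mul_le_mul_of_nonneg_left this (h2s k)
            linarith
        _ = (∑ k, s2 k * (∫ v in (a2 k)..(b2 k), jB x' y' v) + Sb * ε₂) * D := by
            rw [← Finset.sum_mul, Finset.sum_add_distrib, ← Finset.sum_mul]
        _ ≤ _ := by
            refine mul_le_mul_of_nonneg_right ?_ hD0.le
            linarith
    have h3' := mul_le_mul_of_nonneg_right h3 hD0.le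
    have hfin : ((IG - (m + 1)) * J x' y' - ε₂ - 2 * Real.pi * ε₁ - (P1 + ω * Q1 + Sa * ε₂) -
        (P2 + ω * Q2 + Sb * ε₂)) * D ≤ ratio T x y * D :=
      fin1 hcell hz3 c1 c2 h3'
    have hfin2 := le_of_mul_le_mul_right hfin hD0
    have hs3 := (abs_le.1 hSIN').2
    rw [hw2] at hs3
    rw [hI]
    exact fin2 hfin2 hs3 hw3 hωQ hεE hε₂'
  rw [Metric.tendsto_nhds]
  intro ε hε
  filter_upwards [hU x y hxy (ε / 2) (by positivity), lower (ε / 2) (by positivity)] with T h1 h2
  rw [Real.dist_eq, abs_lt]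
  constructor <;> linarith

end Pool.Agent.J4.H44.RG
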