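import Pool.Agent.J4.H44.RG.Defs

set_option autoImplicit false
set_option linter.all false

open Filter Topology MeasureTheory Set

namespace Pool.Agent.J4.H44.RG
namespace GBb

/-- the square of the cardinal sine at the scale `D` -/
noncomputable def sq (D v : ℝ) : ℝ := Real.sinc (Real.pi * v / D) ^ 2

lemma sq_cont (D : ℝ) : Continuous (sq D) :=
  (Real.continuous_sinc.comp (by fun_prop)).pow 2

lemma sq_nonneg' (D v : ℝ) : 0 ≤ sq D v := by unfold sq; positivity

lemma sq_le_one (D v : ℝ) : sq D v ≤ 1 := by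
  unfold sq
  rw [sq_le_one_iff_abs_le_one]
  exact Real.abs_sinc_le_one _

/-- the average without the cut -/
noncomputable def F (q J : ℕ) (v : ℝ) : ℝ := (∑ j ∈ Finset.Icc 1 J, sq (2 ^ (q + j)) v) / J

lemma F_cont (q J : ℕ) : Continuous (F q J) :=
  (continuous_finset_sum _ fun j _ => sq_cont _).div_const _

lemma F_nonneg (q J : ℕ) (v : ℝ) : 0 ≤ F q J v :=
  div_nonneg (Finset.sum_nonneg fun j _ => sq_nonneg' _ _) (Nat.cast_nonneg _)

lemma F_le_one (q J : ℕ) (hJ : 1 ≤ J) (v : ℝ) : F q J v ≤ 1 := by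
  have hJ' : (0 : ℝ) < J := by exact_mod_cast hJ
  unfold F
  rw [div_le_one hJ']
  calc ∑ j ∈ Finset.Icc 1 J, sq (2 ^ (q + j)) v ≤ ∑ j ∈ Finset.Icc 1 J, (1 : ℝ) :=
        Finset.sum_le_sum fun j _ => sq_le_one _ _
    _ = J := by simp

lemma gJ_eq (q J : ℕ) : gJ q J =
    (Icc (-(2 ^ q * 4 ^ J : ℝ)) (2 ^ q * 4 ^ J)).indicator (F q J) := by
  funext v
  unfold gJ
  by_cases h : |v| ≤ 2 ^ q * 4 ^ J
  · rw [if_pos h, indicator_of_mem (by rw [mem_Icc]; exact abs_le.1 h)]
    rfl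
  · rw [if_neg h, indicator_of_notMem (by rw [mem_Icc]; exact fun h' => h (abs_le.2 h'))]

lemma gJ_nonneg (q J : ℕ) (v : ℝ) : 0 ≤ gJ q J v := by
  rw [gJ_eq]
  exact indicator_nonneg (fun x _ => F_nonneg q J x) v

lemma gJ_le_one (q J : ℕ) (hJ : 1 ≤ J) (v : ℝ) : gJ q J v ≤ 1 := by
  rw [gJ_eq]
  exact indicator_le' (fun x _ => F_le_one q J hJ x) (fun _ _ => zero_le_one) v

lemma gJ_int (q J : ℕ) : Integrable (gJ q J) := by
  rw [gJ_eq, integrable_indicator_iff measurableSet_Icc]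
  exact (F_cont q J).continuousOn.integrableOn_compact isCompact_Icc

lemma gbar_eq (q J : ℕ) (v : ℝ) : gbar q J v = ∫ x in (v - 1 / 2)..(v + 1 / 2), gJ q J x := by
  unfold gbar
  rw [intervalIntegral.integral_comp_sub_left (fun x => gJ q J x) v]
  congr 1
  ring

lemma gJ_abs (q J : ℕ) (hJ : 1 ≤ J) (v : ℝ) : ‖gJ q J v‖ ≤ 1 := by
  rw [Real.norm_eq_abs, abs_of_nonneg (gJ_nonneg q J v)]
  exact gJ_le_one q J hJ v

lemma gbar_lip (q J : ℕ) (hJ : 1 ≤ J) (v w : ℝ) : |gbar q J v - gbar q J w| ≤ 2 * |v - w| := by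
  have hii : ∀ a b : ℝ, IntervalIntegrable (gJ q J) volume a b := fun a b =>
    (gJ_int q J).intervalIntegrable
  have h1 : gbar q J v - gbar q J w =
      (∫ x in (w + 1 / 2)..(v + 1 / 2), gJ q J x) - ∫ x in (w - 1 / 2)..(v - 1 / 2), gJ q J x := by
    rw [gbar_eq, gbar_eq]
    have e1 := intervalIntegral.integral_add_adjacent_intervals (hii (w - 1 / 2) (v - 1 / 2))
      (hii (v - 1 / 2) (v + 1 / 2))
    have e2 := intervalIntegral.integral_add_adjacent_intervals (hii (w - 1 / 2) (w + 1 / 2))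
      (hii (w + 1 / 2) (v + 1 / 2))
    linarith
  have h2 : ∀ a b : ℝ, |∫ x in a..b, gJ q J x| ≤ |b - a| := fun a b => by
    have := intervalIntegral.norm_integral_le_of_norm_le_const (a := a) (b := b) (C := 1)
      (f := gJ q J) (fun x _ => gJ_abs q J hJ x)
    rwa [one_mul, Real.norm_eq_abs] at this
  rw [h1]
  refine (abs_sub _ _).trans ?_
  have e1 := h2 (w + 1 / 2) (v + 1 / 2)
  have e2 := h2 (w - 1 / 2) (v - 1 / 2)
  have e3 : v + 1 / 2 - (w + 1 / 2) = v - w := by ring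
  have e4 : v - 1 / 2 - (w - 1 / 2) = v - w := by ring
  rw [e3] at e1
  rw [e4] at e2
  linarith

/-! ### flatness -/

lemma one_sub_sinc (x : ℝ) : 1 - Real.sinc x ^ 2 ≤ x ^ 2 := by
  rcases le_or_gt 1 |x| with h | h
  · have h1 : 1 ≤ x ^ 2 := by rw [← sq_abs]; nlinarith
    have h2 : 0 ≤ Real.sinc x ^ 2 := by positivity
    linarith
  · rcases eq_or_ne x 0 with rfl | hx
    · simp
    · have h0 : 0 < |x| := abs_pos.2 hx
      have h1 := Real.sin_gt_sub_cube h0
      have h2 : Real.sinc x = Real.sinc |x| := by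
        rcases abs_choice x with e | e
        · rw [e]
        · rw [e, Real.sinc_neg]
      have h3 : 1 - |x| ^ 2 / 4 ≤ Real.sinc |x| := by
        rw [Real.sinc_of_ne_zero h0.ne', le_div_iff₀ h0]
        have h3' : 0 ≤ |x| ^ 3 := by positivity
        nlinarith
      have h4 : 0 ≤ 1 - |x| ^ 2 / 4 := by nlinarith
      have h5 : (1 - |x| ^ 2 / 4) ^ 2 ≤ Real.sinc |x| ^ 2 := pow_le_pow_left₀ h4 h3 2
      rw [h2, ← sq_abs x]
      nlinarith [sq_nonneg (|x| ^ 2)]

lemma step {t x : ℝ} (ht : 0 ≤ t) (hx : |x| = t) :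
    1 - Real.sinc x ^ 2 ≤ 3 * (Real.log (1 + 2 * t) - Real.log (1 + t)) := by
  have h1 : (0 : ℝ) < 1 + 2 * t := by linarith
  have h2 : (0 : ℝ) < 1 + t := by linarith
  have h3 : t / (1 + 2 * t) ≤ Real.log (1 + 2 * t) - Real.log (1 + t) := by
    rw [← Real.log_div h1.ne' h2.ne']
    have := Real.one_sub_inv_le_log_of_pos (div_pos h1 h2)
    refine le_trans (le_of_eq ?_) this
    rw [inv_div, div_eq_iff h1.ne', sub_mul, div_mul_cancel₀ _ h1.ne']
    ring
  have h4 : 1 - Real.sinc x ^ 2 ≤ 3 * (t / (1 + 2 * t)) := by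
    rw [mul_div_assoc', le_div_iff₀ h1]
    rcases le_or_gt 1 t with h | h
    · have h5 : 1 - Real.sinc x ^ 2 ≤ 1 := by
        have : 0 ≤ Real.sinc x ^ 2 := by positivity
        linarith
      nlinarith
    · have h5 := one_sub_sinc x
      rw [← sq_abs x, hx] at h5
      have h6 : 0 ≤ t ^ 2 := by positivity
      calc (1 - Real.sinc x ^ 2) * (1 + 2 * t) ≤ t ^ 2 * (1 + 2 * t) :=
            mul_le_mul_of_nonneg_right h5 h1.le
        _ ≤ 3 * t := by nlinarith [mul_nonneg ht (sub_nonneg.2 h.le), mul_nonneg h6 (sub_nonneg.2 h.le)]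
  linarith

lemma tele (q J : ℕ) (u : ℝ) : ∑ j ∈ Finset.Icc 1 J, (1 - sq (2 ^ (q + j)) u) ≤
    3 * (Real.log (1 + Real.pi * |u| / 2 ^ q) - Real.log (1 + Real.pi * |u| / 2 ^ (q + J))) := by
  induction J with
  | zero => simp
  | succ J ih =>
    rw [Finset.sum_Icc_succ_top (by omega)]
    have h0 : 0 ≤ Real.pi * |u| / 2 ^ (q + (J + 1)) := by positivity
    have h1 := step (x := Real.pi * u / 2 ^ (q + (J + 1))) h0 (by
      rw [abs_div, abs_mul, abs_of_pos Real.pi_pos, abs_of_pos (by positivity : (0 : ℝ) < 2 ^ (q + (J + 1)))])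
    have h2 : 2 * (Real.pi * |u| / 2 ^ (q + (J + 1))) = Real.pi * |u| / 2 ^ (q + J) := by
      rw [← add_assoc, pow_succ]
      field_simp
    rw [h2] at h1
    have h3 : 1 - sq (2 ^ (q + (J + 1))) u = 1 - Real.sinc (Real.pi * u / 2 ^ (q + (J + 1))) ^ 2 := rfl
    rw [h3]
    linarith

lemma flat_F (q J : ℕ) (hJ : 1 ≤ J) (u : ℝ) :
    1 - 6 * (1 + Real.log (1 + |u|)) / J ≤ F q J u := by
  have hJ' : (0 : ℝ) < J := by exact_mod_cast hJ
  have h1 := tele q J u
  have h2 : 0 ≤ Real.log (1 + Real.pi * |u| / 2 ^ (q + J)) :=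
    Real.log_nonneg (by have : 0 ≤ Real.pi * |u| / 2 ^ (q + J) := by positivity
                        linarith)
  have hlog : 0 ≤ Real.log (1 + |u|) := Real.log_nonneg (by linarith [abs_nonneg u])
  have h3 : Real.log (1 + Real.pi * |u| / 2 ^ q) ≤ 2 + Real.log (1 + |u|) := by
    have e1 : Real.pi * |u| / 2 ^ q ≤ 4 * |u| := by
      have : Real.pi * |u| / 2 ^ q ≤ Real.pi * |u| :=
        div_le_self (by positivity) (one_le_pow₀ one_le_two)
      nlinarith [Real.pi_lt_four, abs_nonneg u]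
    have e2 : 1 + Real.pi * |u| / 2 ^ q ≤ 4 * (1 + |u|) := by linarith [abs_nonneg u]
    have e3 : (0 : ℝ) < 1 + Real.pi * |u| / 2 ^ q := by positivity
    have e4 : (0 : ℝ) < 1 + |u| := by positivity
    have e5 := Real.log_le_log e3 e2
    rw [Real.log_mul (by norm_num) e4.ne'] at e5
    have e6 : Real.log 4 ≤ 2 := by
      have : (4 : ℝ) = 2 ^ 2 := by norm_num
      rw [this, Real.log_pow]
      have := Real.log_two_lt_d9
      push_cast
      linarith
    linarith
  have h4 : ∑ j ∈ Finset.Icc 1 J, (1 - sq (2 ^ (q + j)) u) =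
      J - ∑ j ∈ Finset.Icc 1 J, sq (2 ^ (q + j)) u := by
    rw [Finset.sum_sub_distrib]
    simp
  unfold F
  rw [le_div_iff₀ hJ', sub_mul, one_mul, div_mul_cancel₀ _ hJ'.ne']
  rw [h4] at h1
  linarith

lemma flat_g (q J : ℕ) (hJ : 1 ≤ J) (u : ℝ) :
    1 - 6 * (1 + Real.log (1 + |u|)) / J ≤ gJ q J u := by
  have hJ' : (0 : ℝ) < J := by exact_mod_cast hJ
  by_cases h : |u| ≤ 2 ^ q * 4 ^ J
  · have : gJ q J u = F q J u := by
      rw [gJ_eq, indicator_of_mem (by rw [mem_Icc]; exact abs_le.1 h)]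
    rw [this]
    exact flat_F q J hJ u
  · have h0 : gJ q J u = 0 := by unfold gJ; rw [if_neg h]
    rw [h0]
    push Not at h
    have h1 : (4 : ℝ) ^ J ≤ 1 + |u| := by
      have : (1 : ℝ) * 4 ^ J ≤ 2 ^ q * 4 ^ J :=
        mul_le_mul_of_nonneg_right (one_le_pow₀ one_le_two) (by positivity)
      linarith
    have h2 : (J : ℝ) ≤ Real.log (1 + |u|) := by
      have e1 := Real.log_le_log (by positivity) h1
      rw [Real.log_pow] at e1
      have e2 : 1 ≤ Real.log 4 := by
        have : (4 : ℝ) = 2 ^ 2 := by norm_num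
        rw [this, Real.log_pow]
        have := Real.log_two_gt_d9
        push_cast
        linarith
      nlinarith
    have h3 : 1 ≤ 6 * (1 + Real.log (1 + |u|)) / J := by
      rw [le_div_iff₀ hJ']
      linarith
    linarith

lemma flat_bar (q J : ℕ) (hJ : 1 ≤ J) (v : ℝ) :
    1 - 12 * (1 + Real.log (1 + |v|)) / J ≤ gbar q J v := by
  have hJ' : (0 : ℝ) < J := by exact_mod_cast hJ
  have h1 : ∀ s ∈ Icc (-(1 / 2 : ℝ)) (1 / 2),
      1 - 12 * (1 + Real.log (1 + |v|)) / J ≤ gJ q J (v - s) := by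
    intro s hs
    refine le_trans ?_ (flat_g q J hJ (v - s))
    have h2 : |v - s| ≤ |v| + 1 / 2 := by
      have := abs_sub v s
      have h3 : |s| ≤ 1 / 2 := abs_le.2 hs
      linarith
    have h3 : Real.log (1 + |v - s|) ≤ 1 + Real.log (1 + |v|) := by
      have e1 : 1 + |v - s| ≤ 2 * (1 + |v|) := by linarith [abs_nonneg v]
      have e2 := Real.log_le_log (by positivity) e1
      rw [Real.log_mul (by norm_num) (by positivity)] at e2
      have := Real.log_two_lt_d9
      linarith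
    have hlog : 0 ≤ Real.log (1 + |v|) := Real.log_nonneg (by linarith [abs_nonneg v])
    have h4 : 6 * (1 + Real.log (1 + |v - s|)) / J ≤ 12 * (1 + Real.log (1 + |v|)) / J := by
      refine div_le_div_of_nonneg_right ?_ hJ'.le
      linarith
    linarith
  have h2 : IntervalIntegrable (fun s => gJ q J (v - s)) volume (-(1 / 2 : ℝ)) (1 / 2) :=
    ((gJ_int q J).comp_sub_left v).intervalIntegrable
  have h3 := intervalIntegral.integral_mono_on (a := -(1 / 2 : ℝ)) (b := 1 / 2) (by norm_num)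
    (intervalIntegrable_const (c := 1 - 12 * (1 + Real.log (1 + |v|)) / J)) h2 h1
  rw [intervalIntegral.integral_const] at h3
  unfold gbar
  refine le_trans (le_of_eq ?_) h3
  rw [smul_eq_mul]
  ring

/-! ### the mean -/

lemma gbar_conv (q J : ℕ) : ∫ v, gbar q J v = ∫ v, gJ q J v := by
  have hf : Integrable ((Ioc (-(1 / 2 : ℝ)) (1 / 2)).indicator (fun _ => (1 : ℝ))) := by
    rw [integrable_indicator_iff measurableSet_Ioc]
    exact integrableOn_const (by simp)
  have h := integral_convolution (ContinuousLinearMap.mul ℝ ℝ) (μ := volume) (ν := volume) hf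
    (gJ_int q J)
  have e1 : (∫ x, ((Ioc (-(1 / 2 : ℝ)) (1 / 2)).indicator (fun _ => (1 : ℝ))) x) = 1 := by
    rw [integral_indicator measurableSet_Ioc]
    simp
    norm_num
  rw [e1, ContinuousLinearMap.mul_apply', one_mul] at h
  rw [← h]
  congr 1
  funext v
  unfold gbar
  rw [intervalIntegral.integral_of_le (by norm_num), ← integral_indicator measurableSet_Ioc]
  unfold convolution
  congr 1
  funext s
  rw [ContinuousLinearMap.mul_apply']
  by_cases hs : s ∈ Ioc (-(1 / 2 : ℝ)) (1 / 2)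
  · rw [indicator_of_mem hs, indicator_of_mem hs, one_mul]
  · rw [indicator_of_notMem hs, indicator_of_notMem hs, zero_mul]

lemma sq_int (h : S_REP) {D : ℝ} (hD : 0 < D) : Integrable (sq D) ∧ ∫ v, sq D v = D := by
  obtain ⟨h1, h2⟩ := h 0 0
  have e : (fun v : ℝ => Real.sinc (Real.pi * (v - 0)) * Real.sinc (Real.pi * (v - 0))) =
      sq 1 := by
    funext v
    unfold sq
    rw [sub_zero, div_one]
    ring
  rw [e] at h1 h2
  have e2 : sq D = fun v => sq 1 (v / D) := by
    funext v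
    unfold sq
    rw [div_one, mul_div_assoc]
  refine ⟨?_, ?_⟩
  · rw [e2]
    exact h1.comp_div hD.ne'
  · rw [e2, Measure.integral_comp_div (sq 1) D, h2]
    simp [abs_of_pos hD]

lemma tail (h : S_REP) {D V : ℝ} (hD : 0 < D) (hV : 0 < V) :
    |D - ∫ v, (Icc (-V) V).indicator (sq D) v| ≤ 2 * (D ^ 2 / V) := by
  obtain ⟨h1, h2⟩ := sq_int h hD
  have h3 : D - ∫ v, (Icc (-V) V).indicator (sq D) v = ∫ v, (Icc (-V) V)ᶜ.indicator (sq D) v := by
    have e := integral_add (h1.indicator (measurableSet_Icc (a := -V) (b := V)))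
      (h1.indicator (measurableSet_Icc (a := -V) (b := V)).compl)
    have e2 : (fun v => (Icc (-V) V).indicator (sq D) v + (Icc (-V) V)ᶜ.indicator (sq D) v) =
        sq D := by
      funext v
      exact congrFun (indicator_self_add_compl (Icc (-V) V) (sq D)) v
    rw [e2, h2] at e
    linarith
  rw [h3]
  have h4 : (fun v => (Icc (-V) V)ᶜ.indicator (sq D) v) =
      fun v => (Ioi V).indicator (sq D) |v| := by
    funext v
    have e0 : sq D |v| = sq D v := by
      unfold sq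
      rcases abs_choice v with e | e
      · rw [e]
      · rw [e, mul_neg, neg_div, Real.sinc_neg]
    by_cases hv : v ∈ Icc (-V) V
    · rw [indicator_of_notMem (by simpa using hv), indicator_of_notMem]
      rw [mem_Ioi, not_lt]
      exact abs_le.2 hv
    · rw [indicator_of_mem (by exact hv), indicator_of_mem, e0]
      rw [mem_Ioi]
      by_contra hc
      exact hv (abs_le.1 (not_lt.1 hc))
  rw [h4, integral_comp_abs (f := (Ioi V).indicator (sq D)), abs_mul, abs_two,
    setIntegral_indicator measurableSet_Ioi, Ioi_inter_Ioi, max_eq_right hV.le]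
  have h5 : 0 ≤ ∫ v in Ioi V, sq D v := integral_nonneg fun v => sq_nonneg' D v
  rw [abs_of_nonneg h5]
  have h6 : ∫ v in Ioi V, sq D v ≤ ∫ v in Ioi V, D ^ 2 * v ^ (-2 : ℝ) := by
    refine setIntegral_mono_on h1.integrableOn
      ((integrableOn_Ioi_rpow_of_lt (by norm_num) hV).const_mul _) measurableSet_Ioi ?_
    intro v hv
    have hv0 : 0 < v := lt_trans hV hv
    unfold sq
    have hx : Real.pi * v / D ≠ 0 := by positivity
    have e1 : |Real.sinc (Real.pi * v / D)| ≤ |Real.pi * v / D|⁻¹ := by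
      rw [Real.sinc_of_ne_zero hx, abs_div, div_eq_mul_inv]
      exact mul_le_of_le_one_left (by positivity) (Real.abs_sin_le_one _)
    have e2 : |Real.pi * v / D|⁻¹ ≤ D / v := by
      rw [abs_of_pos (by positivity), inv_div]
      refine div_le_div_of_nonneg_left hD.le hv0 ?_
      nlinarith [Real.pi_gt_three]
    rw [← sq_abs]
    calc |Real.sinc (Real.pi * v / D)| ^ 2 ≤ (D / v) ^ 2 :=
          pow_le_pow_left₀ (abs_nonneg _) (e1.trans e2) 2
      _ = D ^ 2 * v ^ (-2 : ℝ) := by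
          rw [Real.rpow_neg hv0.le, div_pow, div_eq_mul_inv]
          norm_cast
  rw [integral_const_mul, integral_Ioi_rpow_of_lt (by norm_num) hV] at h6
  have e3 : -V ^ ((-2 : ℝ) + 1) / (-2 + 1) = V⁻¹ := by
    have : (-2 : ℝ) + 1 = -1 := by norm_num
    rw [this, Real.rpow_neg_one]
    ring
  rw [e3] at h6
  have e4 : D ^ 2 * V⁻¹ = D ^ 2 / V := by rw [div_eq_mul_inv]
  rw [e4] at h6
  linarith

lemma sum_two (q J : ℕ) : ∑ j ∈ Finset.Icc 1 J, (2 : ℝ) ^ (q + j) = 2 ^ q * (2 ^ (J + 1) - 2) := by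
  induction J with
  | zero => simp
  | succ J ih =>
    rw [Finset.sum_Icc_succ_top (by omega), ih]
    ring

lemma sum_four (J : ℕ) : ∑ j ∈ Finset.Icc 1 J, (4 : ℝ) ^ j = (4 * 4 ^ J - 4) / 3 := by
  induction J with
  | zero => simp
  | succ J ih =>
    rw [Finset.sum_Icc_succ_top (by omega), ih]
    ring

lemma mean (h : S_REP) (q J : ℕ) (hJ : 1 ≤ J) :
    |2 ^ q * cc J - ∫ v, gbar q J v| ≤ (4 * 2 ^ q) / J := by
  have hJ' : (0 : ℝ) < J := by exact_mod_cast hJ
  have hV : (0 : ℝ) < 2 ^ q * 4 ^ J := by positivity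
  have h1 : ∫ v, gJ q J v = (∑ j ∈ Finset.Icc 1 J,
      ∫ v, (Icc (-(2 ^ q * 4 ^ J : ℝ)) (2 ^ q * 4 ^ J)).indicator (sq (2 ^ (q + j))) v) / J := by
    rw [← integral_finset_sum]
    · rw [← integral_div]
      congr 1
      funext v
      rw [gJ_eq]
      by_cases hv : v ∈ Icc (-(2 ^ q * 4 ^ J : ℝ)) (2 ^ q * 4 ^ J)
      · simp only [indicator_of_mem hv]
        rfl
      · simp only [indicator_of_notMem hv]
        simp
    · intro j _
      exact (sq_int h (by positivity)).1.indicator measurableSet_Icc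
  have h2 : 2 ^ q * cc J = (∑ j ∈ Finset.Icc 1 J, (2 : ℝ) ^ (q + j)) / J := by
    rw [sum_two]
    unfold cc
    rw [mul_div_assoc]
  rw [gbar_conv, h1, h2, ← sub_div, ← Finset.sum_sub_distrib, abs_div, abs_of_pos hJ']
  refine div_le_div_of_nonneg_right ?_ hJ'.le
  refine (Finset.abs_sum_le_sum_abs _ _).trans ?_
  refine (Finset.sum_le_sum fun j _ => tail h (by positivity) hV).trans ?_
  have e : ∀ j ∈ Finset.Icc 1 J, 2 * (((2 : ℝ) ^ (q + j)) ^ 2 / (2 ^ q * 4 ^ J)) =
      (2 * 2 ^ q / 4 ^ J) * 4 ^ j := by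
    intro j _
    have e1 : ((2 : ℝ) ^ (q + j)) ^ 2 = 2 ^ q * 2 ^ q * 4 ^ j := by
      have : (4 : ℝ) = 2 ^ 2 := by norm_num
      rw [this, ← pow_mul, ← pow_mul]
      ring
    rw [e1]
    field_simp
  rw [Finset.sum_congr rfl e, ← Finset.mul_sum, sum_four]
  have h4 : (0 : ℝ) < 4 ^ J := by positivity
  have h5 : (0 : ℝ) < 2 ^ q := by positivity
  rw [div_mul_eq_mul_div, div_le_iff₀ h4]
  nlinarith [mul_pos h5 h4]

end GBb

theorem t_GBb (h : S_REP) : S_GB := by
  intro q
  refine ⟨12 + 4 * 2 ^ q, by positivity, fun J hJ => ⟨⟨2, by norm_num, GBb.gbar_lip q J hJ⟩,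
    ?_, ?_, ?_, ?_, ?_⟩⟩
  · intro v
    exact intervalIntegral.integral_nonneg (by norm_num) fun s _ => GBb.gJ_nonneg q J _
  · intro v
    have := intervalIntegral.norm_integral_le_of_norm_le_const (a := -(1 / 2 : ℝ)) (b := 1 / 2)
      (C := 1) (f := fun s => gJ q J (v - s)) (fun x _ => GBb.gJ_abs q J hJ _)
    have e : |(1 / 2 : ℝ) - -(1 / 2)| = 1 := by norm_num
    rw [e, mul_one] at this
    exact (le_abs_self _).trans this
  · intro v hv
    have h1 : ∀ s ∈ uIcc (-(1 / 2 : ℝ)) (1 / 2), gJ q J (v - s) = 0 := by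
      intro s hs
      rw [uIcc_of_le (by norm_num)] at hs
      unfold gJ
      rw [if_neg]
      intro hc
      have h2 := abs_sub_abs_le_abs_sub v s
      have h3 : |s| ≤ 1 / 2 := abs_le.2 hs
      linarith
    unfold gbar
    rw [intervalIntegral.integral_congr (g := fun _ => (0 : ℝ)) (fun s hs => h1 s hs)]
    simp
  · intro v
    have hJ' : (0 : ℝ) < J := by exact_mod_cast hJ
    have h1 := GBb.flat_bar q J hJ v
    have hlog : 0 ≤ Real.log (1 + |v|) := Real.log_nonneg (by linarith [abs_nonneg v])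
    have h2 : 12 * (1 + Real.log (1 + |v|)) / J ≤ (12 + 4 * 2 ^ q) * (1 + Real.log (1 + |v|)) / J := by
      refine div_le_div_of_nonneg_right ?_ hJ'.le
      refine mul_le_mul_of_nonneg_right ?_ (by linarith)
      have : (0 : ℝ) ≤ 4 * 2 ^ q := by positivity
      linarith
    linarith
  · have hJ' : (0 : ℝ) < J := by exact_mod_cast hJ
    refine (GBb.mean h q J hJ).trans (div_le_div_of_nonneg_right ?_ hJ'.le)
    linarith

end Pool.Agent.J4.H44.RG
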