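import Pool.Agent.J4.H44.RG.Defs
import Pool.Agent.J4.H44.KL.Int
import Pool.Agent.J4.H44.KL.Psd

/-! # Project HC: JFU -/

set_option autoImplicit false
set_option linter.all false

open Filter Topology MeasureTheory Set

namespace Pool.Agent.J4.H44.RG

lemma JFU.A_eq {m : ℕ} (u : Fin m → ℝ) : A u = Pool.Agent.J4.H44.KL.SM u := rfl

theorem t_JFU : S_JFU := by
  intro m x y
  have hcont : Continuous fun p : ℝ × (Fin m → ℝ) => (A (Fin.cons p.1 p.2 : Fin (m + 1) → ℝ)).det := by
    have h := (Pool.Agent.J4.H44.KL.det_cont (m := m + 1)).comp (Pool.Agent.J4.H44.KL.cons_cont (m := m))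
    exact h
  have hnn : ∀ v, 0 ≤ jB x y v := by
    intro v
    unfold jB
    exact setIntegral_nonneg measurableSet_Icc fun u _ => Pool.Agent.J4.H44.KL.det_nn _
  refine ⟨fun a b hab => ?_, ?_, hnn, ?_, ?_⟩
  · unfold J
    have h1 := Pool.Agent.J4.H44.KL.int_cons_eq (fun w : Fin (m + 1) → ℝ => (A w).det) a b x y
    rw [h1, intervalIntegral.integral_of_le hab, ← integral_Icc_eq_integral_Ioc]
    have hint : IntegrableOn (fun p : ℝ × (Fin m → ℝ) => (A (Fin.cons p.1 p.2 : Fin (m + 1) → ℝ)).det)
        (Icc a b ×ˢ Icc x y) (volume.prod volume) := by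
      have hc : IsCompact (Icc a b ×ˢ Icc x y) := isCompact_Icc.prod isCompact_Icc
      exact hcont.continuousOn.integrableOn_compact hc
    have h2 := setIntegral_prod (μ := volume) (ν := volume)
      (fun p : ℝ × (Fin m → ℝ) => (A (Fin.cons p.1 p.2 : Fin (m + 1) → ℝ)).det) hint
    exact h2
  · unfold jB
    exact continuous_parametric_integral_of_continuous (f := fun (v : ℝ) (u : Fin m → ℝ) =>
      (A (Fin.cons v u : Fin (m + 1) → ℝ)).det) hcont isCompact_Icc
  · refine ⟨(volume (Icc x y)).toReal, fun v => ?_⟩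
    unfold jB
    have hfin : volume (Icc x y) ≠ ⊤ := isCompact_Icc.measure_lt_top.ne
    have hc1 : Continuous fun u : Fin m → ℝ => (A (Fin.cons v u : Fin (m + 1) → ℝ)).det :=
      hcont.comp (Continuous.prodMk continuous_const continuous_id)
    calc ∫ u in Icc x y, (A (Fin.cons v u : Fin (m + 1) → ℝ)).det ≤ ∫ _u in Icc x y, (1 : ℝ) := by
          refine setIntegral_mono_on ?_ ?_ measurableSet_Icc fun u _ => Pool.Agent.J4.H44.KL.det_le_one _
          · exact hc1.continuousOn.integrableOn_compact isCompact_Icc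
          · exact integrableOn_const hfin
      _ = (volume (Icc x y)).toReal := by
          rw [setIntegral_const, smul_eq_mul, mul_one]
          rfl
  · unfold J
    exact setIntegral_nonneg measurableSet_Icc fun u _ => Pool.Agent.J4.H44.KL.det_nn _

end Pool.Agent.J4.H44.RG
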