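import Pool.Agent.J4.H44.RG.Defs

/-! # Project HC (helper44), piece REP: the reproducing property of the sine kernel -/

set_option autoImplicit false
set_option maxHeartbeats 4000000

open Filter Topology MeasureTheory Set

namespace Pool.Agent.J4.H44.RG

noncomputable section

namespace REP

open FourierTransform Convolution

lemma sinc_sq_le (x : ℝ) : Real.sinc x ^ 2 ≤ 2 * (1 + x ^ 2)⁻¹ := by
  have h0 : 0 < 1 + x ^ 2 := by positivity
  rw [← div_eq_mul_inv, le_div_iff₀ h0]
  have h1 : Real.sinc x ^ 2 ≤ 1 := by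
    have h2 := Real.abs_sinc_le_one x
    rw [← sq_abs]
    nlinarith [abs_nonneg (Real.sinc x)]
  have h2 : Real.sinc x ^ 2 * x ^ 2 ≤ 1 := by
    by_cases hx : x = 0
    · subst hx
      norm_num
    · rw [Real.sinc_of_ne_zero hx, div_pow, div_mul_cancel₀ _ (pow_ne_zero 2 hx)]
      have h3 := Real.sin_sq_add_cos_sq x
      nlinarith [sq_nonneg (Real.cos x)]
  nlinarith

lemma sinc_sq_le' (v : ℝ) : Real.sinc (Real.pi * v) ^ 2 ≤ 2 * (1 + v ^ 2)⁻¹ := by
  refine (sinc_sq_le _).trans ?_
  have h1 : (1 : ℝ) ≤ Real.pi ^ 2 := by nlinarith [Real.pi_gt_three]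
  have h2 : 1 + v ^ 2 ≤ 1 + (Real.pi * v) ^ 2 := by nlinarith [sq_nonneg v]
  have h3 : (1 + (Real.pi * v) ^ 2)⁻¹ ≤ (1 + v ^ 2)⁻¹ := inv_anti₀ (by positivity) h2
  linarith

lemma sinc_sq_int : Integrable (fun v : ℝ => Real.sinc (Real.pi * v) ^ 2) := by
  refine (integrable_inv_one_add_sq.const_mul 2).mono' ?_ (Eventually.of_forall fun v => ?_)
  · exact ((Real.continuous_sinc.comp (continuous_const.mul continuous_id)).pow 2).aestronglyMeasurable
  · rw [Real.norm_eq_abs, abs_of_nonneg (sq_nonneg _)]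
    exact sinc_sq_le' v

lemma sinc_sq_int' (a : ℝ) : Integrable (fun v : ℝ => Real.sinc (Real.pi * (v - a)) ^ 2) :=
  sinc_sq_int.comp_sub_right a

lemma prod_int (a b : ℝ) :
    Integrable (fun v : ℝ => Real.sinc (Real.pi * (v - a)) * Real.sinc (Real.pi * (v - b))) := by
  refine ((sinc_sq_int' a).add (sinc_sq_int' b)).mono' ?_ (Eventually.of_forall fun v => ?_)
  · refine Continuous.aestronglyMeasurable ?_
    refine Continuous.mul ?_ ?_
    · exact Real.continuous_sinc.comp (by fun_prop)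
    · exact Real.continuous_sinc.comp (by fun_prop)
  · rw [Real.norm_eq_abs, abs_mul]
    simp only [Pi.add_apply]
    nlinarith [sq_nonneg (|Real.sinc (Real.pi * (v - a))| - |Real.sinc (Real.pi * (v - b))|),
      sq_abs (Real.sinc (Real.pi * (v - a))), sq_abs (Real.sinc (Real.pi * (v - b))),
      sq_nonneg (Real.sinc (Real.pi * (v - a))), sq_nonneg (Real.sinc (Real.pi * (v - b)))]

/-- the exponential function on the interval -/
def W (a : ℝ) (x : ℝ) : ℂ :=
  (Icc (-(1 / 2) : ℝ) (1 / 2)).indicator (fun x => Complex.exp (((2 * Real.pi * a * x : ℝ) : ℂ) * Complex.I)) x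

lemma exp_cont (a : ℝ) :
    Continuous (fun x : ℝ => Complex.exp (((2 * Real.pi * a * x : ℝ) : ℂ) * Complex.I)) := by
  fun_prop

lemma W_int (a : ℝ) : Integrable (W a) := by
  have h1 : IntegrableOn (fun x : ℝ => Complex.exp (((2 * Real.pi * a * x : ℝ) : ℂ) * Complex.I))
      (Icc (-(1 / 2) : ℝ) (1 / 2)) := (exp_cont a).continuousOn.integrableOn_Icc
  exact h1.integrable_indicator measurableSet_Icc

lemma W_norm (a x : ℝ) : ‖W a x‖ ≤ 1 := by
  unfold W
  by_cases hx : x ∈ Icc (-(1 / 2) : ℝ) (1 / 2)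
  · rw [indicator_of_mem hx, Complex.norm_exp_ofReal_mul_I]
  · rw [indicator_of_notMem hx, norm_zero]
    exact zero_le_one

lemma int_exp (t : ℝ) :
    ∫ x in Icc (-(1 / 2) : ℝ) (1 / 2), Complex.exp (((2 * Real.pi * t * x : ℝ) : ℂ) * Complex.I) =
      ((Real.sinc (Real.pi * t) : ℝ) : ℂ) := by
  rw [integral_Icc_eq_integral_Ioc, ← intervalIntegral.integral_of_le (by norm_num)]
  by_cases ht : t = 0
  · subst ht
    simp
    norm_num
  · have hpi := Real.pi_pos
    have hc : (2 * Real.pi * t : ℂ) * Complex.I ≠ 0 := by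
      refine mul_ne_zero ?_ Complex.I_ne_zero
      exact_mod_cast (by positivity : (2 * Real.pi * t : ℝ) ≠ 0)
    have h1 : ∀ x : ℝ, Complex.exp (((2 * Real.pi * t * x : ℝ) : ℂ) * Complex.I) =
        Complex.exp ((2 * Real.pi * t : ℂ) * Complex.I * x) := by
      intro x
      congr 1
      push_cast
      ring
    simp_rw [h1]
    rw [integral_exp_mul_complex hc, Real.sinc_of_ne_zero (by positivity)]
    have e1 : (2 * Real.pi * t : ℂ) * Complex.I * ((1 / 2 : ℝ) : ℂ) = (Real.pi * t : ℂ) * Complex.I := by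
      push_cast
      ring
    have e2 : (2 * Real.pi * t : ℂ) * Complex.I * ((-(1 / 2) : ℝ) : ℂ) =
        -((Real.pi * t : ℂ) * Complex.I) := by
      push_cast
      ring
    rw [e1, e2]
    have e3 : Complex.exp ((Real.pi * t : ℂ) * Complex.I) - Complex.exp (-((Real.pi * t : ℂ) * Complex.I)) =
        2 * Complex.I * Complex.sin (Real.pi * t : ℂ) := by
      rw [Complex.sin]
      have h5 : -((Real.pi : ℂ) * t) * Complex.I = -((Real.pi * t : ℂ) * Complex.I) := by ring
      rw [h5]
      have hI := Complex.I_mul_I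
      field_simp
      linear_combination (Complex.exp ((Real.pi * t : ℂ) * Complex.I) -
        Complex.exp (-((Real.pi * t : ℂ) * Complex.I))) * (Complex.I_sq)
    rw [e3]
    have ht' : (t : ℂ) ≠ 0 := by exact_mod_cast ht
    have hp' : (Real.pi : ℂ) ≠ 0 := by exact_mod_cast hpi.ne'
    push_cast
    field_simp

lemma W_fourier (a ξ : ℝ) : 𝓕 (W a) ξ = ((Real.sinc (Real.pi * (ξ - a)) : ℝ) : ℂ) := by
  rw [Real.fourier_real_eq_integral_exp_smul]
  have h1 : ∀ v : ℝ, Complex.exp (((-2 * Real.pi * v * ξ : ℝ) : ℂ) * Complex.I) • W a v =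
      (Icc (-(1 / 2) : ℝ) (1 / 2)).indicator
        (fun x => Complex.exp (((2 * Real.pi * (a - ξ) * x : ℝ) : ℂ) * Complex.I)) v := by
    intro v
    unfold W
    by_cases hv : v ∈ Icc (-(1 / 2) : ℝ) (1 / 2)
    · rw [indicator_of_mem hv, indicator_of_mem hv, smul_eq_mul, ← Complex.exp_add]
      congr 1
      push_cast
      ring
    · rw [indicator_of_notMem hv, indicator_of_notMem hv, smul_zero]
  simp_rw [h1]
  rw [integral_indicator measurableSet_Icc, int_exp]
  congr 1
  rw [← Real.sinc_neg]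
  congr 1
  ring

/-- the convolution -/
def cv (a b : ℝ) : ℝ → ℂ := W a ⋆[ContinuousLinearMap.mul ℂ ℂ] W b

lemma cv_int (a b : ℝ) : Integrable (cv a b) :=
  (W_int a).integrable_convolution (ContinuousLinearMap.mul ℂ ℂ) (W_int b)

lemma cv_fourier (a b ξ : ℝ) : 𝓕 (cv a b) ξ =
    ((Real.sinc (Real.pi * (ξ - a)) * Real.sinc (Real.pi * (ξ - b)) : ℝ) : ℂ) := by
  unfold cv
  rw [Real.fourier_mul_convolution_eq (W_int a) (W_int b), W_fourier, W_fourier]
  push_cast
  rfl

lemma cv_apply (a b x : ℝ) : cv a b x = ∫ t, W a t * W b (x - t) := by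
  unfold cv
  rw [convolution_def]
  rfl

lemma cv_cont (a b : ℝ) : ContinuousAt (cv a b) 0 := by
  have h0 : cv a b = fun x => ∫ t, W a t * W b (x - t) := by
    funext x
    exact cv_apply a b x
  rw [h0]
  refine continuousAt_of_dominated (bound := fun t => ‖W a t‖) ?_ ?_ (W_int a).norm ?_
  · refine Eventually.of_forall fun x => ?_
    exact (W_int a).aestronglyMeasurable.mul ((W_int b).comp_sub_left x).aestronglyMeasurable
  · refine Eventually.of_forall fun x => Eventually.of_forall fun t => ?_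
    rw [norm_mul]
    have := W_norm b (x - t)
    nlinarith [norm_nonneg (W a t)]
  · have hfin : ({-(1 / 2), 1 / 2} : Set ℝ).Finite := by simp
    have hnull : ∀ᵐ t : ℝ, t ∉ ({-(1 / 2), 1 / 2} : Set ℝ) := by
      rw [ae_iff]
      simp only [not_not]
      exact hfin.measure_zero _
    filter_upwards [hnull] with t ht
    refine ContinuousAt.mul continuousAt_const ?_
    have hW : ContinuousAt (W b) (0 - t) := by
      have hf : (0 - t) ∉ frontier (Icc (-(1 / 2) : ℝ) (1 / 2)) := by
        rw [frontier_Icc (by norm_num : (-(1 / 2) : ℝ) ≤ 1 / 2)]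
        intro h
        apply ht
        simp only [mem_insert_iff, mem_singleton_iff] at h ⊢
        rcases h with h | h
        · right; linarith
        · left; linarith
      have hc : Continuous (fun x : ℝ => Complex.exp (((2 * Real.pi * b * x : ℝ) : ℂ) * Complex.I)) :=
        exp_cont b
      exact hc.continuousOn.continuousAt_indicator hf
    have hs : ContinuousAt (fun x : ℝ => x - t) 0 := by fun_prop
    exact ContinuousAt.comp (f := fun x : ℝ => x - t) (g := W b) hW hs

lemma cv_zero (a b : ℝ) : cv a b 0 = ((Real.sinc (Real.pi * (a - b)) : ℝ) : ℂ) := by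
  rw [cv_apply]
  have h1 : ∀ t : ℝ, W a t * W b (0 - t) = (Icc (-(1 / 2) : ℝ) (1 / 2)).indicator
        (fun x => Complex.exp (((2 * Real.pi * (a - b) * x : ℝ) : ℂ) * Complex.I)) t := by
    intro t
    unfold W
    by_cases ht : t ∈ Icc (-(1 / 2) : ℝ) (1 / 2)
    · have ht' : 0 - t ∈ Icc (-(1 / 2) : ℝ) (1 / 2) := by
        constructor
        · linarith [ht.2]
        · linarith [ht.1]
      rw [indicator_of_mem ht, indicator_of_mem ht', indicator_of_mem ht, ← Complex.exp_add]
      congr 1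
      push_cast
      ring
    · rw [indicator_of_notMem ht, indicator_of_notMem ht, zero_mul]
  simp_rw [h1]
  rw [integral_indicator measurableSet_Icc, int_exp]

end REP

open REP FourierTransform in
theorem t_REP : S_REP := by
  intro a b
  refine ⟨prod_int a b, ?_⟩
  have hF : Integrable (𝓕 (cv a b)) := by
    have h1 : 𝓕 (cv a b) = fun ξ : ℝ =>
        ((Real.sinc (Real.pi * (ξ - a)) * Real.sinc (Real.pi * (ξ - b)) : ℝ) : ℂ) := by
      funext ξ
      exact cv_fourier a b ξ
    rw [h1]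
    exact (prod_int a b).ofReal
  have h2 := (cv_int a b).fourierInv_fourier_eq hF (cv_cont a b)
  rw [cv_zero, Real.fourierInv_eq'] at h2
  have h3 : ∀ v : ℝ, Complex.exp (((2 * Real.pi * inner ℝ v (0 : ℝ) : ℝ) : ℂ) * Complex.I) •
      𝓕 (cv a b) v =
      ((Real.sinc (Real.pi * (v - a)) * Real.sinc (Real.pi * (v - b)) : ℝ) : ℂ) := by
    intro v
    rw [cv_fourier]
    simp
  simp_rw [h3] at h2
  rw [integral_complex_ofReal] at h2
  exact_mod_cast h2

end

end Pool.Agent.J4.H44.RG
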