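import Pool.Agent.J4.H44.RG.Defs
import Pool.Agent.J4.H44.KL.Int

/-!
# Project HC: one more point of the sine process, with a flat weight
-/

set_option autoImplicit false

open Filter Topology MeasureTheory Set

namespace Pool.Agent.J4.H44.RG

noncomputable section

namespace SIN

open Matrix in
theorem det_add_vec_unit {n : Type} [Fintype n] [DecidableEq n] (A : Matrix n n ℝ)
    (hA : IsUnit A.det) (u v : n → ℝ) :
    (A + Matrix.vecMulVec u v).det = A.det + v ⬝ᵥ (A.adjugate *ᵥ u) := by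
  have h := Matrix.det_add_replicateCol_mul_replicateRow (ι := Unit) hA u v
  rw [← Matrix.vecMulVec_eq] at h
  rw [h]
  have h1 : (1 + replicateRow Unit v * A⁻¹ * replicateCol Unit u).det = 1 + v ⬝ᵥ (A⁻¹ *ᵥ u) := by
    rw [det_unique, Matrix.add_apply, Matrix.one_apply_eq, Matrix.mul_assoc]
    congr 1
  rw [h1, mul_add, mul_one]
  congr 1
  have h2 : A.adjugate = A.det • A⁻¹ := by
    rw [Matrix.inv_def, smul_smul, Ring.mul_inverse_cancel _ hA, one_smul]
  rw [h2, Matrix.smul_mulVec, dotProduct_smul, smul_eq_mul]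

open Matrix in
theorem det_add_vec {n : Type} [Fintype n] [DecidableEq n] (A : Matrix n n ℝ) (u v : n → ℝ) :
    (A + Matrix.vecMulVec u v).det = A.det + v ⬝ᵥ (A.adjugate *ᵥ u) := by
  have hd : Dense {t : ℝ | (t • (1 : Matrix n n ℝ) + A).det ≠ 0} := by
    have hfin : {t : ℝ | (t • (1 : Matrix n n ℝ) + A).det = 0}.Finite := by
      have hp : ((-A).charpoly) ≠ 0 := (Matrix.charpoly_monic _).ne_zero
      refine (Polynomial.finite_setOfPred_isRoot hp).subset ?_
      intro t ht
      rw [Set.mem_ofPred_eq] at ht ⊢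
      rw [Polynomial.IsRoot, Matrix.eval_charpoly]
      rw [← ht]
      congr 1
      ext i j
      simp [Matrix.scalar_apply, Matrix.smul_apply, Matrix.one_apply, Matrix.diagonal_apply]
    have h2 := hfin.countable.dense_compl ℝ
    exact h2
  have hc1 : Continuous (fun t : ℝ =>
      (t • (1 : Matrix n n ℝ) + A + Matrix.vecMulVec u v).det) := by
    fun_prop
  have hc2 : Continuous (fun t : ℝ => (t • (1 : Matrix n n ℝ) + A).det
      + v ⬝ᵥ ((t • (1 : Matrix n n ℝ) + A).adjugate *ᵥ u)) := by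
    fun_prop
  have heq := Continuous.ext_on hd hc1 hc2 (fun t ht =>
    det_add_vec_unit _ (isUnit_iff_ne_zero.2 ht) u v)
  have := congrFun heq 0
  simpa using this

/-- the difference of the determinants -/
def D {m : ℕ} (u : Fin m → ℝ) (v : ℝ) : ℝ :=
  (A (Fin.cons v u : Fin (m + 1) → ℝ)).det - (A u).det

theorem A_eq {m : ℕ} (u : Fin m → ℝ) : A u = Pool.Agent.J4.H44.KL.SM u := rfl

theorem D_eq {m : ℕ} (u : Fin m → ℝ) (v : ℝ) : D u v =
    ∑ i, ∑ j, -((A u).adjugate i j) * (Real.sinc (Real.pi * (v - pt u i)) *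
      Real.sinc (Real.pi * (v - pt u j))) := by
  have h := Pool.Agent.J4.H44.KL.det_cons u v
  set s : Option (Fin m) → ℝ := fun i => Real.sinc (Real.pi * (v - pt u i)) with hs
  have h1 : (Pool.Agent.J4.H44.KL.SM u - Matrix.of fun i j =>
      Real.sinc (Real.pi * (v - Pool.Agent.J4.H44.KL.pt u i)) *
        Real.sinc (Real.pi * (v - Pool.Agent.J4.H44.KL.pt u j))) =
      A u + Matrix.vecMulVec (-s) s := by
    ext i j
    rw [Matrix.sub_apply, Matrix.add_apply, Matrix.vecMulVec_apply, Matrix.of_apply, A_eq,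
      Pi.neg_apply, neg_mul, ← sub_eq_add_neg]
    rfl
  rw [h1, det_add_vec] at h
  unfold D
  rw [A_eq (Fin.cons v u : Fin (m + 1) → ℝ), h, add_sub_cancel_left]
  rw [Matrix.mulVec_neg, dotProduct_neg]
  unfold dotProduct Matrix.mulVec dotProduct
  rw [← Finset.sum_neg_distrib]
  refine Finset.sum_congr rfl fun i _ => ?_
  rw [Finset.mul_sum, ← Finset.sum_neg_distrib]
  refine Finset.sum_congr rfl fun j _ => ?_
  rw [hs]
  ring

theorem int_D (h : S_REP) {m : ℕ} (u : Fin m → ℝ) : Integrable (D u) ∧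
    ∫ v, D u v = -((m + 1) * (A u).det) := by
  have h1 : D u = fun v => ∑ i, ∑ j, -((A u).adjugate i j) *
      (Real.sinc (Real.pi * (v - pt u i)) * Real.sinc (Real.pi * (v - pt u j))) :=
    funext fun v => D_eq u v
  have h2 : ∀ i j : Option (Fin m), Integrable (fun v => -((A u).adjugate i j) *
      (Real.sinc (Real.pi * (v - pt u i)) * Real.sinc (Real.pi * (v - pt u j)))) :=
    fun i j => (h _ _).1.const_mul _
  refine ⟨?_, ?_⟩
  · rw [h1]
    exact integrable_finsetSum _ fun i _ => integrable_finsetSum _ fun j _ => h2 i j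
  · rw [h1, integral_finsetSum _ fun i _ => integrable_finsetSum _ fun j _ => h2 i j]
    have h3 : ∀ i : Option (Fin m), ∫ v, ∑ j, -((A u).adjugate i j) *
        (Real.sinc (Real.pi * (v - pt u i)) * Real.sinc (Real.pi * (v - pt u j))) =
        -((A u).adjugate * A u) i i := by
      intro i
      rw [integral_finsetSum _ fun j _ => h2 i j, Matrix.mul_apply, ← Finset.sum_neg_distrib]
      refine Finset.sum_congr rfl fun j _ => ?_
      rw [integral_const_mul, (h _ _).2, neg_mul]
      congr 2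
      show Real.sinc (Real.pi * (pt u i - pt u j)) = Real.sinc (Real.pi * (pt u j - pt u i))
      rw [← Real.sinc_neg]
      congr 1
      ring
    simp only [h3]
    rw [Matrix.adjugate_mul]
    simp only [Matrix.smul_apply, Matrix.one_apply_eq, smul_eq_mul, mul_one]
    rw [Finset.sum_const, Finset.card_univ, Fintype.card_option, Fintype.card_fin, nsmul_eq_mul]
    push_cast
    ring

/-- the weighted tail of the weight function -/
theorem weight_int {ε : ℝ} (hε : 0 < ε) (hε1 : ε ≤ 1) :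
    Integrable (fun v : ℝ => (1 - (1 - ε) * (Icc (-(1 / ε)) (1 / ε)).indicator (fun _ => (1 : ℝ)) v) *
      (1 + v ^ 2)⁻¹) ∧
    ∫ v : ℝ, (1 - (1 - ε) * (Icc (-(1 / ε)) (1 / ε)).indicator (fun _ => (1 : ℝ)) v) *
      (1 + v ^ 2)⁻¹ ≤ (2 + Real.pi) * ε := by
  have i1 : Integrable (fun v : ℝ => (1 + v ^ 2)⁻¹) := integrable_inv_one_add_sq
  have e1 : (fun v : ℝ => (1 - (1 - ε) * (Icc (-(1 / ε)) (1 / ε)).indicator (fun _ => (1 : ℝ)) v) *
      (1 + v ^ 2)⁻¹) = fun v : ℝ => (1 + v ^ 2)⁻¹ -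
      (1 - ε) * (Icc (-(1 / ε)) (1 / ε)).indicator (fun v => (1 + v ^ 2)⁻¹) v := by
    funext v
    by_cases hv : v ∈ Icc (-(1 / ε)) (1 / ε)
    · rw [indicator_of_mem hv, indicator_of_mem hv]
      ring
    · rw [indicator_of_notMem hv, indicator_of_notMem hv]
      ring
  have i2 : Integrable (fun v : ℝ => (1 - ε) *
      (Icc (-(1 / ε)) (1 / ε)).indicator (fun v => (1 + v ^ 2)⁻¹) v) :=
    (i1.indicator measurableSet_Icc).const_mul _
  rw [e1]
  refine ⟨i1.sub i2, ?_⟩
  have hle : -(1 / ε) ≤ 1 / ε := by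
    have : 0 < 1 / ε := by positivity
    linarith
  rw [integral_sub i1 i2, integral_const_mul, integral_indicator measurableSet_Icc,
    integral_univ_inv_one_add_sq, integral_Icc_eq_integral_Ioc,
    ← intervalIntegral.integral_of_le hle, integral_inv_one_add_sq, Real.arctan_neg]
  have h1 : Real.arctan (1 / ε) = Real.pi / 2 - Real.arctan ε := by
    rw [one_div, Real.arctan_inv_of_pos hε]
  rw [h1]
  have h3 : 0 ≤ Real.arctan ε := Real.arctan_nonneg.2 hε.le
  have h2 : Real.arctan ε ≤ ε := by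
    have := Real.le_tan h3 (Real.arctan_lt_pi_div_two ε)
    rwa [Real.tan_arctan] at this
  nlinarith [Real.pi_pos]

end SIN

theorem t_SIN (h : S_REP) : S_SIN := by
  intro m x y
  obtain ⟨C0, hC0, hdif⟩ := Pool.Agent.J4.H44.KL.det_cons_sub (m := m)
  obtain ⟨R, hR⟩ : ∃ R : ℝ, R = ∑ i, (|x i| + |y i|) := ⟨_, rfl⟩
  have hR0 : 0 ≤ R := by rw [hR]; positivity
  have hRu : ∀ u ∈ Icc x y, ∀ i, |u i| ≤ R := by
    intro u hu i
    have h1 : |x i| + |y i| ≤ R := by
      rw [hR]
      exact Finset.single_le_sum (f := fun i => |x i| + |y i|) (fun j _ => by positivity)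
        (Finset.mem_univ i)
    have h2 := hu.1 i
    have h3 := hu.2 i
    rw [abs_le]
    constructor
    · have := neg_abs_le (x i)
      have := abs_nonneg (y i)
      linarith
    · have := le_abs_self (y i)
      have := abs_nonneg (x i)
      linarith
  obtain ⟨K, hK⟩ : ∃ K : ℝ, K = C0 * ((m + 1) * (4 * (1 + R ^ 2))) := ⟨_, rfl⟩
  have hK0 : 0 < K := by rw [hK]; positivity
  have hDb : ∀ u ∈ Icc x y, ∀ v, |SIN.D u v| ≤ K * (1 + v ^ 2)⁻¹ := by
    intro u hu v
    refine (hdif u v).trans ?_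
    have h2 := Pool.Agent.J4.H44.KL.bs_le u v R hR0 (hRu u hu)
    calc C0 * Pool.Agent.J4.H44.KL.bs u v ≤ C0 * ((m + 1) * (4 * (1 + R ^ 2) * (1 + v ^ 2)⁻¹)) :=
          mul_le_mul_of_nonneg_left h2 hC0.le
      _ = _ := by rw [hK]; ring
  obtain ⟨V, hV⟩ : ∃ V : ℝ, V = (volume (Icc x y)).toReal := ⟨_, rfl⟩
  have hV0 : 0 ≤ V := by rw [hV]; exact ENNReal.toReal_nonneg
  have hVt : volume (Icc x y) ≠ ⊤ := isCompact_Icc.measure_lt_top.ne
  have hcD : Continuous fun p : ℝ × (Fin m → ℝ) => SIN.D p.2 p.1 :=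
    (Pool.Agent.J4.H44.KL.det_cont.comp Pool.Agent.J4.H44.KL.cons_cont).sub
      (Pool.Agent.J4.H44.KL.det_cont.comp continuous_snd)
  -- integrability on the product
  have hprod : Integrable (fun p : ℝ × (Fin m → ℝ) => SIN.D p.2 p.1)
      ((volume : Measure ℝ).prod ((volume : Measure (Fin m → ℝ)).restrict (Icc x y))) := by
    have : IsFiniteMeasure ((volume : Measure (Fin m → ℝ)).restrict (Icc x y)) :=
      ⟨by rw [Measure.restrict_apply_univ]; exact isCompact_Icc.measure_lt_top⟩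
    have i1 : Integrable (fun p : ℝ × (Fin m → ℝ) => (1 + p.1 ^ 2)⁻¹ * K)
        ((volume : Measure ℝ).prod ((volume : Measure (Fin m → ℝ)).restrict (Icc x y))) :=
      Integrable.mul_prod (f := fun v : ℝ => (1 + v ^ 2)⁻¹) (g := fun _ : Fin m → ℝ => K)
        integrable_inv_one_add_sq (integrable_const K)
    refine i1.mono' hcD.aestronglyMeasurable ?_
    have e1 : (volume : Measure ℝ).prod ((volume : Measure (Fin m → ℝ)).restrict (Icc x y)) =
        ((volume : Measure ℝ).prod (volume : Measure (Fin m → ℝ))).restrict (univ ×ˢ Icc x y) := by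
      rw [← Measure.prod_restrict, Measure.restrict_univ]
    rw [e1, ae_restrict_iff' (MeasurableSet.univ.prod measurableSet_Icc)]
    refine ae_of_all _ fun p hp => ?_
    rw [Real.norm_eq_abs, mul_comm]
    exact hDb p.2 hp.2 p.1
  -- the difference of the densities
  have hcA : ∀ v : ℝ, IntegrableOn (fun u : Fin m → ℝ => (A (Fin.cons v u : Fin (m + 1) → ℝ)).det)
      (Icc x y) := by
    intro v
    have : Continuous fun u : Fin m → ℝ => (A (Fin.cons v u : Fin (m + 1) → ℝ)).det :=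
      (Pool.Agent.J4.H44.KL.det_cont.comp Pool.Agent.J4.H44.KL.cons_cont).comp
        (Continuous.prodMk_right v)
    exact this.continuousOn.integrableOn_compact isCompact_Icc
  have hcA' : IntegrableOn (fun u : Fin m → ℝ => (A u).det) (Icc x y) :=
    Pool.Agent.J4.H44.KL.det_cont.continuousOn.integrableOn_compact isCompact_Icc
  have hd : ∀ v, jB x y v - J x y = ∫ u in Icc x y, SIN.D u v := by
    intro v
    unfold jB J
    rw [← integral_sub (hcA v) hcA']
    rfl
  set d : ℝ → ℝ := fun v => ∫ u in Icc x y, SIN.D u v with hddef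
  have hdi : Integrable d := hprod.integral_prod_left
  have hdint : ∫ v, d v = -((m + 1) * J x y) := by
    rw [hddef, integral_integral_swap hprod]
    unfold J
    rw [← integral_const_mul, ← integral_neg]
    refine integral_congr_ae (ae_of_all _ fun u => ?_)
    exact (SIN.int_D h u).2
  have hdb : ∀ v, |d v| ≤ K * V * (1 + v ^ 2)⁻¹ := by
    intro v
    have h1 := norm_setIntegral_le_of_norm_le_const (μ := volume) (s := Icc x y)
      (f := fun u : Fin m → ℝ => SIN.D u v) (C := K * (1 + v ^ 2)⁻¹) isCompact_Icc.measure_lt_top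
      (fun u hu => by rw [Real.norm_eq_abs]; exact hDb u hu v)
    rw [Real.norm_eq_abs, measureReal_def, ← hV] at h1
    calc |d v| ≤ K * (1 + v ^ 2)⁻¹ * V := h1
      _ = _ := by ring
  refine ⟨(K * V + 1) * (2 + Real.pi), by positivity, fun ε G R' hε hε1 hG => ?_⟩
  have hGd : Integrable (fun v => G v * d v) := by
    refine hdi.mono (hG.cont.aestronglyMeasurable.mul hdi.1) (ae_of_all _ fun v => ?_)
    rw [norm_mul, Real.norm_eq_abs, abs_of_nonneg (hG.nonneg v)]
    exact mul_le_of_le_one_left (norm_nonneg _) (hG.le_one v)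
  have e2 : (∫ v, G v * (jB x y v - J x y)) + (m + 1) * J x y = ∫ v, (G v - 1) * d v := by
    have e3 : ∀ v, (G v - 1) * d v = G v * d v - d v := fun v => by ring
    simp only [e3]
    rw [integral_sub hGd hdi, hdint]
    simp only [hd]
    rw [sub_neg_eq_add]
  rw [e2]
  obtain ⟨w1, w2⟩ := SIN.weight_int hε hε1
  have h5 : ‖∫ v, (G v - 1) * d v‖ ≤ ∫ v : ℝ, (K * V) * ((1 - (1 - ε) *
      (Icc (-(1 / ε)) (1 / ε)).indicator (fun _ => (1 : ℝ)) v) * (1 + v ^ 2)⁻¹) := by
    refine norm_integral_le_of_norm_le (w1.const_mul _) (ae_of_all _ fun v => ?_)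
    rw [norm_mul, Real.norm_eq_abs, Real.norm_eq_abs]
    have h6 : |G v - 1| ≤ 1 - (1 - ε) *
        (Icc (-(1 / ε)) (1 / ε)).indicator (fun _ => (1 : ℝ)) v := by
      rw [abs_sub_comm, abs_of_nonneg (sub_nonneg.2 (hG.le_one v))]
      by_cases hv : v ∈ Icc (-(1 / ε)) (1 / ε)
      · rw [indicator_of_mem hv]
        have := hG.flat v (abs_le.2 hv)
        linarith
      · rw [indicator_of_notMem hv]
        have := hG.nonneg v
        linarith
    have h7 : (0 : ℝ) ≤ (1 + v ^ 2)⁻¹ := by positivity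
    calc |G v - 1| * |d v| ≤ (1 - (1 - ε) *
        (Icc (-(1 / ε)) (1 / ε)).indicator (fun _ => (1 : ℝ)) v) * (K * V * (1 + v ^ 2)⁻¹) :=
          mul_le_mul h6 (hdb v) (abs_nonneg _) ((abs_nonneg _).trans h6)
      _ = _ := by ring
  rw [Real.norm_eq_abs, integral_const_mul] at h5
  refine h5.trans ?_
  have h8 : K * V * ∫ v : ℝ, (1 - (1 - ε) * (Icc (-(1 / ε)) (1 / ε)).indicator
      (fun _ => (1 : ℝ)) v) * (1 + v ^ 2)⁻¹ ≤ K * V * ((2 + Real.pi) * ε) :=
    mul_le_mul_of_nonneg_left w2 (by positivity)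
  have h9 : 0 ≤ (2 + Real.pi) * ε := by positivity
  nlinarith

end

end Pool.Agent.J4.H44.RG
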