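import Pool.Agent.J4.H44.RG.Defs

/-!
# Piece Z: one more zero, with a flat weight
-/

set_option autoImplicit false
set_option linter.all false

open Filter Topology MeasureTheory Set

namespace Pool.Agent.J4.H44.RG

namespace Z

theorem mem_Ws {T : ℝ} {n l : ℕ} {S : Set ℝ} :
    l ∈ Ws T n S ↔ l ∈ Finset.Icc 1 (NZ T) ∧ l ≠ n ∧ ps T n l ∈ S := by
  classical
  unfold Ws
  rw [Finset.mem_filter]

theorem Ws_mono {T : ℝ} {n : ℕ} {S S' : Set ℝ} (h : S ⊆ S') : Ws T n S ⊆ Ws T n S' := by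
  intro l hl
  obtain ⟨h1, h2, h3⟩ := mem_Ws.1 hl
  exact mem_Ws.2 ⟨h1, h2, h h3⟩

theorem tup_le {m : ℕ} (T R0 : ℝ) (x y : Fin m → ℝ) (hx : ∀ i, -R0 ≤ x i) (hy : ∀ i, y i ≤ R0)
    (n : ℕ) : tup T x y n ≤ (Ws T n (Icc (-R0) R0)).card ^ m := by
  classical
  unfold tup
  have h1 : {l : Fin m → ℕ | Function.Injective l ∧ ∀ i, l i ∈ Ws T n (Icc (x i) (y i))} ⊆
      ((Fintype.piFinset (fun _ : Fin m => Ws T n (Icc (-R0) R0)) : Finset (Fin m → ℕ)) :
        Set (Fin m → ℕ)) := by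
    rintro l ⟨-, hl⟩
    rw [Finset.mem_coe, Fintype.mem_piFinset]
    exact fun i => Ws_mono (Icc_subset_Icc (hx i) (hy i)) (hl i)
  refine (Set.ncard_le_ncard h1 (Finset.finite_toSet _)).trans (le_of_eq ?_)
  rw [Set.ncard_coe_finset, Fintype.card_piFinset]
  simp

theorem scale {g : ℝ → ℝ} {K R : ℝ} (hK : 0 ≤ K) (hR : 0 ≤ R)
    (hg : ∀ v w, |g v - g w| ≤ K * |v - w|) (hs : ∀ v, R < |v| → g v = 0) {T ρ R' δ : ℝ}
    (hρ : 1 / 2 ≤ ρ) (hρ1 : ρ ≤ 1) (hδ : 1 - ρ ≤ δ) (hR' : 2 * R ≤ R') (n : ℕ) :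
    |∑ l ∈ Finset.Icc 1 (NZ T), g (ps T n l) - ∑ l ∈ Finset.Icc 1 (NZ T), g (ρ * ps T n l)| ≤
      K * (2 * R) * δ * ((Ws T n (Icc (-R') R')).card : ℝ) := by
  classical
  have hδ0 : 0 ≤ δ := by linarith
  have hnn : 0 ≤ K * (2 * R) * δ := by positivity
  rw [← Finset.sum_sub_distrib]
  have hz : ∀ v : ℝ, 2 * R < |v| → g v - g (ρ * v) = 0 := by
    intro v hv
    have h1 : R < |v| := by linarith
    have h2 : R < |ρ * v| := by
      rw [abs_mul, abs_of_nonneg (by linarith : (0 : ℝ) ≤ ρ)]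
      nlinarith [abs_nonneg v]
    rw [hs v h1, hs _ h2, sub_zero]
  have hle : ∀ v : ℝ, |g v - g (ρ * v)| ≤ K * (2 * R) * δ := by
    intro v
    rcases lt_or_ge (2 * R) |v| with hv | hv
    · rw [hz v hv, abs_zero]
      exact hnn
    · refine (hg v (ρ * v)).trans ?_
      have e : v - ρ * v = (1 - ρ) * v := by ring
      rw [e, abs_mul, abs_of_nonneg (by linarith : (0 : ℝ) ≤ 1 - ρ)]
      calc K * ((1 - ρ) * |v|) ≤ K * (δ * (2 * R)) := by gcongr
        _ = _ := by ring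
  calc |∑ l ∈ Finset.Icc 1 (NZ T), (g (ps T n l) - g (ρ * ps T n l))|
      ≤ ∑ l ∈ Finset.Icc 1 (NZ T), |g (ps T n l) - g (ρ * ps T n l)| :=
        Finset.abs_sum_le_sum_abs _ _
    _ ≤ ∑ l ∈ Finset.Icc 1 (NZ T),
          (if l ∈ Ws T n (Icc (-R') R') then K * (2 * R) * δ else 0) := by
        refine Finset.sum_le_sum fun l hl => ?_
        split_ifs with h
        · exact hle _
        · have h2 : g (ps T n l) - g (ρ * ps T n l) = 0 := by
            by_cases hln : l = n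
            · subst hln
              simp [ps]
            · apply hz
              by_contra hc
              push Not at hc
              exact h (mem_Ws.2 ⟨hl, hln, abs_le.1 (hc.trans hR')⟩)
          rw [h2, abs_zero]
    _ = ∑ l ∈ Finset.Icc 1 (NZ T) with l ∈ Ws T n (Icc (-R') R'), K * (2 * R) * δ := by
        rw [Finset.sum_filter]
    _ = (((Finset.Icc 1 (NZ T)).filter (fun l => l ∈ Ws T n (Icc (-R') R'))).card : ℝ) *
          (K * (2 * R) * δ) := by rw [Finset.sum_const, nsmul_eq_mul]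
    _ ≤ ((Ws T n (Icc (-R') R')).card : ℝ) * (K * (2 * R) * δ) := by
        gcongr
        intro l hl
        exact (Finset.mem_filter.1 hl).2
    _ = _ := by ring

theorem mem_blk {T : ℝ} {i n : ℕ} :
    n ∈ blk T i ↔ n ∈ Finset.Icc 1 (NZ T) ∧ T / 2 ^ (i + 1) + 1 < γ n ∧ γ n ≤ T / 2 ^ i - 1 := by
  classical
  unfold blk
  rw [Finset.mem_filter]

theorem blk_lt {T : ℝ} (hT : 0 ≤ T) {i i' n : ℕ} (h : i < i') (hn : n ∈ blk T i) :
    n ∉ blk T i' := by
  intro hn'
  obtain ⟨-, h1, -⟩ := mem_blk.1 hn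
  obtain ⟨-, -, h2⟩ := mem_blk.1 hn'
  have h3 : T / 2 ^ i' ≤ T / 2 ^ (i + 1) := by
    apply div_le_div_of_nonneg_left hT (by positivity)
    exact pow_le_pow_right₀ (by norm_num) h
  linarith

/-- all blocks -/
noncomputable def BB (T : ℝ) (J : ℕ) : Finset ℕ := by
  classical
  exact (Finset.range J).biUnion (blk T)

theorem BB_sub (T : ℝ) (J : ℕ) : BB T J ⊆ Finset.Icc 1 (NZ T) := by
  classical
  intro n hn
  unfold BB at hn
  obtain ⟨i, -, hi⟩ := Finset.mem_biUnion.1 hn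
  exact (mem_blk.1 hi).1

theorem sum_BB {T : ℝ} (hT : 0 ≤ T) (J : ℕ) (f : ℕ → ℝ) :
    ∑ n ∈ BB T J, f n = ∑ i ∈ Finset.range J, ∑ n ∈ blk T i, f n := by
  classical
  unfold BB
  apply Finset.sum_biUnion
  intro i _ i' _ hii
  rw [Function.onFun, Finset.disjoint_left]
  intro n hn hn'
  rcases lt_or_gt_of_ne hii with h | h
  · exact blk_lt hT h hn hn'
  · exact blk_lt hT h hn' hn

/-- the other zeros -/
noncomputable def EE (T : ℝ) (J : ℕ) : Finset ℕ := by
  classical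
  exact Finset.Icc 1 (NZ T) \ BB T J

theorem sum_split (T : ℝ) (J : ℕ) (f : ℕ → ℝ) :
    ∑ n ∈ Finset.Icc 1 (NZ T), f n = ∑ n ∈ BB T J, f n + ∑ n ∈ EE T J, f n := by
  classical
  unfold EE
  rw [add_comm, Finset.sum_sdiff (BB_sub T J)]

theorem card_EE (hm : Monotone NZ)
    (hγ : ∀ n : ℕ, 1 ≤ n → ∀ t : ℝ, 0 ≤ t → (γ n ≤ t ↔ n ≤ NZ t)) {T C : ℝ} {J : ℕ}
    (hT : 2 ^ J ≤ T) (h2 : ∀ t : ℝ, 0 ≤ t → t ≤ 2 * T → (NZ (t + 2) : ℝ) - NZ t ≤ C) :
    ((EE T J).card : ℝ) ≤ NZ (T / 2 ^ J) + (J + 1) * C := by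
  classical
  have hT0 : 0 ≤ T := le_trans (by positivity) hT
  have hsub : EE T J ⊆ Finset.Icc 1 (NZ (T / 2 ^ J)) ∪ (Finset.range (J + 1)).biUnion
      (fun i => Finset.Ioc (NZ (T / 2 ^ i - 1)) (NZ (T / 2 ^ i + 1))) := by
    intro n hn
    unfold EE at hn
    rw [Finset.mem_sdiff, Finset.mem_Icc] at hn
    obtain ⟨⟨h1, h3⟩, h4⟩ := hn
    rw [Finset.mem_union]
    by_cases hJ : γ n ≤ T / 2 ^ J
    · left
      rw [Finset.mem_Icc]
      exact ⟨h1, (hγ n h1 _ (by positivity)).1 hJ⟩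
    · right
      push Not at hJ
      have hex : ∃ i : ℕ, T / 2 ^ i < γ n := ⟨J, hJ⟩
      have hfJ : Nat.find hex ≤ J := Nat.find_min' hex hJ
      have hspec := Nat.find_spec hex
      have hpos : Nat.find hex ≠ 0 := by
        intro h0
        rw [h0, pow_zero, div_one] at hspec
        exact absurd ((hγ n h1 T hT0).2 h3) (not_le.2 hspec)
      obtain ⟨k, hk⟩ := Nat.exists_eq_succ_of_ne_zero hpos
      have hk1 : ¬ T / 2 ^ k < γ n := Nat.find_min hex (by omega)
      rw [hk] at hspec hfJ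
      push Not at hk1
      have hge : ∀ i : ℕ, i ≤ J → 0 ≤ T / 2 ^ i - 1 := by
        intro i hi
        have : (1 : ℝ) ≤ T / 2 ^ i := by
          rw [le_div_iff₀ (by positivity), one_mul]
          exact le_trans (pow_le_pow_right₀ (by norm_num) hi) hT
        linarith
      have hnb : n ∉ blk T k := fun h => h4 (by
        unfold BB
        exact Finset.mem_biUnion.2 ⟨k, Finset.mem_range.2 (by omega), h⟩)
      rw [mem_blk] at hnb
      push Not at hnb
      by_cases h5 : T / 2 ^ (k + 1) + 1 < γ n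
      · have h6 := hnb (Finset.mem_Icc.2 ⟨h1, h3⟩) h5
        refine Finset.mem_biUnion.2 ⟨k, Finset.mem_range.2 (by omega), Finset.mem_Ioc.2 ⟨?_, ?_⟩⟩
        · by_contra hc
          push Not at hc
          exact absurd ((hγ n h1 _ (hge k (by omega))).2 hc) (not_le.2 h6)
        · exact (hγ n h1 _ (by have := hge k (by omega); linarith)).1 (by linarith)
      · push Not at h5
        refine Finset.mem_biUnion.2 ⟨k + 1, Finset.mem_range.2 (by omega),
          Finset.mem_Ioc.2 ⟨?_, ?_⟩⟩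
        · by_contra hc
          push Not at hc
          have h7 := (hγ n h1 _ (hge (k + 1) (by omega))).2 hc
          have h8 : T / 2 ^ (k + 1) < γ n := hspec
          exact absurd (lt_of_lt_of_le h8 h7) (not_lt.2 (sub_le_self _ zero_le_one))
        · exact (hγ n h1 _ (by have := hge (k + 1) (by omega); linarith)).1 h5
  calc ((EE T J).card : ℝ) ≤ ((Finset.Icc 1 (NZ (T / 2 ^ J)) ∪ (Finset.range (J + 1)).biUnion
        (fun i => Finset.Ioc (NZ (T / 2 ^ i - 1)) (NZ (T / 2 ^ i + 1)))).card : ℝ) := by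
        exact_mod_cast Finset.card_le_card hsub
    _ ≤ ((Finset.Icc 1 (NZ (T / 2 ^ J))).card : ℝ) + (((Finset.range (J + 1)).biUnion
        (fun i => Finset.Ioc (NZ (T / 2 ^ i - 1)) (NZ (T / 2 ^ i + 1)))).card : ℝ) := by
        exact_mod_cast Finset.card_union_le _ _
    _ ≤ (NZ (T / 2 ^ J) : ℝ) + ∑ i ∈ Finset.range (J + 1),
          ((Finset.Ioc (NZ (T / 2 ^ i - 1)) (NZ (T / 2 ^ i + 1))).card : ℝ) := by
        gcongr
        · simp
        · exact_mod_cast Finset.card_biUnion_le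
    _ ≤ (NZ (T / 2 ^ J) : ℝ) + ∑ i ∈ Finset.range (J + 1), C := by
        gcongr with i hi
        rw [Nat.card_Ioc, Nat.cast_sub (hm (by linarith))]
        have hi' : i ≤ J := by
          have := Finset.mem_range.1 hi
          omega
        have h3 : (1 : ℝ) ≤ T / 2 ^ i := by
          rw [le_div_iff₀ (by positivity), one_mul]
          exact le_trans (pow_le_pow_right₀ (by norm_num) hi') hT
        have h4 : T / 2 ^ i ≤ T := div_le_self hT0 (one_le_pow₀ (by norm_num))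
        have h5 := h2 (T / 2 ^ i - 1) (by linarith) (by linarith)
        have e : T / 2 ^ i - 1 + 2 = T / 2 ^ i + 1 := by ring
        rwa [e] at h5
    _ = _ := by
        rw [Finset.sum_const, Finset.card_range, nsmul_eq_mul]
        push_cast
        ring

theorem amgm {t D J : ℝ} (hJ : 1 ≤ J) : |t * D| ≤ J ^ 5 / 4 + t ^ 4 / (4 * J) + D ^ 2 / (2 * J ^ 2) := by
  have hJ0 : 0 < J := by linarith
  have h1 : |t * D| ≤ J ^ 2 / 2 * t ^ 2 + D ^ 2 / (2 * J ^ 2) := by
    have e : J ^ 2 / 2 * t ^ 2 + D ^ 2 / (2 * J ^ 2) = ((J * |t|) ^ 2 + (|D| / J) ^ 2) / 2 := by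
      rw [mul_pow, div_pow, sq_abs, sq_abs]
      field_simp
    rw [e, abs_mul]
    have e2 : |t| * |D| = (J * |t|) * (|D| / J) := by field_simp
    rw [e2]
    nlinarith [sq_nonneg (J * |t| - |D| / J)]
  have h2 : J ^ 2 / 2 * t ^ 2 ≤ J ^ 5 / 4 + t ^ 4 / (4 * J) := by
    have e : J ^ 5 / 4 + t ^ 4 / (4 * J) - J ^ 2 / 2 * t ^ 2 = (J ^ 3 - t ^ 2) ^ 2 / (4 * J) := by
      field_simp
      ring
    have : 0 ≤ (J ^ 3 - t ^ 2) ^ 2 / (4 * J) := by positivity
    linarith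
  linarith

/-- the choice of `J` -/
theorem choose_J (CB CG C1 C2 CE CL C4 ε l : ℝ) (hε : 0 < ε) : ∃ J : ℕ, 1 ≤ J ∧
    CG * l / J ≤ ε ∧
    CB * (2 * (J : ℝ) ^ (-(1 / 4 : ℝ)) + J * (J : ℝ) ^ (-(3 / 2 : ℝ))) + CG * C1 / J +
      CE * J ^ 5 / 2 ^ J + C4 / (4 * J) + CL / (2 * J) ≤ ε / 2 := by
  have t0 : Tendsto (fun J : ℕ => (J : ℝ)) atTop atTop := tendsto_natCast_atTop_atTop
  have t1 : Tendsto (fun J : ℕ => (J : ℝ) ^ (-(1 / 4 : ℝ))) atTop (𝓝 0) :=
    (tendsto_rpow_neg_atTop (by norm_num : (0 : ℝ) < 1 / 4)).comp t0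
  have t2 : Tendsto (fun J : ℕ => (J : ℝ) * (J : ℝ) ^ (-(3 / 2 : ℝ))) atTop (𝓝 0) := by
    have h1 : Tendsto (fun J : ℕ => (J : ℝ) ^ (-(1 / 2 : ℝ))) atTop (𝓝 0) :=
      (tendsto_rpow_neg_atTop (by norm_num : (0 : ℝ) < 1 / 2)).comp t0
    refine h1.congr' ?_
    filter_upwards [eventually_ge_atTop 1] with J hJ
    have hJ0 : (0 : ℝ) < J := by exact_mod_cast hJ
    have e : (-(1 / 2) : ℝ) = 1 + (-(3 / 2)) := by norm_num
    rw [e, Real.rpow_add hJ0, Real.rpow_one]
  have t3 : ∀ c : ℝ, Tendsto (fun J : ℕ => c / (J : ℝ)) atTop (𝓝 0) := fun c =>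
    t0.const_div_atTop c
  have t4 : Tendsto (fun J : ℕ => CE * ((J : ℝ) ^ 5 / 2 ^ J)) atTop (𝓝 0) := by
    have h1 := tendsto_pow_const_div_const_pow_of_one_lt 5 (by norm_num : (1 : ℝ) < 2)
    simpa using h1.const_mul CE
  have t5 : Tendsto (fun J : ℕ => CB * (2 * (J : ℝ) ^ (-(1 / 4 : ℝ)) +
      J * (J : ℝ) ^ (-(3 / 2 : ℝ))) + CG * C1 / J + CE * ((J : ℝ) ^ 5 / 2 ^ J) + C4 / 4 / J +
        CL / 2 / J) atTop (𝓝 (CB * (2 * 0 + 0) + 0 + 0 + 0 + 0)) :=
    ((((((t1.const_mul 2).add t2).const_mul CB).add (t3 _)).add t4).add (t3 _)).add (t3 _)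
  have t6 : CB * (2 * 0 + 0) + 0 + 0 + 0 + 0 < ε / 2 := by
    have : CB * (2 * 0 + 0) + 0 + 0 + 0 + 0 = 0 := by ring
    linarith
  obtain ⟨J, h1, h2, h3⟩ := ((eventually_ge_atTop 1).and
    (((t3 (CG * l)).eventually_lt_const hε).and (t5.eventually_lt_const t6))).exists
  refine ⟨J, h1, h2.le, le_trans (le_of_eq ?_) h3.le⟩
  have hJ0 : (0 : ℝ) < J := by exact_mod_cast h1
  field_simp

end Z

theorem t_Z (h1 : S_BLK) (h2 : S_L2) (h3 : S_MOMK) (h4 : S_NZ) (h5 : S_GB) : S_Z := by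
  classical
  intro RH m x y ε hε
  obtain ⟨q, hblk⟩ := h1 RH
  obtain ⟨CB, hCB, hblk⟩ := hblk m x y
  obtain ⟨CG, hCG, hG⟩ := h5 q
  obtain ⟨CL, hCL, hL2⟩ := h2 RH q
  obtain ⟨⟨CN, hCN, hNZ⟩, ⟨CS, hCS, hshort⟩, hmono, hγ, -, hγ0⟩ := h4
  -- the box
  set R0 : ℝ := 1 + ∑ i, (|x i| + |y i|) with hR0
  have hs0 : ∀ i, |x i| + |y i| ≤ ∑ i, (|x i| + |y i|) := fun i =>
    Finset.single_le_sum (f := fun i => |x i| + |y i|) (fun i _ => by positivity)
      (Finset.mem_univ i)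
  have hR01 : 1 ≤ R0 := by
    have : 0 ≤ ∑ i, (|x i| + |y i|) := Finset.sum_nonneg fun i _ => by positivity
    linarith
  have hx : ∀ i, -R0 ≤ x i := fun i => by
    have := hs0 i
    have := neg_abs_le (x i)
    have := abs_nonneg (y i)
    linarith
  have hy : ∀ i, y i ≤ R0 := fun i => by
    have := hs0 i
    have := le_abs_self (y i)
    have := abs_nonneg (x i)
    linarith
  obtain ⟨C1, hC1, hM1⟩ := h3 RH m R0 hR01
  obtain ⟨C4, hC4, hM4⟩ := h3 RH (4 * m) R0 hR01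
  obtain ⟨J, hJ1, hJa, hJb⟩ := Z.choose_J CB CG C1 0 (CN / 2) CL C4 ε
    (1 + Real.log (1 + 1 / ε)) hε
  have hJ0 : (0 : ℝ) < J := by exact_mod_cast hJ1
  have hJ1' : (1 : ℝ) ≤ J := by exact_mod_cast hJ1
  obtain ⟨⟨K, hK, hlip⟩, hg0, hg1, hsupp, hflat, hint⟩ := hG J hJ1
  set R : ℝ := 2 ^ q * 4 ^ J + 1 with hR
  have hR0' : 0 ≤ R := by positivity
  set R' : ℝ := max R0 (2 * R) with hR'
  obtain ⟨C2, hC2, hM2⟩ := h3 RH (m + 1) R' (hR01.trans (le_max_left _ _))
  refine ⟨gbar q J, R, ⟨?_, hg0, hg1, hsupp, ?_⟩, ?_⟩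
  · have : LipschitzWith (Real.toNNReal K) (gbar q J) := by
      refine LipschitzWith.of_dist_le_mul fun v w => ?_
      rw [Real.dist_eq, Real.dist_eq, Real.coe_toNNReal K hK]
      exact hlip v w
    exact this.continuous
  · intro v hv
    refine le_trans ?_ (hflat v)
    have h6 : Real.log (1 + |v|) ≤ Real.log (1 + 1 / ε) :=
      Real.log_le_log (by positivity) (by linarith)
    have h7 : CG * (1 + Real.log (1 + |v|)) / J ≤ CG * (1 + Real.log (1 + 1 / ε)) / J := by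
      gcongr
    linarith
  · -- the main estimate
    have tlog : Tendsto (fun T : ℝ => Real.log T) atTop atTop := Real.tendsto_log_atTop
    have e1 : ∀ᶠ T : ℝ in atTop, ∀ i ∈ Finset.range J,
        |∑ n ∈ blk T i, (tup T x y n : ℝ) *
          (2 ^ q * cc J - ∑ l ∈ Finset.Icc 1 (NZ T),
            gbar q J ((γ l - γ n) * sc (T / 2 ^ (i + 1))))| ≤
          CB * ((J : ℝ) ^ (-(1 / 4 : ℝ)) / 2 ^ i + (J : ℝ) ^ (-(3 / 2 : ℝ))) *
            (T * Real.log T) :=
      (Filter.eventually_all_finset (Finset.range J)).2 fun i _ => hblk J hJ1 i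
    have e2 : ∀ᶠ T : ℝ in atTop, (NZ (T / 2 ^ J) : ℝ) ≤
        CN * (T / 2 ^ J * Real.log (T / 2 ^ J)) :=
      (tendsto_id.atTop_div_const (by positivity : (0 : ℝ) < 2 ^ J)).eventually hNZ
    have e3 : ∀ᶠ T : ℝ in atTop, K * (2 * R) * (J * Real.log 2 / Real.log T) * C2 ≤ ε / 2 := by
      have h6 : Tendsto (fun T : ℝ => K * (2 * R) * (J * Real.log 2 / Real.log T) * C2) atTop
          (𝓝 (K * (2 * R) * 0 * C2)) :=
        ((tlog.const_div_atTop _).const_mul _).mul_const _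
      have h7 : K * (2 * R) * 0 * C2 < ε / 2 := by
        have : K * (2 * R) * 0 * C2 = 0 := by ring
        linarith
      exact (h6.eventually_lt_const h7).mono fun T hT => hT.le
    have e4 : ∀ᶠ T : ℝ in atTop, 2 * (J * Real.log 2) ≤ Real.log T :=
      tlog.eventually_ge_atTop _
    have e5 : ∀ᶠ T : ℝ in atTop, (J + 1) * CS * 2 ^ J / CN ≤ T := eventually_ge_atTop _
    filter_upwards [e1, e2, e3, e4, e5, hL2 J hJ1, hshort, hM1, hM4, hM2,
      eventually_ge_atTop ((2 : ℝ) ^ J), eventually_gt_atTop 1] with T g1 g2 g3 g4 g5 g6 g7 g8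
        g9 g10 g11 g12
    have hT0 : 0 < T := by linarith
    have hlogT : 0 < Real.log T := Real.log_pos g12
    set P : ℝ := T * Real.log T with hP
    have hP0 : 0 < P := by positivity
    have hl2 : 0 < Real.log 2 := Real.log_pos (by norm_num)
    have hscT : 0 < sc T := by
      unfold sc
      have := Real.pi_pos
      positivity
    set I := Finset.Icc 1 (NZ T) with hI
    set t : ℕ → ℝ := fun n => (tup T x y n : ℝ) with ht
    have ht0 : ∀ n, 0 ≤ t n := fun n => Nat.cast_nonneg _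
    set D : ℕ → ℝ := fun n => 2 ^ q * cc J - ∑ l ∈ I, gbar q J (ps T n l) with hD
    have hW : ∀ n, (tup T x y n : ℝ) ≤ ((Ws T n (Icc (-R0) R0)).card : ℝ) ^ m := fun n => by
      exact_mod_cast Z.tup_le T R0 x y hx hy n
    -- moments
    have k1 : ∑ n ∈ I, t n ≤ C1 * P := (Finset.sum_le_sum fun n _ => hW n).trans g8
    have k4 : ∑ n ∈ I, t n ^ 4 ≤ C4 * P := by
      refine (Finset.sum_le_sum fun n _ => ?_).trans g9
      calc t n ^ 4 ≤ (((Ws T n (Icc (-R0) R0)).card : ℝ) ^ m) ^ 4 := by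
            exact pow_le_pow_left₀ (ht0 n) (hW n) 4
        _ = _ := by rw [← pow_mul, mul_comm m 4]
    have k2 : ∑ n ∈ I, t n * ((Ws T n (Icc (-R') R')).card : ℝ) ≤ C2 * P := by
      refine (Finset.sum_le_sum fun n _ => ?_).trans g10
      have h6 : ((Ws T n (Icc (-R0) R0)).card : ℝ) ≤ ((Ws T n (Icc (-R') R')).card : ℝ) := by
        exact_mod_cast Finset.card_le_card (Z.Ws_mono (Icc_subset_Icc
          (neg_le_neg (le_max_left _ _)) (le_max_left _ _)))
      calc t n * ((Ws T n (Icc (-R') R')).card : ℝ)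
          ≤ ((Ws T n (Icc (-R') R')).card : ℝ) ^ m * ((Ws T n (Icc (-R') R')).card : ℝ) := by
            gcongr
            exact (hW n).trans (pow_le_pow_left₀ (Nat.cast_nonneg _) h6 m)
        _ = _ := by rw [pow_succ]
    have kD : ∑ n ∈ I, D n ^ 2 ≤ CL * J * P := by
      have h6 := g6 1 (by
        have : (0 : ℝ) ≤ 1 / 4 ^ J := by positivity
        linarith) le_rfl
      simpa only [one_mul] using h6
    -- the exceptional zeros
    have kE : ((Z.EE T J).card : ℝ) ≤ 2 * CN / 2 ^ J * P := by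
      have h6 := Z.card_EE hmono hγ g11 g7
      have h7 : (NZ (T / 2 ^ J) : ℝ) ≤ CN / 2 ^ J * P := by
        refine g2.trans ?_
        have h8 : Real.log (T / 2 ^ J) ≤ Real.log T :=
          Real.log_le_log (by positivity) (div_le_self hT0.le (one_le_pow₀ (by norm_num)))
        calc CN * (T / 2 ^ J * Real.log (T / 2 ^ J)) ≤ CN * (T / 2 ^ J * Real.log T) := by gcongr
          _ = _ := by rw [hP]; ring
      have h9 : ((J : ℝ) + 1) * (CS * Real.log T) ≤ CN / 2 ^ J * P := by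
        rw [div_le_iff₀ hCN] at g5
        rw [hP, div_mul_eq_mul_div, le_div_iff₀ (by positivity)]
        calc ((J : ℝ) + 1) * (CS * Real.log T) * 2 ^ J = ((J + 1) * CS * 2 ^ J) * Real.log T := by
              ring
          _ ≤ T * CN * Real.log T := by gcongr
          _ = _ := by ring
      calc ((Z.EE T J).card : ℝ) ≤ CN / 2 ^ J * P + CN / 2 ^ J * P := by
            refine h6.trans (add_le_add h7 h9)
        _ = _ := by ring
    have kEsum : |∑ n ∈ Z.EE T J, t n * D n| ≤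
        (CN / 2 * J ^ 5 / 2 ^ J + C4 / (4 * J) + CL / (2 * J)) * P := by
      have hsub : Z.EE T J ⊆ I := by
        unfold Z.EE
        exact Finset.sdiff_subset
      calc |∑ n ∈ Z.EE T J, t n * D n| ≤ ∑ n ∈ Z.EE T J, |t n * D n| :=
            Finset.abs_sum_le_sum_abs _ _
        _ ≤ ∑ n ∈ Z.EE T J, ((J : ℝ) ^ 5 / 4 + t n ^ 4 / (4 * J) + D n ^ 2 / (2 * J ^ 2)) :=
            Finset.sum_le_sum fun n _ => Z.amgm hJ1'
        _ = ((Z.EE T J).card : ℝ) * ((J : ℝ) ^ 5 / 4) + (∑ n ∈ Z.EE T J, t n ^ 4) / (4 * J) +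
              (∑ n ∈ Z.EE T J, D n ^ 2) / (2 * J ^ 2) := by
            rw [Finset.sum_add_distrib, Finset.sum_add_distrib, Finset.sum_const, nsmul_eq_mul,
              Finset.sum_div, Finset.sum_div]
        _ ≤ (2 * CN / 2 ^ J * P) * ((J : ℝ) ^ 5 / 4) + (C4 * P) / (4 * J) +
              (CL * J * P) / (2 * J ^ 2) := by
            gcongr
            · exact (Finset.sum_le_sum_of_subset_of_nonneg hsub
                fun n _ _ => by positivity).trans k4
            · exact (Finset.sum_le_sum_of_subset_of_nonneg hsub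
                fun n _ _ => by positivity).trans kD
        _ = _ := by
            field_simp
            ring
    -- the blocks
    have kBsum : |∑ n ∈ Z.BB T J, t n * D n| ≤
        (CB * (2 * (J : ℝ) ^ (-(1 / 4 : ℝ)) + J * (J : ℝ) ^ (-(3 / 2 : ℝ)))) * P + ε / 2 * P := by
      have hdiff : ∀ i ∈ Finset.range J, ∀ n ∈ blk T i,
          |t n * D n - t n * (2 ^ q * cc J - ∑ l ∈ I,
            gbar q J ((γ l - γ n) * sc (T / 2 ^ (i + 1))))| ≤
          K * (2 * R) * (J * Real.log 2 / Real.log T) *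
            (t n * ((Ws T n (Icc (-R') R')).card : ℝ)) := by
        intro i hi n hn
        set ρ : ℝ := sc (T / 2 ^ (i + 1)) / sc T with hρ
        have hρe : ρ = 1 - (i + 1) * Real.log 2 / Real.log T := by
          rw [hρ]
          unfold sc
          rw [Real.log_div hT0.ne' (by positivity), Real.log_pow]
          have := Real.pi_pos
          field_simp
          push_cast
          ring
        have hiJ : ((i : ℝ) + 1) ≤ J := by
          have := Finset.mem_range.1 hi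
          exact_mod_cast this
        have hδ : 1 - ρ ≤ J * Real.log 2 / Real.log T := by
          rw [hρe]
          have : ((i : ℝ) + 1) * Real.log 2 / Real.log T ≤ J * Real.log 2 / Real.log T := by
            gcongr
          linarith
        have hδ2 : J * Real.log 2 / Real.log T ≤ 1 / 2 := by
          rw [div_le_iff₀ hlogT]
          linarith
        have hρ1 : ρ ≤ 1 := by
          rw [hρe]
          have : 0 ≤ ((i : ℝ) + 1) * Real.log 2 / Real.log T := by positivity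
          linarith
        have hsc : ∀ l, (γ l - γ n) * sc (T / 2 ^ (i + 1)) = ρ * ps T n l := by
          intro l
          rw [hρ]
          unfold ps
          field_simp
        have h6 := Z.scale hK hR0' hlip hsupp (T := T) (ρ := ρ) (R' := R') (by linarith) hρ1 hδ
          (le_max_right _ _) n
        have h7 : t n * D n - t n * (2 ^ q * cc J - ∑ l ∈ I,
            gbar q J ((γ l - γ n) * sc (T / 2 ^ (i + 1)))) =
            -(t n * (∑ l ∈ I, gbar q J (ps T n l) - ∑ l ∈ I, gbar q J (ρ * ps T n l))) := by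
          simp only [hsc, hD]
          ring
        rw [h7, abs_neg, abs_mul, abs_of_nonneg (ht0 n)]
        calc t n * |∑ l ∈ I, gbar q J (ps T n l) - ∑ l ∈ I, gbar q J (ρ * ps T n l)|
            ≤ t n * (K * (2 * R) * (J * Real.log 2 / Real.log T) *
                ((Ws T n (Icc (-R') R')).card : ℝ)) := by
              gcongr
          _ = _ := by ring
      have hmain : |∑ i ∈ Finset.range J, ∑ n ∈ blk T i, t n * (2 ^ q * cc J - ∑ l ∈ I,
            gbar q J ((γ l - γ n) * sc (T / 2 ^ (i + 1))))| ≤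
          (CB * (2 * (J : ℝ) ^ (-(1 / 4 : ℝ)) + J * (J : ℝ) ^ (-(3 / 2 : ℝ)))) * P := by
        calc _ ≤ ∑ i ∈ Finset.range J, |∑ n ∈ blk T i, t n * (2 ^ q * cc J - ∑ l ∈ I,
            gbar q J ((γ l - γ n) * sc (T / 2 ^ (i + 1))))| := Finset.abs_sum_le_sum_abs _ _
          _ ≤ ∑ i ∈ Finset.range J, CB * ((J : ℝ) ^ (-(1 / 4 : ℝ)) / 2 ^ i +
                (J : ℝ) ^ (-(3 / 2 : ℝ))) * P := Finset.sum_le_sum g1
          _ = (CB * ((J : ℝ) ^ (-(1 / 4 : ℝ)) * (∑ i ∈ Finset.range J, (1 / 2 : ℝ) ^ i) +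
                J * (J : ℝ) ^ (-(3 / 2 : ℝ)))) * P := by
              have e : ∀ i : ℕ, (J : ℝ) ^ (-(1 / 4 : ℝ)) / 2 ^ i =
                  (J : ℝ) ^ (-(1 / 4 : ℝ)) * (1 / 2 : ℝ) ^ i := by
                intro i
                rw [div_pow, one_pow, mul_one_div]
              simp only [e]
              rw [← Finset.sum_mul, ← Finset.mul_sum, Finset.sum_add_distrib, Finset.sum_const,
                Finset.card_range, nsmul_eq_mul, ← Finset.mul_sum]
          _ ≤ (CB * ((J : ℝ) ^ (-(1 / 4 : ℝ)) * 2 + J * (J : ℝ) ^ (-(3 / 2 : ℝ)))) * P := by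
              have := sum_geometric_two_le J
              gcongr
          _ = _ := by ring
      have hrest : |∑ n ∈ Z.BB T J, t n * D n - ∑ i ∈ Finset.range J, ∑ n ∈ blk T i,
          t n * (2 ^ q * cc J - ∑ l ∈ I,
            gbar q J ((γ l - γ n) * sc (T / 2 ^ (i + 1))))| ≤ ε / 2 * P := by
        rw [Z.sum_BB hT0.le, ← Finset.sum_sub_distrib]
        have hc0 : 0 ≤ K * (2 * R) * (J * Real.log 2 / Real.log T) := by positivity
        calc _ ≤ ∑ i ∈ Finset.range J, ∑ n ∈ blk T i, K * (2 * R) *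
              (J * Real.log 2 / Real.log T) * (t n * ((Ws T n (Icc (-R') R')).card : ℝ)) := by
              refine (Finset.abs_sum_le_sum_abs _ _).trans (Finset.sum_le_sum fun i hi => ?_)
              rw [← Finset.sum_sub_distrib]
              exact (Finset.abs_sum_le_sum_abs _ _).trans
                (Finset.sum_le_sum fun n hn => hdiff i hi n hn)
          _ = ∑ n ∈ Z.BB T J, K * (2 * R) * (J * Real.log 2 / Real.log T) *
                (t n * ((Ws T n (Icc (-R') R')).card : ℝ)) := (Z.sum_BB hT0.le J _).symm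
          _ ≤ ∑ n ∈ I, K * (2 * R) * (J * Real.log 2 / Real.log T) *
                (t n * ((Ws T n (Icc (-R') R')).card : ℝ)) :=
              Finset.sum_le_sum_of_subset_of_nonneg (Z.BB_sub T J) fun n _ _ => by positivity
          _ = K * (2 * R) * (J * Real.log 2 / Real.log T) *
                ∑ n ∈ I, t n * ((Ws T n (Icc (-R') R')).card : ℝ) := by rw [Finset.mul_sum]
          _ ≤ K * (2 * R) * (J * Real.log 2 / Real.log T) * (C2 * P) := by gcongr
          _ = K * (2 * R) * (J * Real.log 2 / Real.log T) * C2 * P := by ring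
          _ ≤ ε / 2 * P := by gcongr
      have h8 := abs_add_le (∑ i ∈ Finset.range J, ∑ n ∈ blk T i, t n * (2 ^ q * cc J - ∑ l ∈ I,
            gbar q J ((γ l - γ n) * sc (T / 2 ^ (i + 1))))) (∑ n ∈ Z.BB T J, t n * D n -
          ∑ i ∈ Finset.range J, ∑ n ∈ blk T i, t n * (2 ^ q * cc J - ∑ l ∈ I,
            gbar q J ((γ l - γ n) * sc (T / 2 ^ (i + 1)))))
      rw [add_sub_cancel] at h8
      exact h8.trans (add_le_add hmain hrest)
    -- the end
    have hfin : ∑ n ∈ I, t n * ((∫ v, gbar q J v) - ∑ l ∈ I, gbar q J (ps T n l)) =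
        ∑ n ∈ Z.BB T J, t n * D n + ∑ n ∈ Z.EE T J, t n * D n -
          (2 ^ q * cc J - ∫ v, gbar q J v) * ∑ n ∈ I, t n := by
      rw [← Z.sum_split, Finset.mul_sum, ← Finset.sum_sub_distrib]
      refine Finset.sum_congr rfl fun n _ => ?_
      simp only [hD]
      ring
    rw [hfin]
    have k3 : |(2 ^ q * cc J - ∫ v, gbar q J v) * ∑ n ∈ I, t n| ≤ CG * C1 / J * P := by
      rw [abs_mul, abs_of_nonneg (Finset.sum_nonneg fun n _ => ht0 n)]
      calc |2 ^ q * cc J - ∫ v, gbar q J v| * ∑ n ∈ I, t n ≤ CG / J * (C1 * P) :=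
            mul_le_mul hint k1 (Finset.sum_nonneg fun n _ => ht0 n) (by positivity)
        _ = _ := by ring
    calc |∑ n ∈ Z.BB T J, t n * D n + ∑ n ∈ Z.EE T J, t n * D n -
          (2 ^ q * cc J - ∫ v, gbar q J v) * ∑ n ∈ I, t n|
        ≤ |∑ n ∈ Z.BB T J, t n * D n| + |∑ n ∈ Z.EE T J, t n * D n| +
          |(2 ^ q * cc J - ∫ v, gbar q J v) * ∑ n ∈ I, t n| :=
          (abs_sub _ _).trans (add_le_add (abs_add_le _ _) le_rfl)
      _ ≤ ((CB * (2 * (J : ℝ) ^ (-(1 / 4 : ℝ)) + J * (J : ℝ) ^ (-(3 / 2 : ℝ)))) * P + ε / 2 * P) +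
          (CN / 2 * J ^ 5 / 2 ^ J + C4 / (4 * J) + CL / (2 * J)) * P + CG * C1 / J * P := by
          gcongr
      _ = (CB * (2 * (J : ℝ) ^ (-(1 / 4 : ℝ)) + J * (J : ℝ) ^ (-(3 / 2 : ℝ))) + CG * C1 / J +
            CN / 2 * J ^ 5 / 2 ^ J + C4 / (4 * J) + CL / (2 * J)) * P + ε / 2 * P := by ring
      _ ≤ ε / 2 * P + ε / 2 * P := by gcongr
      _ = ε * P := by ring

end Pool.Agent.J4.H44.RG
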