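import Pool.Agent.J4.H44.RG.Main0
import Pool.Agent.J4.H44.RG.T_JFU
import Pool.Agent.J4.H44.RG.T_REP
import Pool.Agent.J4.H44.RG.T_SIN
import Pool.Agent.J4.H44.RG.T_GBb
import Pool.Agent.J4.H44.RG.T_CELU
import Pool.Agent.J4.H44.RG.T_CELL
import Pool.Agent.J4.H44.RG.T_BLK
import Pool.Agent.J4.H44.RG.T_Z
import Pool.Agent.J4.H44.RG.T_FINU
import Pool.Agent.J4.H44.RG.T_FINLb

/-! # Project HC: the main theorem from L1 and L2 -/

set_option autoImplicit false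
set_option linter.all false

open Filter Topology MeasureTheory Set

namespace Pool.Agent.J4.H44.RG

theorem main1 (hRH : RiemannHypothesis) (h1 : S_L1) (h2 : S_L2) :
    (∀ m : ℕ, LevelUpper m ↔ Level m) ∧ (∀ m : ℕ, LevelLower m ↔ Level m) ∧
    (∀ m k : ℕ, k ≤ m → Level m → Level k) ∧
    ((∀ m : ℕ, Level m) ↔ ∃ᶠ m : ℕ in atTop, LevelUpper m ∨ LevelLower m) := by
  have hZ : S_Z := t_Z (t_BLK h1 h2 t_MOMK t_NZ) h2 t_MOMK t_NZ (t_GBb t_REP)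
  exact main0 hRH (t_FINU hZ (t_SIN t_REP) t_JFU t_CELU t_CNT) (FINLb.t_FINL hZ (t_SIN t_REP) t_JFU t_CELL t_CNT)

end Pool.Agent.J4.H44.RG
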