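import Pool.Agent.J4.H44.RG.ScrDefs

/-! # Project HC, piece SCR (helper54) -/

set_option autoImplicit false

open Filter Topology MeasureTheory Set

namespace Pool.Agent.J4.H44.RG

namespace SCR

lemma mem_Ws {T : ℝ} {n l : ℕ} {S : Set ℝ} :
    l ∈ Ws T n S ↔ l ∈ Finset.Icc 1 (NZ T) ∧ l ≠ n ∧ ps T n l ∈ S := by
  classical
  unfold Ws
  rw [Finset.mem_filter]

/-- the tuples with base `n` -/
def TT {m : ℕ} (T : ℝ) (x y : Fin m → ℝ) (n : ℕ) : Set (Fin m → ℕ) :=
  {l | Function.Injective l ∧ ∀ i, l i ∈ Ws T n (Icc (x i) (y i))}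

lemma TT_finite {m : ℕ} (T : ℝ) (x y : Fin m → ℝ) (n : ℕ) : (TT T x y n).Finite := by
  classical
  refine (Finset.finite_toSet (Fintype.piFinset fun i => Ws T n (Icc (x i) (y i)))).subset ?_
  intro l hl
  rw [Finset.mem_coe, Fintype.mem_piFinset]
  exact hl.2

lemma tup_le {m : ℕ} (T : ℝ) {x y : Fin m → ℝ} {R : ℝ} (hx : ∀ i, -R ≤ x i) (hy : ∀ i, y i ≤ R)
    (n : ℕ) : tup T x y n ≤ (Ws T n (Icc (-R) R)).card ^ m := by
  classical
  have h1 : (Fintype.piFinset fun _ : Fin m => Ws T n (Icc (-R) R)).card =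
      (Ws T n (Icc (-R) R)).card ^ m := by
    rw [Fintype.card_piFinset, Finset.prod_const, Finset.card_univ, Fintype.card_fin]
  rw [← h1, ← Set.ncard_coe_finset]
  refine Set.ncard_le_ncard ?_ (Finset.finite_toSet _)
  intro l hl
  rw [Finset.mem_coe, Fintype.mem_piFinset]
  intro i
  have h2 := mem_Ws.1 (hl.2 i)
  exact mem_Ws.2 ⟨h2.1, h2.2.1, (hx i).trans h2.2.2.1, h2.2.2.2.trans (hy i)⟩

/-- the tuple of an index function -/
lemma mem_tuples {m : ℕ} {T : ℝ} (hN : ∀ n : ℕ, 1 ≤ n → (γ n ≤ T ↔ n ≤ NZ T)) {x y : Fin m → ℝ}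
    {j : Option (Fin m) → ℕ} : j ∈ tuples T x y ↔
      j none ∈ Finset.Icc 1 (NZ T) ∧ (fun i => j (some i)) ∈ TT T x y (j none) := by
  have hI : ∀ n : ℕ, (1 ≤ n ∧ γ n ≤ T) ↔ n ∈ Finset.Icc 1 (NZ T) := by
    intro n
    rw [Finset.mem_Icc]
    exact and_congr_right fun h => hN n h
  constructor
  · rintro ⟨h1, h2, h3⟩
    refine ⟨(hI _).1 (h2 none), fun a b hab => Option.some_injective _ (h1 hab), fun i => ?_⟩
    refine mem_Ws.2 ⟨(hI _).1 (h2 (some i)), fun h => ?_, h3 i⟩
    have := h1 h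
    simp at this
  · rintro ⟨h1, h2, h3⟩
    refine ⟨?_, fun i => ?_, fun i => (mem_Ws.1 (h3 i)).2.2⟩
    · intro a b hab
      cases a with
      | none =>
        cases b with
        | none => rfl
        | some b => exact absurd hab.symm (mem_Ws.1 (h3 b)).2.1
      | some a =>
        cases b with
        | none => exact absurd hab (mem_Ws.1 (h3 a)).2.1
        | some b => exact congrArg some (h2 hab)
    · cases i with
      | none => exact (hI _).2 h1
      | some i => exact (hI _).2 (mem_Ws.1 (h3 i)).1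

/-- sums over the tuples -/
lemma sum_tuples {m : ℕ} {T : ℝ} (hN : ∀ n : ℕ, 1 ≤ n → (γ n ≤ T ↔ n ≤ NZ T)) (x y : Fin m → ℝ) :
    (tuples T x y).Finite ∧ ∀ (F : Finset (Option (Fin m) → ℕ)), (F : Set _) = tuples T x y →
      ∀ f : ℕ → ℝ, ∑ j ∈ F, f (j none) = ∑ n ∈ Finset.Icc 1 (NZ T), (tup T x y n : ℝ) * f n := by
  classical
  have hinj : ∀ n : ℕ, Function.Injective (fun l : Fin m → ℕ =>
      (fun o : Option (Fin m) => o.elim n l)) := by
    intro n l l' h
    funext i
    exact congrFun h (some i)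
  constructor
  · have h1 : tuples T x y ⊆ ⋃ n ∈ Finset.Icc 1 (NZ T),
        (fun l : Fin m → ℕ => (fun o : Option (Fin m) => o.elim n l)) '' TT T x y n := by
      intro j hj
      have h2 := (mem_tuples hN).1 hj
      simp only [mem_iUnion]
      refine ⟨j none, h2.1, fun i => j (some i), h2.2, ?_⟩
      funext o
      cases o <;> rfl
    exact ((Finset.Icc 1 (NZ T)).finite_toSet.biUnion fun n _ => (TT_finite T x y n).image _).subset h1
  · intro F hF f
    have hmem : ∀ j, j ∈ F ↔ j ∈ tuples T x y := by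
      intro j
      rw [← hF, Finset.mem_coe]
    have hmaps : ∀ j ∈ F, j none ∈ Finset.Icc 1 (NZ T) := fun j hj =>
      ((mem_tuples hN).1 ((hmem j).1 hj)).1
    rw [← Finset.sum_fiberwise_of_maps_to hmaps]
    refine Finset.sum_congr rfl fun n hn => ?_
    have h3 : ∑ j ∈ F.filter (fun j => j none = n), f (j none) =
        ∑ j ∈ F.filter (fun j => j none = n), f n :=
      Finset.sum_congr rfl fun j hj => by rw [(Finset.mem_filter.1 hj).2]
    rw [h3, Finset.sum_const, nsmul_eq_mul]
    congr 1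
    have h4 : ((F.filter (fun j => j none = n) : Finset _) : Set (Option (Fin m) → ℕ)) =
        (fun l : Fin m → ℕ => (fun o : Option (Fin m) => o.elim n l)) '' TT T x y n := by
      ext j
      rw [Finset.mem_coe, Finset.mem_filter, hmem, mem_tuples hN]
      constructor
      · rintro ⟨⟨h5, h6⟩, rfl⟩
        refine ⟨fun i => j (some i), h6, ?_⟩
        funext o
        cases o <;> rfl
      · rintro ⟨l, hl, rfl⟩
        exact ⟨⟨hn, hl⟩, rfl⟩
    rw [← Set.ncard_coe_finset, h4, Set.ncard_image_of_injective _ (hinj n)]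
    rfl

end SCR

open SCR in
theorem t_SCR (h1 : S_Z) (h2 : S_CNT) (h3 : S_NZ) (h4 : S_MOMK) : S_SCR := by
  classical
  intro hRH m x y ε hε
  -- the constants
  obtain ⟨R, hR1, hRx, hRy⟩ : ∃ R : ℝ, 1 ≤ R ∧ (∀ i, -R ≤ x i) ∧ ∀ i, y i ≤ R := by
    refine ⟨1 + ∑ i, (|x i| + |y i|), ?_, fun i => ?_, fun i => ?_⟩
    · have : 0 ≤ ∑ i, (|x i| + |y i|) := Finset.sum_nonneg fun i _ => by positivity
      linarith
    · have h5 : |x i| + |y i| ≤ ∑ i, (|x i| + |y i|) :=
        Finset.single_le_sum (f := fun i => |x i| + |y i|) (fun i _ => by positivity)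
          (Finset.mem_univ i)
      have := neg_abs_le (x i)
      have := abs_nonneg (y i)
      linarith
    · have h5 : |x i| + |y i| ≤ ∑ i, (|x i| + |y i|) :=
        Finset.single_le_sum (f := fun i => |x i| + |y i|) (fun i _ => by positivity)
          (Finset.mem_univ i)
      have := le_abs_self (y i)
      have := abs_nonneg (x i)
      linarith
  obtain ⟨C, hC, hCT⟩ := h4 hRH m R hR1
  have hpi := Real.pi_pos
  have hm0 : (0 : ℝ) ≤ m := Nat.cast_nonneg m
  obtain ⟨δ, hδ, hδε, hδR, hδC⟩ : ∃ δ : ℝ, 0 < δ ∧ δ ≤ ε ∧ R ≤ 1 / δ ∧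
      δ * (C * (m + 1) + 1) * (2 * Real.pi) ≤ ε := by
    refine ⟨min (min ε (1 / R)) (ε / ((C * (m + 1) + 1) * (2 * Real.pi))), ?_, ?_, ?_, ?_⟩
    · have : 0 < R := by linarith
      positivity
    · exact (min_le_left _ _).trans (min_le_left _ _)
    · have hR0 : 0 < R := by linarith
      have h5 : min (min ε (1 / R)) (ε / ((C * (m + 1) + 1) * (2 * Real.pi))) ≤ 1 / R :=
        (min_le_left _ _).trans (min_le_right _ _)
      rw [le_div_iff₀ (by positivity)]
      calc R * min (min ε (1 / R)) (ε / ((C * (m + 1) + 1) * (2 * Real.pi))) ≤ R * (1 / R) := by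
            gcongr
        _ = 1 := by field_simp
    · have h5 : min (min ε (1 / R)) (ε / ((C * (m + 1) + 1) * (2 * Real.pi))) ≤
          ε / ((C * (m + 1) + 1) * (2 * Real.pi)) := min_le_right _ _
      have h6 : 0 < (C * (m + 1) + 1) * (2 * Real.pi) := by positivity
      rw [mul_assoc]
      exact (mul_le_mul_of_nonneg_right h5 h6.le).trans (le_of_eq (div_mul_cancel₀ _ h6.ne'))
  obtain ⟨G, R', hG, hZ⟩ := h1 hRH m x y δ hδ
  refine ⟨G, hG.cont, ?_, fun v => ⟨hG.nonneg v, hG.le_one v⟩, fun v hv => ?_, ?_⟩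
  · refine HasCompactSupport.intro (isCompact_Icc (a := -R') (b := R')) fun v hv => ?_
    apply hG.supp
    rw [mem_Icc, ← abs_le, not_le] at hv
    exact hv
  · have h5 : 1 / ε ≤ 1 / δ := one_div_le_one_div_of_le hδ hδε
    have h6 := hG.flat v (hv.trans h5)
    linarith
  · filter_upwards [hZ, hCT, eventually_ge_atTop (1 : ℝ)] with T hZT hCT hT1
    have hT0 : (0 : ℝ) ≤ T := by linarith
    have hN : ∀ n : ℕ, 1 ≤ n → (γ n ≤ T ↔ n ≤ NZ T) := fun n hn => h3.2.2.2.1 n hn T hT0
    obtain ⟨hfin, hsum⟩ := sum_tuples hN x y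
    set F := hfin.toFinset with hF
    have hFc : (F : Set _) = tuples T x y := hfin.coe_toFinset
    have hFm : ∀ j, j ∈ F ↔ j ∈ tuples T x y := fun j => hfin.mem_toFinset
    have hlog : 0 ≤ T * Real.log T := mul_nonneg hT0 (Real.log_nonneg hT1)
    -- the number of the tuples
    have hcard : (N T x y : ℝ) = F.card := by
      have : N T x y = (tuples T x y).ncard := rfl
      rw [this, ← hFc, Set.ncard_coe_finset]
    have hNle : (N T x y : ℝ) ≤ C * (T * Real.log T) := by
      rw [h2 m T x y hT0]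
      push_cast
      refine le_trans (Finset.sum_le_sum fun n _ => ?_) hCT
      exact_mod_cast tup_le T hRx hRy n
    -- the sums over the further zeros
    have hfur : further T x y G = ∑ j ∈ F, (∑ l ∈ Finset.Icc 1 (NZ T), G (ps T (j none) l) -
        ∑ o : Option (Fin m), G (ps T (j none) (j o))) := by
      unfold further
      rw [← hFc, finsum_mem_coe_finset]
      refine Finset.sum_congr rfl fun j hj => ?_
      have hj' := (hFm j).1 hj
      have h5 : {l : ℕ | 1 ≤ l ∧ γ l ≤ T ∧ ∀ i, l ≠ j i} =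
          ((Finset.Icc 1 (NZ T) \ Finset.univ.image j : Finset ℕ) : Set ℕ) := by
        ext l
        rw [Finset.mem_coe, Finset.mem_sdiff, Finset.mem_Icc, Finset.mem_image]
        constructor
        · rintro ⟨h6, h7, h8⟩
          exact ⟨⟨h6, (hN l h6).1 h7⟩, fun ⟨i, _, hi⟩ => h8 i hi.symm⟩
        · rintro ⟨⟨h6, h7⟩, h8⟩
          exact ⟨h6, (hN l h6).2 h7, fun i hi => h8 ⟨i, Finset.mem_univ _, hi.symm⟩⟩
      rw [h5, finsum_mem_coe_finset]
      have h9 : Finset.univ.image j ⊆ Finset.Icc 1 (NZ T) := by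
        intro l hl
        obtain ⟨i, -, rfl⟩ := Finset.mem_image.1 hl
        have := hj'.2.1 i
        rw [Finset.mem_Icc]
        exact ⟨this.1, (hN _ this.1).1 this.2⟩
      have h10 := Finset.sum_sdiff (f := fun l => G (ps T (j none) l)) h9
      rw [Finset.sum_image (fun a _ b _ h => hj'.1 h)] at h10
      have h11 : ∑ l ∈ Finset.Icc 1 (NZ T) \ Finset.univ.image j,
          G ((γ l - γ (j none)) * (Real.log T / (2 * Real.pi))) =
          ∑ l ∈ Finset.Icc 1 (NZ T) \ Finset.univ.image j, G (ps T (j none) l) := rfl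
      rw [h11]
      linarith
    -- the weights of the tuple itself
    have hself : ∀ j ∈ F, |∑ o : Option (Fin m), G (ps T (j none) (j o)) - (m + 1)| ≤
        (m + 1) * δ := by
      intro j hj
      have hj' := (hFm j).1 hj
      have hone : ∀ o : Option (Fin m), |G (ps T (j none) (j o)) - 1| ≤ δ := by
        intro o
        have hpos : |ps T (j none) (j o)| ≤ 1 / δ := by
          refine le_trans ?_ hδR
          cases o with
          | none =>
            unfold ps
            rw [sub_self, zero_mul, abs_zero]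
            linarith
          | some i =>
            have h12 := hj'.2.2 i
            rw [abs_le]
            exact ⟨(hRx i).trans h12.1, h12.2.trans (hRy i)⟩
        have h13 := hG.flat _ hpos
        have h14 := hG.le_one (ps T (j none) (j o))
        rw [abs_le]
        constructor <;> linarith
      have h15 : ∑ o : Option (Fin m), G (ps T (j none) (j o)) - (m + 1) =
          ∑ o : Option (Fin m), (G (ps T (j none) (j o)) - 1) := by
        rw [Finset.sum_sub_distrib]
        simp
      rw [h15]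
      refine (Finset.abs_sum_le_sum_abs _ _).trans ?_
      refine (Finset.sum_le_sum fun o _ => hone o).trans ?_
      rw [Finset.sum_const, Finset.card_univ, nsmul_eq_mul]
      simp
    -- conclusion
    have hmain : ∑ j ∈ F, ∑ l ∈ Finset.Icc 1 (NZ T), G (ps T (j none) l) =
        ∑ n ∈ Finset.Icc 1 (NZ T), (tup T x y n : ℝ) * ∑ l ∈ Finset.Icc 1 (NZ T), G (ps T n l) :=
      hsum F hFc fun n => ∑ l ∈ Finset.Icc 1 (NZ T), G (ps T n l)
    have hNt : (N T x y : ℝ) = ∑ n ∈ Finset.Icc 1 (NZ T), (tup T x y n : ℝ) := by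
      rw [h2 m T x y hT0]
      push_cast
      rfl
    have hdec : further T x y G - ((∫ v, G v) - (m + 1)) * N T x y =
        -(∑ n ∈ Finset.Icc 1 (NZ T), (tup T x y n : ℝ) *
          ((∫ v, G v) - ∑ l ∈ Finset.Icc 1 (NZ T), G (ps T n l))) -
        ∑ j ∈ F, (∑ o : Option (Fin m), G (ps T (j none) (j o)) - (m + 1)) := by
      rw [hfur, Finset.sum_sub_distrib, hmain, Finset.sum_sub_distrib, Finset.sum_const,
        nsmul_eq_mul, ← hcard]
      simp_rw [mul_sub]
      rw [Finset.sum_sub_distrib, ← Finset.sum_mul, ← hNt]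
      ring
    have hlast : |∑ j ∈ F, (∑ o : Option (Fin m), G (ps T (j none) (j o)) - (m + 1))| ≤
        N T x y * ((m + 1) * δ) := by
      refine (Finset.abs_sum_le_sum_abs _ _).trans ?_
      refine (Finset.sum_le_sum hself).trans ?_
      rw [Finset.sum_const, nsmul_eq_mul, hcard]
    rw [hdec]
    refine (abs_sub _ _).trans ?_
    rw [abs_neg]
    calc _ ≤ δ * (T * Real.log T) + N T x y * ((m + 1) * δ) := add_le_add hZT hlast
      _ ≤ δ * (T * Real.log T) + C * (T * Real.log T) * ((m + 1) * δ) := by gcongr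
      _ = δ * (C * (m + 1) + 1) * (T * Real.log T) := by ring
      _ = (δ * (C * (m + 1) + 1) * (2 * Real.pi)) * (T / (2 * Real.pi) * Real.log T) := by
          field_simp
      _ ≤ ε * (T / (2 * Real.pi) * Real.log T) := by
          refine mul_le_mul_of_nonneg_right hδC ?_
          have := Real.log_nonneg hT1
          positivity

end Pool.Agent.J4.H44.RG
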