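import Pool.Agent.J4.H44.RG.Main
import Pool.Agent.J4.H44.RG.T_SCR

/-! # Project HC: the main theorem with the sum rule -/

set_option autoImplicit false
set_option linter.all false

open Filter Topology MeasureTheory Set

namespace Pool.Agent.J4.H44.RG

/-- the sum rule, and: one-sided bounds for one level give all lower levels in full -/
theorem main3 (hRH : RiemannHypothesis) :
    (∀ (m : ℕ) (x y : Fin m → ℝ) (ε : ℝ), 0 < ε →
      ∃ G : ℝ → ℝ, Continuous G ∧ HasCompactSupport G ∧ (∀ v, 0 ≤ G v ∧ G v ≤ 1) ∧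
        (∀ v, |v| ≤ 1 / ε → 1 - ε ≤ G v) ∧ ∀ᶠ T : ℝ in atTop,
          |further T x y G - ((∫ v, G v) - (m + 1)) * N T x y| ≤
            ε * (T / (2 * Real.pi) * Real.log T)) ∧
    (∀ m k : ℕ, k ≤ m → LevelUpper m → Level k) ∧ (∀ m k : ℕ, k ≤ m → LevelLower m → Level k) ∧
    ((∀ m : ℕ, Level m) ↔ ∃ᶠ m : ℕ in atTop, LevelUpper m ∨ LevelLower m) := by
  have hL2 : S_L2 := t_L2 t_MOMD t_REP
  have hZ : S_Z := t_Z (t_BLK (t_L1 t_NZ) hL2 t_MOMK t_NZ) hL2 t_MOMK t_NZ (t_GBb t_REP)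
  exact ⟨t_SCR hZ t_CNT t_NZ t_MOMK hRH, main2 hRH⟩

end Pool.Agent.J4.H44.RG
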