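import Pool.Agent.J4.H44.RG.LocDefs

/-! # Project HC, piece DEC: disjoint small boxes off the diagonals (Besicovitch covering by sup-norm balls) -/

set_option autoImplicit false

open Filter Topology MeasureTheory Set

namespace Pool.Agent.J4.H44.RG

namespace DEC78

theorem cont_det (m : ℕ) : Continuous fun u : Fin m → ℝ => (A u).det := by
  apply Continuous.matrix_det
  refine continuous_matrix fun i j => ?_
  have h : ∀ o : Option (Fin m), Continuous fun u : Fin m → ℝ => pt u o := by
    intro o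
    cases o with
    | none => exact continuous_const
    | some i => exact continuous_apply i
  exact Real.continuous_sinc.comp (continuous_const.mul ((h i).sub (h j)))

/-- the open box without the diagonals -/
def U {m : ℕ} (x y : Fin m → ℝ) : Set (Fin m → ℝ) :=
  {u | (∀ i, x i < u i ∧ u i < y i ∧ u i ≠ 0) ∧ ∀ i j, i ≠ j → u i ≠ u j}

theorem null_diff {m : ℕ} (x y : Fin m → ℝ) : volume (Icc x y \ U x y) = 0 := by
  have h1 : ∀ (i : Fin m) (c : ℝ), volume {u : Fin m → ℝ | u i = c} = 0 := by
    intro i c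
    have := Measure.pi_hyperplane (fun _ : Fin m => (volume : Measure ℝ)) i c
    rwa [← volume_pi] at this
  have h2 : ∀ i j : Fin m, i ≠ j → volume {u : Fin m → ℝ | u i = u j} = 0 := by
    intro i j hij
    have h3 := Measure.addHaar_submodule (volume : Measure (Fin m → ℝ))
      (LinearMap.ker (LinearMap.proj (R := ℝ) (φ := fun _ : Fin m => ℝ) i -
        LinearMap.proj (R := ℝ) (φ := fun _ : Fin m => ℝ) j)) (by
        intro h
        have h4 : (Pi.single i 1 : Fin m → ℝ) ∈ LinearMap.ker
            (LinearMap.proj (R := ℝ) (φ := fun _ : Fin m => ℝ) i -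
              LinearMap.proj (R := ℝ) (φ := fun _ : Fin m => ℝ) j) := by
          rw [h]; exact Submodule.mem_top
        rw [LinearMap.mem_ker] at h4
        simp [Pi.single_apply, hij.symm] at h4)
    refine measure_mono_null ?_ h3
    intro u hu
    show (_ : ℝ) = 0
    exact sub_eq_zero.2 hu
  have h5 : Icc x y \ U x y ⊆ (⋃ i, ({u : Fin m → ℝ | u i = x i} ∪ {u | u i = y i} ∪ {u | u i = 0})) ∪
      ⋃ i, ⋃ j, ⋃ (_ : i ≠ j), {u : Fin m → ℝ | u i = u j} := by
    rintro u ⟨hu, hn⟩
    by_contra hc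
    apply hn
    simp only [mem_union, mem_iUnion, mem_setOf_eq, not_or, not_exists] at hc
    obtain ⟨c1, c2⟩ := hc
    refine ⟨fun i => ⟨lt_of_le_of_ne (hu.1 i) (Ne.symm (c1 i).1.1), lt_of_le_of_ne (hu.2 i) (c1 i).1.2,
      (c1 i).2⟩, fun i j hij => c2 i j hij⟩
  refine measure_mono_null h5 (measure_union_null ?_ ?_)
  · refine measure_iUnion_null fun i => measure_union_null (measure_union_null (h1 _ _) (h1 _ _)) (h1 _ _)
  · exact measure_iUnion_null fun i => measure_iUnion_null fun j => measure_iUnion_null fun h => h2 i j h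

theorem radius {m : ℕ} (x y : Fin m → ℝ) {δ : ℝ} (hδ : 0 < δ) (u : Fin m → ℝ) (hu : u ∈ U x y) :
    ∃ R : ℝ, 0 < R ∧ (∀ i, R < u i - x i ∧ R < y i - u i ∧ R < |u i|) ∧
      (∀ i j, i ≠ j → 2 * R < |u i - u j|) ∧ 2 * R < δ := by
  have h0 : Tendsto (fun R : ℝ => R) (𝓝[>] 0) (𝓝 0) := tendsto_nhdsWithin_of_tendsto_nhds tendsto_id
  have h2 : Tendsto (fun R : ℝ => 2 * R) (𝓝[>] 0) (𝓝 0) := by
    have := h0.const_mul 2
    rwa [mul_zero] at this
  have e1 : ∀ᶠ R : ℝ in 𝓝[>] 0, ∀ i, R < u i - x i ∧ R < y i - u i ∧ R < |u i| := by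
    refine eventually_all.2 fun i => ?_
    have := hu.1 i
    exact (h0.eventually_lt_const (sub_pos.2 this.1)).and
      ((h0.eventually_lt_const (sub_pos.2 this.2.1)).and
        (h0.eventually_lt_const (abs_pos.2 this.2.2)))
  have e2 : ∀ᶠ R : ℝ in 𝓝[>] 0, ∀ i j, i ≠ j → 2 * R < |u i - u j| := by
    refine eventually_all.2 fun i => eventually_all.2 fun j => ?_
    by_cases h : i = j
    · exact Eventually.of_forall fun R hne => absurd h hne
    · have := h2.eventually_lt_const (abs_pos.2 (sub_ne_zero.2 (hu.2 i j h)))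
      exact this.mono fun R hR _ => hR
  have e3 : ∀ᶠ R : ℝ in 𝓝[>] 0, 2 * R < δ := h2.eventually_lt_const hδ
  have e4 : ∀ᶠ R : ℝ in 𝓝[>] 0, 0 < R := self_mem_nhdsWithin
  obtain ⟨R, a, b, c, d⟩ := (e4.and (e1.and (e2.and e3))).exists
  exact ⟨R, a, b, c, d⟩

theorem ball_eq {m : ℕ} (u : Fin m → ℝ) {r : ℝ} (hr : 0 ≤ r) :
    Metric.closedBall u r = Icc (fun i => u i - r) (fun i => u i + r) := by
  ext v
  rw [Metric.mem_closedBall, dist_pi_le_iff hr]
  simp only [Real.dist_eq, abs_le, mem_Icc, Pi.le_def]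
  constructor
  · intro h
    exact ⟨fun i => by linarith [(h i).1], fun i => by linarith [(h i).2]⟩
  · intro h i
    exact ⟨by linarith [h.1 i], by linarith [h.2 i]⟩

end DEC78

open DEC78 in
theorem t_DEC : S_DEC := by
  intro m δ ε x y hδ hε hxy
  choose! R hR0 hR1 hR2 hR3 using fun (u : Fin m → ℝ) (hu : u ∈ U x y) => radius x y hδ u hu
  obtain ⟨t, r, htc, htU, htr, htμ, htd⟩ :=
    Besicovitch.exists_disjoint_closedBall_covering_ae (volume : Measure (Fin m → ℝ))
      (fun _ => Ioi 0) (U x y)
      (fun u _ δ' hδ' => ⟨δ' / 2, half_pos hδ', half_pos hδ', half_lt_self hδ'⟩) R hR0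
  have hr0 : ∀ u ∈ t, 0 < r u := fun u hu => (htr u hu).1
  have hrR : ∀ u ∈ t, r u < R u := fun u hu => (htr u hu).2.2
  -- the balls are in the box
  have hsub : ∀ u ∈ t, Metric.closedBall u (r u) ⊆ Icc x y := by
    intro u hu v hv
    rw [ball_eq u (hr0 u hu).le] at hv
    have h1 := hR1 u (htU hu)
    have h2 := hrR u hu
    refine ⟨fun i => ?_, fun i => ?_⟩
    · have := hv.1 i
      simp only at this
      linarith [(h1 i).1]
    · have := hv.2 i
      simp only at this
      linarith [(h1 i).2.1]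
  have hint : IntegrableOn (fun u : Fin m → ℝ => (A u).det) (Icc x y) :=
    (cont_det m).continuousOn.integrableOn_compact isCompact_Icc
  have : Countable t := htc.to_subtype
  have hU : (⋃ u : t, Metric.closedBall (u : Fin m → ℝ) (r u)) ⊆ Icc x y :=
    iUnion_subset fun u => hsub u u.2
  have hdisj : Pairwise (Function.onFun Disjoint
      fun u : t => Metric.closedBall (u : Fin m → ℝ) (r u)) := by
    intro u v huv
    exact htd u.2 v.2 (fun h => huv (Subtype.ext h))
  have hsum := hasSum_integral_iUnion (μ := (volume : Measure (Fin m → ℝ)))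
    (s := fun u : t => Metric.closedBall (u : Fin m → ℝ) (r u))
    (fun u => Metric.isClosed_closedBall.measurableSet) hdisj (hint.mono_set hU)
  have hae : (⋃ u : t, Metric.closedBall (u : Fin m → ℝ) (r u)) =ᵐ[volume] Icc x y := by
    rw [ae_eq_set]
    constructor
    · rw [sdiff_eq_empty.2 hU]
      exact measure_empty
    · have h1 : Icc x y \ (⋃ u : t, Metric.closedBall (u : Fin m → ℝ) (r u)) ⊆
          (Icc x y \ U x y) ∪ (U x y \ ⋃ u ∈ t, Metric.closedBall u (r u)) := by
        rintro v ⟨hv1, hv2⟩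
        by_cases hv : v ∈ U x y
        · right
          refine ⟨hv, fun hc => hv2 ?_⟩
          simp only [mem_iUnion] at hc ⊢
          obtain ⟨u, hu, hvu⟩ := hc
          exact ⟨⟨u, hu⟩, hvu⟩
        · exact Or.inl ⟨hv1, hv⟩
      exact measure_mono_null h1 (measure_union_null (null_diff x y) htμ)
  rw [setIntegral_congr_set hae] at hsum
  have hJ : (∫ u in Icc x y, (A u).det) = J x y := rfl
  rw [hJ] at hsum
  obtain ⟨F, hF⟩ := ((tendsto_order.1 hsum).1 (J x y - ε) (by linarith)).exists
  have hK : ∀ u : t, (∫ v in Metric.closedBall (u : Fin m → ℝ) (r u), (A v).det) =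
      J (fun i => (u : Fin m → ℝ) i - r u) (fun i => (u : Fin m → ℝ) i + r u) := by
    intro u
    rw [ball_eq _ (hr0 u u.2).le]
    rfl
  refine ⟨F.card, fun k i => (F.equivFin.symm k : t).1 i - r (F.equivFin.symm k : t),
    fun k i => (F.equivFin.symm k : t).1 i + r (F.equivFin.symm k : t), ?_, ?_, ?_, ?_⟩
  · intro k i
    set u : t := (F.equivFin.symm k : t) with hu
    have h1 := hR1 u (htU u.2) i
    have h2 := hrR u u.2
    have h3 := hr0 u u.2
    have h4 := hR3 u (htU u.2)
    refine ⟨?_, ?_, ?_, ?_⟩ <;> simp only <;> linarith [h1.1, h1.2.1]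
  · intro k
    set u : t := (F.equivFin.symm k : t) with hu
    have h2 := hrR u u.2
    have h3 := hr0 u u.2
    constructor
    · intro i h
      have h1 := (hR1 u (htU u.2) i).2.2
      have h5 : |u.1 i| ≤ r u := by
        rw [abs_le]
        constructor <;> linarith [h.1, h.2]
      linarith
    · intro i j hij
      have h1 := hR2 u (htU u.2) i j hij
      rw [Set.disjoint_left]
      intro c hc1 hc2
      have h5 : |u.1 i - u.1 j| ≤ 2 * r u := by
        rw [abs_le]
        constructor <;> linarith [hc1.1, hc1.2, hc2.1, hc2.2]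
      linarith
  · intro k l hkl
    have hne : (F.equivFin.symm k : t) ≠ (F.equivFin.symm l : t) := by
      intro h
      exact hkl (F.equivFin.symm.injective (Subtype.ext h))
    have := hdisj hne
    simp only [Function.onFun] at this
    rw [ball_eq _ (hr0 _ (F.equivFin.symm k : t).2).le,
      ball_eq _ (hr0 _ (F.equivFin.symm l : t).2).le] at this
    exact this
  · have h1 : ∑ u ∈ F, (∫ v in Metric.closedBall (u : Fin m → ℝ) (r u), (A v).det) =
        ∑ k : Fin F.card, J (fun i => (F.equivFin.symm k : t).1 i - r (F.equivFin.symm k : t))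
          (fun i => (F.equivFin.symm k : t).1 i + r (F.equivFin.symm k : t)) := by
      rw [← Finset.sum_coe_sort F]
      rw [← Equiv.sum_comp F.equivFin.symm]
      exact Finset.sum_congr rfl fun k _ => hK _
    rw [← h1]
    exact hF.le

end Pool.Agent.J4.H44.RG
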