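import Pool.Agent.J4.H44.RG.LocDefs

/-! HC local version, piece JSP: `J` is additive (helper16). -/

set_option autoImplicit false
set_option linter.all false

open Filter Topology MeasureTheory Set

namespace Pool.Agent.J4.H44.RG

namespace JSPAux

theorem cont_pt {m : ℕ} (o : Option (Fin m)) : Continuous fun u : Fin m → ℝ => pt u o := by
  cases o with
  | none => exact continuous_const
  | some i => exact continuous_apply i

theorem cont_det (m : ℕ) : Continuous fun u : Fin m → ℝ => (A u).det := by
  refine Continuous.matrix_det ?_
  refine continuous_matrix fun i j => ?_
  have h := (cont_pt i).sub (cont_pt (m := m) j)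
  exact Real.continuous_sinc.comp (continuous_const.mul h)

theorem integ {m : ℕ} (x y : Fin m → ℝ) :
    IntegrableOn (fun u : Fin m → ℝ => (A u).det) (Icc x y) :=
  (cont_det m).continuousOn.integrableOn_compact isCompact_Icc

end JSPAux

open JSPAux in
theorem t_JSP : S_JSP := by
  intro m x y i c hxy hxc hcy
  have h1 : Icc x y = Icc x (Function.update y i c) ∪ Icc (Function.update x i c) y := by
    ext u
    simp only [mem_Icc, mem_union, Pi.le_def]
    constructor
    · rintro ⟨a, b⟩
      rcases le_total (u i) c with h | h
      · refine Or.inl ⟨a, fun j => ?_⟩
        rcases eq_or_ne j i with rfl | hj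
        · rw [Function.update_self]
          exact h
        · rw [Function.update_of_ne hj]
          exact b j
      · refine Or.inr ⟨fun j => ?_, b⟩
        rcases eq_or_ne j i with rfl | hj
        · rw [Function.update_self]
          exact h
        · rw [Function.update_of_ne hj]
          exact a j
    · rintro (⟨a, b⟩ | ⟨a, b⟩)
      · refine ⟨a, fun j => ?_⟩
        rcases eq_or_ne j i with rfl | hj
        · have := b j
          rw [Function.update_self] at this
          exact this.trans hcy
        · have := b j
          rw [Function.update_of_ne hj] at this
          exact this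
      · refine ⟨fun j => ?_, b⟩
        rcases eq_or_ne j i with rfl | hj
        · have := a j
          rw [Function.update_self] at this
          exact hxc.trans this
        · have := a j
          rw [Function.update_of_ne hj] at this
          exact this
  have h2 : AEDisjoint volume (Icc x (Function.update y i c)) (Icc (Function.update x i c) y) := by
    unfold AEDisjoint
    refine measure_mono_null (t := {u : Fin m → ℝ | u i = c}) ?_ ?_
    · rintro u ⟨⟨-, b⟩, ⟨a, -⟩⟩
      have h3 := b i
      have h4 := a i
      rw [Function.update_self] at h3 h4
      exact le_antisymm h3 h4
    · rw [volume_pi]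
      exact Measure.pi_hyperplane (α := fun _ : Fin m => ℝ) (fun _ => volume) i c
  unfold J
  rw [h1]
  exact setIntegral_union₀ h2 measurableSet_Icc.nullMeasurableSet (integ _ _) (integ _ _)

end Pool.Agent.J4.H44.RG
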