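import Pool.Agent.J4.H44.RG.LocDefs

set_option autoImplicit false

open Filter Topology MeasureTheory Set

namespace Pool.Agent.J4.H44.RG

theorem t_LOLc (h1 : S_DEC) (h2 : S_SUP) : S_LOL := by
  intro m δ hδ hloc x y hxy ε hε
  obtain ⟨K, a, b, hab, hoff, hdis, hJ⟩ := h1 m δ (ε / 2) x y hδ (by positivity) hxy
  have hK : (0 : ℝ) < 2 * ((K : ℝ) + 1) := by positivity
  have hev : ∀ᶠ T : ℝ in atTop, ∀ k : Fin K,
      J (a k) (b k) - ε / (2 * ((K : ℝ) + 1)) ≤ ratio T (a k) (b k) := by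
    rw [eventually_all]
    intro k
    exact hloc (a k) (b k) (fun i => ⟨(hab k i).2.1, (hab k i).2.2.2⟩) (hoff k) _ (by positivity)
  filter_upwards [hev, eventually_ge_atTop 2] with T hT hT2
  have hS := h2 m T x y K a b hT2 (fun k i => ⟨(hab k i).1, (hab k i).2.2.1⟩) hdis
  have hlog : 0 < Real.log T := Real.log_pos (by linarith)
  have hpos : 0 < T / (2 * Real.pi) * Real.log T := by positivity
  have h4 : ∑ k, ratio T (a k) (b k) ≤ ratio T x y := by
    unfold ratio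
    rw [← Finset.sum_div]
    refine div_le_div_of_nonneg_right ?_ hpos.le
    exact_mod_cast hS
  have h3 : ∑ k, (J (a k) (b k) - ε / (2 * ((K : ℝ) + 1))) ≤ ∑ k, ratio T (a k) (b k) :=
    Finset.sum_le_sum fun k _ => hT k
  rw [Finset.sum_sub_distrib, Finset.sum_const, Finset.card_univ, Fintype.card_fin,
    nsmul_eq_mul] at h3
  have h5 : (K : ℝ) * (ε / (2 * ((K : ℝ) + 1))) ≤ ε / 2 := by
    rw [mul_div_assoc', div_le_div_iff₀ hK two_pos]
    nlinarith [hε, (Nat.cast_nonneg K : (0 : ℝ) ≤ K)]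
  linarith

end Pool.Agent.J4.H44.RG
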