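import Pool.Agent.J4.H44.RG.Defs
import Pool.Agent.J4.H44.KL.Mom

/-! # Project HC: facts of the library -/

set_option autoImplicit false
set_option linter.all false

open Filter Topology MeasureTheory Set

namespace Pool.Agent.J4.H44.RG

lemma LIB.rhs_of (hRH : RiemannHypothesis) : SP.RHs := by
  intro s h0 h1 hz
  apply hRH s hz
  · rintro ⟨n, hn⟩
    rw [hn] at h0
    simp at h0
    have : (0 : ℝ) ≤ n := Nat.cast_nonneg n
    linarith
  · intro h
    rw [h] at h1
    simp at h1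

lemma LIB.NZ_eq (t : ℝ) : NZ t = SG.NZ t := rfl

lemma LIB.γ_eq (n : ℕ) : γ n = SG.ord n := rfl

lemma LIB.Ws_eq (T x y : ℝ) (n : ℕ) : Ws T n (Icc x y) = Pool.Agent.R320.KL.Cs T x y n := by
  ext l
  unfold Ws Pool.Agent.R320.KL.Cs
  simp only [Finset.mem_filter]
  rfl

theorem t_MOMD : S_MOMD := by
  intro hRH
  obtain ⟨C, hC, h⟩ := Pool.Agent.J4.H44.KL.momD (LIB.rhs_of hRH) 0
  refine ⟨C, hC, fun L hL => ?_⟩
  filter_upwards [h L hL] with T hT
  intro x y hx hy hxy
  have := hT x y hx hy hxy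
  simp only [pow_zero, mul_one, pow_one] at this
  simp only [LIB.Ws_eq]
  exact this

theorem t_MOMK : S_MOMK := by
  intro hRH p R hR
  obtain ⟨C, hC, h⟩ := Pool.Agent.J4.H44.KL.momK (LIB.rhs_of hRH) p R hR
  refine ⟨C, hC, ?_⟩
  filter_upwards [h] with T hT
  simp only [LIB.Ws_eq]
  exact hT

theorem t_CNT : S_CNT := by
  intro m T x y hT
  have h := Pool.Agent.J4.H44.KL.Nk_inj T x y
  have e : N T x y = Pool.Agent.R320.KL.Nk T x y := rfl
  rw [e, h]
  refine Finset.sum_congr rfl fun n hn => ?_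
  unfold tup
  rw [← Set.ncard_coe_finset]
  congr 1
  ext l
  simp only [Finset.mem_coe, Pool.Agent.J4.H44.KL.mem_inj, mem_setOf_eq, LIB.Ws_eq]
  tauto

theorem t_NZ : S_NZ := by
  refine ⟨Pool.Agent.J4.H44.KL.NZ_le, ?_, SG.NZ_mono, fun n hn t _ => SG.ord_le_iff hn t, ?_, ?_⟩
  · obtain ⟨C, hC, hz⟩ := H370.zcount H370.good_zeta
    refine ⟨2 * C + SG.NZ 5, by positivity, ?_⟩
    filter_upwards [eventually_ge_atTop (4 : ℝ)] with T hT
    intro t ht0 ht
    have hlT : 1 ≤ Real.log T := by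
      rw [Real.le_log_iff_exp_le (by linarith)]
      linarith [Real.exp_one_lt_d9]
    have h5 : (0 : ℝ) ≤ SG.NZ 5 := Nat.cast_nonneg _
    simp only [LIB.NZ_eq]
    rcases le_total 3 t with h | h
    · have h1 := SG.NZ_le_add t (t + 2) (by linarith)
      have h3 := hz (t + 1) (by linarith)
      have e1 : t + 1 - 1 = t := by ring
      have e2 : t + 1 + 1 = t + 2 := by ring
      rw [e1, e2] at h3
      have h4 : (SG.NZ (t + 2) : ℝ) ≤ SG.NZ t + H370.NN riemannZeta t (t + 2) := by exact_mod_cast h1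
      have h6 : Real.log (t + 1) ≤ 2 * Real.log T := by
        have e3 : 2 * Real.log T = Real.log (T ^ 2) := by
          rw [Real.log_pow]
          norm_num
        rw [e3]
        exact Real.log_le_log (by linarith) (by nlinarith)
      have h7 : C * Real.log (t + 1) ≤ C * (2 * Real.log T) := mul_le_mul_of_nonneg_left h6 hC.le
      have h8 : 0 ≤ (SG.NZ 5 : ℝ) * Real.log T := by positivity
      nlinarith
    · have h1 : SG.NZ (t + 2) ≤ SG.NZ 5 := SG.NZ_mono (by linarith)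
      have h2 : (SG.NZ (t + 2) : ℝ) ≤ SG.NZ 5 := by exact_mod_cast h1
      have h3 : (0 : ℝ) ≤ SG.NZ t := Nat.cast_nonneg _
      have h8 : (SG.NZ 5 : ℝ) ≤ (SG.NZ 5 : ℝ) * Real.log T := le_mul_of_one_le_right h5 hlT
      have h9 : 0 ≤ 2 * C * Real.log T := by positivity
      nlinarith
  · intro n l hn hl
    have h1 : l ≤ SG.NZ (SG.ord l) := (SG.ord_le_iff (hn.trans hl) _).1 le_rfl
    exact (SG.ord_le_iff hn _).2 (hl.trans h1)
  · intro n hn
    by_contra h
    push Not at h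
    have h1 := (SG.ord_le_iff hn 0).1 h
    rw [SG.NZ_nonpos le_rfl] at h1
    omega

end Pool.Agent.J4.H44.RG
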