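import Pool.Agent.J4.H44.RG.LocDefs
import Pool.Agent.J4.H44.RG.T_LIB

set_option autoImplicit false

open Filter Topology MeasureTheory Set

namespace Pool.Agent.J4.H44.RG

lemma SUPc.fin {m : ℕ} (T : ℝ) (hT : 0 ≤ T) (x y : Fin m → ℝ) :
    {j : Option (Fin m) → ℕ | Function.Injective j ∧ (∀ i, 1 ≤ j i ∧ γ (j i) ≤ T) ∧
    ∀ i : Fin m, (γ (j (some i)) - γ (j none)) * (Real.log T / (2 * Real.pi)) ∈
      Set.Icc (x i) (y i)}.Finite := by
  have hNZ := t_NZ.2.2.2.1
  refine (Set.Finite.pi' (fun _ : Option (Fin m) => Set.finite_Icc 1 (NZ T))).subset ?_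
  rintro j ⟨_, h, _⟩ i
  exact ⟨(h i).1, (hNZ (j i) (h i).1 T hT).1 (h i).2⟩

theorem t_SUPc : S_SUP := by
  classical
  intro m T x y K a b hT hab hdis
  have hfin := SUPc.fin T (by linarith) x y
  set F := hfin.toFinset with hF
  let P : Fin K → (Option (Fin m) → ℕ) → Prop := fun k j =>
    Function.Injective j ∧ (∀ i, 1 ≤ j i ∧ γ (j i) ≤ T) ∧
    ∀ i : Fin m, (γ (j (some i)) - γ (j none)) * (Real.log T / (2 * Real.pi)) ∈
      Set.Icc (a k i) (b k i)
  have e1 : ∀ k, N T (a k) (b k) = (F.filter (P k)).card := by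
    intro k
    unfold N
    rw [← Set.ncard_coe_finset]
    congr 1
    ext j
    simp only [Finset.coe_filter, hF, Set.Finite.mem_toFinset, Set.mem_setOf_eq]
    constructor
    · rintro ⟨h1, h2, h3⟩
      exact ⟨⟨h1, h2, fun i => ⟨(hab k i).1.trans (h3 i).1, (h3 i).2.trans (hab k i).2⟩⟩, h1, h2, h3⟩
    · rintro ⟨_, h⟩
      exact h
  have e2 : N T x y = F.card := by
    unfold N
    rw [hF, ← Set.ncard_eq_toFinset_card _ hfin]
  rw [e2, Finset.sum_congr rfl (fun k _ => e1 k), ← Finset.card_biUnion]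
  · refine Finset.card_le_card ?_
    intro j hj
    rw [Finset.mem_biUnion] at hj
    obtain ⟨k, _, hk⟩ := hj
    exact (Finset.mem_filter.1 hk).1
  · intro k _ l _ hkl
    rw [Function.onFun, Finset.disjoint_left]
    intro j hj1 hj2
    have h1 := (Finset.mem_filter.1 hj1).2.2.2
    have h2 := (Finset.mem_filter.1 hj2).2.2.2
    refine (Set.disjoint_left.1 (hdis k l hkl)) (a :=
      fun i => (γ (j (some i)) - γ (j none)) * (Real.log T / (2 * Real.pi))) ?_ ?_
    · exact ⟨fun i => (h1 i).1, fun i => (h1 i).2⟩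
    · exact ⟨fun i => (h2 i).1, fun i => (h2 i).2⟩

end Pool.Agent.J4.H44.RG
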