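import Pool.Agent.J4.H44.RG.LocDefs
import Pool.Agent.J4.H44.RG.T_SUPc

set_option autoImplicit false

open Filter Topology MeasureTheory Set

namespace Pool.Agent.J4.H44.RG

theorem t_NSPc : S_NSP := by
  classical
  intro m T x y i c hT hc1 hc2
  have hf1 := SUPc.fin T (by linarith) x (Function.update y i c)
  have hf2 := SUPc.fin T (by linarith) (Function.update x i c) y
  unfold N
  refine (Set.ncard_le_ncard ?_ (hf1.union hf2)).trans (Set.ncard_union_le _ _)
  rintro j ⟨h1, h2, h3⟩
  rcases le_total ((γ (j (some i)) - γ (j none)) * (Real.log T / (2 * Real.pi))) c with h | h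
  · refine Or.inl ⟨h1, h2, fun k => ?_⟩
    by_cases hk : k = i
    · subst hk
      rw [Function.update_self]
      exact ⟨(h3 k).1, h⟩
    · rw [Function.update_of_ne hk]
      exact h3 k
  · refine Or.inr ⟨h1, h2, fun k => ?_⟩
    by_cases hk : k = i
    · subst hk
      rw [Function.update_self]
      exact ⟨h, (h3 k).2⟩
    · rw [Function.update_of_ne hk]
      exact h3 k

end Pool.Agent.J4.H44.RG
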