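import Pool.Agent.J4.H44.RG.LocDefs

/-! # Project HC, local version, piece UPL: the upper bounds for small boxes suffice -/

set_option autoImplicit false

open Filter Topology MeasureTheory Set

namespace Pool.Agent.J4.H44.RG

theorem t_UPL (h1 : S_JSP) (h2 : S_NSP) : S_UPL := by
  classical
  intro m δ hδ hL
  have key : ∀ n : ℕ, ∀ x y : Fin m → ℝ, (∀ i, x i ≤ y i) → ∑ i, ⌈(y i - x i) / δ⌉₊ = n →
      ∀ ε : ℝ, 0 < ε → ∀ᶠ T : ℝ in atTop, ratio T x y ≤ J x y + ε := by
    intro n
    induction n using Nat.strong_induction_on with
    | _ n ih =>
      intro x y hxy hn ε hε
      by_cases h : ∀ i, y i ≤ x i + δ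
      · exact hL x y (fun i => ⟨hxy i, h i⟩) ε hε
      · push Not at h
        obtain ⟨i, hi⟩ := h
        have hc1 : x i ≤ x i + δ := by linarith
        have hc2 : x i + δ ≤ y i := hi.le
        have s1 : ∑ j, ⌈(Function.update y i (x i + δ) j - x j) / δ⌉₊ < n := by
          rw [← hn]
          refine Finset.sum_lt_sum (fun j _ => ?_) ⟨i, Finset.mem_univ _, ?_⟩
          · by_cases hj : j = i
            · subst hj
              rw [Function.update_self]
              refine Nat.ceil_mono (div_le_div_of_nonneg_right ?_ hδ.le)
              linarith
            · rw [Function.update_of_ne hj]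
          · rw [Function.update_self]
            have e : (x i + δ - x i) / δ = 1 := by
              rw [add_sub_cancel_left, div_self hδ.ne']
            rw [e, Nat.ceil_one, Nat.lt_ceil, Nat.cast_one, lt_div_iff₀ hδ]
            linarith
        have s2 : ∑ j, ⌈(y j - Function.update x i (x i + δ) j) / δ⌉₊ < n := by
          rw [← hn]
          refine Finset.sum_lt_sum (fun j _ => ?_) ⟨i, Finset.mem_univ _, ?_⟩
          · by_cases hj : j = i
            · subst hj
              rw [Function.update_self]
              refine Nat.ceil_mono (div_le_div_of_nonneg_right ?_ hδ.le)
              linarith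
            · rw [Function.update_of_ne hj]
          · rw [Function.update_self]
            have e : (y i - x i) / δ = (y i - (x i + δ)) / δ + 1 := by
              field_simp
              ring
            rw [e, Nat.ceil_add_one (div_nonneg (by linarith) hδ.le)]
            exact Nat.lt_succ_self _
        have a1 := ih _ s1 x (Function.update y i (x i + δ)) (fun j => by
          by_cases hj : j = i
          · subst hj
            rw [Function.update_self]
            exact hc1
          · rw [Function.update_of_ne hj]
            exact hxy j) rfl (ε / 2) (by positivity)
        have a2 := ih _ s2 (Function.update x i (x i + δ)) y (fun j => by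
          by_cases hj : j = i
          · subst hj
            rw [Function.update_self]
            exact hc2
          · rw [Function.update_of_ne hj]
            exact hxy j) rfl (ε / 2) (by positivity)
        filter_upwards [a1, a2, eventually_ge_atTop (2 : ℝ)] with T b1 b2 hT
        have hN := h2 m T x y i (x i + δ) hT hc1 hc2
        have hpos : 0 < T / (2 * Real.pi) * Real.log T :=
          mul_pos (div_pos (by linarith) (by positivity)) (Real.log_pos (by linarith))
        have hr : ratio T x y ≤ ratio T x (Function.update y i (x i + δ)) +
            ratio T (Function.update x i (x i + δ)) y := by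
          unfold ratio
          rw [← add_div]
          refine div_le_div_of_nonneg_right ?_ hpos.le
          exact_mod_cast hN
        rw [h1 m x y i (x i + δ) hxy hc1 hc2]
        linarith
  intro x y hxy
  exact key _ x y hxy rfl

end Pool.Agent.J4.H44.RG
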