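import Pool.Agent.J4.H44.RG.Main2
import Pool.Agent.J4.H44.RG.T_JSP
import Pool.Agent.J4.H44.RG.T_NSPc
import Pool.Agent.J4.H44.RG.T_UPL
import Pool.Agent.J4.H44.RG.T_DEC78
import Pool.Agent.J4.H44.RG.T_SUPc
import Pool.Agent.J4.H44.RG.T_LOLc

/-! # Project HC: the main theorem with the sum rule and with small boxes -/

set_option autoImplicit false
set_option linter.all false

open Filter Topology MeasureTheory Set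

namespace Pool.Agent.J4.H44.RG

theorem loc_main (hRH : RiemannHypothesis) (hU : S_UPL) (hL : S_LOL) :
    (∀ m k : ℕ, k ≤ m → (∃ δ : ℝ, 0 < δ ∧ LocUpper m δ) → Level k) ∧
    (∀ m k : ℕ, k ≤ m → (∃ δ : ℝ, 0 < δ ∧ LocLower m δ) → Level k) ∧
    ((∀ m : ℕ, Level m) ↔
      ∃ᶠ m : ℕ in atTop, (∃ δ : ℝ, 0 < δ ∧ LocUpper m δ) ∨ ∃ δ : ℝ, 0 < δ ∧ LocLower m δ) := by
  obtain ⟨h1, h2, h3, h4⟩ := main hRH
  have hU' : ∀ m : ℕ, (∃ δ : ℝ, 0 < δ ∧ LocUpper m δ) → LevelUpper m := by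
    rintro m ⟨δ, hδ, h⟩
    exact hU m δ hδ h
  have hL' : ∀ m : ℕ, (∃ δ : ℝ, 0 < δ ∧ LocLower m δ) → LevelLower m := by
    rintro m ⟨δ, hδ, h⟩
    exact hL m δ hδ h
  refine ⟨fun m k hk h => h3 m k hk ((h1 m).1 (hU' m h)),
    fun m k hk h => h3 m k hk ((h2 m).1 (hL' m h)), fun h => ?_, fun h => ?_⟩
  · refine (Eventually.of_forall fun m => Or.inl ⟨1, one_pos, fun x y hxy ε hε => ?_⟩).frequently
    exact (h1 m).2 (h m) x y (fun i => (hxy i).1) ε hε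
  · exact h4.2 (h.mono fun m hm => hm.imp (hU' m) (hL' m))

theorem main4 (hRH : RiemannHypothesis) :
    (∀ (m : ℕ) (x y : Fin m → ℝ) (ε : ℝ), 0 < ε →
      ∃ G : ℝ → ℝ, Continuous G ∧ HasCompactSupport G ∧ (∀ v, 0 ≤ G v ∧ G v ≤ 1) ∧
        (∀ v, |v| ≤ 1 / ε → 1 - ε ≤ G v) ∧ ∀ᶠ T : ℝ in atTop,
          |further T x y G - ((∫ v, G v) - (m + 1)) * N T x y| ≤
            ε * (T / (2 * Real.pi) * Real.log T)) ∧
    (∀ m k : ℕ, k ≤ m → (∃ δ : ℝ, 0 < δ ∧ LocUpper m δ) → Level k) ∧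
    (∀ m k : ℕ, k ≤ m → (∃ δ : ℝ, 0 < δ ∧ LocLower m δ) → Level k) ∧
    ((∀ m : ℕ, Level m) ↔
      ∃ᶠ m : ℕ in atTop, (∃ δ : ℝ, 0 < δ ∧ LocUpper m δ) ∨ ∃ δ : ℝ, 0 < δ ∧ LocLower m δ) :=
  ⟨(main3 hRH).1, loc_main hRH (t_UPL t_JSP t_NSPc) (t_LOLc t_DEC t_SUPc)⟩

end Pool.Agent.J4.H44.RG
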