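import Pool.Agent.J4.H44.RG.Defs

/-! # Project HC, piece SCR: the sum rule (perfect screening) for the tuples of zeros -/

set_option autoImplicit false
set_option linter.all false

open Filter Topology MeasureTheory Set

namespace Pool.Agent.J4.H44.RG

/-- the indices of the tuples counted by `N T x y` -/
def tuples {m : ℕ} (T : ℝ) (x y : Fin m → ℝ) : Set (Option (Fin m) → ℕ) :=
  {j | Function.Injective j ∧ (∀ i, 1 ≤ j i ∧ γ (j i) ≤ T) ∧
    ∀ i : Fin m, (γ (j (some i)) - γ (j none)) * (Real.log T / (2 * Real.pi)) ∈ Set.Icc (x i) (y i)}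

/-- the further zeros `≤ T`, not in the tuple, with the weight `G` of their distance to the last one -/
noncomputable def further {m : ℕ} (T : ℝ) (x y : Fin m → ℝ) (G : ℝ → ℝ) : ℝ :=
  ∑ᶠ j ∈ tuples T x y, ∑ᶠ l ∈ {l : ℕ | 1 ≤ l ∧ γ l ≤ T ∧ ∀ i, l ≠ j i},
    G ((γ l - γ (j none)) * (Real.log T / (2 * Real.pi)))

/-- SCR (inputs Z, CNT, NZ, MOMK): for every box and every `ε` there is a flat weight `G`, such that the
weighted number of further zeros is `(∫ G - (m + 1))` times the number of tuples, up to `ε T log T`. -/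
def S_SCR : Prop := RiemannHypothesis → ∀ (m : ℕ) (x y : Fin m → ℝ) (ε : ℝ), 0 < ε →
  ∃ G : ℝ → ℝ, Continuous G ∧ HasCompactSupport G ∧ (∀ v, 0 ≤ G v ∧ G v ≤ 1) ∧
    (∀ v, |v| ≤ 1 / ε → 1 - ε ≤ G v) ∧ ∀ᶠ T : ℝ in atTop,
      |further T x y G - ((∫ v, G v) - (m + 1)) * N T x y| ≤ ε * (T / (2 * Real.pi) * Real.log T)

end Pool.Agent.J4.H44.RG
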