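import Pool.Agent.J4.H44.RG.T_LIB

/-! # Project HC: from higher to lower levels (as in HigherLevelsSuffice) -/

set_option autoImplicit false
set_option linter.all false

open Filter Topology MeasureTheory Set

namespace Pool.Agent.J4.H44.RG

/-- the count with a further variable in `[-L, L]` -/
lemma step (hRH : RiemannHypothesis) (m : ℕ) (x y : Fin m → ℝ) :
    ∃ C : ℝ, 0 < C ∧ ∀ L : ℝ, 1 ≤ L → ∀ᶠ T : ℝ in atTop,
      |ratio T (Fin.cons (-L) x : Fin (m + 1) → ℝ) (Fin.cons L y) - 2 * L * ratio T x y| ≤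
        C * Real.sqrt (1 + Real.log L) := by
  obtain ⟨C, hC, h⟩ := Pool.Agent.J4.H44.KL.marg (LIB.rhs_of hRH) x y
  have hpi := Real.pi_pos
  refine ⟨C * (2 * Real.pi), by positivity, fun L hL => ?_⟩
  filter_upwards [h L hL, eventually_gt_atTop 1] with T hT hT1
  have hl := Real.log_pos hT1
  have hD : 0 < T / (2 * Real.pi) * Real.log T := by positivity
  have e : ratio T (Fin.cons (-L) x : Fin (m + 1) → ℝ) (Fin.cons L y) - 2 * L * ratio T x y =
      ((N T (Fin.cons (-L) x : Fin (m + 1) → ℝ) (Fin.cons L y) : ℝ) - 2 * L * N T x y) /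
        (T / (2 * Real.pi) * Real.log T) := by
    unfold ratio
    ring
  rw [e, abs_div, abs_of_pos hD, div_le_iff₀ hD]
  refine le_trans hT (le_of_eq ?_)
  field_simp

/-- the predicted limits with a further variable in `[-L, L]` -/
lemma stepJ (m : ℕ) (x y : Fin m → ℝ) : ∃ C : ℝ, 0 < C ∧ ∀ L : ℝ, 1 ≤ L →
    |J (Fin.cons (-L) x : Fin (m + 1) → ℝ) (Fin.cons L y) - 2 * L * J x y| ≤ C :=
  Pool.Agent.J4.H44.KL.int_cons x y

lemma choose_L (C C' ε : ℝ) (hC : 0 < C) (hC' : 0 < C') (hε : 0 < ε) : ∃ L : ℝ, 1 ≤ L ∧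
    C * Real.sqrt (1 + Real.log L) + 1 + C' ≤ 2 * L * ε := by
  obtain ⟨K, hK⟩ : ∃ K : ℝ, K = (C + 1 + C') / ε + 1 := ⟨_, rfl⟩
  have hK1 : 1 ≤ K := by
    rw [hK]
    have : 0 ≤ (C + 1 + C') / ε := by positivity
    linarith
  refine ⟨K ^ 2, one_le_pow₀ hK1, ?_⟩
  have hl : Real.log (K ^ 2) ≤ 2 * (K - 1) := by
    rw [Real.log_pow]
    have := Real.log_le_sub_one_of_pos (show 0 < K by linarith)
    push_cast
    linarith
  have h1 : Real.sqrt (1 + Real.log (K ^ 2)) ≤ K := by
    rw [Real.sqrt_le_left (by linarith)]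
    nlinarith [sq_nonneg (K - 1)]
  have h2 : C + 1 + C' ≤ K * ε := by
    rw [hK, add_mul, div_mul_cancel₀ _ hε.ne']
    linarith
  have h3 : C * Real.sqrt (1 + Real.log (K ^ 2)) ≤ C * K := mul_le_mul_of_nonneg_left h1 hC.le
  have h4 : 1 + C' ≤ (1 + C') * K := le_mul_of_one_le_right (by linarith) hK1
  have h5 : K * (C + 1 + C') ≤ K * (K * ε) := mul_le_mul_of_nonneg_left h2 (by linarith)
  have h6 : 0 ≤ K * (K * ε) := by positivity
  nlinarith

lemma cons_le (m : ℕ) (x y : Fin m → ℝ) (hxy : ∀ i, x i ≤ y i) (L : ℝ) (hL : 1 ≤ L) :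
    ∀ i, (Fin.cons (-L) x : Fin (m + 1) → ℝ) i ≤ (Fin.cons L y : Fin (m + 1) → ℝ) i := by
  intro i
  refine Fin.cases ?_ (fun j => ?_) i
  · simp only [Fin.cons_zero]
    linarith
  · simpa using hxy j

lemma upper_step (hRH : RiemannHypothesis) (m : ℕ) (h : LevelUpper (m + 1)) : LevelUpper m := by
  intro x y hxy ε hε
  obtain ⟨C, hC, h1⟩ := step hRH m x y
  obtain ⟨C', hC', h2⟩ := stepJ m x y
  obtain ⟨L, hL, h3⟩ := choose_L C C' ε hC hC' hε
  filter_upwards [h1 L hL, h _ _ (cons_le m x y hxy L hL) 1 one_pos] with T k1 k2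
  have k3 := (abs_le.1 k1).1
  have k4 := (abs_le.1 (h2 L hL)).2
  have k5 : 2 * L * ratio T x y ≤ 2 * L * (J x y + ε) := by linarith
  exact le_of_mul_le_mul_left k5 (by linarith)

lemma lower_step (hRH : RiemannHypothesis) (m : ℕ) (h : LevelLower (m + 1)) : LevelLower m := by
  intro x y hxy ε hε
  obtain ⟨C, hC, h1⟩ := step hRH m x y
  obtain ⟨C', hC', h2⟩ := stepJ m x y
  obtain ⟨L, hL, h3⟩ := choose_L C C' ε hC hC' hε
  filter_upwards [h1 L hL, h _ _ (cons_le m x y hxy L hL) 1 one_pos] with T k1 k2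
  have k3 := (abs_le.1 k1).2
  have k4 := (abs_le.1 (h2 L hL)).1
  have k5 : 2 * L * (J x y - ε) ≤ 2 * L * ratio T x y := by linarith
  exact le_of_mul_le_mul_left k5 (by linarith)

lemma level_iff (m : ℕ) : Level m ↔ LevelUpper m ∧ LevelLower m := by
  constructor
  · intro h
    constructor
    · intro x y hxy ε hε
      have := (Metric.tendsto_nhds.1 (h x y hxy)) ε hε
      filter_upwards [this] with T hT
      rw [Real.dist_eq] at hT
      linarith [(abs_lt.1 hT).2]
    · intro x y hxy ε hε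
      have := (Metric.tendsto_nhds.1 (h x y hxy)) ε hε
      filter_upwards [this] with T hT
      rw [Real.dist_eq] at hT
      linarith [(abs_lt.1 hT).1]
  · rintro ⟨h1, h2⟩ x y hxy
    rw [Metric.tendsto_nhds]
    intro ε hε
    filter_upwards [h1 x y hxy (ε / 2) (by linarith), h2 x y hxy (ε / 2) (by linarith)] with T k1 k2
    rw [Real.dist_eq, abs_lt]
    constructor <;> linarith

lemma down (P : ℕ → Prop) (h : ∀ m, P (m + 1) → P m) : (∀ m, P m) ↔ ∃ᶠ m in atTop, P m := by
  constructor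
  · intro hP
    exact (Eventually.of_forall hP).frequently
  · intro hf m
    obtain ⟨n, hn, hPn⟩ := (frequently_atTop.1 hf) m
    obtain ⟨d, rfl⟩ := Nat.exists_eq_add_of_le hn
    clear hn
    induction d with
    | zero => exact hPn
    | succ d ih => exact ih (h _ hPn)


lemma upper_of_level {m : ℕ} (h : Level m) : LevelUpper m := ((level_iff m).1 h).1

lemma lower_of_level {m : ℕ} (h : Level m) : LevelLower m := ((level_iff m).1 h).2

/-- the upper bounds suffice -/
theorem upper_iff (hRH : RiemannHypothesis) (h0 : S_LEV0) (hU : S_FINU) (m : ℕ) :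
    LevelUpper m ↔ Level m := by
  refine ⟨?_, upper_of_level⟩
  induction m with
  | zero => exact fun _ => h0
  | succ m ih => exact fun h => hU hRH m (ih (upper_step hRH m h)) h

/-- the lower bounds suffice -/
theorem lower_iff (hRH : RiemannHypothesis) (h0 : S_LEV0) (hL : S_FINL) (m : ℕ) :
    LevelLower m ↔ Level m := by
  refine ⟨?_, lower_of_level⟩
  induction m with
  | zero => exact fun _ => h0
  | succ m ih => exact fun h => hL hRH m (ih (lower_step hRH m h)) h

theorem level_down (hRH : RiemannHypothesis) {m k : ℕ} (h : Level m) (hk : k ≤ m) : Level k := by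
  induction hk with
  | refl => exact h
  | step hk ih =>
    rw [level_iff] at h
    exact ih ((level_iff _).2 ⟨upper_step hRH _ h.1, lower_step hRH _ h.2⟩)

end Pool.Agent.J4.H44.RG
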