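import Pool.Agent.J4.H44.RG.Defs

/-!
# Project HC (helper44), piece BLK: the bad zeros (helper50)
-/

set_option autoImplicit false
set_option linter.all false

open Filter Topology MeasureTheory Set

namespace Pool.Agent.J4.H44.RG

namespace BLKbad

theorem mem_Ws {T : ℝ} {n l : ℕ} {S : Set ℝ} :
    l ∈ Ws T n S ↔ (1 ≤ l ∧ l ≤ NZ T) ∧ l ≠ n ∧ ps T n l ∈ S := by
  classical
  simp [Ws, Finset.mem_filter, Finset.mem_Icc]

theorem tup_le {m : ℕ} (T R : ℝ) (x y : Fin m → ℝ) (n : ℕ) (hR : ∀ i, -R ≤ x i ∧ y i ≤ R) :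
    tup T x y n ≤ (Ws T n (Icc (-R) R)).card ^ m := by
  classical
  have h1 : {l : Fin m → ℕ | Function.Injective l ∧ ∀ i, l i ∈ Ws T n (Icc (x i) (y i))} ⊆
      ((Fintype.piFinset fun _ : Fin m => Ws T n (Icc (-R) R) : Finset (Fin m → ℕ)) :
        Set (Fin m → ℕ)) := by
    rintro l ⟨-, hl⟩
    rw [Finset.mem_coe, Fintype.mem_piFinset]
    intro i
    have := mem_Ws.1 (hl i)
    exact mem_Ws.2 ⟨this.1, this.2.1, (hR i).1.trans this.2.2.1, this.2.2.2.trans (hR i).2⟩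
  unfold tup
  refine (Set.ncard_le_ncard h1 (Finset.finite_toSet _)).trans ?_
  rw [Set.ncard_coe_finset, Fintype.card_piFinset]
  simp

theorem tendsto_ratio (i : ℕ) :
    Tendsto (fun T : ℝ => sc (T / 2 ^ (i + 1)) / sc T) atTop (𝓝 1) := by
  have h1 : Tendsto (fun T : ℝ => 1 - Real.log (2 ^ (i + 1)) / Real.log T) atTop (𝓝 (1 - 0)) :=
    tendsto_const_nhds.sub (tendsto_const_nhds.div_atTop Real.tendsto_log_atTop)
  rw [sub_zero] at h1
  refine h1.congr' ?_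
  filter_upwards [eventually_gt_atTop (1 : ℝ)] with T hT
  have h2 : 0 < Real.log T := Real.log_pos hT
  unfold sc
  rw [Real.log_div (by positivity) (by positivity)]
  field_simp

theorem ratio_le_one (i : ℕ) {T : ℝ} (hT : 1 < T) : sc (T / 2 ^ (i + 1)) / sc T ≤ 1 := by
  have h2 : 0 < Real.log T := Real.log_pos hT
  have h3 : 0 < sc T := by unfold sc; positivity
  rw [div_le_one h3]
  unfold sc
  refine div_le_div_of_nonneg_right ?_ (by positivity)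
  refine Real.log_le_log (by positivity) (div_le_self (by positivity) ?_)
  exact one_le_pow₀ (by norm_num)

theorem bad (hL2 : S_L2) (hMK : S_MOMK) (hRH : RiemannHypothesis) (q m : ℕ) (x y : Fin m → ℝ)
    (R : ℝ) (hR1 : 1 ≤ R) (hR : ∀ i, -R ≤ x i ∧ y i ≤ R) :
    ∃ C : ℝ, 0 < C ∧ ∀ J : ℕ, 1 ≤ J → ∀ i : ℕ, ∀ᶠ T : ℝ in atTop,
      ∀ S : Finset ℕ, S ⊆ Finset.Icc 1 (NZ T) →
        (∀ n ∈ S, (J : ℝ) ^ ((1 : ℝ) / (4 * (m + 1))) ≤ ((Ws T n (Icc (-R) R)).card : ℝ)) →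
        |∑ n ∈ S, (tup T x y n : ℝ) * (2 ^ q * cc J - ∑ l ∈ Finset.Icc 1 (NZ T),
          gbar q J ((γ l - γ n) * sc (T / 2 ^ (i + 1))))| ≤
          C * (J : ℝ) ^ (-(3 / 2 : ℝ)) * (T * Real.log T) := by
  obtain ⟨C₁, hC₁, h1⟩ := hMK hRH (2 * m + 16 * (m + 1)) R hR1
  obtain ⟨C₂, hC₂, h2⟩ := hL2 hRH q
  refine ⟨Real.sqrt (C₁ * C₂), by positivity, fun J hJ i => ?_⟩
  have h3 : ∀ᶠ T : ℝ in atTop, 1 - 1 / 4 ^ J ≤ sc (T / 2 ^ (i + 1)) / sc T := by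
    refine ((tendsto_ratio i).eventually (lt_mem_nhds (a := 1 - 1 / 4 ^ J) ?_)).mono
      fun T hT => hT.le
    have : (0 : ℝ) < 1 / 4 ^ J := by positivity
    linarith
  filter_upwards [h1, h2 J hJ, h3, eventually_gt_atTop (1 : ℝ)] with T hT1 hT2 hT3 hT S hS hbad
  have hlog : 0 < Real.log T := Real.log_pos hT
  have hsc : 0 < sc T := by unfold sc; positivity
  have hJ0 : (0 : ℝ) < J := by exact_mod_cast hJ
  set ρ : ℝ := sc (T / 2 ^ (i + 1)) / sc T with hρ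
  set b : ℕ → ℝ := fun n => 2 ^ q * cc J - ∑ l ∈ Finset.Icc 1 (NZ T), gbar q J (ρ * ps T n l)
    with hb
  have hbb : ∀ n, 2 ^ q * cc J - ∑ l ∈ Finset.Icc 1 (NZ T),
      gbar q J ((γ l - γ n) * sc (T / 2 ^ (i + 1))) = b n := by
    intro n
    rw [hb]
    dsimp only
    congr 1
    refine Finset.sum_congr rfl fun l _ => ?_
    congr 1
    rw [hρ]
    unfold ps
    field_simp
  simp only [hbb]
  have hB : ∑ n ∈ S, b n ^ 2 ≤ C₂ * J * (T * Real.log T) :=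
    (Finset.sum_le_sum_of_subset_of_nonneg hS fun n _ _ => sq_nonneg _).trans
      (hT2 ρ hT3 (ratio_le_one i hT))
  have hJ4 : ∀ n ∈ S, (J : ℝ) ^ 4 ≤ ((Ws T n (Icc (-R) R)).card : ℝ) ^ (16 * (m + 1)) := by
    intro n hn
    have h4 : ((J : ℝ) ^ ((1 : ℝ) / (4 * (m + 1)))) ^ (16 * (m + 1)) = (J : ℝ) ^ 4 := by
      rw [← Real.rpow_natCast, ← Real.rpow_mul hJ0.le, ← Real.rpow_natCast]
      congr 1
      push_cast
      field_simp
      norm_num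
    rw [← h4]
    exact pow_le_pow_left₀ (by positivity) (hbad n hn) _
  have hA : (J : ℝ) ^ 4 * ∑ n ∈ S, (tup T x y n : ℝ) ^ 2 ≤ C₁ * (T * Real.log T) := by
    rw [Finset.mul_sum]
    refine le_trans ?_ hT1
    refine le_trans (Finset.sum_le_sum (g := fun n => ((Ws T n (Icc (-R) R)).card : ℝ) ^
      (2 * m + 16 * (m + 1))) fun n hn => ?_)
      (Finset.sum_le_sum_of_subset_of_nonneg hS fun n _ _ => by positivity)
    have h5 : (tup T x y n : ℝ) ≤ ((Ws T n (Icc (-R) R)).card : ℝ) ^ m := by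
      exact_mod_cast tup_le T R x y n hR
    have h6 : (tup T x y n : ℝ) ^ 2 ≤ ((Ws T n (Icc (-R) R)).card : ℝ) ^ (2 * m) := by
      rw [mul_comm 2 m, pow_mul]
      exact pow_le_pow_left₀ (by positivity) h5 2
    rw [pow_add, mul_comm ((J : ℝ) ^ 4)]
    exact mul_le_mul h6 (hJ4 n hn) (by positivity) (by positivity)
  have hCS : (∑ n ∈ S, (tup T x y n : ℝ) * b n) ^ 2 ≤
      (∑ n ∈ S, (tup T x y n : ℝ) ^ 2) * ∑ n ∈ S, b n ^ 2 :=
    Finset.sum_mul_sq_le_sq_mul_sq S _ _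
  have hX : 0 < T * Real.log T := by positivity
  refine abs_le_of_sq_le_sq ?_ (by positivity)
  have h7 : (Real.sqrt (C₁ * C₂) * (J : ℝ) ^ (-(3 / 2 : ℝ)) * (T * Real.log T)) ^ 2 =
      C₁ * C₂ * (T * Real.log T) ^ 2 / (J : ℝ) ^ 3 := by
    rw [mul_pow, mul_pow, Real.sq_sqrt (by positivity), ← Real.rpow_natCast ((J : ℝ) ^ _) 2,
      ← Real.rpow_mul hJ0.le]
    have : (J : ℝ) ^ (-(3 / 2 : ℝ) * ((2 : ℕ) : ℝ)) = ((J : ℝ) ^ 3)⁻¹ := by
      rw [← Real.rpow_natCast (J : ℝ) 3, ← Real.rpow_neg hJ0.le]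
      congr 1
      norm_num
    rw [this]
    field_simp
  rw [h7, le_div_iff₀ (by positivity)]
  calc (∑ n ∈ S, (tup T x y n : ℝ) * b n) ^ 2 * (J : ℝ) ^ 3
      ≤ ((∑ n ∈ S, (tup T x y n : ℝ) ^ 2) * ∑ n ∈ S, b n ^ 2) * (J : ℝ) ^ 3 :=
        mul_le_mul_of_nonneg_right hCS (by positivity)
    _ ≤ ((∑ n ∈ S, (tup T x y n : ℝ) ^ 2) * (C₂ * J * (T * Real.log T))) * (J : ℝ) ^ 3 := by
        gcongr
    _ = ((J : ℝ) ^ 4 * ∑ n ∈ S, (tup T x y n : ℝ) ^ 2) * (C₂ * (T * Real.log T)) := by ring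
    _ ≤ (C₁ * (T * Real.log T)) * (C₂ * (T * Real.log T)) :=
        mul_le_mul_of_nonneg_right hA (by positivity)
    _ = C₁ * C₂ * (T * Real.log T) ^ 2 := by ring

end BLKbad

end Pool.Agent.J4.H44.RG
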