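import Pool.Agent.J4.H44.RG.LocDefs

/-! # HC-LOC, piece DEC: boxes contain finitely many disjoint small boxes off the diagonals with almost
the same integral (Besicovitch covering by small closed sup-balls). -/

set_option autoImplicit false
set_option linter.all false

open Filter Topology MeasureTheory Set

namespace Pool.Agent.J4.H44.RG

private lemma dec_cpt {m : ℕ} (o : Option (Fin m)) : Continuous fun u : Fin m → ℝ => pt u o := by
  cases o with
  | none => simpa [pt] using continuous_const
  | some i => simpa [pt] using continuous_apply i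

private lemma dec_contA (m : ℕ) : Continuous (fun u : Fin m → ℝ => (A u).det) := by
  apply Continuous.matrix_det
  refine continuous_matrix ?_
  intro i j
  simp only [A, Matrix.of_apply]
  exact Real.continuous_sinc.comp (continuous_const.mul ((dec_cpt i).sub (dec_cpt j)))

private lemma dec_ball {m : ℕ} (u : Fin m → ℝ) (r : ℝ) (hr : 0 ≤ r) :
    Metric.closedBall u r = Icc (fun i => u i - r) (fun i => u i + r) := by
  ext v
  rw [Metric.mem_closedBall, dist_pi_le_iff hr]
  constructor
  · intro h
    refine ⟨fun i => ?_, fun i => ?_⟩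
    · have := h i
      rw [Real.dist_eq, abs_le] at this
      show u i - r ≤ v i
      linarith [this.1]
    · have := h i
      rw [Real.dist_eq, abs_le] at this
      show v i ≤ u i + r
      linarith [this.2]
  · intro h i
    have h1 : u i - r ≤ v i := h.1 i
    have h2 : v i ≤ u i + r := h.2 i
    rw [Real.dist_eq, abs_le]
    constructor <;> linarith

private lemma dec_hyp {m : ℕ} (i : Fin m) (c : ℝ) : volume {u : Fin m → ℝ | u i = c} = 0 := by
  rw [volume_pi]
  exact Measure.pi_hyperplane (α := fun _ : Fin m => ℝ) (fun _ => (volume : Measure ℝ)) i c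

private lemma dec_null {m : ℕ} (x y : Fin m → ℝ) :
    volume (Icc x y \ {u : Fin m → ℝ | (∀ i, x i < u i ∧ u i < y i) ∧ (∀ i, u i ≠ 0) ∧
      ∀ i j, i ≠ j → u i ≠ u j}) = 0 := by
  have hsub : (Icc x y \ {u : Fin m → ℝ | (∀ i, x i < u i ∧ u i < y i) ∧ (∀ i, u i ≠ 0) ∧
      ∀ i j, i ≠ j → u i ≠ u j}) ⊆
      (⋃ i : Fin m, {u : Fin m → ℝ | u i = x i}) ∪ (⋃ i : Fin m, {u : Fin m → ℝ | u i = y i}) ∪
      (⋃ i : Fin m, {u : Fin m → ℝ | u i = 0}) ∪
      (⋃ i : Fin m, ⋃ j : Fin m, ⋃ (_ : i ≠ j), {u : Fin m → ℝ | u i = u j}) := by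
    intro u hu
    obtain ⟨hu1, hu2⟩ := hu
    by_contra hcon
    simp only [mem_union, mem_iUnion, mem_setOf_eq, not_or, not_exists] at hcon
    obtain ⟨⟨⟨h1, h2⟩, h3⟩, h4⟩ := hcon
    apply hu2
    refine ⟨fun i => ⟨lt_of_le_of_ne (hu1.1 i) (fun h => h1 i h.symm),
      lt_of_le_of_ne (hu1.2 i) (h2 i)⟩, h3, fun i j hij => h4 i j hij⟩
  refine measure_mono_null hsub ?_
  refine measure_union_null (measure_union_null (measure_union_null ?_ ?_) ?_) ?_
  · exact measure_iUnion_null fun i => dec_hyp i (x i)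
  · exact measure_iUnion_null fun i => dec_hyp i (y i)
  · exact measure_iUnion_null fun i => dec_hyp i (0 : ℝ)
  · refine measure_iUnion_null fun i => measure_iUnion_null fun j => measure_iUnion_null fun hij => ?_
    let p : (Fin m → ℝ) →ₗ[ℝ] ℝ := (LinearMap.proj i : (Fin m → ℝ) →ₗ[ℝ] ℝ) -
      (LinearMap.proj j : (Fin m → ℝ) →ₗ[ℝ] ℝ)
    have hp : {u : Fin m → ℝ | u i = u j} = (LinearMap.ker p : Set (Fin m → ℝ)) := by
      ext u
      simp [p, sub_eq_zero]
    rw [hp]
    apply Measure.addHaar_submodule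
    intro htop
    have : (Pi.single i (1 : ℝ) : Fin m → ℝ) ∈ LinearMap.ker p := by rw [htop]; trivial
    rw [LinearMap.mem_ker] at this
    simp [p, Pi.single_apply, hij.symm] at this

theorem t_DEC : S_DEC := by
  intro m δ ε x y hδ hε hxy
  set s : Set (Fin m → ℝ) := {u | (∀ i, x i < u i ∧ u i < y i) ∧ (∀ i, u i ≠ 0) ∧
      ∀ i j, i ≠ j → u i ≠ u j} with hs
  -- good radii
  have hR : ∀ u : Fin m → ℝ, ∃ R : ℝ, 0 < R ∧ (u ∈ s → ∀ r : ℝ, 0 < r → r < R →
      2 * r < δ ∧ (∀ i, x i < u i - r ∧ u i + r < y i) ∧ (∀ i, r < |u i|) ∧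
      ∀ i j, i ≠ j → 2 * r < |u i - u j|) := by
    intro u
    by_cases hu : u ∈ s
    · obtain ⟨h1, h2, h3⟩ := hu
      have hc : ∀ᶠ r : ℝ in 𝓝 0, 2 * r < δ ∧ (∀ i, x i < u i - r ∧ u i + r < y i) ∧ (∀ i, r < |u i|) ∧
          ∀ i j, i ≠ j → 2 * r < |u i - u j| := by
        refine Filter.Eventually.and ?_ (Filter.Eventually.and ?_ (Filter.Eventually.and ?_ ?_))
        · have : Tendsto (fun r : ℝ => 2 * r) (𝓝 0) (𝓝 (2 * 0)) := (continuous_const.mul continuous_id).tendsto 0
          exact this.eventually_lt_const (by simpa using hδ)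
        · rw [Filter.eventually_all]
          intro i
          refine Filter.Eventually.and ?_ ?_
          · have : Tendsto (fun r : ℝ => u i - r) (𝓝 0) (𝓝 (u i - 0)) := (continuous_const.sub continuous_id).tendsto 0
            exact this.eventually_const_lt (by simpa using (h1 i).1)
          · have : Tendsto (fun r : ℝ => u i + r) (𝓝 0) (𝓝 (u i + 0)) := (continuous_const.add continuous_id).tendsto 0
            exact this.eventually_lt_const (by simpa using (h1 i).2)
        · rw [Filter.eventually_all]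
          intro i
          exact eventually_lt_nhds (abs_pos.mpr (h2 i))
        · rw [Filter.eventually_all]
          intro i
          rw [Filter.eventually_all]
          intro j
          rw [Filter.eventually_all]
          intro hij
          have : Tendsto (fun r : ℝ => 2 * r) (𝓝 0) (𝓝 (2 * 0)) := (continuous_const.mul continuous_id).tendsto 0
          exact this.eventually_lt_const (by simpa using abs_pos.mpr (sub_ne_zero.mpr (h3 i j hij)))
      obtain ⟨R, hR0, hR⟩ := Metric.eventually_nhds_iff.mp hc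
      refine ⟨R, hR0, fun _ r hr hrR => hR ?_⟩
      rw [Real.dist_eq, sub_zero, abs_of_pos hr]
      exact hrR
    · exact ⟨1, one_pos, fun h => absurd h hu⟩
  choose R hR0 hR using hR
  obtain ⟨t, r, htc, hts, hr, hcov, hdis⟩ := Besicovitch.exists_disjoint_closedBall_covering_ae
    (volume : Measure (Fin m → ℝ)) (fun _ => univ) s
    (fun u _ d hd => ⟨d / 2, mem_univ _, by constructor <;> linarith⟩) R (fun u _ => hR0 u)
  have hgood : ∀ u ∈ t, 0 < r u ∧ 2 * r u < δ ∧ (∀ i, x i < u i - r u ∧ u i + r u < y i) ∧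
      (∀ i, r u < |u i|) ∧ ∀ i j, i ≠ j → 2 * r u < |u i - u j| := by
    intro u hu
    exact ⟨(hr u hu).2.1, hR u (hts hu) (r u) (hr u hu).2.1 (hr u hu).2.2⟩
  have hcont := dec_contA m
  have hsubI : (⋃ u ∈ t, Metric.closedBall u (r u)) ⊆ Icc x y := by
    intro v hv
    simp only [mem_iUnion] at hv
    obtain ⟨u, hu, hv⟩ := hv
    obtain ⟨g0, g1, g2, g3, g4⟩ := hgood u hu
    rw [dec_ball u (r u) g0.le] at hv
    refine ⟨fun i => ?_, fun i => ?_⟩
    · have : u i - r u ≤ v i := hv.1 i
      linarith [(g2 i).1]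
    · have : v i ≤ u i + r u := hv.2 i
      linarith [(g2 i).2]
  have hint : IntegrableOn (fun u : Fin m → ℝ => (A u).det) (Icc x y) volume :=
    hcont.continuousOn.integrableOn_compact isCompact_Icc
  have hae : (⋃ u ∈ t, Metric.closedBall u (r u)) =ᵐ[volume] Icc x y := by
    apply Filter.EventuallyLE.antisymm
    · exact hsubI.eventuallyLE
    · rw [ae_le_set]
      refine measure_mono_null (t := (Icc x y \ s) ∪ (s \ ⋃ u ∈ t, Metric.closedBall u (r u))) ?_ ?_
      · intro v hv
        by_cases hvs : v ∈ s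
        · exact Or.inr ⟨hvs, hv.2⟩
        · exact Or.inl ⟨hv.1, hvs⟩
      · exact measure_union_null (dec_null x y) hcov
  have htc' : Countable t := htc.to_subtype
  have hsum : HasSum (fun u : t => ∫ v in Metric.closedBall (u : Fin m → ℝ) (r u), (A v).det)
      (∫ v in Icc x y, (A v).det) := by
    rw [← setIntegral_congr_set hae, biUnion_eq_iUnion]
    apply hasSum_integral_iUnion
    · intro u
      exact Metric.isClosed_closedBall.measurableSet
    · intro u v huv
      exact hdis u.2 v.2 (fun h => huv (Subtype.ext h))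
    · rw [← biUnion_eq_iUnion t (fun u _ => Metric.closedBall u (r u))]
      exact hint.mono_set hsubI
  have hev := hsum.eventually (lt_mem_nhds (show (∫ v in Icc x y, (A v).det) - ε < _ by linarith))
  obtain ⟨F, hF⟩ := hev.exists
  let e := F.equivFin
  refine ⟨F.card, fun k i => ((e.symm k : t) : Fin m → ℝ) i - r (e.symm k : t),
    fun k i => ((e.symm k : t) : Fin m → ℝ) i + r (e.symm k : t), ?_, ?_, ?_, ?_⟩
  · intro k i
    obtain ⟨g0, g1, g2, g3, g4⟩ := hgood _ (e.symm k : t).2
    exact ⟨(g2 i).1.le, by linarith, (g2 i).2.le, by linarith⟩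
  · intro k
    obtain ⟨g0, g1, g2, g3, g4⟩ := hgood _ (e.symm k : t).2
    refine ⟨fun i hi => ?_, fun i j hij => ?_⟩
    · have h1 := hi.1
      have h2 := hi.2
      have h3 := g3 i
      have : |((e.symm k : t) : Fin m → ℝ) i| ≤ r (e.symm k : t) := by
        rw [abs_le]; constructor <;> linarith
      linarith
    · rw [Set.disjoint_left]
      intro v hv1 hv2
      have h3 := g4 i j hij
      have : |((e.symm k : t) : Fin m → ℝ) i - ((e.symm k : t) : Fin m → ℝ) j| ≤ 2 * r (e.symm k : t) := by
        rw [abs_le]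
        have a1 := hv1.1
        have a2 := hv1.2
        have a3 := hv2.1
        have a4 := hv2.2
        constructor <;> linarith
      linarith
  · intro k l hkl
    obtain ⟨g0, _⟩ := hgood _ (e.symm k : t).2
    obtain ⟨g0', _⟩ := hgood _ (e.symm l : t).2
    rw [← dec_ball _ _ g0.le, ← dec_ball _ _ g0'.le]
    apply hdis (e.symm k : t).2 (e.symm l : t).2
    intro h
    exact hkl (e.symm.injective (Subtype.ext (Subtype.ext h)))
  · have hsumeq : ∑ k, J (fun i => ((e.symm k : t) : Fin m → ℝ) i - r (e.symm k : t))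
        (fun i => ((e.symm k : t) : Fin m → ℝ) i + r (e.symm k : t)) =
        ∑ u ∈ F, ∫ v in Metric.closedBall (u : Fin m → ℝ) (r u), (A v).det := by
      rw [← Finset.sum_coe_sort F (fun u => ∫ v in Metric.closedBall (u : Fin m → ℝ) (r u), (A v).det)]
      rw [← Equiv.sum_comp e.symm]
      refine Finset.sum_congr rfl fun k _ => ?_
      obtain ⟨g0, _⟩ := hgood _ (e.symm k : t).2
      rw [dec_ball _ _ g0.le]
      rfl
    show (∫ v in Icc x y, (A v).det) - ε ≤ _
    rw [hsumeq]
    exact hF.le

end Pool.Agent.J4.H44.RG
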