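import Pool.Agent.J4.H44.RG.LocDefs

/-! # Project HC, piece DEC: small boxes off the diagonals (Besicovitch covering) -/

set_option autoImplicit false

open Filter Topology MeasureTheory Set

namespace Pool.Agent.J4.H44.RG

namespace DECbAux

theorem det_cont (m : ℕ) : Continuous (fun u : Fin m → ℝ => (A u).det) := by
  apply Continuous.matrix_det
  refine continuous_matrix fun i j => ?_
  have hp : ∀ o : Option (Fin m), Continuous (fun u : Fin m → ℝ => pt u o) := by
    intro o
    cases o with
    | none => exact continuous_const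
    | some i => exact continuous_apply i
  exact Real.continuous_sinc.comp (continuous_const.mul ((hp i).sub (hp j)))

/-- the interior of the box without the diagonals -/
def O {m : ℕ} (x y : Fin m → ℝ) : Set (Fin m → ℝ) :=
  {u | (∀ i, x i < u i) ∧ (∀ i, u i < y i) ∧ (∀ i, u i ≠ 0) ∧ ∀ i j, i ≠ j → u i ≠ u j}

theorem O_open {m : ℕ} (x y : Fin m → ℝ) : IsOpen (O x y) := by
  unfold O
  simp only [setOf_and, setOf_forall]
  refine IsOpen.inter (isOpen_iInter_of_finite fun i => ?_) (IsOpen.inter
    (isOpen_iInter_of_finite fun i => ?_) (IsOpen.inter (isOpen_iInter_of_finite fun i => ?_)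
    (isOpen_iInter_of_finite fun i => isOpen_iInter_of_finite fun j =>
      isOpen_iInter_of_finite fun hij => ?_)))
  · exact isOpen_lt continuous_const (continuous_apply i)
  · exact isOpen_lt (continuous_apply i) continuous_const
  · exact isOpen_ne_fun (continuous_apply i) continuous_const
  · exact isOpen_ne_fun (continuous_apply i) (continuous_apply j)

theorem null {m : ℕ} (x y : Fin m → ℝ) : volume (Icc x y \ O x y) = 0 := by
  have hsub : Icc x y \ O x y ⊆ (⋃ i, {u : Fin m → ℝ | u i = x i}) ∪
      (⋃ i, {u : Fin m → ℝ | u i = y i}) ∪ (⋃ i, {u : Fin m → ℝ | u i = 0}) ∪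
      ⋃ (p : {p : Fin m × Fin m // p.1 ≠ p.2}), {u : Fin m → ℝ | u p.1.1 = u p.1.2} := by
    rintro u ⟨⟨h1, h2⟩, h3⟩
    by_contra hc
    simp only [mem_union, mem_iUnion, mem_setOf_eq, not_or, not_exists] at hc
    obtain ⟨⟨⟨c1, c2⟩, c3⟩, c4⟩ := hc
    apply h3
    exact ⟨fun i => lt_of_le_of_ne (h1 i) (fun h => c1 i h.symm),
      fun i => lt_of_le_of_ne (h2 i) (c2 i), c3, fun i j hij h => c4 ⟨(i, j), hij⟩ h⟩
  have hyp : ∀ (i : Fin m) (c : ℝ), volume {u : Fin m → ℝ | u i = c} = 0 := by
    intro i c
    rw [volume_pi]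
    exact Measure.pi_hyperplane (μ := fun _ : Fin m => (volume : Measure ℝ)) i c
  refine measure_mono_null hsub ?_
  simp only [measure_union_null_iff, measure_iUnion_null_iff]
  refine ⟨⟨⟨fun i => hyp i _, fun i => hyp i _⟩, fun i => hyp i _⟩, fun p => ?_⟩
  obtain ⟨⟨i, j⟩, hij⟩ := p
  have h1 := Measure.addHaar_submodule (volume : Measure (Fin m → ℝ))
    (LinearMap.ker ((LinearMap.proj i : (Fin m → ℝ) →ₗ[ℝ] ℝ) - LinearMap.proj j)) (by
      intro h
      have h2 : (Pi.single i (1 : ℝ) : Fin m → ℝ) ∈
          LinearMap.ker ((LinearMap.proj i : (Fin m → ℝ) →ₗ[ℝ] ℝ) - LinearMap.proj j) := by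
        rw [h]; trivial
      rw [LinearMap.mem_ker] at h2
      simp only [LinearMap.sub_apply, LinearMap.proj_apply, Pi.single_eq_same] at h2
      rw [Pi.single_eq_of_ne (fun h => hij h.symm)] at h2
      norm_num at h2)
  refine measure_mono_null ?_ h1
  intro u hu
  have hu' : u i = u j := hu
  simp [hu']

theorem ball_eq {m : ℕ} (u : Fin m → ℝ) {r : ℝ} (hr : 0 ≤ r) :
    Metric.closedBall u r = Icc (fun i => u i - r) (fun i => u i + r) := by
  rw [closedBall_pi u hr, ← pi_univ_Icc]
  congr 1
  funext i
  exact Real.closedBall_eq_Icc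

end DECbAux

open DECbAux in
theorem t_DECb : S_DEC := by
  intro m δ ε x y hδ hε hxy
  have hcont := det_cont m
  obtain ⟨t, r, htc, htO, hr, hnull, hdisj⟩ :=
    Besicovitch.exists_disjoint_closedBall_covering_ae (volume : Measure (Fin m → ℝ))
      (fun u => {ρ : ℝ | Metric.closedBall u ρ ⊆ O x y}) (O x y)
      (by
        intro u hu η hη
        obtain ⟨ρ, hρ, hsub⟩ := Metric.isOpen_iff.1 (O_open x y) u hu
        refine ⟨min (ρ / 2) (η / 2), ?_, ?_, ?_⟩
        · exact (Metric.closedBall_subset_ball
            (lt_of_le_of_lt (min_le_left _ _) (by linarith))).trans hsub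
        · exact lt_min (by linarith) (by linarith)
        · exact lt_of_le_of_lt (min_le_right _ _) (by linarith))
      (fun _ => δ / 2) (fun _ _ => by linarith)
  have := htc.to_subtype
  have hball : ∀ u : t, Metric.closedBall (u : Fin m → ℝ) (r u) =
      Icc (fun i => (u : Fin m → ℝ) i - r u) (fun i => (u : Fin m → ℝ) i + r u) :=
    fun u => ball_eq _ (hr u u.2).2.1.le
  have hsubO : ∀ u : t, Metric.closedBall (u : Fin m → ℝ) (r u) ⊆ O x y := fun u => (hr u u.2).1
  have hU : (⋃ u : t, Metric.closedBall (u : Fin m → ℝ) (r u)) ⊆ O x y := iUnion_subset hsubO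
  have hOI : O x y ⊆ Icc x y := fun u hu => ⟨fun i => (hu.1 i).le, fun i => (hu.2.1 i).le⟩
  have hae : (⋃ u : t, Metric.closedBall (u : Fin m → ℝ) (r u)) =ᵐ[volume] Icc x y := by
    refine Filter.EventuallyLE.antisymm (HasSubset.Subset.eventuallyLE (hU.trans hOI)) ?_
    rw [ae_le_set]
    have hsub : Icc x y \ (⋃ u : t, Metric.closedBall (u : Fin m → ℝ) (r u)) ⊆
        (Icc x y \ O x y) ∪ (O x y \ ⋃ u ∈ t, Metric.closedBall u (r u)) := by
      intro v hv
      by_cases h : v ∈ O x y
      · right
        refine ⟨h, fun h2 => hv.2 ?_⟩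
        rw [mem_iUnion₂] at h2
        obtain ⟨u, hu, h3⟩ := h2
        exact mem_iUnion.2 ⟨⟨u, hu⟩, h3⟩
      · left
        exact ⟨hv.1, h⟩
    exact measure_mono_null hsub (measure_union_null (null x y) hnull)
  have hsum := hasSum_integral_iUnion (μ := (volume : Measure (Fin m → ℝ)))
    (f := fun u : Fin m → ℝ => (A u).det)
    (s := fun u : t => Metric.closedBall (u : Fin m → ℝ) (r u))
    (fun u => Metric.isClosed_closedBall.measurableSet)
    (fun u v huv => hdisj u.2 v.2 (fun h => huv (Subtype.ext h)))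
    ((hcont.continuousOn.integrableOn_compact (isCompact_Icc (a := x) (b := y))).mono_set
      (hU.trans hOI))
  rw [setIntegral_congr_set hae] at hsum
  have hev := (hsum.eventually (lt_mem_nhds (show J x y - ε < ∫ u in Icc x y, (A u).det by
    unfold J; linarith))).exists
  obtain ⟨F, hF⟩ := hev
  let e : Fin F.card ≃ F := F.equivFin.symm
  let c : Fin F.card → t := fun k => (e k : t)
  have hc : Function.Injective c := fun k l h => e.injective (Subtype.ext h)
  refine ⟨F.card, fun k i => (c k : Fin m → ℝ) i - r (c k), fun k i => (c k : Fin m → ℝ) i + r (c k),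
    ?_, ?_, ?_, ?_⟩
  · intro k i
    have hr0 : 0 < r (c k) := (hr (c k) (c k).2).2.1
    have hr1 : r (c k) < δ / 2 := (hr (c k) (c k).2).2.2
    have h1 : (fun i => (c k : Fin m → ℝ) i - r (c k)) ∈ O x y := by
      apply hsubO (c k)
      rw [hball]
      exact ⟨fun i => le_rfl, fun i => by
        change (c k : Fin m → ℝ) i - r (c k) ≤ (c k : Fin m → ℝ) i + r (c k)
        linarith⟩
    have h2 : (fun i => (c k : Fin m → ℝ) i + r (c k)) ∈ O x y := by
      apply hsubO (c k)
      rw [hball]
      exact ⟨fun i => by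
        change (c k : Fin m → ℝ) i - r (c k) ≤ (c k : Fin m → ℝ) i + r (c k)
        linarith, fun i => le_rfl⟩
    have h3 : x i < (c k : Fin m → ℝ) i - r (c k) := h1.1 i
    have h4 : (c k : Fin m → ℝ) i + r (c k) < y i := h2.2.1 i
    refine ⟨h3.le, ?_, h4.le, ?_⟩
    · change (c k : Fin m → ℝ) i - r (c k) ≤ (c k : Fin m → ℝ) i + r (c k)
      linarith
    · change (c k : Fin m → ℝ) i + r (c k) ≤ (c k : Fin m → ℝ) i - r (c k) + δ
      linarith
  · intro k
    have hr0 : 0 < r (c k) := (hr (c k) (c k).2).2.1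
    have hin : ∀ v : Fin m → ℝ, (∀ i, (c k : Fin m → ℝ) i - r (c k) ≤ v i) →
        (∀ i, v i ≤ (c k : Fin m → ℝ) i + r (c k)) → v ∈ O x y := by
      intro v h1 h2
      apply hsubO (c k)
      rw [hball]
      exact ⟨h1, h2⟩
    refine ⟨fun i h0 => ?_, fun i j hij => ?_⟩
    · have h1 : (c k : Fin m → ℝ) i - r (c k) ≤ 0 := h0.1
      have h2 : 0 ≤ (c k : Fin m → ℝ) i + r (c k) := h0.2
      have h3 := hin (Function.update (c k : Fin m → ℝ) i 0)
        (fun l => by
          by_cases hl : l = i
          · subst hl; simpa using h1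
          · rw [Function.update_of_ne hl]; linarith)
        (fun l => by
          by_cases hl : l = i
          · subst hl; simpa using h2
          · rw [Function.update_of_ne hl]; linarith)
      exact h3.2.2.1 i (by simp)
    · rw [Set.disjoint_left]
      intro w hw1 hw2
      have a1 : (c k : Fin m → ℝ) i - r (c k) ≤ w := hw1.1
      have a2 : w ≤ (c k : Fin m → ℝ) i + r (c k) := hw1.2
      have b1 : (c k : Fin m → ℝ) j - r (c k) ≤ w := hw2.1
      have b2 : w ≤ (c k : Fin m → ℝ) j + r (c k) := hw2.2
      have h3 := hin (fun l => if l = i ∨ l = j then w else (c k : Fin m → ℝ) l)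
        (fun l => by
          by_cases hl : l = i
          · subst hl; simpa using a1
          · by_cases hl' : l = j
            · subst hl'; simpa using b1
            · simp only [hl, hl', or_self, if_false]; linarith)
        (fun l => by
          by_cases hl : l = i
          · subst hl; simpa using a2
          · by_cases hl' : l = j
            · subst hl'; simpa using b2
            · simp only [hl, hl', or_self, if_false]; linarith)
      exact h3.2.2.2 i j hij (by simp)
  · intro k l hkl
    have h1 := hball (c k)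
    have h2 := hball (c l)
    have h3 := hdisj (c k).2 (c l).2 (fun h => hkl (hc (Subtype.ext h)))
    change Disjoint (Metric.closedBall (c k : Fin m → ℝ) (r (c k)))
      (Metric.closedBall (c l : Fin m → ℝ) (r (c l))) at h3
    rw [h1, h2] at h3
    exact h3
  · have h1 : ∑ k : Fin F.card, J (fun i => (c k : Fin m → ℝ) i - r (c k))
        (fun i => (c k : Fin m → ℝ) i + r (c k)) =
        ∑ u ∈ F, ∫ v in Metric.closedBall (u : Fin m → ℝ) (r u), (A v).det := by
      rw [← Finset.sum_coe_sort F, ← Equiv.sum_comp e]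
      refine Finset.sum_congr rfl fun k _ => ?_
      unfold J
      rw [hball (e k)]
    rw [h1]
    exact hF.le

end Pool.Agent.J4.H44.RG
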