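import Pool.Agent.J4.H44.RG.LocDefs

/-! # Project HC, piece DEC: small boxes off the diagonals, by the covering theorem of Besicovitch -/

set_option autoImplicit false
set_option linter.all false

open Filter Topology MeasureTheory Set

namespace Pool.Agent.J4.H44.RG

namespace DECc

lemma cont_det {m : ℕ} : Continuous fun u : Fin m → ℝ => (A u).det := by
  apply Continuous.matrix_det
  apply continuous_matrix
  intro i j
  have hp : ∀ o : Option (Fin m), Continuous fun u : Fin m → ℝ => pt u o := by
    intro o
    cases o with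
    | none => exact continuous_const
    | some i => exact continuous_apply i
  exact Real.continuous_sinc.comp (continuous_const.mul ((hp i).sub (hp j)))

/-- the open box without the diagonals -/
def U {m : ℕ} (x y : Fin m → ℝ) : Set (Fin m → ℝ) :=
  {u | (∀ i, x i < u i) ∧ (∀ i, u i < y i) ∧ (∀ i, u i ≠ 0) ∧ ∀ i j, i ≠ j → u i ≠ u j}

lemma open_U {m : ℕ} (x y : Fin m → ℝ) : IsOpen (U x y) := by
  have h : U x y = (⋂ i, {u : Fin m → ℝ | x i < u i}) ∩ ((⋂ i, {u : Fin m → ℝ | u i < y i}) ∩
      ((⋂ i, {u : Fin m → ℝ | u i ≠ 0}) ∩ ⋂ i, ⋂ j, ⋂ _ : i ≠ j, {u : Fin m → ℝ | u i ≠ u j})) := by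
    ext u
    simp only [U, mem_setOf_eq, mem_inter_iff, mem_iInter]
  rw [h]
  refine (isOpen_iInter_of_finite fun i => isOpen_lt continuous_const (continuous_apply i)).inter
    ((isOpen_iInter_of_finite fun i => isOpen_lt (continuous_apply i) continuous_const).inter
    ((isOpen_iInter_of_finite fun i => isOpen_ne_fun (continuous_apply i) continuous_const).inter
    (isOpen_iInter_of_finite fun i => isOpen_iInter_of_finite fun j =>
      isOpen_iInter_of_finite fun _ => isOpen_ne_fun (continuous_apply i) (continuous_apply j))))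

lemma diag_null {m : ℕ} (i j : Fin m) (hij : i ≠ j) :
    volume {u : Fin m → ℝ | u i = u j} = 0 := by
  have h := Measure.addHaar_submodule (volume : Measure (Fin m → ℝ))
    (LinearMap.ker ((LinearMap.proj i : (Fin m → ℝ) →ₗ[ℝ] ℝ) - LinearMap.proj j)) (by
      intro htop
      have h1 : (Pi.single i 1 : Fin m → ℝ) ∈
          LinearMap.ker ((LinearMap.proj i : (Fin m → ℝ) →ₗ[ℝ] ℝ) - LinearMap.proj j) := by
        rw [htop]; trivial
      rw [LinearMap.mem_ker, LinearMap.sub_apply, LinearMap.proj_apply, LinearMap.proj_apply,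
        Pi.single_eq_same, Pi.single_eq_of_ne hij.symm] at h1
      norm_num at h1)
  refine measure_mono_null ?_ h
  intro u hu
  have hu' : u i = u j := hu
  show u ∈ LinearMap.ker _
  rw [LinearMap.mem_ker, LinearMap.sub_apply, LinearMap.proj_apply, LinearMap.proj_apply, hu',
    sub_self]

lemma plane_null {m : ℕ} (i : Fin m) (c : ℝ) : volume {u : Fin m → ℝ | u i = c} = 0 :=
  Measure.pi_hyperplane (fun _ => (volume : Measure ℝ)) i c

lemma rest_null {m : ℕ} (x y : Fin m → ℝ) : volume (Icc x y \ U x y) = 0 := by
  have hsub : Icc x y \ U x y ⊆ (⋃ i, {u : Fin m → ℝ | u i = x i}) ∪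
      ((⋃ i, {u : Fin m → ℝ | u i = y i}) ∪ ((⋃ i, {u : Fin m → ℝ | u i = 0}) ∪
        ⋃ i, ⋃ j, ⋃ _ : i ≠ j, {u : Fin m → ℝ | u i = u j})) := by
    rintro u ⟨⟨h1, h2⟩, h3⟩
    by_contra hcon
    simp only [mem_union, mem_iUnion, mem_setOf_eq, not_or, not_exists] at hcon
    obtain ⟨c1, c2, c3, c4⟩ := hcon
    exact h3 ⟨fun i => lt_of_le_of_ne (h1 i) (fun h => c1 i h.symm),
      fun i => lt_of_le_of_ne (h2 i) (c2 i), c3, c4⟩
  refine measure_mono_null hsub ?_
  refine measure_union_null (measure_iUnion_null fun i => plane_null i _) ?_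
  refine measure_union_null (measure_iUnion_null fun i => plane_null i _) ?_
  refine measure_union_null (measure_iUnion_null fun i => plane_null i _) ?_
  exact measure_iUnion_null fun i => measure_iUnion_null fun j => measure_iUnion_null fun h =>
    diag_null i j h

lemma ball_eq {m : ℕ} (c : Fin m → ℝ) {r : ℝ} (hr : 0 ≤ r) :
    Metric.closedBall c r = Icc (fun i => c i - r) (fun i => c i + r) := by
  rw [closedBall_pi c hr, ← Set.pi_univ_Icc]
  simp only [Real.closedBall_eq_Icc]

/-- a cube in `U` is off the diagonals -/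
lemma off_of {m : ℕ} {x y c : Fin m → ℝ} {r : ℝ} (hr : 0 ≤ r)
    (h : Icc (fun i => c i - r) (fun i => c i + r) ⊆ U x y) :
    OffDiag (fun i => c i - r) (fun i => c i + r) := by
  classical
  have hc : ∀ (i : Fin m) (t : ℝ), t ∈ Icc (c i - r) (c i + r) →
      Function.update c i t ∈ Icc (fun i => c i - r) (fun i => c i + r) := by
    intro i t ht
    constructor
    · intro j
      by_cases hj : j = i
      · subst hj; simp only [Function.update_self]; exact ht.1
      · simp only [Function.update_of_ne hj]; linarith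
    · intro j
      by_cases hj : j = i
      · subst hj; simp only [Function.update_self]; exact ht.2
      · simp only [Function.update_of_ne hj]; linarith
  constructor
  · intro i h0
    have h1 := h (hc i 0 h0)
    exact h1.2.2.1 i (Function.update_self _ _ _)
  · intro i j hij
    rw [Set.disjoint_left]
    intro t hi hj
    have h2 : Function.update (Function.update c i t) j t ∈
        Icc (fun i => c i - r) (fun i => c i + r) := by
      constructor
      · intro l
        by_cases hl : l = j
        · subst hl; simp only [Function.update_self]; exact hj.1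
        · simp only [Function.update_of_ne hl]
          exact (hc i t hi).1 l
      · intro l
        by_cases hl : l = j
        · subst hl; simp only [Function.update_self]; exact hj.2
        · simp only [Function.update_of_ne hl]
          exact (hc i t hi).2 l
    refine (h h2).2.2.2 i j hij ?_
    rw [Function.update_self, Function.update_of_ne hij, Function.update_self]

end DECc

open DECc in
theorem t_DECc : S_DEC := by
  classical
  intro m δ ε x y hδ hε hxy
  -- admissible radii
  have hR : ∀ u ∈ U x y, ∃ R : ℝ, 0 < R ∧ R ≤ δ / 2 ∧ Metric.closedBall u R ⊆ U x y := by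
    intro u hu
    obtain ⟨R, hR0, hR⟩ := Metric.isOpen_iff.1 (open_U x y) u hu
    refine ⟨min (R / 2) (δ / 2), by positivity, min_le_right _ _, ?_⟩
    refine (Metric.closedBall_subset_ball ?_).trans hR
    exact lt_of_le_of_lt (min_le_left _ _) (by linarith)
  choose! R hR0 hRδ hRU using hR
  obtain ⟨t, r, htc, htU, htr, hnull, hdisj⟩ := Besicovitch.exists_disjoint_closedBall_covering_ae
    (volume : Measure (Fin m → ℝ)) (fun _ => univ) (U x y)
    (fun u _ d hd => ⟨d / 2, mem_univ _, by constructor <;> linarith⟩) R hR0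
  have : Countable t := htc.to_subtype
  have hrpos : ∀ c ∈ t, 0 < r c := fun c hc => (htr c hc).2.1
  have hrR : ∀ c ∈ t, r c < R c := fun c hc => (htr c hc).2.2
  have hball : ∀ c ∈ t, Metric.closedBall c (r c) ⊆ U x y := fun c hc =>
    (Metric.closedBall_subset_closedBall (hrR c hc).le).trans (hRU c (htU hc))
  set f : (Fin m → ℝ) → ℝ := fun u => (A u).det with hf
  have hint : IntegrableOn f (Icc x y) := cont_det.continuousOn.integrableOn_compact isCompact_Icc
  have hUI : U x y ⊆ Icc x y := fun u hu => ⟨fun i => (hu.1 i).le, fun i => (hu.2.1 i).le⟩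
  have hun : (⋃ c : t, Metric.closedBall (c : Fin m → ℝ) (r c)) = ⋃ c ∈ t, Metric.closedBall c (r c) := by
    rw [iUnion_coe_set]
  have hsub : (⋃ c : t, Metric.closedBall (c : Fin m → ℝ) (r c)) ⊆ Icc x y :=
    iUnion_subset fun c => (hball c c.2).trans hUI
  have hsum := hasSum_integral_iUnion (μ := (volume : Measure (Fin m → ℝ))) (f := f)
    (s := fun c : t => Metric.closedBall (c : Fin m → ℝ) (r c))
    (fun c => Metric.isClosed_closedBall.measurableSet)
    (fun c d hcd => hdisj c.2 d.2 (fun h => hcd (Subtype.ext h))) (hint.mono_set hsub)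
  have hJ : ∫ u in ⋃ c : t, Metric.closedBall (c : Fin m → ℝ) (r c), f u = J x y := by
    unfold J
    refine setIntegral_congr_set ?_
    refine (HasSubset.Subset.eventuallyLE hsub).antisymm ?_
    rw [ae_le_set, hun]
    refine measure_mono_null ?_ (measure_union_null hnull (rest_null x y))
    rintro u ⟨h1, h2⟩
    by_cases hu : u ∈ U x y
    · exact Or.inl ⟨hu, h2⟩
    · exact Or.inr ⟨h1, hu⟩
  rw [hJ] at hsum
  obtain ⟨F, hF⟩ := (hsum.eventually (lt_mem_nhds (by linarith : J x y - ε < J x y))).exists
  let e : Fin F.card ≃ F := F.equivFin.symm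
  refine ⟨F.card, fun k i => (e k : t).1 i - r (e k : t).1, fun k i => (e k : t).1 i + r (e k : t).1,
    ?_, ?_, ?_, ?_⟩
  · intro k i
    have hc := (e k : t).2
    have h1 := hrpos _ hc
    have h2 := hball _ hc
    rw [ball_eq _ h1.le] at h2
    have h3 : (fun i => (e k : t).1 i - r (e k : t).1) ∈ U x y := h2 ⟨le_rfl, fun j => by
      show (e k : t).1 j - r (e k : t).1 ≤ (e k : t).1 j + r (e k : t).1
      linarith⟩
    have h4 : (fun i => (e k : t).1 i + r (e k : t).1) ∈ U x y := h2 ⟨fun j => by
      show (e k : t).1 j - r (e k : t).1 ≤ (e k : t).1 j + r (e k : t).1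
      linarith, le_rfl⟩
    have h5 := hrR _ hc
    have h6 := hRδ _ (htU hc)
    refine ⟨(h3.1 i).le, by linarith, (h4.2.1 i).le, by linarith⟩
  · intro k
    have hc := (e k : t).2
    have h1 := hrpos _ hc
    have h2 := hball _ hc
    rw [ball_eq _ h1.le] at h2
    exact off_of h1.le h2
  · intro k l hkl
    have hne : ((e k : t) : Fin m → ℝ) ≠ ((e l : t) : Fin m → ℝ) := by
      intro h
      exact hkl (e.injective (Subtype.ext (Subtype.ext h)))
    have h1 := hdisj (e k : t).2 (e l : t).2 hne
    simp only [Function.onFun] at h1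
    rw [ball_eq _ (hrpos _ (e k : t).2).le, ball_eq _ (hrpos _ (e l : t).2).le] at h1
    exact h1
  · refine hF.le.trans (le_of_eq ?_)
    rw [← Finset.sum_coe_sort F (fun c => ∫ u in Metric.closedBall (c : Fin m → ℝ) (r c), f u)]
    rw [← Equiv.sum_comp e]
    refine Finset.sum_congr rfl fun k _ => ?_
    unfold J
    rw [ball_eq _ (hrpos _ (e k : t).2).le]

end Pool.Agent.J4.H44.RG
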