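import Pool.Agent.J4.H44.RG.Defs

/-!
# Project HC, piece L2 (helper20): the deterministic part
-/

set_option autoImplicit false

open Filter Topology MeasureTheory Set

namespace Pool.Agent.J4.H44.RG

namespace L2D

noncomputable section

/-- the kernel -/
def fk (y : ℝ) : ℝ := Real.sinc (Real.pi * y) ^ 2

/-- its derivative for `y > 0` -/
def fd (y : ℝ) : ℝ :=
  2 * Real.sinc (Real.pi * y) * ((Real.cos (Real.pi * y) - Real.sinc (Real.pi * y)) / y)

lemma fk_cont : Continuous fk := by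
  unfold fk
  exact (Real.continuous_sinc.comp (by fun_prop)).pow 2

lemma fd_meas : Measurable fd := by
  unfold fd
  have h : Measurable Real.sinc := Real.continuous_sinc.measurable
  fun_prop

lemma fk_deriv {y : ℝ} (hy : 0 < y) : HasDerivAt fk (fd y) y := by
  have hπ := Real.pi_pos
  have h1 : HasDerivAt (fun y => Real.sin (Real.pi * y) / (Real.pi * y))
      (((Real.cos (Real.pi * y) * (Real.pi * 1)) * (Real.pi * y) -
        Real.sin (Real.pi * y) * (Real.pi * 1)) / (Real.pi * y) ^ 2) y := by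
    have h2 : HasDerivAt (fun y : ℝ => Real.pi * y) (Real.pi * 1) y :=
      (hasDerivAt_id y).const_mul Real.pi
    exact h2.sin.div h2 (by positivity)
  have h3 : (fun y => Real.sinc (Real.pi * y)) =ᶠ[𝓝 y]
      (fun y => Real.sin (Real.pi * y) / (Real.pi * y)) := by
    filter_upwards [lt_mem_nhds hy] with z hz
    exact Real.sinc_of_ne_zero (by positivity)
  have h4 := (h1.congr_of_eventuallyEq h3).pow 2
  refine h4.congr_deriv ?_
  have hs : Real.sinc (Real.pi * y) = Real.sin (Real.pi * y) / (Real.pi * y) :=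
    Real.sinc_of_ne_zero (by positivity)
  simp only [fd, hs, show 2 - 1 = 1 from rfl, pow_one]
  push_cast
  field_simp

lemma abs_cos_sub_sinc {x : ℝ} (h0 : 0 < x) (h1 : x ≤ Real.pi) :
    |Real.cos x - Real.sinc x| ≤ x := by
  rw [Real.sinc_of_ne_zero h0.ne']
  have hs0 : 0 ≤ Real.sin x := Real.sin_nonneg_of_nonneg_of_le_pi h0.le h1
  have hs1 : Real.sin x ≤ x := Real.sin_le h0.le
  have a1 : Real.sin x / x ≤ 1 := (div_le_one h0).2 hs1
  have a2 : 1 - x ≤ Real.sin x / x := by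
    have h6 := Real.sin_gt_sub_cube h0
    have h7 := Real.pi_lt_four
    rw [le_div_iff₀ h0]
    nlinarith [mul_pos h0 h0, mul_nonneg (mul_pos h0 h0).le (by linarith : (0 : ℝ) ≤ 6 - x)]
  have b1 : Real.cos x ≤ 1 := Real.cos_le_one x
  have b2 : 1 - x ≤ Real.cos x := by
    by_cases hx : x ≤ 2
    · have := Real.one_sub_sq_div_two_le_cos (x := x)
      nlinarith
    · push Not at hx
      have := Real.neg_one_le_cos x
      linarith
  rw [abs_le]
  constructor <;> linarith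

lemma fd_bound {y : ℝ} (hy : 0 < y) : |fd y| ≤ 13 / (1 + y ^ 2) := by
  have hπ := Real.pi_pos
  have hπ3 := Real.pi_gt_three
  have hπ4 := Real.pi_lt_d2
  unfold fd
  rw [abs_mul, abs_mul, abs_div, abs_of_pos hy, abs_of_pos (by norm_num : (0 : ℝ) < 2)]
  by_cases h1 : y ≤ 1
  · have e1 := abs_cos_sub_sinc (x := Real.pi * y) (by positivity) (by nlinarith)
    have e2 : |Real.cos (Real.pi * y) - Real.sinc (Real.pi * y)| / y ≤ Real.pi := by
      rw [div_le_iff₀ hy]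
      exact e1
    have e3 := Real.abs_sinc_le_one (Real.pi * y)
    have e4 : 2 * |Real.sinc (Real.pi * y)| *
        (|Real.cos (Real.pi * y) - Real.sinc (Real.pi * y)| / y) ≤ 2 * 1 * Real.pi := by
      apply mul_le_mul (by linarith) e2 (by positivity) (by norm_num)
    refine e4.trans ?_
    rw [le_div_iff₀ (by positivity)]
    nlinarith [mul_pos hy hy]
  · push Not at h1
    have e1 : |Real.sinc (Real.pi * y)| ≤ 1 / (3 * y) := by
      rw [Real.sinc_of_ne_zero (by positivity : Real.pi * y ≠ 0), abs_div,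
        abs_of_pos (by positivity : 0 < Real.pi * y)]
      rw [div_le_div_iff₀ (by positivity) (by positivity)]
      have := Real.abs_sin_le_one (Real.pi * y)
      nlinarith
    have e2 : |Real.cos (Real.pi * y) - Real.sinc (Real.pi * y)| ≤ 2 := by
      have := Real.abs_cos_le_one (Real.pi * y)
      have := Real.abs_sinc_le_one (Real.pi * y)
      have := abs_sub (Real.cos (Real.pi * y)) (Real.sinc (Real.pi * y))
      linarith
    have e4 : 2 * |Real.sinc (Real.pi * y)| *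
        (|Real.cos (Real.pi * y) - Real.sinc (Real.pi * y)| / y) ≤
        2 * (1 / (3 * y)) * (2 / y) := by
      apply mul_le_mul (by linarith) _ (by positivity) (by positivity)
      exact div_le_div_of_nonneg_right e2 hy.le
    refine e4.trans ?_
    rw [show 2 * (1 / (3 * y)) * (2 / y) = 4 / (3 * y ^ 2) by field_simp; norm_num]
    rw [div_le_div_iff₀ (by positivity) (by positivity)]
    nlinarith

/-- Abel summation -/
lemma abel {V ρ : ℝ} (hV : 0 ≤ V) (hρ : 0 < ρ) {φ φ' w : ℝ → ℝ} (hφ : Continuous φ)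
    (hd : ∀ y ∈ Ioo 0 V, HasDerivAt φ (φ' y) y) (hm : Measurable φ') (hw : Continuous w)
    (hb : ∀ y ∈ Ioo 0 V, |φ' y| ≤ w y) (hφ1 : |φ V| ≤ 1) {ι : Type} (S : Finset ι) (y : ι → ℝ) :
    |∑ l ∈ S, (if 0 ≤ y l ∧ y l ≤ V then φ (y l) else 0) - (∫ t in (0 : ℝ)..V, φ t) / ρ| ≤
      |(∑ l ∈ S, if 0 ≤ y l ∧ y l ≤ V then (1 : ℝ) else 0) - V / ρ| +
      ∫ t in (0 : ℝ)..V, w t * |(∑ l ∈ S, if 0 ≤ y l ∧ y l ≤ t then (1 : ℝ) else 0) - t / ρ| := by
  have hint : IntervalIntegrable φ' volume 0 V := by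
    rw [intervalIntegrable_iff_integrableOn_Ioo_of_le hV]
    refine Integrable.mono' (g := w) ?_ hm.aestronglyMeasurable ?_
    · exact (hw.integrableOn_Icc (a := 0) (b := V)).mono_set Ioo_subset_Icc_self
    · filter_upwards [ae_restrict_mem measurableSet_Ioo] with t ht
      exact hb t ht
  have hsub : ∀ a, 0 ≤ a → a ≤ V → ∫ t in a..V, φ' t = φ V - φ a := by
    intro a ha haV
    refine intervalIntegral.integral_eq_sub_of_hasDerivAt_of_le haV hφ.continuousOn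
      (fun t ht => hd t ⟨lt_of_le_of_lt ha ht.1, ht.2⟩) ?_
    refine hint.mono_set ?_
    rw [uIcc_of_le haV, uIcc_of_le hV]
    exact Icc_subset_Icc_left ha
  -- the indicator of `y ≤ t`
  have hind : ∀ a : ℝ, IntervalIntegrable
      (fun t => φ' t * (if 0 ≤ a ∧ a ≤ t then (1 : ℝ) else 0)) volume 0 V := by
    intro a
    rw [intervalIntegrable_iff_integrableOn_Ioc_of_le hV] at hint ⊢
    have e : (fun t => φ' t * (if 0 ≤ a ∧ a ≤ t then (1 : ℝ) else 0)) =
        {t | 0 ≤ a ∧ a ≤ t}.indicator φ' := by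
      funext t
      by_cases h : 0 ≤ a ∧ a ≤ t
      · rw [Set.indicator_of_mem (show t ∈ {t | 0 ≤ a ∧ a ≤ t} from h), if_pos h, mul_one]
      · rw [Set.indicator_of_notMem (show t ∉ {t | 0 ≤ a ∧ a ≤ t} from h), if_neg h, mul_zero]
    rw [e]
    exact hint.indicator (by measurability)
  have hone : ∀ a : ℝ, (if 0 ≤ a ∧ a ≤ V then φ a else 0) =
      φ V * (if 0 ≤ a ∧ a ≤ V then (1 : ℝ) else 0) -
        ∫ t in (0 : ℝ)..V, φ' t * (if 0 ≤ a ∧ a ≤ t then (1 : ℝ) else 0) := by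
    intro a
    by_cases h : 0 ≤ a ∧ a ≤ V
    · rw [if_pos h, if_pos h, mul_one]
      have e1 : ∫ t in (0 : ℝ)..V, φ' t * (if 0 ≤ a ∧ a ≤ t then (1 : ℝ) else 0) =
          ∫ t in a..V, φ' t := by
        rw [← intervalIntegral.integral_add_adjacent_intervals (b := a)
          ((hind a).mono_set (by rw [uIcc_of_le h.1, uIcc_of_le hV]; exact Icc_subset_Icc_right h.2))
          ((hind a).mono_set (by rw [uIcc_of_le h.2, uIcc_of_le hV]; exact Icc_subset_Icc_left h.1))]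
        have e2 : ∫ t in (0 : ℝ)..a, φ' t * (if 0 ≤ a ∧ a ≤ t then (1 : ℝ) else 0) = 0 := by
          rw [intervalIntegral.integral_of_le h.1, integral_Ioc_eq_integral_Ioo]
          refine setIntegral_eq_zero_of_forall_eq_zero fun t ht => ?_
          rw [if_neg (by rintro ⟨_, h2⟩; exact absurd ht.2 (not_lt.2 h2)), mul_zero]
        rw [e2, zero_add]
        refine intervalIntegral.integral_congr fun t ht => ?_
        rw [uIcc_of_le h.2] at ht
        beta_reduce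
        rw [if_pos ⟨h.1, ht.1⟩, mul_one]
      rw [e1, hsub a h.1 h.2]
      ring
    · rw [if_neg h, if_neg h, mul_zero, zero_sub]
      have e1 : ∫ t in (0 : ℝ)..V, φ' t * (if 0 ≤ a ∧ a ≤ t then (1 : ℝ) else 0) =
          ∫ t in (0 : ℝ)..V, (0 : ℝ) := by
        refine intervalIntegral.integral_congr fun t ht => ?_
        rw [uIcc_of_le hV] at ht
        beta_reduce
        rw [if_neg (by rintro ⟨h1, h2⟩; exact h ⟨h1, h2.trans ht.2⟩), mul_zero]
      rw [e1]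
      simp
  have hsum : ∑ l ∈ S, (if 0 ≤ y l ∧ y l ≤ V then φ (y l) else 0) =
      φ V * (∑ l ∈ S, if 0 ≤ y l ∧ y l ≤ V then (1 : ℝ) else 0) -
        ∫ t in (0 : ℝ)..V, φ' t * ∑ l ∈ S, (if 0 ≤ y l ∧ y l ≤ t then (1 : ℝ) else 0) := by
    simp only [Finset.mul_sum]
    rw [intervalIntegral.integral_finsetSum (fun l _ => hind (y l)), ← Finset.sum_sub_distrib]
    exact Finset.sum_congr rfl fun l _ => hone (y l)
  have hparts : ∫ t in (0 : ℝ)..V, φ t = φ V * V - ∫ t in (0 : ℝ)..V, φ' t * t := by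
    have h1 : IntervalIntegrable (fun t => φ' t * t) volume 0 V :=
      hint.mul_continuousOn continuousOn_id
    have h2 : IntervalIntegrable φ volume 0 V := hφ.intervalIntegrable _ _
    have h3 : ∫ t in (0 : ℝ)..V, (φ t + φ' t * t) = φ V * V - φ 0 * 0 := by
      refine intervalIntegral.integral_eq_sub_of_hasDerivAt_of_le (f := fun t => φ t * t) hV
        (hφ.mul continuous_id).continuousOn (fun t ht => ?_) (h2.add h1)
      have := (hd t ht).fun_mul (hasDerivAt_id' t)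
      refine this.congr_deriv ?_
      ring
    rw [intervalIntegral.integral_add h2 h1] at h3
    linarith
  have hNint : IntervalIntegrable
      (fun t => φ' t * ∑ l ∈ S, (if 0 ≤ y l ∧ y l ≤ t then (1 : ℝ) else 0)) volume 0 V := by
    have h := IntervalIntegrable.sum S (fun l _ => hind (y l))
    refine h.congr fun t _ => ?_
    rw [Finset.sum_apply, Finset.mul_sum]
  have hmain : ∑ l ∈ S, (if 0 ≤ y l ∧ y l ≤ V then φ (y l) else 0) -
      (∫ t in (0 : ℝ)..V, φ t) / ρ =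
      φ V * ((∑ l ∈ S, if 0 ≤ y l ∧ y l ≤ V then (1 : ℝ) else 0) - V / ρ) -
      ∫ t in (0 : ℝ)..V, φ' t *
        ((∑ l ∈ S, if 0 ≤ y l ∧ y l ≤ t then (1 : ℝ) else 0) - t / ρ) := by
    have h1 : IntervalIntegrable (fun t => φ' t * (t / ρ)) volume 0 V :=
      hint.mul_continuousOn (by fun_prop)
    have h2 : ∫ t in (0 : ℝ)..V, φ' t *
        ((∑ l ∈ S, if 0 ≤ y l ∧ y l ≤ t then (1 : ℝ) else 0) - t / ρ) =
        (∫ t in (0 : ℝ)..V, φ' t * ∑ l ∈ S, (if 0 ≤ y l ∧ y l ≤ t then (1 : ℝ) else 0)) -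
          (∫ t in (0 : ℝ)..V, φ' t * t) / ρ := by
      rw [← intervalIntegral.integral_div]
      rw [← intervalIntegral.integral_sub hNint (h1.congr fun t _ => by
        beta_reduce
        ring)]
      refine intervalIntegral.integral_congr fun t _ => ?_
      beta_reduce
      ring
    rw [hsum, h2, hparts]
    field_simp
    ring
  rw [hmain]
  have hmono : Monotone (fun t : ℝ => ∑ l ∈ S, (if 0 ≤ y l ∧ y l ≤ t then (1 : ℝ) else 0)) := by
    intro a b hab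
    refine Finset.sum_le_sum fun l _ => ?_
    split_ifs with h1 h2 h2
    · exact le_rfl
    · exact absurd ⟨h1.1, h1.2.trans hab⟩ h2
    · exact zero_le_one
    · exact le_rfl
  have hgint : IntervalIntegrable (fun t => w t *
      |(∑ l ∈ S, if 0 ≤ y l ∧ y l ≤ t then (1 : ℝ) else 0) - t / ρ|) volume 0 V := by
    refine IntervalIntegrable.continuousOn_mul ?_ hw.continuousOn
    exact (hmono.intervalIntegrable.sub
      ((by fun_prop : Continuous fun t : ℝ => t / ρ).intervalIntegrable _ _)).abs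
  have h5 : |∫ t in (0 : ℝ)..V, φ' t *
      ((∑ l ∈ S, if 0 ≤ y l ∧ y l ≤ t then (1 : ℝ) else 0) - t / ρ)| ≤
      ∫ t in (0 : ℝ)..V, w t *
        |(∑ l ∈ S, if 0 ≤ y l ∧ y l ≤ t then (1 : ℝ) else 0) - t / ρ| := by
    have := intervalIntegral.norm_integral_le_of_norm_le (f := fun t => φ' t *
      ((∑ l ∈ S, if 0 ≤ y l ∧ y l ≤ t then (1 : ℝ) else 0) - t / ρ)) hV (by
        have hne : ∀ᵐ t : ℝ, t ≠ V := by
          simp [ae_iff, measure_singleton]
        filter_upwards [hne] with t ht1 ht2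
        rw [Real.norm_eq_abs, abs_mul]
        exact mul_le_mul_of_nonneg_right (hb t ⟨ht2.1, lt_of_le_of_ne ht2.2 ht1⟩) (abs_nonneg _))
      hgint
    rwa [Real.norm_eq_abs] at this
  refine (abs_sub _ _).trans (add_le_add ?_ h5)
  rw [abs_mul]
  exact mul_le_of_le_one_left (abs_nonneg _) hφ1

/-- the averaged kernel -/
def ph (q J : ℕ) (t : ℝ) : ℝ := (∑ j ∈ Finset.Icc 1 J, fk (t / 2 ^ (q + j))) / J

/-- its derivative -/
def pd (q J : ℕ) (t : ℝ) : ℝ := (∑ j ∈ Finset.Icc 1 J, fd (t / 2 ^ (q + j)) / 2 ^ (q + j)) / J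

/-- the majorant of the derivative -/
def wt (q J : ℕ) (t : ℝ) : ℝ :=
  (∑ j ∈ Finset.Icc 1 J, 13 / (1 + (t / 2 ^ (q + j)) ^ 2) / 2 ^ (q + j)) / J

lemma ph_cont (q J : ℕ) : Continuous (ph q J) := by
  unfold ph
  exact (continuous_finsetSum _ fun j _ => fk_cont.comp (by fun_prop)).div_const _

lemma pd_meas (q J : ℕ) : Measurable (pd q J) := by
  unfold pd
  exact (Finset.measurable_sum _ fun j _ =>
    (fd_meas.comp (measurable_id.div_const _)).div_const _).div_const _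

lemma wt_cont (q J : ℕ) : Continuous (wt q J) := by
  unfold wt
  refine (continuous_finsetSum _ fun j _ => ?_).div_const _
  refine Continuous.div_const (Continuous.div continuous_const (by fun_prop) fun t => ?_) _
  positivity

lemma wt_nonneg (q J : ℕ) (t : ℝ) : 0 ≤ wt q J t := by
  unfold wt
  positivity

lemma ph_deriv (q J : ℕ) {t : ℝ} (ht : 0 < t) : HasDerivAt (ph q J) (pd q J t) t := by
  unfold ph pd
  refine HasDerivAt.div_const ?_ _
  refine HasDerivAt.fun_sum fun j _ => ?_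
  have h1 : HasDerivAt (fun t : ℝ => t / 2 ^ (q + j)) (1 / 2 ^ (q + j)) t :=
    (hasDerivAt_id t).div_const _
  have h2 := (fk_deriv (y := t / 2 ^ (q + j)) (by positivity)).comp t h1
  refine h2.congr_deriv ?_
  ring

lemma pd_bound (q J : ℕ) {t : ℝ} (ht : 0 < t) : |pd q J t| ≤ wt q J t := by
  unfold pd wt
  rw [abs_div, abs_of_nonneg (by positivity : (0 : ℝ) ≤ J)]
  refine div_le_div_of_nonneg_right ?_ (by positivity)
  refine (Finset.abs_sum_le_sum_abs _ _).trans (Finset.sum_le_sum fun j _ => ?_)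
  rw [abs_div, abs_of_pos (by positivity : (0 : ℝ) < 2 ^ (q + j))]
  exact div_le_div_of_nonneg_right (fd_bound (by positivity)) (by positivity)

lemma fk_nonneg (y : ℝ) : 0 ≤ fk y := by unfold fk; positivity

lemma fk_le_one (y : ℝ) : fk y ≤ 1 := by
  unfold fk
  have := Real.abs_sinc_le_one (Real.pi * y)
  rw [← sq_abs]
  exact pow_le_one₀ (abs_nonneg _) this

lemma fk_zero : fk 0 = 1 := by simp [fk]

lemma fk_neg (y : ℝ) : fk (-y) = fk y := by
  unfold fk
  rw [mul_neg, Real.sinc_neg]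

lemma ph_nonneg (q J : ℕ) (t : ℝ) : 0 ≤ ph q J t := by
  unfold ph
  exact div_nonneg (Finset.sum_nonneg fun _ _ => fk_nonneg _) (by positivity)

lemma ph_le_one (q J : ℕ) (t : ℝ) : ph q J t ≤ 1 := by
  unfold ph
  refine div_le_one_of_le₀ ?_ (by positivity)
  calc ∑ j ∈ Finset.Icc 1 J, fk (t / 2 ^ (q + j)) ≤ ∑ _j ∈ Finset.Icc 1 J, (1 : ℝ) :=
        Finset.sum_le_sum fun _ _ => fk_le_one _
    _ = J := by simp

lemma ph_zero (q J : ℕ) (hJ : 1 ≤ J) : ph q J 0 = 1 := by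
  unfold ph
  have hJ' : (J : ℝ) ≠ 0 := by positivity
  simp [fk_zero, hJ']

lemma ph_neg (q J : ℕ) (t : ℝ) : ph q J (-t) = ph q J t := by
  unfold ph
  simp only [neg_div, fk_neg]

lemma gJ_eq (q J : ℕ) (v : ℝ) : gJ q J v = if |v| ≤ 2 ^ q * 4 ^ J then ph q J v else 0 := by
  unfold gJ ph fk
  simp only [mul_div_assoc]

lemma wt_int (q J : ℕ) {V : ℝ} (hV : 0 ≤ V) : ∫ t in (0 : ℝ)..V, wt q J t ≤ 21 := by
  have h1 : ∀ j : ℕ, ∫ t in (0 : ℝ)..V, 13 / (1 + (t / 2 ^ (q + j)) ^ 2) / 2 ^ (q + j) ≤ 21 := by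
    intro j
    have h2 : ∫ t in (0 : ℝ)..V, 13 / (1 + (t / 2 ^ (q + j)) ^ 2) / 2 ^ (q + j) =
        13 * Real.arctan (V / 2 ^ (q + j)) := by
      have h3 : ∀ t : ℝ, 13 / (1 + (t / 2 ^ (q + j)) ^ 2) / 2 ^ (q + j) =
          13 / 2 ^ (q + j) * (fun x : ℝ => 1 / (1 + x ^ 2)) (t / 2 ^ (q + j)) := by
        intro t
        have : (1 + (t / 2 ^ (q + j)) ^ 2 : ℝ) ≠ 0 := by positivity
        beta_reduce
        field_simp
      simp only [h3]
      rw [intervalIntegral.integral_const_mul,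
        intervalIntegral.integral_comp_div (fun x : ℝ => 1 / (1 + x ^ 2)) (by positivity),
        integral_one_div_one_add_sq, zero_div, Real.arctan_zero, sub_zero, smul_eq_mul]
      field_simp
    rw [h2]
    have h4 := Real.arctan_lt_pi_div_two (V / 2 ^ (q + j))
    have h5 := Real.pi_lt_d2
    linarith
  unfold wt
  rw [intervalIntegral.integral_div, intervalIntegral.integral_finsetSum (fun j _ => by
    refine Continuous.intervalIntegrable ?_ _ _
    refine Continuous.div_const (Continuous.div continuous_const (by fun_prop) fun t => ?_) _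
    positivity)]
  by_cases hJ : J = 0
  · subst hJ
    simp
  have hJ' : (0 : ℝ) < J := by positivity
  rw [div_le_iff₀ hJ']
  calc ∑ j ∈ Finset.Icc 1 J, ∫ t in (0 : ℝ)..V, 13 / (1 + (t / 2 ^ (q + j)) ^ 2) / 2 ^ (q + j)
      ≤ ∑ _j ∈ Finset.Icc 1 J, (21 : ℝ) := Finset.sum_le_sum fun j _ => h1 j
    _ = 21 * J := by simp; ring

lemma fk_int_half (hREP : S_REP) {Y : ℝ} (hY : 0 < Y) :
    |(∫ t in (0 : ℝ)..Y, fk t) - 1 / 2| ≤ 1 / (9 * Y) := by
  obtain ⟨h1, h2⟩ := hREP 0 0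
  have e0 : (fun v : ℝ => Real.sinc (Real.pi * (v - 0)) * Real.sinc (Real.pi * (v - 0))) = fk := by
    funext v
    unfold fk
    rw [sub_zero, sq]
  rw [e0] at h1 h2
  rw [sub_zero, mul_zero, Real.sinc_zero] at h2
  have h3 : ∫ v, fk v = 2 * ∫ v in Ioi (0 : ℝ), fk v := by
    rw [← integral_comp_abs (f := fk)]
    refine integral_congr_ae (ae_of_all _ fun v => ?_)
    beta_reduce
    rcases abs_choice v with h | h
    · rw [h]
    · rw [h, fk_neg]
  have h4 : (∫ t in (0 : ℝ)..Y, fk t) + ∫ t in Ioi Y, fk t = ∫ t in Ioi (0 : ℝ), fk t :=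
    intervalIntegral.integral_interval_add_Ioi h1.integrableOn h1.integrableOn
  have h5 : 0 ≤ ∫ t in Ioi Y, fk t := setIntegral_nonneg measurableSet_Ioi fun t _ => fk_nonneg t
  have h6 : ∫ t in Ioi Y, fk t ≤ 1 / (9 * Y) := by
    have h7 : ∫ t in Ioi Y, (1 / 9 : ℝ) * t ^ (-2 : ℝ) = 1 / (9 * Y) := by
      rw [integral_const_mul, integral_Ioi_rpow_of_lt (by norm_num) hY]
      rw [show (-2 : ℝ) + 1 = -1 by norm_num, Real.rpow_neg_one]
      field_simp
    rw [← h7]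
    refine setIntegral_mono_on h1.integrableOn
      ((integrableOn_Ioi_rpow_of_lt (by norm_num) hY).const_mul _) measurableSet_Ioi ?_
    intro t ht
    have ht0 : 0 < t := hY.trans ht
    have hπ3 := Real.pi_gt_three
    unfold fk
    rw [Real.sinc_of_ne_zero (by positivity : Real.pi * t ≠ 0), div_pow,
      Real.rpow_neg ht0.le, Real.rpow_two]
    have h8 : Real.sin (Real.pi * t) ^ 2 ≤ 1 := Real.sin_sq_le_one _
    rw [← one_div, div_mul_div_comm, one_mul, div_le_div_iff₀ (by positivity) (by positivity)]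
    have h9 : 9 * t ^ 2 ≤ (Real.pi * t) ^ 2 := by
      rw [mul_pow]
      exact mul_le_mul_of_nonneg_right (by nlinarith) (sq_nonneg t)
    nlinarith [mul_pos ht0 ht0]
  rw [abs_le]
  constructor
  · linarith
  · have h10 : 0 ≤ 1 / (9 * Y) := by positivity
    linarith

lemma sum_two_pow (J : ℕ) : ∑ j ∈ Finset.Icc 1 J, (2 : ℝ) ^ j = 2 ^ (J + 1) - 2 := by
  induction J with
  | zero => norm_num
  | succ J ih =>
    rw [Finset.sum_Icc_succ_top (by omega), ih]
    ring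

lemma ph_int (hREP : S_REP) (q J : ℕ) (hJ : 1 ≤ J) :
    |2 * (∫ t in (0 : ℝ)..2 ^ q * 4 ^ J, ph q J t) - 2 ^ q * cc J| ≤ 2 ^ q := by
  have hJ' : (0 : ℝ) < J := by positivity
  set V : ℝ := 2 ^ q * 4 ^ J with hV
  have h1 : ∀ j ∈ Finset.Icc 1 J, |(∫ t in (0 : ℝ)..V, fk (t / 2 ^ (q + j))) - 2 ^ (q + j) / 2| ≤
      2 ^ q / 2 := by
    intro j hj
    rw [Finset.mem_Icc] at hj
    rw [intervalIntegral.integral_comp_div fk (by positivity), zero_div, smul_eq_mul]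
    have h2 := fk_int_half hREP (Y := V / 2 ^ (q + j)) (by positivity)
    have e1 : (2 : ℝ) ^ (q + j) * (∫ x in (0 : ℝ)..V / 2 ^ (q + j), fk x) - 2 ^ (q + j) / 2 =
        2 ^ (q + j) * ((∫ x in (0 : ℝ)..V / 2 ^ (q + j), fk x) - 1 / 2) := by ring
    rw [e1, abs_mul, abs_of_pos (by positivity : (0 : ℝ) < 2 ^ (q + j))]
    calc (2 : ℝ) ^ (q + j) * |(∫ x in (0 : ℝ)..V / 2 ^ (q + j), fk x) - 1 / 2|
        ≤ 2 ^ (q + j) * (1 / (9 * (V / 2 ^ (q + j)))) :=
          mul_le_mul_of_nonneg_left h2 (by positivity)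
      _ = 2 ^ q * (4 ^ j / 4 ^ J) / 9 := by
          rw [hV, show (4 : ℝ) = 2 * 2 by norm_num, mul_pow, mul_pow, pow_add]
          field_simp
      _ ≤ 2 ^ q * 1 / 9 := by
          have h3 : (4 : ℝ) ^ j / 4 ^ J ≤ 1 :=
            (div_le_one (by positivity)).2 (pow_le_pow_right₀ (by norm_num) hj.2)
          have h4 : (0 : ℝ) < 2 ^ q := by positivity
          nlinarith
      _ ≤ 2 ^ q / 2 := by
          have h4 : (0 : ℝ) < 2 ^ q := by positivity
          linarith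
  have h2 : ∫ t in (0 : ℝ)..V, ph q J t =
      (∑ j ∈ Finset.Icc 1 J, ∫ t in (0 : ℝ)..V, fk (t / 2 ^ (q + j))) / J := by
    unfold ph
    rw [intervalIntegral.integral_div, intervalIntegral.integral_finsetSum
      (f := fun (j : ℕ) (t : ℝ) => fk (t / 2 ^ (q + j)))
      (fun j _ => (fk_cont.comp (continuous_id.div_const _)).intervalIntegrable _ _)]
  have h3 : (2 : ℝ) ^ q * cc J = 2 * ((∑ j ∈ Finset.Icc 1 J, (2 : ℝ) ^ (q + j) / 2) / J) := by
    unfold cc
    rw [← sum_two_pow, ← Finset.sum_div]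
    simp only [pow_add, ← Finset.mul_sum]
    ring
  rw [h2, h3, ← mul_sub, ← sub_div, ← Finset.sum_sub_distrib, abs_mul, abs_div,
    abs_of_pos (by norm_num : (0 : ℝ) < 2), abs_of_pos hJ']
  have h4 : |∑ j ∈ Finset.Icc 1 J,
      ((∫ t in (0 : ℝ)..V, fk (t / 2 ^ (q + j))) - 2 ^ (q + j) / 2)| ≤ J * (2 ^ q / 2) := by
    refine (Finset.abs_sum_le_sum_abs _ _).trans ?_
    calc ∑ j ∈ Finset.Icc 1 J, |(∫ t in (0 : ℝ)..V, fk (t / 2 ^ (q + j))) - 2 ^ (q + j) / 2|
        ≤ ∑ _j ∈ Finset.Icc 1 J, (2 : ℝ) ^ q / 2 := Finset.sum_le_sum h1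
      _ = J * (2 ^ q / 2) := by simp
  calc 2 * (|∑ j ∈ Finset.Icc 1 J,
      ((∫ t in (0 : ℝ)..V, fk (t / 2 ^ (q + j))) - 2 ^ (q + j) / 2)| / J)
      ≤ 2 * (J * (2 ^ q / 2) / J) := by
        apply mul_le_mul_of_nonneg_left _ (by norm_num)
        exact div_le_div_of_nonneg_right h4 hJ'.le
    _ = 2 ^ q := by field_simp

lemma main_term (hREP : S_REP) (q J : ℕ) (hJ : 1 ≤ J) {ρ : ℝ} (h1 : 1 - 1 / 4 ^ J ≤ ρ)
    (h2 : ρ ≤ 1) :
    |2 ^ q * cc J - 2 * ((∫ t in (0 : ℝ)..2 ^ q * 4 ^ J, ph q J t) / ρ)| ≤ 5 * 2 ^ q := by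
  have h3 := ph_int hREP q J hJ
  set I : ℝ := ∫ t in (0 : ℝ)..2 ^ q * 4 ^ J, ph q J t with hI
  have h4J : (4 : ℝ) ≤ 4 ^ J := by
    calc (4 : ℝ) = 4 ^ 1 := by norm_num
      _ ≤ 4 ^ J := pow_le_pow_right₀ (by norm_num) hJ
  have h5 : 1 / (4 : ℝ) ^ J ≤ 1 / 4 := one_div_le_one_div_of_le (by norm_num) h4J
  have hρ : 3 / 4 ≤ ρ := by linarith
  have hρ0 : 0 < ρ := by linarith
  have hJ' : (1 : ℝ) ≤ J := by exact_mod_cast hJ
  have hq : (0 : ℝ) < 2 ^ q := by positivity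
  have hcc : cc J ≤ 2 * 4 ^ J := by
    unfold cc
    rw [div_le_iff₀ (by linarith)]
    have : (2 : ℝ) ^ (J + 1) ≤ 2 * 4 ^ J := by
      rw [pow_succ, mul_comm]
      exact mul_le_mul_of_nonneg_left (pow_le_pow_left₀ (by norm_num) (by norm_num) J) (by norm_num)
    have h6 : 0 ≤ (2 : ℝ) * 4 ^ J := by positivity
    nlinarith
  have hI0 : 0 ≤ I := by
    rw [hI]
    exact intervalIntegral.integral_nonneg (by positivity) fun t _ => ph_nonneg q J t
  have h3' := abs_le.1 h3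
  have hI1 : 2 * I ≤ 2 ^ q * (2 * 4 ^ J) + 2 ^ q := by
    have : (2 : ℝ) ^ q * cc J ≤ 2 ^ q * (2 * 4 ^ J) := mul_le_mul_of_nonneg_left hcc hq.le
    linarith [h3'.2]
  have h7 : 2 * (I / ρ) - 2 * I = 2 * I * ((1 - ρ) / ρ) := by
    field_simp
  have h8 : (1 - ρ) / ρ ≤ 4 / 3 * (1 / 4 ^ J) := by
    rw [div_le_iff₀ hρ0]
    have h9 : 0 ≤ 1 / (4 : ℝ) ^ J := by positivity
    nlinarith
  have h9 : 0 ≤ (1 - ρ) / ρ := div_nonneg (by linarith) hρ0.le
  have h10 : 2 * I * ((1 - ρ) / ρ) ≤ (2 ^ q * (2 * 4 ^ J) + 2 ^ q) * (4 / 3 * (1 / 4 ^ J)) :=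
    mul_le_mul hI1 h8 h9 (by positivity)
  have h11 : (2 ^ q * (2 * 4 ^ J) + 2 ^ q) * (4 / 3 * (1 / (4 : ℝ) ^ J)) ≤ 4 * 2 ^ q := by
    have e : (2 ^ q * (2 * 4 ^ J) + 2 ^ q) * (4 / 3 * (1 / (4 : ℝ) ^ J)) =
        2 ^ q * (8 / 3 + 4 / 3 * (1 / 4 ^ J)) := by
      field_simp
      ring
    rw [e]
    nlinarith
  have h12 : 0 ≤ 2 * I * ((1 - ρ) / ρ) := by positivity
  rw [abs_le]
  constructor <;> linarith [h3'.1, h3'.2]

/-- the positions -/
def S0 (T : ℝ) (n : ℕ) : Finset ℕ := (Finset.Icc 1 (NZ T)).filter (fun l => l ≠ n)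

lemma card_Ws (T : ℝ) (n : ℕ) (S : Set ℝ) (P : ℕ → Prop) [DecidablePred P]
    (h : ∀ l, ps T n l ∈ S ↔ P l) :
    ((Ws T n S).card : ℝ) = ∑ l ∈ S0 T n, if P l then (1 : ℝ) else 0 := by
  classical
  have e : Ws T n S = (S0 T n).filter P := by
    unfold Ws S0
    ext l
    simp only [Finset.mem_filter]
    rw [h l]
    tauto
  rw [e, Finset.sum_ite, Finset.sum_const_zero, add_zero, Finset.sum_const, nsmul_eq_mul, mul_one]

end

end L2D

/-- the error of the counts to the right -/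
noncomputable def Dr (T : ℝ) (n : ℕ) (ρ s t : ℝ) : ℝ :=
  ((Ws T n (Icc (s / ρ) ((s + t) / ρ))).card : ℝ) - t / ρ

/-- the error of the counts to the left -/
noncomputable def Dl (T : ℝ) (n : ℕ) (ρ s t : ℝ) : ℝ :=
  ((Ws T n (Icc ((s - t) / ρ) (s / ρ))).card : ℝ) - t / ρ

open L2D in
/-- DET: the deterministic part of L2 -/
theorem det_L2 (hREP : S_REP) (q : ℕ) : ∃ C : ℝ, 0 < C ∧ ∀ J : ℕ, 1 ≤ J → ∃ w : ℝ → ℝ,
    Continuous w ∧ (∀ t, 0 ≤ w t) ∧ (∫ t in (0 : ℝ)..2 ^ q * 4 ^ J, w t) ≤ C ∧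
    ∀ (T : ℝ) (n : ℕ) (ρ s : ℝ), 1 - 1 / 4 ^ J ≤ ρ → ρ ≤ 1 →
      |2 ^ q * cc J - ∑ l ∈ Finset.Icc 1 (NZ T), gJ q J (ρ * ps T n l - s)| ≤
        C + ((Ws T n (Icc (s / ρ) (s / ρ))).card : ℝ) + |Dr T n ρ s (2 ^ q * 4 ^ J)| +
        |Dl T n ρ s (2 ^ q * 4 ^ J)| +
        (∫ t in (0 : ℝ)..2 ^ q * 4 ^ J, w t * |Dr T n ρ s t|) +
        ∫ t in (0 : ℝ)..2 ^ q * 4 ^ J, w t * |Dl T n ρ s t| := by
  refine ⟨5 * 2 ^ q + 22, by positivity, fun J hJ => ⟨wt q J, wt_cont q J, wt_nonneg q J, ?_, ?_⟩⟩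
  · have h1 := wt_int q J (V := 2 ^ q * 4 ^ J) (by positivity)
    have h2 : (0 : ℝ) < 2 ^ q := by positivity
    linarith
  intro T n ρ s hρ1 hρ2
  set V : ℝ := 2 ^ q * 4 ^ J with hV
  have hV0 : 0 < V := by positivity
  have h4J : (4 : ℝ) ≤ 4 ^ J := by
    calc (4 : ℝ) = 4 ^ 1 := by norm_num
      _ ≤ 4 ^ J := pow_le_pow_right₀ (by norm_num) hJ
  have h5 : 1 / (4 : ℝ) ^ J ≤ 1 / 4 := one_div_le_one_div_of_le (by norm_num) h4J
  have hρ0 : 0 < ρ := by linarith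
  set y : ℕ → ℝ := fun l => ρ * ps T n l - s with hy
  have hab := abel hV0.le hρ0 (ph_cont q J) (fun t ht => ph_deriv q J ht.1) (pd_meas q J)
    (wt_cont q J) (fun t ht => pd_bound q J ht.1) (by
      rw [abs_of_nonneg (ph_nonneg q J V)]
      exact ph_le_one q J V) (S0 T n)
  have hr := hab y
  have hl := hab (fun l => -y l)
  have hDr : ∀ t, (∑ l ∈ S0 T n, if 0 ≤ y l ∧ y l ≤ t then (1 : ℝ) else 0) - t / ρ =
      Dr T n ρ s t := by
    intro t
    unfold Dr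
    rw [card_Ws T n _ (fun l => 0 ≤ y l ∧ y l ≤ t) (fun l => by
      simp only [hy]
      rw [mem_Icc, div_le_iff₀ hρ0, le_div_iff₀ hρ0, mul_comm (ps T n l) ρ]
      constructor
      · rintro ⟨h1, h2⟩
        exact ⟨by linarith, by linarith⟩
      · rintro ⟨h1, h2⟩
        exact ⟨by linarith, by linarith⟩)]
  have hDl : ∀ t, (∑ l ∈ S0 T n, if 0 ≤ -y l ∧ -y l ≤ t then (1 : ℝ) else 0) - t / ρ =
      Dl T n ρ s t := by
    intro t
    unfold Dl
    rw [card_Ws T n _ (fun l => 0 ≤ -y l ∧ -y l ≤ t) (fun l => by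
      simp only [hy]
      rw [mem_Icc, div_le_iff₀ hρ0, le_div_iff₀ hρ0, mul_comm (ps T n l) ρ]
      constructor
      · rintro ⟨h1, h2⟩
        exact ⟨by linarith, by linarith⟩
      · rintro ⟨h1, h2⟩
        exact ⟨by linarith, by linarith⟩)]
  have hZ : ((Ws T n (Icc (s / ρ) (s / ρ))).card : ℝ) =
      ∑ l ∈ S0 T n, if y l = 0 then (1 : ℝ) else 0 := by
    refine card_Ws T n _ (fun l => y l = 0) (fun l => ?_)
    simp only [hy]
    rw [mem_Icc, div_le_iff₀ hρ0, le_div_iff₀ hρ0, mul_comm (ps T n l) ρ]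
    constructor
    · rintro ⟨h1, h2⟩
      linarith
    · intro h
      exact ⟨by linarith, by linarith⟩
  rw [hDr] at hr
  rw [hDl] at hl
  simp only [hDr] at hr
  simp only [hDl] at hl
  -- the sum over `S0`
  have hone : ∀ l, gJ q J (y l) = (if 0 ≤ y l ∧ y l ≤ V then ph q J (y l) else 0) +
      (if 0 ≤ -y l ∧ -y l ≤ V then ph q J (-y l) else 0) - (if y l = 0 then (1 : ℝ) else 0) := by
    intro l
    rw [gJ_eq, ph_neg, ← hV]
    rcases lt_trichotomy (y l) 0 with h | h | h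
    · rw [if_neg (fun hh : 0 ≤ y l ∧ y l ≤ V => absurd h (not_lt.2 hh.1)), if_neg h.ne,
        abs_of_neg h, zero_add, sub_zero]
      by_cases h2 : -y l ≤ V
      · rw [if_pos h2, if_pos ⟨by linarith, h2⟩]
      · rw [if_neg h2, if_neg (fun hh => h2 hh.2)]
    · rw [h]
      simp [hV0.le, ph_zero q J hJ]
    · rw [if_neg (fun hh : 0 ≤ -y l ∧ -y l ≤ V => absurd h (not_lt.2 (by linarith [hh.1]))),
        if_neg h.ne', abs_of_pos h, add_zero, sub_zero]
      by_cases h2 : y l ≤ V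
      · rw [if_pos h2, if_pos ⟨h.le, h2⟩]
      · rw [if_neg h2, if_neg (fun hh => h2 hh.2)]
  have hS0 : ∑ l ∈ S0 T n, gJ q J (y l) =
      (∑ l ∈ S0 T n, if 0 ≤ y l ∧ y l ≤ V then ph q J (y l) else 0) +
      (∑ l ∈ S0 T n, if 0 ≤ -y l ∧ -y l ≤ V then ph q J (-y l) else 0) -
      ∑ l ∈ S0 T n, if y l = 0 then (1 : ℝ) else 0 := by
    rw [← Finset.sum_add_distrib, ← Finset.sum_sub_distrib]
    exact Finset.sum_congr rfl fun l _ => hone l
  have hall : |∑ l ∈ Finset.Icc 1 (NZ T), gJ q J (y l) - ∑ l ∈ S0 T n, gJ q J (y l)| ≤ 1 := by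
    have e1 : ∑ l ∈ Finset.Icc 1 (NZ T), gJ q J (y l) = ∑ l ∈ S0 T n, gJ q J (y l) +
        ∑ l ∈ (Finset.Icc 1 (NZ T)).filter (fun l => ¬ l ≠ n), gJ q J (y l) := by
      unfold S0
      rw [Finset.sum_filter_add_sum_filter_not]
    rw [e1, add_sub_cancel_left]
    have e2 : (Finset.Icc 1 (NZ T)).filter (fun l => ¬ l ≠ n) ⊆ {n} := by
      intro l hl
      rw [Finset.mem_filter] at hl
      rw [Finset.mem_singleton]
      exact not_not.1 hl.2
    refine (Finset.abs_sum_le_sum_abs _ _).trans ?_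
    calc ∑ l ∈ (Finset.Icc 1 (NZ T)).filter (fun l => ¬ l ≠ n), |gJ q J (y l)|
        ≤ ∑ _l ∈ (Finset.Icc 1 (NZ T)).filter (fun l => ¬ l ≠ n), (1 : ℝ) := by
          refine Finset.sum_le_sum fun l _ => ?_
          rw [gJ_eq]
          split_ifs
          · rw [abs_of_nonneg (ph_nonneg q J _)]
            exact ph_le_one q J _
          · simp
      _ = (((Finset.Icc 1 (NZ T)).filter (fun l => ¬ l ≠ n)).card : ℝ) := by simp
      _ ≤ 1 := by
          have := Finset.card_le_card e2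
          rw [Finset.card_singleton] at this
          exact_mod_cast this
  have hmt := main_term hREP q J hJ hρ1 hρ2
  rw [← hV] at hmt
  rw [hZ]
  set Z0 := ∑ l ∈ S0 T n, if y l = 0 then (1 : ℝ) else 0 with hZ0
  have hZ0n : 0 ≤ Z0 := Finset.sum_nonneg fun l _ => by split_ifs <;> norm_num
  set Ar := ∑ l ∈ S0 T n, if 0 ≤ y l ∧ y l ≤ V then ph q J (y l) else 0
  set Al := ∑ l ∈ S0 T n, if 0 ≤ -y l ∧ -y l ≤ V then ph q J (-y l) else 0
  set Sm := ∑ l ∈ Finset.Icc 1 (NZ T), gJ q J (y l)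
  set Ss := ∑ l ∈ S0 T n, gJ q J (y l)
  set I := (∫ t in (0 : ℝ)..V, ph q J t) / ρ
  set IR := ∫ t in (0 : ℝ)..V, wt q J t * |Dr T n ρ s t|
  set IL := ∫ t in (0 : ℝ)..V, wt q J t * |Dl T n ρ s t|
  have hq : (0 : ℝ) < 2 ^ q := by positivity
  rw [abs_le] at hr hl hall hmt ⊢
  constructor <;> linarith [hr.1, hr.2, hl.1, hl.2, hall.1, hall.2, hmt.1, hmt.2]

end Pool.Agent.J4.H44.RG
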