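import Pool.Agent.J4.H44.RG.T_L2D

/-!
# Project HC, piece L2 (helper20): the statistical part
-/

set_option autoImplicit false

open Filter Topology MeasureTheory Set

namespace Pool.Agent.J4.H44.RG

namespace L2S

open L2D

noncomputable section

lemma cs {V : ℝ} (hV : 0 ≤ V) {w D : ℝ → ℝ} {C0 : ℝ} (hC0 : 0 < C0) (hw : ∀ t, 0 ≤ w t)
    (hwc : Continuous w) (hwi : ∫ t in (0 : ℝ)..V, w t ≤ C0)
    (h1 : IntervalIntegrable (fun t => w t * |D t|) volume 0 V)
    (h2 : IntervalIntegrable (fun t => w t * D t ^ 2) volume 0 V) :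
    (∫ t in (0 : ℝ)..V, w t * |D t|) ^ 2 ≤ C0 * ∫ t in (0 : ℝ)..V, w t * D t ^ 2 := by
  set a := ∫ t in (0 : ℝ)..V, w t * |D t| with ha
  set I2 := ∫ t in (0 : ℝ)..V, w t * D t ^ 2 with hI2
  have ha0 : 0 ≤ a := intervalIntegral.integral_nonneg hV fun t _ =>
    mul_nonneg (hw t) (abs_nonneg _)
  set μ := a / C0 with hμ
  have hμ0 : 0 ≤ μ := div_nonneg ha0 hC0.le
  have hwint : IntervalIntegrable w volume 0 V := hwc.intervalIntegrable _ _
  have h3 : ∫ t in (0 : ℝ)..V, 2 * μ * (w t * |D t|) ≤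
      ∫ t in (0 : ℝ)..V, (μ ^ 2 * w t + w t * D t ^ 2) := by
    refine intervalIntegral.integral_mono_on hV (h1.const_mul _)
      ((hwint.const_mul _).add h2) fun t _ => ?_
    have h4 : 0 ≤ w t * (μ - |D t|) ^ 2 := mul_nonneg (hw t) (sq_nonneg _)
    have h5 : |D t| ^ 2 = D t ^ 2 := sq_abs _
    have h6 : w t * (μ - |D t|) ^ 2 = μ ^ 2 * w t + w t * D t ^ 2 - 2 * μ * (w t * |D t|) := by
      rw [← h5]
      ring
    linarith
  rw [intervalIntegral.integral_const_mul, intervalIntegral.integral_add (hwint.const_mul _) h2,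
    intervalIntegral.integral_const_mul] at h3
  have h6 : μ ^ 2 * (∫ t in (0 : ℝ)..V, w t) ≤ μ ^ 2 * C0 :=
    mul_le_mul_of_nonneg_left hwi (sq_nonneg _)
  have h7 : 2 * μ * a ≤ μ ^ 2 * C0 + I2 := by linarith
  have h8 : μ * C0 = a := by rw [hμ]; field_simp
  have h9 : μ * a ≤ I2 := by nlinarith
  calc a ^ 2 = C0 * (μ * a) := by rw [← h8]; ring
    _ ≤ C0 * I2 := mul_le_mul_of_nonneg_left h9 hC0.le

lemma int_D {V ρ : ℝ} {w N : ℝ → ℝ} (hwc : Continuous w) (hN : Monotone N) (hN0 : ∀ t, 0 ≤ N t) :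
    IntervalIntegrable (fun t => w t * |N t - t / ρ|) volume 0 V ∧
    IntervalIntegrable (fun t => w t * (N t - t / ρ) ^ 2) volume 0 V := by
  have hl : Continuous fun t : ℝ => t / ρ := continuous_id.div_const _
  constructor
  · refine IntervalIntegrable.continuousOn_mul ?_ hwc.continuousOn
    exact (hN.intervalIntegrable.sub (hl.intervalIntegrable _ _)).abs
  · refine IntervalIntegrable.continuousOn_mul ?_ hwc.continuousOn
    have h1 : Monotone fun t => N t ^ 2 := fun a b hab =>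
      pow_le_pow_left₀ (hN0 a) (hN hab) 2
    have h2 : IntervalIntegrable (fun t => N t ^ 2) volume 0 V := h1.intervalIntegrable
    have h3 : IntervalIntegrable (fun t => N t * (2 * (t / ρ))) volume 0 V :=
      hN.intervalIntegrable.mul_continuousOn (by fun_prop)
    have h4 : IntervalIntegrable (fun t => (t / ρ) ^ 2) volume 0 V :=
      (hl.pow 2).intervalIntegrable _ _
    refine ((h2.sub h3).add h4).congr fun t _ => ?_
    ring

lemma Ws_mono (T : ℝ) (n : ℕ) {S S' : Set ℝ} (h : S ⊆ S') :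
    ((Ws T n S).card : ℝ) ≤ (Ws T n S').card := by
  classical
  have : Ws T n S ⊆ Ws T n S' := by
    intro l hl
    unfold Ws at hl ⊢
    rw [Finset.mem_filter] at hl ⊢
    exact ⟨hl.1, hl.2.1, h hl.2.2⟩
  exact_mod_cast Finset.card_le_card this

lemma Nr_mono (T : ℝ) (n : ℕ) {ρ : ℝ} (hρ : 0 < ρ) (s : ℝ) :
    Monotone fun t => ((Ws T n (Icc (s / ρ) ((s + t) / ρ))).card : ℝ) := by
  intro a b hab
  refine Ws_mono T n (Icc_subset_Icc_right ?_)
  exact div_le_div_of_nonneg_right (by linarith) hρ.le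

lemma Nl_mono (T : ℝ) (n : ℕ) {ρ : ℝ} (hρ : 0 < ρ) (s : ℝ) :
    Monotone fun t => ((Ws T n (Icc ((s - t) / ρ) (s / ρ))).card : ℝ) := by
  intro a b hab
  refine Ws_mono T n (Icc_subset_Icc_left ?_)
  exact div_le_div_of_nonneg_right (by linarith) hρ.le

/-- the sum of the squares of a weighted integral -/
lemma sum_sq {V : ℝ} (hV : 0 ≤ V) {w : ℝ → ℝ} {C0 : ℝ} (hC0 : 0 < C0) (hw : ∀ t, 0 ≤ w t)
    (hwc : Continuous w) (hwi : ∫ t in (0 : ℝ)..V, w t ≤ C0) (S : Finset ℕ) (D : ℕ → ℝ → ℝ)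
    (h1 : ∀ n, IntervalIntegrable (fun t => w t * |D n t|) volume 0 V)
    (h2 : ∀ n, IntervalIntegrable (fun t => w t * D n t ^ 2) volume 0 V) {B : ℝ} (hB : 0 ≤ B)
    (hD : ∀ t ∈ Icc 0 V, ∑ n ∈ S, D n t ^ 2 ≤ B) :
    ∑ n ∈ S, (∫ t in (0 : ℝ)..V, w t * |D n t|) ^ 2 ≤ C0 * (C0 * B) := by
  calc ∑ n ∈ S, (∫ t in (0 : ℝ)..V, w t * |D n t|) ^ 2
      ≤ ∑ n ∈ S, C0 * ∫ t in (0 : ℝ)..V, w t * D n t ^ 2 :=
        Finset.sum_le_sum fun n _ => cs hV hC0 hw hwc hwi (h1 n) (h2 n)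
    _ = C0 * ∫ t in (0 : ℝ)..V, ∑ n ∈ S, w t * D n t ^ 2 := by
        rw [← Finset.mul_sum, intervalIntegral.integral_finsetSum (fun n _ => h2 n)]
    _ ≤ C0 * ∫ t in (0 : ℝ)..V, w t * B := by
        refine mul_le_mul_of_nonneg_left ?_ hC0.le
        refine intervalIntegral.integral_mono_on hV ?_
          ((hwc.intervalIntegrable _ _).mul_const _) fun t ht => ?_
        · have := IntervalIntegrable.sum S (fun n _ => h2 n)
          refine this.congr fun t _ => ?_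
          rw [Finset.sum_apply]
        · rw [← Finset.mul_sum]
          exact mul_le_mul_of_nonneg_left (hD t ht) (hw t)
    _ ≤ C0 * (C0 * B) := by
        rw [intervalIntegral.integral_mul_const]
        refine mul_le_mul_of_nonneg_left ?_ hC0.le
        exact mul_le_mul_of_nonneg_right hwi hB

lemma bdd_int {f : ℝ → ℝ} (hm : Measurable f) {B : ℝ} (hB : ∀ x, |f x| ≤ B) (a b : ℝ) :
    IntervalIntegrable f volume a b := by
  refine (intervalIntegrable_const (c := B)).mono_fun hm.aestronglyMeasurable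
    (ae_of_all _ fun x => ?_)
  simp only [Real.norm_eq_abs]
  exact (hB x).trans (le_abs_self B)

lemma gJ_meas (q J : ℕ) : Measurable (gJ q J) := by
  have : gJ q J = fun v => if |v| ≤ 2 ^ q * 4 ^ J then ph q J v else 0 := by
    funext v
    exact gJ_eq q J v
  rw [this]
  exact Measurable.ite (measurableSet_le (by fun_prop) measurable_const) (ph_cont q J).measurable
    measurable_const

lemma gJ_abs (q J : ℕ) (v : ℝ) : |gJ q J v| ≤ 1 := by
  rw [gJ_eq]
  split_ifs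
  · rw [abs_of_nonneg (ph_nonneg q J _)]
    exact ph_le_one q J _
  · simp

/-- Jensen over the unit interval -/
lemma jensen (q J : ℕ) (c : ℝ) (S : Finset ℕ) (v : ℕ → ℝ) :
    (c - ∑ l ∈ S, gbar q J (v l)) ^ 2 ≤
      ∫ s in (-(1 / 2 : ℝ))..(1 / 2), (c - ∑ l ∈ S, gJ q J (v l - s)) ^ 2 ∧
    IntervalIntegrable (fun s => (c - ∑ l ∈ S, gJ q J (v l - s)) ^ 2) volume (-(1 / 2 : ℝ))
      (1 / 2) := by
  set e : ℝ → ℝ := fun s => c - ∑ l ∈ S, gJ q J (v l - s) with he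
  have hme : Measurable e := by
    refine measurable_const.sub (Finset.measurable_sum _ fun l _ => ?_)
    exact (gJ_meas q J).comp (measurable_const.sub measurable_id)
  have hbe : ∀ s, |e s| ≤ |c| + S.card := by
    intro s
    refine (abs_sub _ _).trans (add_le_add le_rfl ?_)
    refine (Finset.abs_sum_le_sum_abs _ _).trans ?_
    calc ∑ l ∈ S, |gJ q J (v l - s)| ≤ ∑ _l ∈ S, (1 : ℝ) :=
          Finset.sum_le_sum fun l _ => gJ_abs q J _
      _ = S.card := by simp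
  have hi1 : IntervalIntegrable e volume (-(1 / 2 : ℝ)) (1 / 2) := bdd_int hme hbe _ _
  have hi2 : IntervalIntegrable (fun s => e s ^ 2) volume (-(1 / 2 : ℝ)) (1 / 2) := by
    refine bdd_int (hme.pow_const 2) (B := (|c| + S.card) ^ 2) (fun s => ?_) _ _
    rw [abs_pow]
    exact pow_le_pow_left₀ (abs_nonneg _) (hbe s) 2
  refine ⟨?_, hi2⟩
  have h1 : c - ∑ l ∈ S, gbar q J (v l) = ∫ s in (-(1 / 2 : ℝ))..(1 / 2), e s := by
    simp only [he]
    rw [intervalIntegral.integral_sub intervalIntegrable_const (by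
      have := IntervalIntegrable.sum (μ := volume) (a := -(1 / 2 : ℝ)) (b := 1 / 2) S
        (f := fun l s => gJ q J (v l - s)) (fun l _ =>
        bdd_int ((gJ_meas q J).comp (measurable_const.sub measurable_id)) (B := 1)
          (fun s => gJ_abs q J _) _ _)
      refine this.congr fun t _ => ?_
      rw [Finset.sum_apply]), intervalIntegral.integral_finsetSum
        (f := fun (l : ℕ) (s : ℝ) => gJ q J (v l - s)) (fun l _ =>
        bdd_int ((gJ_meas q J).comp (measurable_const.sub measurable_id)) (B := 1)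
          (fun s => gJ_abs q J _) _ _)]
    rw [intervalIntegral.integral_const]
    unfold gbar
    norm_num
  rw [h1]
  set m := ∫ s in (-(1 / 2 : ℝ))..(1 / 2), e s with hm
  have h2 : 0 ≤ ∫ s in (-(1 / 2 : ℝ))..(1 / 2), (e s - m) ^ 2 :=
    intervalIntegral.integral_nonneg (by norm_num) fun s _ => sq_nonneg _
  have h3 : ∫ s in (-(1 / 2 : ℝ))..(1 / 2), (e s - m) ^ 2 =
      (∫ s in (-(1 / 2 : ℝ))..(1 / 2), e s ^ 2) - 2 * m * m + m ^ 2 := by
    have e1 : ∀ s, (e s - m) ^ 2 = e s ^ 2 - 2 * m * e s + m ^ 2 := fun s => by ring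
    simp only [e1]
    rw [intervalIntegral.integral_add (hi2.sub (hi1.const_mul _)) intervalIntegrable_const,
      intervalIntegral.integral_sub hi2 (hi1.const_mul _), intervalIntegral.integral_const_mul,
      intervalIntegral.integral_const, ← hm, smul_eq_mul]
    ring
  rw [h3] at h2
  nlinarith

end

end L2S

open L2S in
/-- L2: the mean square of the statistic seen from the zeros -/
theorem t_L2' (hREP : S_REP) (hMOMD : S_MOMD) (hNZ : S_NZ) : S_L2 := by
  intro hRH q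
  obtain ⟨C0, hC0, hdet⟩ := det_L2 hREP q
  obtain ⟨C1, hC1, hmom⟩ := hMOMD hRH
  obtain ⟨⟨C2, hC2, hcnt⟩, -⟩ := hNZ
  refine ⟨6 * (C0 ^ 2 * C2 + (3 + 2 * C0 ^ 2) * C1 * (5 + q)), by positivity, fun J hJ => ?_⟩
  obtain ⟨w, hwc, hw0, hwi, hmain⟩ := hdet J hJ
  set V : ℝ := 2 ^ q * 4 ^ J with hV
  have hV0 : 0 < V := by positivity
  have hJ1 : (1 : ℝ) ≤ J := by exact_mod_cast hJ
  set L : ℝ := 2 * V + 2 with hL
  have hL1 : 1 ≤ L := by rw [hL]; linarith
  have hlogL : 1 + Real.log L ≤ (5 + q) * J := by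
    have h1 : L ≤ 2 ^ (2 + q + 2 * J) := by
      rw [hL, hV, pow_add, pow_add, pow_mul]
      have h2 : (1 : ℝ) ≤ 2 ^ q * 4 ^ J := by
        have a1 : (1 : ℝ) ≤ 2 ^ q := one_le_pow₀ (by norm_num)
        have a2 : (1 : ℝ) ≤ 4 ^ J := one_le_pow₀ (by norm_num)
        nlinarith
      have h3 : (2 : ℝ) ^ 2 = 4 := by norm_num
      rw [h3]
      nlinarith
    have h2 : Real.log L ≤ (2 + q + 2 * J) * Real.log 2 := by
      have := Real.log_le_log (by linarith) h1
      rw [Real.log_pow] at this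
      push_cast at this
      exact this
    have h3 : Real.log 2 ≤ 1 := by
      have := Real.log_two_lt_d9
      linarith
    have h4 : ((2 : ℝ) + q + 2 * J) * Real.log 2 ≤ (2 + q + 2 * J) * 1 :=
      mul_le_mul_of_nonneg_left h3 (by positivity)
    have hq : (0 : ℝ) ≤ q := by positivity
    nlinarith
  filter_upwards [hmom L hL1, hcnt, eventually_ge_atTop (1 : ℝ)] with T hT hT2 hT1 ρ hρ1 hρ2
  have hTl : 0 ≤ T * Real.log T := mul_nonneg (by linarith) (Real.log_nonneg hT1)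
  have h4J : (4 : ℝ) ≤ 4 ^ J := by
    calc (4 : ℝ) = 4 ^ 1 := by norm_num
      _ ≤ 4 ^ J := pow_le_pow_right₀ (by norm_num) hJ
  have h5 : 1 / (4 : ℝ) ^ J ≤ 1 / 4 := one_div_le_one_div_of_le (by norm_num) h4J
  have hρ3 : 3 / 4 ≤ ρ := by linarith
  have hρ0 : 0 < ρ := by linarith
  set B2 : ℝ := C1 * (1 + Real.log L) * (T * Real.log T) with hB2
  have hlogL0 : 0 ≤ Real.log L := Real.log_nonneg hL1
  have hB20 : 0 ≤ B2 := by positivity
  -- the bound for one `s`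
  have hone : ∀ s ∈ Icc (-(1 / 2 : ℝ)) (1 / 2), ∑ n ∈ Finset.Icc 1 (NZ T),
      (2 ^ q * cc J - ∑ l ∈ Finset.Icc 1 (NZ T), gJ q J (ρ * ps T n l - s)) ^ 2 ≤
      6 * (C0 ^ 2 * (C2 * (T * Real.log T)) + B2 + B2 + B2 + C0 * (C0 * B2) + C0 * (C0 * B2)) := by
    intro s hs
    have hsL : ∀ t ∈ Icc (-V) V, |(s + t) / ρ| ≤ L := by
      intro t ht
      rw [abs_div, abs_of_pos hρ0, div_le_iff₀ hρ0]
      have : |s + t| ≤ 1 / 2 + V := by
        rw [abs_le]
        constructor <;> linarith [hs.1, hs.2, ht.1, ht.2]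
      refine this.trans ?_
      have h6 : L * (3 / 4) ≤ L * ρ := mul_le_mul_of_nonneg_left hρ3 (by linarith)
      have h7 : 1 / 2 + V ≤ L * (3 / 4) := by rw [hL]; linarith
      linarith
    have hs0 : |s / ρ| ≤ L := by
      have := hsL 0 ⟨by linarith, hV0.le⟩
      rwa [add_zero] at this
    have hDr : ∀ t ∈ Icc 0 V, ∑ n ∈ Finset.Icc 1 (NZ T), Dr T n ρ s t ^ 2 ≤ B2 := by
      intro t ht
      have h6 := hT (s / ρ) ((s + t) / ρ) hs0 (hsL t ⟨by linarith [ht.1], ht.2⟩)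
        (div_le_div_of_nonneg_right (by linarith [ht.1]) hρ0.le)
      refine le_trans (le_of_eq ?_) h6
      refine Finset.sum_congr rfl fun n _ => ?_
      unfold Dr
      congr 2
      ring
    have hDl : ∀ t ∈ Icc 0 V, ∑ n ∈ Finset.Icc 1 (NZ T), Dl T n ρ s t ^ 2 ≤ B2 := by
      intro t ht
      have h7 := hsL (-t) ⟨by linarith [ht.2], by linarith [ht.1]⟩
      rw [← sub_eq_add_neg] at h7
      have h6 := hT ((s - t) / ρ) (s / ρ) h7 hs0
        (div_le_div_of_nonneg_right (by linarith [ht.1]) hρ0.le)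
      refine le_trans (le_of_eq ?_) h6
      refine Finset.sum_congr rfl fun n _ => ?_
      unfold Dl
      congr 2
      ring
    have hZ : ∑ n ∈ Finset.Icc 1 (NZ T), ((Ws T n (Icc (s / ρ) (s / ρ))).card : ℝ) ^ 2 ≤ B2 := by
      have h6 := hT (s / ρ) (s / ρ) hs0 hs0 le_rfl
      simpa using h6
    have hIr := sum_sq hV0.le hC0 hw0 hwc hwi (Finset.Icc 1 (NZ T)) (fun n t => Dr T n ρ s t)
      (fun n => (int_D hwc (Nr_mono T n hρ0 s) (fun t => by positivity)).1)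
      (fun n => (int_D hwc (Nr_mono T n hρ0 s) (fun t => by positivity)).2) hB20 hDr
    have hIl := sum_sq hV0.le hC0 hw0 hwc hwi (Finset.Icc 1 (NZ T)) (fun n t => Dl T n ρ s t)
      (fun n => (int_D hwc (Nl_mono T n hρ0 s) (fun t => by positivity)).1)
      (fun n => (int_D hwc (Nl_mono T n hρ0 s) (fun t => by positivity)).2) hB20 hDl
    have hC : ∑ _n ∈ Finset.Icc 1 (NZ T), C0 ^ 2 ≤ C0 ^ 2 * (C2 * (T * Real.log T)) := by
      rw [Finset.sum_const, Nat.card_Icc, nsmul_eq_mul, Nat.add_sub_cancel, mul_comm]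
      exact mul_le_mul_of_nonneg_left hT2 (by positivity)
    calc ∑ n ∈ Finset.Icc 1 (NZ T),
        (2 ^ q * cc J - ∑ l ∈ Finset.Icc 1 (NZ T), gJ q J (ρ * ps T n l - s)) ^ 2
        ≤ ∑ n ∈ Finset.Icc 1 (NZ T), 6 * (C0 ^ 2 + ((Ws T n (Icc (s / ρ) (s / ρ))).card : ℝ) ^ 2 +
          Dr T n ρ s V ^ 2 + Dl T n ρ s V ^ 2 +
          (∫ t in (0 : ℝ)..V, w t * |Dr T n ρ s t|) ^ 2 +
          (∫ t in (0 : ℝ)..V, w t * |Dl T n ρ s t|) ^ 2) := by
          refine Finset.sum_le_sum fun n _ => ?_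
          have h6 := hmain T n ρ s hρ1 hρ2
          set z := ((Ws T n (Icc (s / ρ) (s / ρ))).card : ℝ)
          set dr := Dr T n ρ s V
          set dl := Dl T n ρ s V
          set ir := ∫ t in (0 : ℝ)..V, w t * |Dr T n ρ s t|
          set il := ∫ t in (0 : ℝ)..V, w t * |Dl T n ρ s t|
          have h7 : (2 ^ q * cc J - ∑ l ∈ Finset.Icc 1 (NZ T), gJ q J (ρ * ps T n l - s)) ^ 2 ≤
              (C0 + z + |dr| + |dl| + ir + il) ^ 2 := by
            rw [← sq_abs (2 ^ q * cc J - _)]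
            exact pow_le_pow_left₀ (abs_nonneg _) h6 2
          refine h7.trans ?_
          have h8 : |dr| ^ 2 = dr ^ 2 := sq_abs _
          have h9 : |dl| ^ 2 = dl ^ 2 := sq_abs _
          nlinarith [sq_nonneg (C0 - z), sq_nonneg (C0 - |dr|), sq_nonneg (C0 - |dl|),
            sq_nonneg (C0 - ir), sq_nonneg (C0 - il), sq_nonneg (z - |dr|), sq_nonneg (z - |dl|),
            sq_nonneg (z - ir), sq_nonneg (z - il), sq_nonneg (|dr| - |dl|),
            sq_nonneg (|dr| - ir), sq_nonneg (|dr| - il), sq_nonneg (|dl| - ir),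
            sq_nonneg (|dl| - il), sq_nonneg (ir - il)]
      _ = 6 * ((∑ _n ∈ Finset.Icc 1 (NZ T), C0 ^ 2) +
          (∑ n ∈ Finset.Icc 1 (NZ T), ((Ws T n (Icc (s / ρ) (s / ρ))).card : ℝ) ^ 2) +
          (∑ n ∈ Finset.Icc 1 (NZ T), Dr T n ρ s V ^ 2) +
          (∑ n ∈ Finset.Icc 1 (NZ T), Dl T n ρ s V ^ 2) +
          (∑ n ∈ Finset.Icc 1 (NZ T), (∫ t in (0 : ℝ)..V, w t * |Dr T n ρ s t|) ^ 2) +
          ∑ n ∈ Finset.Icc 1 (NZ T), (∫ t in (0 : ℝ)..V, w t * |Dl T n ρ s t|) ^ 2) := by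
          rw [← Finset.mul_sum]
          simp only [Finset.sum_add_distrib]
      _ ≤ _ := by
          have h6 := hDr V ⟨hV0.le, le_rfl⟩
          have h7 := hDl V ⟨hV0.le, le_rfl⟩
          linarith
  -- the average over `s`
  have hj := fun n => jensen q J (2 ^ q * cc J) (Finset.Icc 1 (NZ T)) (fun l => ρ * ps T n l)
  set BB : ℝ := 6 * (C0 ^ 2 * (C2 * (T * Real.log T)) + B2 + B2 + B2 + C0 * (C0 * B2) +
    C0 * (C0 * B2)) with hBB
  have hfin : ∑ n ∈ Finset.Icc 1 (NZ T),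
      (2 ^ q * cc J - ∑ l ∈ Finset.Icc 1 (NZ T), gbar q J (ρ * ps T n l)) ^ 2 ≤ BB := by
    calc ∑ n ∈ Finset.Icc 1 (NZ T),
        (2 ^ q * cc J - ∑ l ∈ Finset.Icc 1 (NZ T), gbar q J (ρ * ps T n l)) ^ 2
        ≤ ∑ n ∈ Finset.Icc 1 (NZ T), ∫ s in (-(1 / 2 : ℝ))..(1 / 2),
          (2 ^ q * cc J - ∑ l ∈ Finset.Icc 1 (NZ T), gJ q J (ρ * ps T n l - s)) ^ 2 :=
          Finset.sum_le_sum fun n _ => (hj n).1
      _ = ∫ s in (-(1 / 2 : ℝ))..(1 / 2), ∑ n ∈ Finset.Icc 1 (NZ T),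
          (2 ^ q * cc J - ∑ l ∈ Finset.Icc 1 (NZ T), gJ q J (ρ * ps T n l - s)) ^ 2 := by
          rw [intervalIntegral.integral_finsetSum (fun n _ => (hj n).2)]
      _ ≤ ∫ _s in (-(1 / 2 : ℝ))..(1 / 2), BB := by
          refine intervalIntegral.integral_mono_on (by norm_num) ?_ intervalIntegrable_const hone
          have := IntervalIntegrable.sum (Finset.Icc 1 (NZ T)) (fun n _ => (hj n).2)
          refine this.congr fun t _ => ?_
          rw [Finset.sum_apply]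
      _ = BB := by
          rw [intervalIntegral.integral_const]
          norm_num
  refine hfin.trans ?_
  have hB2' : B2 ≤ C1 * ((5 + q) * J) * (T * Real.log T) := by
    rw [hB2]
    refine mul_le_mul_of_nonneg_right ?_ hTl
    exact mul_le_mul_of_nonneg_left hlogL hC1.le
  have h6 : C0 ^ 2 * (C2 * (T * Real.log T)) ≤ C0 ^ 2 * C2 * J * (T * Real.log T) := by
    have : 0 ≤ C0 ^ 2 * C2 * (T * Real.log T) := by positivity
    nlinarith
  rw [hBB]
  have h7 : (3 + 2 * C0 ^ 2) * B2 ≤ (3 + 2 * C0 ^ 2) * (C1 * ((5 + q) * J) * (T * Real.log T)) :=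
    mul_le_mul_of_nonneg_left hB2' (by positivity)
  calc 6 * (C0 ^ 2 * (C2 * (T * Real.log T)) + B2 + B2 + B2 + C0 * (C0 * B2) + C0 * (C0 * B2))
      = 6 * (C0 ^ 2 * (C2 * (T * Real.log T)) + (3 + 2 * C0 ^ 2) * B2) := by ring
    _ ≤ 6 * (C0 ^ 2 * C2 * J * (T * Real.log T) +
        (3 + 2 * C0 ^ 2) * (C1 * ((5 + q) * J) * (T * Real.log T))) := by linarith
    _ = 6 * (C0 ^ 2 * C2 + (3 + 2 * C0 ^ 2) * C1 * (5 + q)) * J * (T * Real.log T) := by ring

end Pool.Agent.J4.H44.RG
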