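import Pool.Agent.J4.H44.RG.LocDefs

/-! # Project HC, piece LOL (second copy) -/

set_option autoImplicit false
set_option linter.all false

open Filter Topology MeasureTheory Set

namespace Pool.Agent.J4.H44.RG

theorem t_LOLb (h1 : S_DEC) (h2 : S_SUP) : S_LOL := by
  intro m δ hδ hL x y hxy ε hε
  obtain ⟨K, a, b, hab, hoff, hdis, hJ⟩ := h1 m δ (ε / 2) x y hδ (by positivity) hxy
  have h3 : ∀ᶠ T : ℝ in atTop, ∀ k : Fin K, J (a k) (b k) - ε / (2 * (K + 1)) ≤
      ratio T (a k) (b k) := by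
    refine eventually_all.2 fun k => ?_
    exact hL (a k) (b k) (fun i => ⟨(hab k i).2.1, (hab k i).2.2.2⟩) (hoff k) _ (by positivity)
  filter_upwards [h3, eventually_ge_atTop (2 : ℝ)] with T hT hT2
  have h4 := h2 m T x y K a b hT2 (fun k i => ⟨(hab k i).1, (hab k i).2.2.1⟩) hdis
  have hpos : 0 < T / (2 * Real.pi) * Real.log T := by
    have := Real.pi_pos
    have := Real.log_pos (show (1 : ℝ) < T by linarith)
    positivity
  have h5 : ∑ k, ratio T (a k) (b k) ≤ ratio T x y := by
    unfold ratio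
    rw [← Finset.sum_div]
    apply div_le_div_of_nonneg_right _ hpos.le
    exact_mod_cast h4
  have h6 : ∑ k : Fin K, (J (a k) (b k) - ε / (2 * (K + 1))) ≤ ∑ k, ratio T (a k) (b k) :=
    Finset.sum_le_sum fun k _ => hT k
  rw [Finset.sum_sub_distrib, Finset.sum_const, Finset.card_univ, Fintype.card_fin,
    nsmul_eq_mul] at h6
  have h7 : (K : ℝ) * (ε / (2 * (K + 1))) ≤ ε / 2 := by
    rw [show (K : ℝ) * (ε / (2 * (K + 1))) = ε / 2 * (K / (K + 1)) by field_simp]
    have : (K : ℝ) / (K + 1) ≤ 1 := by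
      rw [div_le_one (by positivity)]
      linarith
    nlinarith
  linarith

end Pool.Agent.J4.H44.RG
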