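import Pool.Agent.J4.H44.RG.T_NSP0
import Pool.Agent.J4.H44.RG.T_LIB

/-!
# Project HC, local version, piece NSP: the counts are subadditive
-/

set_option autoImplicit false

namespace Pool.Agent.J4.H44.RG

theorem t_NSP : S_NSP := nsp_of t_NZ

end Pool.Agent.J4.H44.RG
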