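import Pool.Agent.J4.H44.RG.LocDefs

/-!
# Project HC, local version, piece NSP: the counts are subadditive
-/

set_option autoImplicit false

open Filter Topology MeasureTheory Set

namespace Pool.Agent.J4.H44.RG

namespace NspAux

/-- the tuples of a box -/
def tp {m : ℕ} (T : ℝ) (x y : Fin m → ℝ) : Set (Option (Fin m) → ℕ) :=
  {j : Option (Fin m) → ℕ | Function.Injective j ∧ (∀ i, 1 ≤ j i ∧ γ (j i) ≤ T) ∧
    ∀ i : Fin m, (γ (j (some i)) - γ (j none)) * (Real.log T / (2 * Real.pi)) ∈
      Set.Icc (x i) (y i)}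

theorem N_eq {m : ℕ} (T : ℝ) (x y : Fin m → ℝ) : N T x y = (tp T x y).ncard := rfl

theorem tp_finite (h : S_NZ) {m : ℕ} {T : ℝ} (hT : 0 ≤ T) (x y : Fin m → ℝ) :
    (tp T x y).Finite := by
  have h4 := h.2.2.2.1
  refine Set.Finite.subset (Set.Finite.pi' (t := fun _ : Option (Fin m) => Set.Icc 1 (NZ T))
    (fun _ => Set.finite_Icc _ _)) ?_
  rintro j ⟨-, hj, -⟩ i
  exact ⟨(hj i).1, (h4 (j i) (hj i).1 T hT).1 (hj i).2⟩

end NspAux

open NspAux in
theorem nsp_of (h : S_NZ) : S_NSP := by
  intro m T x y i c hT hxc hcy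
  have hT0 : 0 ≤ T := by linarith
  rw [N_eq, N_eq, N_eq]
  have hsub : tp T x y ⊆ tp T x (Function.update y i c) ∪ tp T (Function.update x i c) y := by
    rintro j ⟨h1, h2, h3⟩
    rcases le_total ((γ (j (some i)) - γ (j none)) * (Real.log T / (2 * Real.pi))) c with hc | hc
    · left
      refine ⟨h1, h2, fun k => ⟨(h3 k).1, ?_⟩⟩
      by_cases hk : k = i
      · subst hk
        rw [Function.update_self]
        exact hc
      · rw [Function.update_of_ne hk]
        exact (h3 k).2
    · right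
      refine ⟨h1, h2, fun k => ⟨?_, (h3 k).2⟩⟩
      by_cases hk : k = i
      · subst hk
        rw [Function.update_self]
        exact hc
      · rw [Function.update_of_ne hk]
        exact (h3 k).1
  calc (tp T x y).ncard ≤ (tp T x (Function.update y i c) ∪ tp T (Function.update x i c) y).ncard :=
        Set.ncard_le_ncard hsub ((tp_finite h hT0 _ _).union (tp_finite h hT0 _ _))
    _ ≤ _ := Set.ncard_union_le _ _

end Pool.Agent.J4.H44.RG
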