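import Pool.Agent.J4.H44.RG.LocDefs

/-! # Project HC, piece NSP: the counts are subadditive (and superadditive) -/

set_option autoImplicit false
set_option linter.all false

open Filter Topology MeasureTheory Set

namespace Pool.Agent.J4.H44.RG

namespace NSPb

/-- the tuples in a box -/
def Tp {ι : Type} (T : ℝ) (x y : ι → ℝ) : Set (Option ι → ℕ) :=
  {j : Option ι → ℕ | Function.Injective j ∧ (∀ i, 1 ≤ j i ∧ γ (j i) ≤ T) ∧
    ∀ i : ι, (γ (j (some i)) - γ (j none)) * (Real.log T / (2 * Real.pi)) ∈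
      Set.Icc (x i) (y i)}

theorem N_eq {ι : Type} (T : ℝ) (x y : ι → ℝ) : N T x y = (Tp T x y).ncard := rfl

theorem finite (hN : S_NZ) {m : ℕ} {T : ℝ} (hT : 2 ≤ T) (x y : Fin m → ℝ) : (Tp T x y).Finite := by
  have h1 : {f : Option (Fin m) → ℕ | ∀ i, f i ∈ Set.Icc 1 (NZ T)}.Finite :=
    Set.Finite.pi' fun _ => Set.finite_Icc _ _
  refine h1.subset ?_
  rintro j ⟨-, hj, -⟩ i
  obtain ⟨-, -, -, h2, -⟩ := hN
  exact ⟨(hj i).1, (h2 (j i) (hj i).1 T (by linarith)).1 (hj i).2⟩

end NSPb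

theorem t_NSPb (hN : S_NZ) : S_NSP := by
  intro m T x y i c hT hxc hcy
  rw [NSPb.N_eq, NSPb.N_eq, NSPb.N_eq]
  refine (Set.ncard_le_ncard ?_ ((NSPb.finite hN hT _ _).union (NSPb.finite hN hT _ _))).trans
    (Set.ncard_union_le _ _)
  rintro j ⟨hinj, hj, hbox⟩
  rcases le_total ((γ (j (some i)) - γ (j none)) * (Real.log T / (2 * Real.pi))) c with h | h
  · refine Or.inl ⟨hinj, hj, fun l => ?_⟩
    by_cases hl : l = i
    · subst hl
      rw [Function.update_self]
      exact ⟨(hbox l).1, h⟩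
    · rw [Function.update_of_ne hl]
      exact hbox l
  · refine Or.inr ⟨hinj, hj, fun l => ?_⟩
    by_cases hl : l = i
    · subst hl
      rw [Function.update_self]
      exact ⟨h, (hbox l).2⟩
    · rw [Function.update_of_ne hl]
      exact hbox l

end Pool.Agent.J4.H44.RG
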