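import Pool.Agent.J4.H44.RG.ScrDefs

/-! # Project HC, piece SCR (helper29): the sum rule (perfect screening) for the tuples of zeros -/

set_option autoImplicit false
set_option linter.all false

open Filter Topology MeasureTheory Set

namespace Pool.Agent.J4.H44.RG

namespace SCRb

/-- the tuples with base `n` -/
noncomputable def injF {m : ℕ} (T : ℝ) (x y : Fin m → ℝ) (n : ℕ) : Finset (Fin m → ℕ) := by
  classical
  exact (Fintype.piFinset (fun i => Ws T n (Icc (x i) (y i)))).filter Function.Injective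

lemma mem_injF {m : ℕ} {T : ℝ} {x y : Fin m → ℝ} {n : ℕ} {L : Fin m → ℕ} :
    L ∈ injF T x y n ↔ Function.Injective L ∧ ∀ i, L i ∈ Ws T n (Icc (x i) (y i)) := by
  classical
  unfold injF
  rw [Finset.mem_filter, Fintype.mem_piFinset]
  tauto

lemma mem_Ws' {T : ℝ} {n l : ℕ} {S : Set ℝ} : l ∈ Ws T n S ↔
    l ∈ Finset.Icc 1 (NZ T) ∧ l ≠ n ∧ ps T n l ∈ S := by
  classical
  unfold Ws
  rw [Finset.mem_filter]

lemma tup_eq' {m : ℕ} (T : ℝ) (x y : Fin m → ℝ) (n : ℕ) : tup T x y n = (injF T x y n).card := by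
  unfold tup
  rw [← Set.ncard_coe_finset]
  congr 1
  ext L
  rw [Finset.mem_coe, mem_injF]
  rfl

/-- the tuple with the base `n` and the others `L` -/
def join {m : ℕ} (p : (_ : ℕ) × (Fin m → ℕ)) (o : Option (Fin m)) : ℕ := o.elim p.1 p.2

lemma join_inj {m : ℕ} : Function.Injective (join (m := m)) := by
  rintro ⟨n, L⟩ ⟨n', L'⟩ h
  have h1 : n = n' := congrFun h none
  have h2 : L = L' := by
    funext i
    exact congrFun h (some i)
  subst h1 h2
  rfl

lemma tuples_eq {m : ℕ} {T : ℝ} (hT : 0 ≤ T) (x y : Fin m → ℝ)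
    (hγ : ∀ n : ℕ, 1 ≤ n → ∀ t : ℝ, 0 ≤ t → (γ n ≤ t ↔ n ≤ NZ t)) :
    tuples T x y = join '' (((Finset.Icc 1 (NZ T)).sigma (injF T x y) :
      Finset ((_ : ℕ) × (Fin m → ℕ))) : Set ((_ : ℕ) × (Fin m → ℕ))) := by
  ext j
  simp only [tuples, Set.mem_setOf_eq, Set.mem_image, Finset.mem_coe, Finset.mem_sigma]
  constructor
  · rintro ⟨h1, h2, h3⟩
    refine ⟨⟨j none, fun i => j (some i)⟩, ⟨?_, ?_⟩, ?_⟩
    · rw [Finset.mem_Icc]
      exact ⟨(h2 none).1, (hγ _ (h2 none).1 T hT).1 (h2 none).2⟩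
    · rw [mem_injF]
      refine ⟨fun a b hab => Option.some_injective _ (h1 hab), fun i => ?_⟩
      rw [mem_Ws', Finset.mem_Icc]
      refine ⟨⟨(h2 _).1, (hγ _ (h2 _).1 T hT).1 (h2 _).2⟩, ?_, h3 i⟩
      intro h
      exact Option.some_ne_none i (h1 h)
    · funext o
      cases o <;> rfl
  · rintro ⟨⟨n, L⟩, ⟨h1, h2⟩, rfl⟩
    rw [mem_injF] at h2
    obtain ⟨h2, h3⟩ := h2
    have h3' : ∀ i, L i ∈ Finset.Icc 1 (NZ T) ∧ L i ≠ n ∧ ps T n (L i) ∈ Icc (x i) (y i) :=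
      fun i => mem_Ws'.1 (h3 i)
    refine ⟨?_, ?_, ?_⟩
    · intro a b hab
      cases a with
      | none =>
        cases b with
        | none => rfl
        | some b => exact absurd hab.symm (h3' b).2.1
      | some a =>
        cases b with
        | none => exact absurd hab (h3' a).2.1
        | some b => exact congrArg some (h2 hab)
    · intro o
      cases o with
      | none =>
        have h1 : n ∈ Finset.Icc 1 (NZ T) := h1
        rw [Finset.mem_Icc] at h1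
        exact ⟨h1.1, (hγ _ h1.1 T hT).2 h1.2⟩
      | some i =>
        have h4 := (h3' i).1
        rw [Finset.mem_Icc] at h4
        exact ⟨h4.1, (hγ _ h4.1 T hT).2 h4.2⟩
    · intro i
      exact (h3' i).2.2

lemma inner_eq {m : ℕ} {T : ℝ} (hT : 0 ≤ T)
    (hγ : ∀ n : ℕ, 1 ≤ n → ∀ t : ℝ, 0 ≤ t → (γ n ≤ t ↔ n ≤ NZ t)) (G : ℝ → ℝ) (n : ℕ)
    (L : Fin m → ℕ) : (∑ᶠ l ∈ {l : ℕ | 1 ≤ l ∧ γ l ≤ T ∧ ∀ i, l ≠ join ⟨n, L⟩ i},
      G ((γ l - γ (join ⟨n, L⟩ none)) * (Real.log T / (2 * Real.pi)))) =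
      ∑ l ∈ Finset.Icc 1 (NZ T) \ insert n (Finset.univ.image L), G (ps T n l) := by
  classical
  have h : {l : ℕ | 1 ≤ l ∧ γ l ≤ T ∧ ∀ i, l ≠ join ⟨n, L⟩ i} =
      ((Finset.Icc 1 (NZ T) \ insert n (Finset.univ.image L) : Finset ℕ) : Set ℕ) := by
    ext l
    simp only [Set.mem_setOf_eq, Finset.coe_sdiff, Set.mem_diff, Finset.mem_coe, Finset.mem_Icc,
      Finset.mem_insert, Finset.mem_image, Finset.mem_univ, true_and, not_or, not_exists]
    constructor
    · rintro ⟨h1, h2, h3⟩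
      exact ⟨⟨h1, (hγ _ h1 T hT).1 h2⟩, h3 none, fun i h => h3 (some i) h.symm⟩
    · rintro ⟨⟨h1, h2⟩, h3, h4⟩
      refine ⟨h1, (hγ _ h1 T hT).2 h2, fun o => ?_⟩
      cases o with
      | none => exact h3
      | some i => exact fun h => h4 i h.symm
  rw [h, finsum_mem_coe_finset]
  rfl

lemma further_eq {m : ℕ} {T : ℝ} (hT : 0 ≤ T) (x y : Fin m → ℝ)
    (hγ : ∀ n : ℕ, 1 ≤ n → ∀ t : ℝ, 0 ≤ t → (γ n ≤ t ↔ n ≤ NZ t)) (G : ℝ → ℝ) :
    further T x y G = ∑ n ∈ Finset.Icc 1 (NZ T), ∑ L ∈ injF T x y n,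
      ∑ l ∈ Finset.Icc 1 (NZ T) \ insert n (Finset.univ.image L), G (ps T n l) := by
  classical
  unfold further
  rw [tuples_eq hT x y hγ, finsum_mem_image join_inj.injOn, finsum_mem_coe_finset,
    Finset.sum_sigma]
  refine Finset.sum_congr rfl fun n _ => Finset.sum_congr rfl fun L _ => ?_
  exact inner_eq hT hγ G n L

/-- one tuple -/
lemma one {m : ℕ} {x y : Fin m → ℝ} {T δ r : ℝ} {G : ℝ → ℝ} {n : ℕ}
    (hn : n ∈ Finset.Icc 1 (NZ T)) (hr : ∀ v, |v| ≤ r → 1 - δ ≤ G v) (hG1 : ∀ v, G v ≤ 1)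
    (h0 : 0 ≤ r) (hx : ∀ i, -r ≤ x i) (hy : ∀ i, y i ≤ r) (L : Fin m → ℕ)
    (hL : L ∈ injF T x y n) :
    |(∑ l ∈ Finset.Icc 1 (NZ T) \ insert n (Finset.univ.image L), G (ps T n l)) -
      ((∑ l ∈ Finset.Icc 1 (NZ T), G (ps T n l)) - (m + 1))| ≤ (m + 1) * δ := by
  classical
  rw [mem_injF] at hL
  obtain ⟨hL1, hL2⟩ := hL
  have hL3 : ∀ i, L i ∈ Finset.Icc 1 (NZ T) ∧ L i ≠ n ∧ ps T n (L i) ∈ Icc (x i) (y i) :=
    fun i => mem_Ws'.1 (hL2 i)
  have hsub : insert n (Finset.univ.image L) ⊆ Finset.Icc 1 (NZ T) := by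
    intro l hl
    rw [Finset.mem_insert, Finset.mem_image] at hl
    rcases hl with rfl | ⟨i, _, rfl⟩
    · exact hn
    · exact (hL3 i).1
  have hcard : (insert n (Finset.univ.image L)).card = m + 1 := by
    rw [Finset.card_insert_of_notMem, Finset.card_image_of_injective _ hL1, Finset.card_univ,
      Fintype.card_fin]
    rw [Finset.mem_image]
    rintro ⟨i, _, hi⟩
    exact (hL3 i).2.1 hi
  rw [← Finset.sum_sdiff hsub]
  have e1 : ((m : ℝ) + 1) = ∑ _l ∈ insert n (Finset.univ.image L), (1 : ℝ) := by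
    rw [Finset.sum_const, hcard, nsmul_eq_mul]
    push_cast
    ring
  have e2 : ∑ l ∈ insert n (Finset.univ.image L), G (ps T n l) ≤ (m : ℝ) + 1 := by
    rw [e1]
    exact Finset.sum_le_sum fun l _ => hG1 _
  have e3 : ((m : ℝ) + 1) * (1 - δ) ≤ ∑ l ∈ insert n (Finset.univ.image L), G (ps T n l) := by
    rw [e1, Finset.sum_mul]
    refine Finset.sum_le_sum fun l hl => ?_
    rw [one_mul]
    refine hr _ ?_
    rw [Finset.mem_insert, Finset.mem_image] at hl
    rcases hl with rfl | ⟨i, _, rfl⟩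
    · have : ps T l l = 0 := by
        unfold ps
        rw [sub_self, zero_mul]
      rw [this, abs_zero]
      exact h0
    · have h1 := (hL3 i).2.2
      rw [abs_le]
      exact ⟨(hx i).trans h1.1, h1.2.trans (hy i)⟩
  rw [abs_le]
  constructor <;> nlinarith

lemma tup_le {m : ℕ} {T R : ℝ} {x y : Fin m → ℝ} (hx : ∀ i, -R ≤ x i) (hy : ∀ i, y i ≤ R)
    (n : ℕ) : (tup T x y n : ℝ) ≤ ((Ws T n (Icc (-R) R)).card : ℝ) ^ m := by
  classical
  rw [tup_eq']
  have h1 : injF T x y n ⊆ Fintype.piFinset (fun _ : Fin m => Ws T n (Icc (-R) R)) := by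
    intro L hL
    rw [mem_injF] at hL
    rw [Fintype.mem_piFinset]
    intro i
    have h2 := mem_Ws'.1 (hL.2 i)
    rw [mem_Ws']
    exact ⟨h2.1, h2.2.1, (hx i).trans h2.2.2.1, h2.2.2.2.trans (hy i)⟩
  have h3 := Finset.card_le_card h1
  rw [Fintype.card_piFinset, Finset.prod_const, Finset.card_univ, Fintype.card_fin] at h3
  exact_mod_cast h3

end SCRb

open SCRb in
theorem t_SCRb (h1 : S_Z) (h2 : S_CNT) (h3 : S_NZ) (h4 : S_MOMK) : S_SCR := by
  classical
  intro hRH m x y ε hε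
  obtain ⟨-, -, -, hγ, -, -⟩ := h3
  have hpi := Real.pi_pos
  obtain ⟨R, hRdef⟩ : ∃ R : ℝ, R = 1 + ∑ i, (|x i| + |y i|) := ⟨_, rfl⟩
  have hsum : ∀ i, |x i| + |y i| ≤ ∑ i, (|x i| + |y i|) := fun i =>
    Finset.single_le_sum (f := fun i => |x i| + |y i|) (fun j _ => by positivity)
      (Finset.mem_univ i)
  have hR1 : 1 ≤ R := by
    have : 0 ≤ ∑ i, (|x i| + |y i|) := Finset.sum_nonneg fun i _ => by positivity
    rw [hRdef]
    linarith
  have hxR : ∀ i, -R ≤ x i := fun i => by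
    have h5 := hsum i
    have h6 := neg_abs_le (x i)
    have h7 := abs_nonneg (y i)
    rw [hRdef]
    linarith
  have hyR : ∀ i, y i ≤ R := fun i => by
    have h5 := hsum i
    have h6 := le_abs_self (y i)
    have h7 := abs_nonneg (x i)
    rw [hRdef]
    linarith
  obtain ⟨C, hC, hM⟩ := h4 hRH m R hR1
  have hK : 0 < 2 * Real.pi * (1 + (m + 1) * C) := by positivity
  obtain ⟨δ, hδdef⟩ : ∃ δ : ℝ, δ = min (min ε (1 / R)) (ε / (2 * Real.pi * (1 + (m + 1) * C))) :=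
    ⟨_, rfl⟩
  have hR0 : 0 < R := by linarith
  have hδ : 0 < δ := by
    rw [hδdef]
    exact lt_min (lt_min hε (by positivity)) (by positivity)
  have hδε : δ ≤ ε := by
    rw [hδdef]
    exact (min_le_left _ _).trans (min_le_left _ _)
  have hδR : δ ≤ 1 / R := by
    rw [hδdef]
    exact (min_le_left _ _).trans (min_le_right _ _)
  have hδK : δ * (2 * Real.pi * (1 + (m + 1) * C)) ≤ ε := by
    have : δ ≤ ε / (2 * Real.pi * (1 + (m + 1) * C)) := by
      rw [hδdef]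
      exact min_le_right _ _
    rwa [le_div_iff₀ hK] at this
  have hRδ : R ≤ 1 / δ := by
    rw [le_div_iff₀ hδ]
    rw [le_div_iff₀ hR0] at hδR
    linarith
  obtain ⟨G, R', hG, hZ⟩ := h1 hRH m x y δ hδ
  refine ⟨G, hG.cont, ?_, fun v => ⟨hG.nonneg v, hG.le_one v⟩, ?_, ?_⟩
  · refine HasCompactSupport.intro (isCompact_Icc : IsCompact (Icc (-R') R')) fun v hv => ?_
    refine hG.supp v ?_
    by_contra hcon
    push Not at hcon
    rw [abs_le] at hcon
    exact hv hcon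
  · intro v hv
    have h5 : 1 / ε ≤ 1 / δ := one_div_le_one_div_of_le hδ hδε
    have h6 := hG.flat v (hv.trans h5)
    linarith
  · filter_upwards [hZ, hM, eventually_gt_atTop 1] with T hZT hMT hT1
    have hT0 : 0 ≤ T := by linarith
    have hl := Real.log_pos hT1
    have hTl : 0 < T * Real.log T := by positivity
    have hsumtup : ∑ n ∈ Finset.Icc 1 (NZ T), (tup T x y n : ℝ) ≤ C * (T * Real.log T) :=
      (Finset.sum_le_sum fun n _ => tup_le hxR hyR n).trans hMT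
    have hN : ((N T x y : ℕ) : ℝ) = ∑ n ∈ Finset.Icc 1 (NZ T), (tup T x y n : ℝ) := by
      rw [h2 m T x y hT0]
      push_cast
      rfl
    have h5 : |further T x y G - ∑ n ∈ Finset.Icc 1 (NZ T), (tup T x y n : ℝ) *
        ((∑ l ∈ Finset.Icc 1 (NZ T), G (ps T n l)) - (m + 1))| ≤
        ∑ n ∈ Finset.Icc 1 (NZ T), (tup T x y n : ℝ) * ((m + 1) * δ) := by
      rw [further_eq hT0 x y hγ G, ← Finset.sum_sub_distrib]
      refine (Finset.abs_sum_le_sum_abs _ _).trans (Finset.sum_le_sum fun n hn => ?_)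
      have e : (tup T x y n : ℝ) * ((∑ l ∈ Finset.Icc 1 (NZ T), G (ps T n l)) - (m + 1)) =
          ∑ _L ∈ injF T x y n, ((∑ l ∈ Finset.Icc 1 (NZ T), G (ps T n l)) - (m + 1)) := by
        rw [Finset.sum_const, nsmul_eq_mul, tup_eq']
      have e' : (tup T x y n : ℝ) * ((m + 1) * δ) = ∑ _L ∈ injF T x y n, (((m : ℝ) + 1) * δ) := by
        rw [Finset.sum_const, nsmul_eq_mul, tup_eq']
      rw [e, e', ← Finset.sum_sub_distrib]
      refine (Finset.abs_sum_le_sum_abs _ _).trans (Finset.sum_le_sum fun L hL => ?_)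
      exact one hn hG.flat hG.le_one (by positivity) (fun i => (neg_le_neg hRδ).trans (hxR i))
        (fun i => (hyR i).trans hRδ) L hL
    rw [← Finset.sum_mul] at h5
    have h6 : further T x y G - ((∫ v, G v) - (m + 1)) * N T x y =
        (further T x y G - ∑ n ∈ Finset.Icc 1 (NZ T), (tup T x y n : ℝ) *
          ((∑ l ∈ Finset.Icc 1 (NZ T), G (ps T n l)) - (m + 1))) -
        ∑ n ∈ Finset.Icc 1 (NZ T), (tup T x y n : ℝ) *
          ((∫ v, G v) - ∑ l ∈ Finset.Icc 1 (NZ T), G (ps T n l)) := by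
      rw [hN, Finset.mul_sum, sub_sub, ← Finset.sum_add_distrib]
      congr 1
      refine Finset.sum_congr rfl fun n _ => ?_
      ring
    rw [h6]
    refine (abs_sub _ _).trans ?_
    have h7 : (∑ n ∈ Finset.Icc 1 (NZ T), (tup T x y n : ℝ)) * ((m + 1) * δ) ≤
        C * (T * Real.log T) * ((m + 1) * δ) :=
      mul_le_mul_of_nonneg_right hsumtup (by positivity)
    have h8 : ε * (T / (2 * Real.pi) * Real.log T) = ε / (2 * Real.pi) * (T * Real.log T) := by
      field_simp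
    have h9 : δ * (1 + (m + 1) * C) ≤ ε / (2 * Real.pi) := by
      rw [le_div_iff₀ (by positivity)]
      linarith
    have h10 := mul_le_mul_of_nonneg_right h9 hTl.le
    rw [h8]
    nlinarith

end Pool.Agent.J4.H44.RG
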