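import Pool.Agent.J4.H44.RG.T_SUPa
import Pool.Agent.J4.H44.RG.T_LIB

/-! # Project HC, local version: piece SUP -/

set_option autoImplicit false

namespace Pool.Agent.J4.H44.RG

theorem t_SUP : S_SUP := t_SUP_of t_NZ

end Pool.Agent.J4.H44.RG
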