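import Pool.Agent.J4.H44.RG.LocDefs

/-! # Project HC, local version: pieces SUP (input NZ) and LOL (inputs DEC, SUP) -/

set_option autoImplicit false
set_option linter.all false

open Filter Topology MeasureTheory Set

namespace Pool.Agent.J4.H44.RG

/-- the tuples counted by `N` -/
def SUP.tupS (m : ℕ) (T : ℝ) (x y : Fin m → ℝ) : Set (Option (Fin m) → ℕ) :=
  {j : Option (Fin m) → ℕ | Function.Injective j ∧ (∀ i, 1 ≤ j i ∧ γ (j i) ≤ T) ∧
    ∀ i : Fin m, (γ (j (some i)) - γ (j none)) * (Real.log T / (2 * Real.pi)) ∈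
      Set.Icc (x i) (y i)}

lemma SUP.fin (hNZ : S_NZ) (m : ℕ) (T : ℝ) (x y : Fin m → ℝ) (hT : 2 ≤ T) :
    (SUP.tupS m T x y).Finite := by
  have h4 := hNZ.2.2.2.1
  refine Set.Finite.subset (Set.Finite.pi' (ι := Option (Fin m))
    (t := fun _ => Set.Icc 1 (NZ T)) (fun _ => Set.finite_Icc _ _)) ?_
  intro j hj i
  have h := hj.2.1 i
  exact ⟨h.1, (h4 (j i) h.1 T (by linarith)).1 h.2⟩

theorem t_SUP_of (hNZ : S_NZ) : S_SUP := by
  classical
  intro m T x y K a b hT hab hdis
  have hfin := fun x y => SUP.fin hNZ m T x y hT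
  have hN : ∀ x y, N T x y = (hfin x y).toFinset.card := fun x y =>
    Set.ncard_eq_toFinset_card _ (hfin x y)
  rw [hN x y, Finset.sum_congr rfl (fun k _ => hN (a k) (b k)), ← Finset.card_biUnion]
  · apply Finset.card_le_card
    intro j hj
    simp only [Finset.mem_biUnion, Finset.mem_univ, true_and, Set.Finite.mem_toFinset] at hj ⊢
    obtain ⟨k, h1, h2, h3⟩ := hj
    exact ⟨h1, h2, fun i => ⟨(hab k i).1.trans (h3 i).1, (h3 i).2.trans (hab k i).2⟩⟩
  · intro k _ l _ hkl
    show Disjoint _ _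
    rw [Finset.disjoint_left]
    intro j hj hj'
    rw [Set.Finite.mem_toFinset] at hj hj'
    have := hdis k l hkl
    rw [Set.disjoint_left] at this
    exact this (a := fun i => (γ (j (some i)) - γ (j none)) * (Real.log T / (2 * Real.pi)))
      ⟨fun i => (hj.2.2 i).1, fun i => (hj.2.2 i).2⟩
      ⟨fun i => (hj'.2.2 i).1, fun i => (hj'.2.2 i).2⟩

theorem t_LOL (h1 : S_DEC) (h2 : S_SUP) : S_LOL := by
  intro m δ hδ hloc x y hxy ε hε
  obtain ⟨K, a, b, hab, hoff, hdis, hJ⟩ := h1 m δ (ε / 2) x y hδ (by linarith) hxy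
  have hK : (0 : ℝ) < 2 * (K + 1) := by positivity
  have hev : ∀ᶠ T : ℝ in atTop, ∀ k : Fin K, J (a k) (b k) - ε / (2 * (K + 1)) ≤ ratio T (a k) (b k) := by
    rw [eventually_all]
    intro k
    exact hloc (a k) (b k) (fun i => ⟨(hab k i).2.1, (hab k i).2.2.2⟩) (hoff k) _ (by positivity)
  filter_upwards [hev, eventually_ge_atTop (2 : ℝ)] with T hT hT2
  have hD : 0 < T / (2 * Real.pi) * Real.log T := by
    have : 0 < Real.log T := Real.log_pos (by linarith)
    positivity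
  have h3 := h2 m T x y K a b hT2 (fun k i => ⟨(hab k i).1, (hab k i).2.2.1⟩) hdis
  have h4 : ∑ k, ratio T (a k) (b k) ≤ ratio T x y := by
    unfold ratio
    rw [← Finset.sum_div]
    apply div_le_div_of_nonneg_right _ hD.le
    exact_mod_cast h3
  have h5 : ∑ k, (J (a k) (b k) - ε / (2 * (K + 1))) ≤ ∑ k, ratio T (a k) (b k) :=
    Finset.sum_le_sum (fun k _ => hT k)
  rw [Finset.sum_sub_distrib] at h5
  simp only [Finset.sum_const, Finset.card_univ, Fintype.card_fin, nsmul_eq_mul] at h5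
  have h6 : (K : ℝ) * (ε / (2 * (K + 1))) ≤ ε / 2 := by
    rw [mul_div_assoc', div_le_div_iff₀ hK (by norm_num)]
    nlinarith
  linarith

end Pool.Agent.J4.H44.RG
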