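import Pool.Agent.J4.H44.RG.Defs

set_option autoImplicit false
set_option linter.all false

open Filter Topology MeasureTheory Set

namespace Pool.Agent.J4.H44.RG

namespace Zb

lemma mem_Ws {T : ℝ} {n l : ℕ} {S : Set ℝ} :
    l ∈ Ws T n S ↔ l ∈ Finset.Icc 1 (NZ T) ∧ l ≠ n ∧ ps T n l ∈ S := by
  classical
  unfold Ws
  rw [Finset.mem_filter]

lemma Ws_mono {T : ℝ} {n : ℕ} {S S' : Set ℝ} (h : S ⊆ S') : Ws T n S ⊆ Ws T n S' := by
  classical
  unfold Ws
  intro l hl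
  rw [Finset.mem_filter] at hl ⊢
  exact ⟨hl.1, hl.2.1, h hl.2.2⟩

lemma tup_le {m : ℕ} (T : ℝ) (x y : Fin m → ℝ) (n : ℕ) (R : ℝ) (hx : ∀ i, -R ≤ x i)
    (hy : ∀ i, y i ≤ R) : tup T x y n ≤ (Ws T n (Icc (-R) R)).card ^ m := by
  classical
  unfold tup
  have h : {l : Fin m → ℕ | Function.Injective l ∧ ∀ i, l i ∈ Ws T n (Icc (x i) (y i))} ⊆
      ((Fintype.piFinset fun _ : Fin m => Ws T n (Icc (-R) R) : Finset (Fin m → ℕ)) :
        Set (Fin m → ℕ)) := by
    rintro l ⟨-, hl⟩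
    rw [Finset.mem_coe, Fintype.mem_piFinset]
    intro i
    exact Ws_mono (Icc_subset_Icc (hx i) (hy i)) (hl i)
  refine (ncard_le_ncard h (Finset.finite_toSet _)).trans ?_
  rw [ncard_coe_finset, Fintype.card_piFinset]
  simp

/-- the tail, one term -/
lemma term {J : ℝ} (hJ : 0 < J) (t e : ℝ) :
    |t * e| ≤ 1 / 4 * J ^ 5 + 1 / (4 * J) * t ^ 4 + 1 / (2 * J ^ 2) * e ^ 2 := by
  have h1 : |t * e| ≤ 1 / 2 * (J ^ 2 * t ^ 2 + 1 / J ^ 2 * e ^ 2) := by
    have h : 0 ≤ (J * |t| - 1 / J * |e|) ^ 2 := sq_nonneg _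
    have h2 : (J * |t| - 1 / J * |e|) ^ 2 = J ^ 2 * t ^ 2 + 1 / J ^ 2 * e ^ 2 -
        2 * (|t| * |e|) := by
      rw [sub_sq, mul_pow, mul_pow, sq_abs, sq_abs]
      field_simp
      ring
    rw [h2] at h
    rw [abs_mul]
    linarith
  have h3 : J ^ 2 * t ^ 2 ≤ 1 / 2 * (J ^ 5 + 1 / J * t ^ 4) := by
    have h : 0 ≤ (J ^ 3 - t ^ 2) ^ 2 := sq_nonneg _
    have h4 : J ^ 2 * t ^ 2 * (2 * J) ≤ (J ^ 5 + 1 / J * t ^ 4) * J := by
      have : (J ^ 5 + 1 / J * t ^ 4) * J = J ^ 6 + t ^ 4 := by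
        field_simp
      rw [this]
      nlinarith
    have h5 : J ^ 2 * t ^ 2 * 2 ≤ J ^ 5 + 1 / J * t ^ 4 := by
      by_contra hc
      push Not at hc
      nlinarith
    linarith
  calc |t * e| ≤ 1 / 2 * (J ^ 2 * t ^ 2 + 1 / J ^ 2 * e ^ 2) := h1
    _ ≤ 1 / 2 * (1 / 2 * (J ^ 5 + 1 / J * t ^ 4) + 1 / J ^ 2 * e ^ 2) := by linarith
    _ = _ := by
      field_simp
      ring

/-- the choice of the parameter -/
lemma choice (CB CG Cm CN C4 C2 F ε : ℝ) (hε : 0 < ε) : ∃ J : ℕ, 1 ≤ J ∧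
    CG * F / J ≤ ε ∧
    CB * (2 * (J : ℝ) ^ (-(1 / 4 : ℝ)) + J * (J : ℝ) ^ (-(3 / 2 : ℝ))) + CG / J * Cm +
      1 / 2 * CN * ((J : ℝ) ^ 5 / 2 ^ J) + 1 / (4 * J) * C4 +
      1 / (2 * (J : ℝ) ^ 2) * (2 * (C2 * J) + 2 * (CG / J) ^ 2 * CN) ≤ ε / 2 := by
  have t1 : Tendsto (fun J : ℕ => (J : ℝ) ^ (-(1 / 4 : ℝ))) atTop (𝓝 0) :=
    (tendsto_rpow_neg_atTop (by norm_num)).comp tendsto_natCast_atTop_atTop
  have t2 : Tendsto (fun J : ℕ => (J : ℝ) * (J : ℝ) ^ (-(3 / 2 : ℝ))) atTop (𝓝 0) := by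
    have h : Tendsto (fun J : ℕ => (J : ℝ) ^ (-(1 / 2 : ℝ))) atTop (𝓝 0) :=
      (tendsto_rpow_neg_atTop (by norm_num)).comp tendsto_natCast_atTop_atTop
    refine h.congr' ?_
    filter_upwards [eventually_gt_atTop 0] with J hJ
    have hJ' : (0 : ℝ) < J := by exact_mod_cast hJ
    rw [show (-(1 / 2) : ℝ) = 1 + -(3 / 2) by norm_num, Real.rpow_add hJ', Real.rpow_one]
  have t3 : Tendsto (fun J : ℕ => 1 / (J : ℝ)) atTop (𝓝 0) := tendsto_one_div_atTop_nhds_zero_nat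
  have t4 : Tendsto (fun J : ℕ => (J : ℝ) ^ 5 / 2 ^ J) atTop (𝓝 0) :=
    tendsto_pow_const_div_const_pow_of_one_lt 5 (by norm_num)
  have T : Tendsto (fun J : ℕ => CB * (2 * (J : ℝ) ^ (-(1 / 4 : ℝ)) +
      J * (J : ℝ) ^ (-(3 / 2 : ℝ))) + CG * (1 / J) * Cm +
      1 / 2 * CN * ((J : ℝ) ^ 5 / 2 ^ J) + 1 / 4 * (1 / (J : ℝ)) * C4 +
      (C2 * (1 / J) + CG ^ 2 * CN * (1 / (J : ℝ)) ^ 4)) atTop (𝓝 (CB * (2 * 0 + 0) +
        CG * 0 * Cm + 1 / 2 * CN * 0 + 1 / 4 * 0 * C4 + (C2 * 0 + CG ^ 2 * CN * 0 ^ 4))) :=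
    ((((((t1.const_mul 2).add t2).const_mul CB).add ((t3.const_mul CG).mul_const Cm)).add
      (t4.const_mul (1 / 2 * CN))).add ((t3.const_mul (1 / 4)).mul_const C4)).add
      ((t3.const_mul C2).add ((t3.pow 4).const_mul (CG ^ 2 * CN)))
  have T2 : Tendsto (fun J : ℕ => CG * F * (1 / (J : ℝ))) atTop (𝓝 (CG * F * 0)) :=
    t3.const_mul _
  have z : CB * (2 * 0 + 0) + CG * 0 * Cm + 1 / 2 * CN * 0 + 1 / 4 * 0 * C4 +
      (C2 * 0 + CG ^ 2 * CN * 0 ^ 4) = 0 := by ring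
  rw [z] at T
  rw [mul_zero] at T2
  have e1 := T.eventually (gt_mem_nhds (show (0 : ℝ) < ε / 2 by positivity))
  have e2 := T2.eventually (gt_mem_nhds hε)
  obtain ⟨J, hJ1, hJ2, hJ3⟩ := (e1.and (e2.and (eventually_ge_atTop 1))).exists
  refine ⟨J, hJ3, ?_, ?_⟩
  · rw [div_eq_mul_one_div]
    exact hJ2.le
  · have hJ' : (0 : ℝ) < J := by exact_mod_cast hJ3
    refine le_trans (le_of_eq ?_) hJ1.le
    have a1 : CG / J = CG * (1 / (J : ℝ)) := by rw [div_eq_mul_one_div]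
    have a2 : 1 / (4 * (J : ℝ)) = 1 / 4 * (1 / (J : ℝ)) := by field_simp
    have a3 : 1 / (2 * (J : ℝ) ^ 2) * (2 * (C2 * J) + 2 * (CG / J) ^ 2 * CN) =
        C2 * (1 / J) + CG ^ 2 * CN * (1 / (J : ℝ)) ^ 4 := by
      field_simp
    rw [a3, a1, a2]

/-- the indices outside the blocks -/
lemma outside (hN : S_NZ) (T : ℝ) (J : ℕ) (hT : 0 ≤ T) (hTJ : 1 ≤ T / 2 ^ J) (c : ℝ)
    (hc : ∀ t : ℝ, 0 ≤ t → t ≤ 2 * T → (NZ (t + 2) : ℝ) - NZ t ≤ c) :
    (((Finset.Icc 1 (NZ T)) \ (Finset.range J).biUnion (blk T)).card : ℝ) ≤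
      NZ (T / 2 ^ J) + (J + 1) * c := by
  classical
  obtain ⟨-, -, hmono, hγ, -, hγ0⟩ := hN
  have hTi : ∀ i ≤ J, 1 ≤ T / 2 ^ i := by
    intro i hi
    refine hTJ.trans ?_
    exact div_le_div_of_nonneg_left hT (by positivity) (pow_le_pow_right₀ (by norm_num) hi)
  have hTi' : ∀ i : ℕ, T / 2 ^ i ≤ T := by
    intro i
    exact div_le_self hT (one_le_pow₀ (by norm_num))
  have hsub : (Finset.Icc 1 (NZ T)) \ (Finset.range J).biUnion (blk T) ⊆
      Finset.Icc 1 (NZ (T / 2 ^ J)) ∪ (Finset.range (J + 1)).biUnion fun i =>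
        Finset.Ioc (NZ (T / 2 ^ i - 1)) (NZ (T / 2 ^ i + 1)) := by
    intro n hn
    rw [Finset.mem_sdiff, Finset.mem_Icc] at hn
    obtain ⟨⟨hn1, hn2⟩, hn3⟩ := hn
    by_contra hcon
    rw [Finset.mem_union, not_or] at hcon
    obtain ⟨hc1, hc2⟩ := hcon
    have hnT : γ n ≤ T := (hγ n hn1 T hT).2 hn2
    have hbig : T / 2 ^ J < γ n := by
      by_contra h
      push Not at h
      exact hc1 (Finset.mem_Icc.2 ⟨hn1, (hγ n hn1 _ (by positivity)).1 h⟩)
    have hex : ∀ j : ℕ, T / 2 ^ j < γ n → ∃ i < j, T / 2 ^ (i + 1) < γ n ∧ γ n ≤ T / 2 ^ i := by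
      intro j
      induction j with
      | zero =>
        intro h
        rw [pow_zero, div_one] at h
        linarith
      | succ j ih =>
        intro h
        by_cases h2 : T / 2 ^ j < γ n
        · obtain ⟨i, hi, h3⟩ := ih h2
          exact ⟨i, by omega, h3⟩
        · exact ⟨j, by omega, h, not_lt.1 h2⟩
    obtain ⟨i, hiJ, h1, h2⟩ := hex J hbig
    have hnear : ∀ j ≤ J, ¬ (T / 2 ^ j - 1 < γ n ∧ γ n ≤ T / 2 ^ j + 1) := by
      rintro j hj ⟨h3, h4⟩
      apply hc2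
      rw [Finset.mem_biUnion]
      refine ⟨j, Finset.mem_range.2 (by omega), ?_⟩
      rw [Finset.mem_Ioc]
      refine ⟨?_, (hγ n hn1 _ (by positivity)).1 h4⟩
      by_contra h5
      push Not at h5
      have := (hγ n hn1 (T / 2 ^ j - 1) (by linarith [hTi j hj])).2 h5
      linarith
    apply hn3
    rw [Finset.mem_biUnion]
    refine ⟨i, Finset.mem_range.2 hiJ, ?_⟩
    unfold blk
    rw [Finset.mem_filter, Finset.mem_Icc]
    refine ⟨⟨hn1, hn2⟩, ?_, ?_⟩
    · have h3 := hnear (i + 1) (by omega)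
      by_contra h4
      push Not at h4
      exact h3 ⟨by linarith, h4⟩
    · have h3 := hnear i (by omega)
      by_contra h4
      push Not at h4
      exact h3 ⟨h4, by linarith⟩
  have h1 := (Finset.card_le_card hsub).trans ((Finset.card_union_le _ _).trans
    (Nat.add_le_add_left Finset.card_biUnion_le _))
  have h2 : (((Finset.Icc 1 (NZ T)) \ (Finset.range J).biUnion (blk T)).card : ℝ) ≤
      (Finset.Icc 1 (NZ (T / 2 ^ J))).card + ∑ i ∈ Finset.range (J + 1),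
        ((Finset.Ioc (NZ (T / 2 ^ i - 1)) (NZ (T / 2 ^ i + 1))).card : ℝ) := by
    exact_mod_cast h1
  refine h2.trans (add_le_add ?_ ?_)
  · rw [Nat.card_Icc, Nat.add_sub_cancel]
  · calc ∑ i ∈ Finset.range (J + 1),
        ((Finset.Ioc (NZ (T / 2 ^ i - 1)) (NZ (T / 2 ^ i + 1))).card : ℝ)
        ≤ ∑ i ∈ Finset.range (J + 1), c := by
          apply Finset.sum_le_sum
          intro i hi
          rw [Finset.mem_range] at hi
          have h3 := hTi i (by omega)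
          have h4 := hTi' i
          have h5 := hc (T / 2 ^ i - 1) (by linarith) (by linarith)
          rw [show T / 2 ^ i - 1 + 2 = T / 2 ^ i + 1 by ring] at h5
          rw [Nat.card_Ioc, Nat.cast_sub (hmono (by linarith))]
          exact h5
      _ = (J + 1) * c := by
          rw [Finset.sum_const, Finset.card_range, nsmul_eq_mul]
          push_cast
          ring

/-- change of the scale in one bracket -/
lemma rescale {G : ℝ → ℝ} {K R T T' : ℝ} {n : ℕ} {D : ℝ} (hK : 0 ≤ K)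
    (hlip : ∀ v w, |G v - G w| ≤ K * |v - w|) (hsupp : ∀ v, R < |v| → G v = 0)
    (hsc : 0 < sc T) (h1 : sc T / 2 ≤ sc T') (h2 : sc T' ≤ sc T)
    (hD : 2 * R * (sc T - sc T') ≤ D * sc T) (hR : 0 ≤ R) :
    |∑ l ∈ Finset.Icc 1 (NZ T), G (ps T n l) -
      ∑ l ∈ Finset.Icc 1 (NZ T), G ((γ l - γ n) * sc T')| ≤
      K * D * (Ws T n (Icc (-(2 * R)) (2 * R))).card := by
  classical
  rw [← Finset.sum_sub_distrib]
  refine (Finset.abs_sum_le_sum_abs _ _).trans ?_
  have hD0 : 0 ≤ D := by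
    have : 0 ≤ D * sc T := le_trans (mul_nonneg (by positivity) (by linarith)) hD
    exact nonneg_of_mul_nonneg_left this hsc
  have key : ∀ l ∈ Finset.Icc 1 (NZ T), |G (ps T n l) - G ((γ l - γ n) * sc T')| ≤
      if l ∈ Ws T n (Icc (-(2 * R)) (2 * R)) then K * D else 0 := by
    intro l hl
    split_ifs with hw
    · refine (hlip _ _).trans ?_
      refine mul_le_mul_of_nonneg_left ?_ hK
      rw [mem_Ws] at hw
      have h3 : |ps T n l| ≤ 2 * R := abs_le.2 hw.2.2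
      have h4 : ps T n l - (γ l - γ n) * sc T' = ps T n l * ((sc T - sc T') / sc T) := by
        unfold ps
        field_simp
      rw [h4, abs_mul, abs_of_nonneg (div_nonneg (by linarith) hsc.le)]
      calc |ps T n l| * ((sc T - sc T') / sc T) ≤ 2 * R * ((sc T - sc T') / sc T) :=
            mul_le_mul_of_nonneg_right h3 (div_nonneg (by linarith) hsc.le)
        _ = 2 * R * (sc T - sc T') / sc T := by ring
        _ ≤ D := by
            rw [div_le_iff₀ hsc]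
            exact hD
    · by_cases hln : l = n
      · subst hln
        unfold ps
        simp
      · have h3 : 2 * R < |ps T n l| := by
          by_contra hc
          push Not at hc
          apply hw
          rw [mem_Ws]
          exact ⟨hl, hln, abs_le.1 hc⟩
        have h4 : R < |(γ l - γ n) * sc T'| := by
          have h5 : |(γ l - γ n) * sc T'| = |γ l - γ n| * sc T' := by
            rw [abs_mul, abs_of_nonneg (by linarith : 0 ≤ sc T')]
          have h6 : |ps T n l| = |γ l - γ n| * sc T := by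
            unfold ps
            rw [abs_mul, abs_of_pos hsc]
          rw [h6] at h3
          rw [h5]
          have h7 : |γ l - γ n| * (sc T / 2) ≤ |γ l - γ n| * sc T' :=
            mul_le_mul_of_nonneg_left h1 (abs_nonneg _)
          linarith
        rw [hsupp _ (by linarith : R < |ps T n l|), hsupp _ h4]
        simp
  refine (Finset.sum_le_sum key).trans ?_
  rw [← Finset.sum_filter, Finset.sum_const, nsmul_eq_mul, mul_comm]
  refine mul_le_mul_of_nonneg_left ?_ (mul_nonneg hK hD0)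
  exact_mod_cast Finset.card_le_card fun l hl => (Finset.mem_filter.1 hl).2

lemma blk_disj {T : ℝ} (hT : 0 ≤ T) {i j : ℕ} (hij : i ≠ j) : Disjoint (blk T i) (blk T j) := by
  classical
  have key : ∀ i j : ℕ, i < j → ∀ n, n ∈ blk T i → n ∈ blk T j → False := by
    intro i j hij n h1 h2
    unfold blk at h1 h2
    rw [Finset.mem_filter] at h1 h2
    have h3 : T / 2 ^ j ≤ T / 2 ^ (i + 1) :=
      div_le_div_of_nonneg_left hT (by positivity) (pow_le_pow_right₀ (by norm_num) hij)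
    linarith [h1.2.1, h2.2.2]
  rw [Finset.disjoint_left]
  intro n h1 h2
  rcases lt_or_gt_of_ne hij with h | h
  · exact key i j h n h1 h2
  · exact key j i h n h2 h1

lemma blk_sub (T : ℝ) (i : ℕ) : blk T i ⊆ Finset.Icc 1 (NZ T) := by
  classical
  unfold blk
  exact Finset.filter_subset _ _

/-- the scheme of the estimate -/
lemma scheme (T : ℝ) (hT : 0 ≤ T) (J : ℕ) (t e : ℕ → ℝ) (b : ℕ → ℕ → ℝ) (k : ℕ → ℝ)
    (ht : ∀ n, 0 ≤ t n) (hk : ∀ n, 0 ≤ k n) (β : ℕ → ℝ) (A1 A2 : ℝ)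
    (h1 : ∀ i ∈ Finset.range J, |∑ n ∈ blk T i, t n * b i n| ≤ β i)
    (h2 : ∀ i ∈ Finset.range J, ∀ n ∈ blk T i, |e n - b i n| ≤ k n)
    (h3 : ∑ n ∈ Finset.Icc 1 (NZ T), t n * k n ≤ A1)
    (h4 : ∑ n ∈ (Finset.Icc 1 (NZ T)) \ (Finset.range J).biUnion (blk T), |t n * e n| ≤ A2) :
    |∑ n ∈ Finset.Icc 1 (NZ T), t n * e n| ≤ ∑ i ∈ Finset.range J, β i + A1 + A2 := by
  classical
  set U := (Finset.range J).biUnion (blk T) with hU
  have hUI : U ⊆ Finset.Icc 1 (NZ T) := by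
    rw [hU, Finset.biUnion_subset]
    exact fun i _ => blk_sub T i
  have hd : ∀ i ∈ Finset.range J, ∀ j ∈ Finset.range J, i ≠ j →
      Disjoint (blk T i) (blk T j) := fun i _ j _ hij => blk_disj hT hij
  rw [← Finset.sum_sdiff hUI]
  have e1 : |∑ n ∈ Finset.Icc 1 (NZ T) \ U, t n * e n| ≤ A2 :=
    (Finset.abs_sum_le_sum_abs _ _).trans h4
  have e2 : |∑ n ∈ U, t n * e n| ≤ ∑ i ∈ Finset.range J, β i + A1 := by
    have e3 : ∑ n ∈ U, t n * k n ≤ A1 := by
      refine le_trans (Finset.sum_le_sum_of_subset_of_nonneg hUI fun n _ _ => ?_) h3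
      exact mul_nonneg (ht n) (hk n)
    rw [hU, Finset.sum_biUnion hd] at e3 ⊢
    refine (Finset.abs_sum_le_sum_abs _ _).trans ?_
    refine le_trans (Finset.sum_le_sum (g := fun i => β i + ∑ n ∈ blk T i, t n * k n) ?_) ?_
    · intro i hi
      have e4 : ∑ n ∈ blk T i, t n * e n = ∑ n ∈ blk T i, t n * b i n +
          ∑ n ∈ blk T i, t n * (e n - b i n) := by
        rw [← Finset.sum_add_distrib]
        exact Finset.sum_congr rfl fun n _ => by ring
      rw [e4]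
      refine (abs_add_le _ _).trans (add_le_add (h1 i hi) ?_)
      refine (Finset.abs_sum_le_sum_abs _ _).trans (Finset.sum_le_sum fun n hn => ?_)
      rw [abs_mul, abs_of_nonneg (ht n)]
      exact mul_le_mul_of_nonneg_left (h2 i hi n hn) (ht n)
    · rw [Finset.sum_add_distrib]
      linarith
  refine (abs_add_le _ _).trans ?_
  linarith

end Zb

open Zb in
theorem t_Z (hB : S_BLK) (h2 : S_L2) (hK : S_MOMK) (hN : S_NZ) (hG : S_GB) : S_Z := by
  classical
  intro hRH m x y ε hε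
  obtain ⟨q, hBq⟩ := hB hRH
  obtain ⟨CB, hCB, hB'⟩ := hBq m x y
  obtain ⟨C2, hC2, h2'⟩ := h2 hRH q
  obtain ⟨CG, hCG, hG'⟩ := hG q
  have hN' := hN
  obtain ⟨⟨CN, hCN, hN1⟩, ⟨CS, hCS, hN2⟩, hmono, hγ, hγm, hγ0⟩ := hN
  set R₀ : ℝ := 1 + ∑ i, (|x i| + |y i|) with hR₀d
  have hsum : ∀ i, |x i| + |y i| ≤ ∑ i, (|x i| + |y i|) := fun i =>
    Finset.single_le_sum (f := fun i => |x i| + |y i|) (fun i _ => by positivity)
      (Finset.mem_univ i)
  have hR₀ : 1 ≤ R₀ := by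
    have : 0 ≤ ∑ i, (|x i| + |y i|) := Finset.sum_nonneg fun i _ => by positivity
    linarith
  have hx : ∀ i, -R₀ ≤ x i := fun i => by
    have := hsum i
    have h1 := neg_abs_le (x i)
    have h2 := abs_nonneg (y i)
    linarith
  have hy : ∀ i, y i ≤ R₀ := fun i => by
    have := hsum i
    have h1 := le_abs_self (y i)
    have h2 := abs_nonneg (x i)
    linarith
  obtain ⟨Cm, hCm, hm⟩ := hK hRH m R₀ hR₀
  obtain ⟨C4, hC4, h4⟩ := hK hRH (4 * m) R₀ hR₀
  obtain ⟨J, hJ1, hJf, hJe⟩ := choice CB CG Cm CN C4 C2 (1 + Real.log (1 + 1 / ε)) ε hε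
  have hJ0 : (0 : ℝ) < J := by exact_mod_cast hJ1
  obtain ⟨⟨K, hK0, hlip⟩, hnn, hle, hsupp, hflat, hint⟩ := hG' J hJ1
  set R : ℝ := 2 ^ q * 4 ^ J + 1 with hR
  have hR0 : 0 ≤ R := by positivity
  set R' : ℝ := max (2 * R) R₀ with hR'
  obtain ⟨C', hC', hm'⟩ := hK hRH (m + 1) R' (hR₀.trans (le_max_right _ _))
  refine ⟨gbar q J, R, ⟨?_, hnn, hle, hsupp, ?_⟩, ?_⟩
  · exact (LipschitzWith.of_dist_le' (K := K) fun v w => by
      rw [Real.dist_eq, Real.dist_eq]
      exact hlip v w).continuous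
  · intro v hv
    refine le_trans ?_ (hflat v)
    have h1 : CG * (1 + Real.log (1 + |v|)) / J ≤ CG * (1 + Real.log (1 + 1 / ε)) / J := by
      apply div_le_div_of_nonneg_right _ hJ0.le
      apply mul_le_mul_of_nonneg_left _ hCG.le
      have : Real.log (1 + |v|) ≤ Real.log (1 + 1 / ε) :=
        Real.log_le_log (by positivity) (by linarith)
      linarith
    linarith
  have e1 : ∀ᶠ T : ℝ in atTop, ∀ i ∈ Finset.range J,
      |∑ n ∈ blk T i, (tup T x y n : ℝ) *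
        (2 ^ q * cc J - ∑ l ∈ Finset.Icc 1 (NZ T), gbar q J ((γ l - γ n) * sc (T / 2 ^ (i + 1))))| ≤
        CB * ((J : ℝ) ^ (-(1 / 4 : ℝ)) / 2 ^ i + (J : ℝ) ^ (-(3 / 2 : ℝ))) * (T * Real.log T) :=
    (Filter.eventually_all_finset _).2 fun i _ => hB' J hJ1 i
  have e2 := h2' J hJ1
  have e3 : ∀ᶠ T : ℝ in atTop, (NZ (T / 2 ^ J) : ℝ) ≤ CN * (T / 2 ^ J * Real.log (T / 2 ^ J)) :=
    (tendsto_id.atTop_div_const (show (0 : ℝ) < 2 ^ J by positivity)).eventually hN1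
  have e6 := eventually_ge_atTop ((J + 1) * CS * 2 ^ J / CN + 2 ^ J + 2)
  have e7 := Real.tendsto_log_atTop.eventually_ge_atTop
    (2 * (J * Real.log 2) + K * (2 * R * (J * Real.log 2)) * C' * 2 / ε + 1)
  filter_upwards [e1, e2, hm, h4, hm', hN1, e3, hN2, e6, e7] with T hb hl2 hmT h4T hmT' hN1T hN3T
    hN2T hTl hlogT
  have hlog2 : 0 < Real.log 2 := Real.log_pos (by norm_num)
  have hTJ' : (2 : ℝ) ^ J + 2 ≤ T := by
    have : 0 ≤ (J + 1) * CS * 2 ^ J / CN := by positivity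
    linarith
  have h2J : (1 : ℝ) ≤ 2 ^ J := one_le_pow₀ (by norm_num)
  have hT0 : 0 < T := by linarith
  have hTJ : 1 ≤ T / 2 ^ J := by
    rw [le_div_iff₀ (by positivity)]
    linarith
  have hx1 : 0 ≤ K * (2 * R * (J * Real.log 2)) * C' * 2 / ε := by positivity
  have hx2 : 0 ≤ 2 * (J * Real.log 2) := by positivity
  have hlog0 : 0 < Real.log T := by linarith
  have hlogJ : 2 * (J * Real.log 2) ≤ Real.log T := by linarith
  set L : ℝ := T * Real.log T with hL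
  have hL0 : 0 < L := by positivity
  have hsc : 0 < sc T := by
    unfold sc
    positivity
  set D : ℝ := 2 * R * (J * Real.log 2) / Real.log T with hD
  have hD0 : 0 ≤ D := by positivity
  have hKD : K * D * C' ≤ ε / 2 := by
    have h1 : K * (2 * R * (J * Real.log 2)) * C' * 2 / ε ≤ Real.log T := by linarith
    rw [div_le_iff₀ hε] at h1
    rw [hD, ← mul_div_assoc, div_mul_eq_mul_div, div_le_iff₀ hlog0]
    linarith
  -- the scheme
  set t : ℕ → ℝ := fun n => (tup T x y n : ℝ) with ht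
  set e : ℕ → ℝ := fun n => (∫ v, gbar q J v) - ∑ l ∈ Finset.Icc 1 (NZ T), gbar q J (ps T n l)
    with he
  set k : ℕ → ℝ := fun n => CG / J + K * D * ((Ws T n (Icc (-R') R')).card : ℝ) with hk
  have ht0 : ∀ n, 0 ≤ t n := fun n => Nat.cast_nonneg _
  have ht1 : ∀ n, t n ≤ ((Ws T n (Icc (-R₀) R₀)).card : ℝ) ^ m := fun n => by
    have := tup_le T x y n R₀ hx hy
    simp only [ht]
    exact_mod_cast this
  have hRR : Icc (-R₀) R₀ ⊆ Icc (-R') R' := by
    have : R₀ ≤ R' := le_max_right _ _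
    exact Icc_subset_Icc (by linarith) this
  have hRR2 : Icc (-(2 * R)) (2 * R) ⊆ Icc (-R') R' := by
    have : 2 * R ≤ R' := le_max_left _ _
    exact Icc_subset_Icc (by linarith) this
  have ht2 : ∀ n, t n ≤ ((Ws T n (Icc (-R') R')).card : ℝ) ^ m := fun n => by
    refine (ht1 n).trans (pow_le_pow_left₀ (Nat.cast_nonneg _) ?_ m)
    exact_mod_cast Finset.card_le_card (Ws_mono hRR)
  have hsum1 : ∑ n ∈ Finset.Icc 1 (NZ T), t n ≤ Cm * L :=
    (Finset.sum_le_sum fun n _ => ht1 n).trans hmT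
  have hsum2 : ∑ n ∈ Finset.Icc 1 (NZ T), t n * ((Ws T n (Icc (-R') R')).card : ℝ) ≤ C' * L := by
    refine le_trans (Finset.sum_le_sum fun n _ => ?_) hmT'
    rw [pow_succ]
    exact mul_le_mul_of_nonneg_right (ht2 n) (Nat.cast_nonneg _)
  have hsum4 : ∑ n ∈ Finset.Icc 1 (NZ T), t n ^ 4 ≤ C4 * L := by
    refine le_trans (Finset.sum_le_sum fun n _ => ?_) h4T
    rw [mul_comm 4 m, pow_mul]
    exact pow_le_pow_left₀ (ht0 n) (ht1 n) 4
  have hmain := scheme T hT0.le J t e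
    (fun i n => 2 ^ q * cc J - ∑ l ∈ Finset.Icc 1 (NZ T),
      gbar q J ((γ l - γ n) * sc (T / 2 ^ (i + 1)))) k ht0
    (fun n => by
      simp only [hk]
      positivity)
    (fun i => CB * ((J : ℝ) ^ (-(1 / 4 : ℝ)) / 2 ^ i + (J : ℝ) ^ (-(3 / 2 : ℝ))) * L)
    ((CG / J * Cm + K * D * C') * L)
    ((1 / 2 * CN * ((J : ℝ) ^ 5 / 2 ^ J) + 1 / (4 * J) * C4 +
      1 / (2 * (J : ℝ) ^ 2) * (2 * (C2 * J) + 2 * (CG / J) ^ 2 * CN)) * L)
    hb ?_ ?_ ?_
  · refine hmain.trans ?_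
    have g1 : ∑ i ∈ Finset.range J,
        CB * ((J : ℝ) ^ (-(1 / 4 : ℝ)) / 2 ^ i + (J : ℝ) ^ (-(3 / 2 : ℝ))) * L ≤
        CB * (2 * (J : ℝ) ^ (-(1 / 4 : ℝ)) + J * (J : ℝ) ^ (-(3 / 2 : ℝ))) * L := by
      rw [← Finset.sum_mul, ← Finset.mul_sum]
      apply mul_le_mul_of_nonneg_right _ hL0.le
      apply mul_le_mul_of_nonneg_left _ hCB.le
      rw [Finset.sum_add_distrib, Finset.sum_const, Finset.card_range, nsmul_eq_mul]
      apply add_le_add _ le_rfl
      have g2 : ∑ i ∈ Finset.range J, (J : ℝ) ^ (-(1 / 4 : ℝ)) / 2 ^ i =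
          (J : ℝ) ^ (-(1 / 4 : ℝ)) * ∑ i ∈ Finset.range J, (1 / 2 : ℝ) ^ i := by
        rw [Finset.mul_sum]
        exact Finset.sum_congr rfl fun i _ => by rw [one_div_pow, mul_one_div]
      rw [g2, mul_comm]
      apply mul_le_mul_of_nonneg_right _ (by positivity)
      have g3 := geom_sum_eq (show (1 / 2 : ℝ) ≠ 1 by norm_num) J
      rw [g3]
      have g4 : 0 ≤ (1 / 2 : ℝ) ^ J := by positivity
      rw [div_le_iff_of_neg (by norm_num)]
      linarith
    have g5 := mul_le_mul_of_nonneg_right hJe hL0.le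
    have g6 := mul_le_mul_of_nonneg_right hKD hL0.le
    linarith [g1, g5, g6]
  · intro i hi n hn
    rw [Finset.mem_range] at hi
    simp only [he, hk]
    have r1 : sc T - sc (T / 2 ^ (i + 1)) = (i + 1) * Real.log 2 / (2 * Real.pi) := by
      unfold sc
      rw [Real.log_div hT0.ne' (by positivity), Real.log_pow]
      push_cast
      ring
    have hi' : ((i : ℝ) + 1) ≤ J := by exact_mod_cast hi
    have hil : ((i : ℝ) + 1) * Real.log 2 ≤ J * Real.log 2 :=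
      mul_le_mul_of_nonneg_right hi' hlog2.le
    have r2 : sc T = Real.log T / (2 * Real.pi) := rfl
    have hpi : 0 < 2 * Real.pi := by positivity
    have r3 : sc T - sc (T / 2 ^ (i + 1)) ≤ J * Real.log 2 / (2 * Real.pi) := by
      rw [r1]
      exact div_le_div_of_nonneg_right hil hpi.le
    have r4 : J * Real.log 2 / (2 * Real.pi) ≤ sc T / 2 := by
      rw [r2, div_div, div_le_div_iff₀ hpi (by positivity)]
      nlinarith
    have r5 : 0 ≤ sc T - sc (T / 2 ^ (i + 1)) := by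
      rw [r1]
      positivity
    have r6 := rescale (T := T) (T' := T / 2 ^ (i + 1)) (n := n) (D := D) hK0 hlip hsupp hsc
      (by linarith) (by linarith) (by
        calc 2 * R * (sc T - sc (T / 2 ^ (i + 1))) ≤ 2 * R * (J * Real.log 2 / (2 * Real.pi)) :=
              mul_le_mul_of_nonneg_left r3 (by positivity)
          _ = D * sc T := by
              rw [hD, r2]
              field_simp) hR0
    have r7 : K * D * ((Ws T n (Icc (-(2 * R)) (2 * R))).card : ℝ) ≤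
        K * D * ((Ws T n (Icc (-R') R')).card : ℝ) := by
      apply mul_le_mul_of_nonneg_left _ (mul_nonneg hK0 hD0)
      exact_mod_cast Finset.card_le_card (Ws_mono hRR2)
    have r8 : (∫ v, gbar q J v) - ∑ l ∈ Finset.Icc 1 (NZ T), gbar q J (ps T n l) -
        (2 ^ q * cc J - ∑ l ∈ Finset.Icc 1 (NZ T), gbar q J ((γ l - γ n) * sc (T / 2 ^ (i + 1)))) =
        -(2 ^ q * cc J - ∫ v, gbar q J v) -
        (∑ l ∈ Finset.Icc 1 (NZ T), gbar q J (ps T n l) -
          ∑ l ∈ Finset.Icc 1 (NZ T), gbar q J ((γ l - γ n) * sc (T / 2 ^ (i + 1)))) := by ring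
    rw [r8]
    refine (abs_sub _ _).trans ?_
    rw [abs_neg]
    exact add_le_add hint (r6.trans r7)
  · have s1 : ∑ n ∈ Finset.Icc 1 (NZ T), t n * k n =
        CG / J * ∑ n ∈ Finset.Icc 1 (NZ T), t n +
        K * D * ∑ n ∈ Finset.Icc 1 (NZ T), t n * ((Ws T n (Icc (-R') R')).card : ℝ) := by
      rw [Finset.mul_sum, Finset.mul_sum, ← Finset.sum_add_distrib]
      refine Finset.sum_congr rfl fun n _ => ?_
      simp only [hk]
      ring
    rw [s1]
    have s2 : CG / J * ∑ n ∈ Finset.Icc 1 (NZ T), t n ≤ CG / J * (Cm * L) :=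
      mul_le_mul_of_nonneg_left hsum1 (by positivity)
    have s3 : K * D * ∑ n ∈ Finset.Icc 1 (NZ T), t n * ((Ws T n (Icc (-R') R')).card : ℝ) ≤
        K * D * (C' * L) := mul_le_mul_of_nonneg_left hsum2 (mul_nonneg hK0 hD0)
    linarith
  · -- the tail
    have u1 : ∀ n, |t n * e n| ≤ 1 / 4 * (J : ℝ) ^ 5 + 1 / (4 * J) * t n ^ 4 +
        1 / (2 * (J : ℝ) ^ 2) * e n ^ 2 := fun n => term hJ0 (t n) (e n)
    set W := (Finset.Icc 1 (NZ T)) \ (Finset.range J).biUnion (blk T) with hW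
    have hWI : W ⊆ Finset.Icc 1 (NZ T) := Finset.sdiff_subset
    refine (Finset.sum_le_sum fun n _ => u1 n).trans ?_
    rw [Finset.sum_add_distrib, Finset.sum_add_distrib, Finset.sum_const, nsmul_eq_mul,
      ← Finset.mul_sum, ← Finset.mul_sum]
    -- the number
    have v1 : (W.card : ℝ) ≤ 2 * CN / 2 ^ J * L := by
      have v2 := outside hN' T J hT0.le hTJ (CS * Real.log T) hN2T
      refine v2.trans ?_
      have v3 : (NZ (T / 2 ^ J) : ℝ) ≤ CN / 2 ^ J * L := by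
        refine hN3T.trans ?_
        have v4 : Real.log (T / 2 ^ J) ≤ Real.log T := by
          apply Real.log_le_log (by positivity)
          exact div_le_self hT0.le h2J
        calc CN * (T / 2 ^ J * Real.log (T / 2 ^ J)) ≤ CN * (T / 2 ^ J * Real.log T) := by
              apply mul_le_mul_of_nonneg_left _ hCN.le
              exact mul_le_mul_of_nonneg_left v4 (by positivity)
          _ = CN / 2 ^ J * L := by rw [hL]; ring
      have v5 : ((J : ℝ) + 1) * (CS * Real.log T) ≤ CN / 2 ^ J * L := by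
        have v6 : (J + 1) * CS * 2 ^ J / CN ≤ T := by
          have : (0 : ℝ) < 2 ^ J := by positivity
          linarith
        rw [div_le_iff₀ hCN] at v6
        rw [div_mul_eq_mul_div, le_div_iff₀ (by positivity)]
        calc ((J : ℝ) + 1) * (CS * Real.log T) * 2 ^ J =
            ((J + 1) * CS * 2 ^ J) * Real.log T := by ring
          _ ≤ (T * CN) * Real.log T := mul_le_mul_of_nonneg_right v6 hlog0.le
          _ = CN * L := by rw [hL]; ring
      calc (NZ (T / 2 ^ J) : ℝ) + (J + 1) * (CS * Real.log T) ≤ CN / 2 ^ J * L + CN / 2 ^ J * L :=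
            add_le_add v3 v5
        _ = 2 * CN / 2 ^ J * L := by ring
    have w1 : ∑ n ∈ W, t n ^ 4 ≤ C4 * L :=
      (Finset.sum_le_sum_of_subset_of_nonneg hWI fun n _ _ => by positivity).trans hsum4
    have w2 : ∑ n ∈ W, e n ^ 2 ≤ (2 * (C2 * J) + 2 * (CG / J) ^ 2 * CN) * L := by
      refine (Finset.sum_le_sum_of_subset_of_nonneg hWI fun n _ _ => by positivity).trans ?_
      have w3 := hl2 1 (by
        have : (0 : ℝ) ≤ 1 / 4 ^ J := by positivity
        linarith) le_rfl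
      simp only [one_mul] at w3
      have w4 : ∀ n, e n ^ 2 ≤ 2 * (2 ^ q * cc J - ∑ l ∈ Finset.Icc 1 (NZ T),
          gbar q J (ps T n l)) ^ 2 + 2 * (CG / J) ^ 2 := by
        intro n
        simp only [he]
        set b := ∑ l ∈ Finset.Icc 1 (NZ T), gbar q J (ps T n l)
        have w5 : (2 ^ q * cc J - ∫ v, gbar q J v) ^ 2 ≤ (CG / J) ^ 2 := by
          rw [← sq_abs]
          exact pow_le_pow_left₀ (abs_nonneg _) hint 2
        have w6 : 0 ≤ ((2 ^ q * cc J - b) + (2 ^ q * cc J - ∫ v, gbar q J v)) ^ 2 := sq_nonneg _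
        nlinarith
      refine (Finset.sum_le_sum fun n _ => w4 n).trans ?_
      rw [Finset.sum_add_distrib, ← Finset.mul_sum, Finset.sum_const, Nat.card_Icc,
        Nat.add_sub_cancel, nsmul_eq_mul]
      have w7 : (NZ T : ℝ) * (2 * (CG / J) ^ 2) ≤ CN * L * (2 * (CG / J) ^ 2) :=
        mul_le_mul_of_nonneg_right hN1T (by positivity)
      nlinarith
    have z1 : (W.card : ℝ) * (1 / 4 * (J : ℝ) ^ 5) ≤
        1 / 2 * CN * ((J : ℝ) ^ 5 / 2 ^ J) * L := by
      calc (W.card : ℝ) * (1 / 4 * (J : ℝ) ^ 5) ≤ (2 * CN / 2 ^ J * L) * (1 / 4 * (J : ℝ) ^ 5) :=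
            mul_le_mul_of_nonneg_right v1 (by positivity)
        _ = _ := by ring
    have z2 : 1 / (4 * (J : ℝ)) * ∑ n ∈ W, t n ^ 4 ≤ 1 / (4 * J) * (C4 * L) :=
      mul_le_mul_of_nonneg_left w1 (by positivity)
    have z3 : 1 / (2 * (J : ℝ) ^ 2) * ∑ n ∈ W, e n ^ 2 ≤
        1 / (2 * (J : ℝ) ^ 2) * ((2 * (C2 * J) + 2 * (CG / J) ^ 2 * CN) * L) :=
      mul_le_mul_of_nonneg_left w2 (by positivity)
    linarith

end Pool.Agent.J4.H44.RG
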