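import Pool.Agent.J4.H44.RG.Defs

/-! Project HC (helper44), piece Z (helper64): one more zero, with a flat weight. -/

set_option autoImplicit false
set_option linter.all false

open Filter Topology MeasureTheory Set

namespace Pool.Agent.J4.H44.RG

noncomputable section

namespace Zc

open Finset in
/-- the tuples are bounded by the number of the zeros nearby -/
theorem tup_le {m : ℕ} (T R : ℝ) (x y : Fin m → ℝ) (hx : ∀ i, -R ≤ x i) (hy : ∀ i, y i ≤ R) (n : ℕ) :
    (tup T x y n : ℝ) ≤ ((Ws T n (Icc (-R) R)).card : ℝ) ^ m := by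
  classical
  have h1 : {l : Fin m → ℕ | Function.Injective l ∧ ∀ i, l i ∈ Ws T n (Icc (x i) (y i))} ⊆
      ↑(Fintype.piFinset fun _ : Fin m => Ws T n (Icc (-R) R)) := by
    rintro l ⟨_, hl⟩
    rw [Finset.mem_coe, Fintype.mem_piFinset]
    intro i
    have h2 := hl i
    simp only [Ws, Finset.mem_filter] at h2 ⊢
    exact ⟨h2.1, h2.2.1, (hx i).trans h2.2.2.1, h2.2.2.2.trans (hy i)⟩
  have h2 := Set.ncard_le_ncard h1 (Finset.finite_toSet _)
  rw [Set.ncard_coe_finset, Fintype.card_piFinset_const] at h2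
  unfold tup
  exact_mod_cast h2

/-- the exceptional indices -/
def Ex (T : ℝ) (J : ℕ) : Finset ℕ := by
  classical
  exact (Finset.Icc 1 (NZ T)).filter (fun n => ∀ i < J, n ∉ blk T i)

theorem blk_sub (T : ℝ) (i : ℕ) : blk T i ⊆ Finset.Icc 1 (NZ T) := by
  classical
  unfold blk
  exact Finset.filter_subset _ _

theorem mem_blk (T : ℝ) (i n : ℕ) : n ∈ blk T i ↔ n ∈ Finset.Icc 1 (NZ T) ∧ T / 2 ^ (i + 1) + 1 < γ n ∧
    γ n ≤ T / 2 ^ i - 1 := by
  classical
  unfold blk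
  rw [Finset.mem_filter]

theorem mem_Ex (T : ℝ) (J n : ℕ) : n ∈ Ex T J ↔ n ∈ Finset.Icc 1 (NZ T) ∧ ∀ i < J, n ∉ blk T i := by
  classical
  unfold Ex
  rw [Finset.mem_filter]

theorem pow_anti (T : ℝ) (hT : 0 ≤ T) {i j : ℕ} (h : i ≤ j) : T / 2 ^ j ≤ T / 2 ^ i := by
  apply div_le_div_of_nonneg_left hT (by positivity)
  exact pow_le_pow_right₀ (by norm_num) h

theorem blk_disj (T : ℝ) (hT : 0 ≤ T) {i j : ℕ} (hij : i ≠ j) : Disjoint (blk T i) (blk T j) := by
  classical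
  rw [Finset.disjoint_left]
  intro n h1 h2
  rw [mem_blk] at h1 h2
  rcases lt_or_gt_of_ne hij with h | h
  · have := pow_anti T hT (Nat.succ_le_of_lt h)
    have h3 := h1.2.1
    have h4 := h2.2.2
    simp only [Nat.succ_eq_add_one] at this
    linarith
  · have := pow_anti T hT (Nat.succ_le_of_lt h)
    have h3 := h2.2.1
    have h4 := h1.2.2
    simp only [Nat.succ_eq_add_one] at this
    linarith

/-- decomposition into blocks -/
theorem sum_split (T : ℝ) (hT : 0 ≤ T) (J : ℕ) (f : ℕ → ℝ) :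
    ∑ n ∈ Finset.Icc 1 (NZ T), f n = ∑ i ∈ Finset.range J, ∑ n ∈ blk T i, f n + ∑ n ∈ Ex T J, f n := by
  classical
  rw [← Finset.sum_biUnion (fun i _ j _ h => blk_disj T hT h), ← Finset.sum_union]
  · refine Finset.sum_congr ?_ fun _ _ => rfl
    ext n
    rw [Finset.mem_union, Finset.mem_biUnion, mem_Ex]
    constructor
    · intro hn
      by_cases h : ∃ i < J, n ∈ blk T i
      · obtain ⟨i, hi, h⟩ := h
        exact Or.inl ⟨i, Finset.mem_range.2 hi, h⟩
      · push Not at h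
        exact Or.inr ⟨hn, h⟩
    · rintro (⟨i, _, h⟩ | h)
      · exact blk_sub T i h
      · exact h.1
  · rw [Finset.disjoint_left]
    intro n h1 h2
    rw [Finset.mem_biUnion] at h1
    obtain ⟨i, hi, h3⟩ := h1
    rw [mem_Ex] at h2
    exact h2.2 i (Finset.mem_range.1 hi) h3

/-- indices with ordinate in `(t, t + 2]` -/
def Win (T t : ℝ) : Finset ℕ := by
  classical
  exact (Finset.Icc 1 (NZ T)).filter (fun n => t < γ n ∧ γ n ≤ t + 2)

theorem win_card (hNZ : S_NZ) (T t : ℝ) (ht : 0 ≤ t) : ((Win T t).card : ℝ) ≤ (NZ (t + 2) : ℝ) - NZ t := by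
  classical
  obtain ⟨_, _, hmono, hγ, _, _⟩ := hNZ
  have h1 : Win T t ⊆ Finset.Ioc (NZ t) (NZ (t + 2)) := by
    intro n hn
    unfold Win at hn
    rw [Finset.mem_filter, Finset.mem_Icc] at hn
    rw [Finset.mem_Ioc]
    constructor
    · by_contra h
      push Not at h
      have := (hγ n hn.1.1 t ht).2 h
      linarith [hn.2.1]
    · exact (hγ n hn.1.1 (t + 2) (by linarith)).1 hn.2.2
  have h2 := Finset.card_le_card h1
  rw [Nat.card_Ioc] at h2
  have h3 : NZ t ≤ NZ (t + 2) := hmono (by linarith)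
  have h4 : ((Win T t).card : ℝ) ≤ ((NZ (t + 2) - NZ t : ℕ) : ℝ) := by exact_mod_cast h2
  rw [Nat.cast_sub h3] at h4
  exact h4

theorem ex_card (hNZ : S_NZ) (T : ℝ) (J : ℕ) (hT : 2 ^ J ≤ T) (C : ℝ)
    (hC : ∀ t : ℝ, 0 ≤ t → t ≤ 2 * T → (NZ (t + 2) : ℝ) - NZ t ≤ C * Real.log T) :
    ((Ex T J).card : ℝ) ≤ NZ (T / 2 ^ J + 1) + J * (C * Real.log T) := by
  classical
  have hT0 : 0 < T := lt_of_lt_of_le (by positivity) hT
  have hγ := hNZ.2.2.2.1
  have h1 : Ex T J ⊆ Finset.Icc 1 (NZ (T / 2 ^ J + 1)) ∪ (Finset.range J).biUnion (fun i => Win T (T / 2 ^ i - 1)) := by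
    intro n hn
    rw [mem_Ex, Finset.mem_Icc] at hn
    obtain ⟨⟨hn1, hn2⟩, hn3⟩ := hn
    rw [Finset.mem_union, Finset.mem_biUnion, Finset.mem_Icc]
    by_cases h : γ n ≤ T / 2 ^ J + 1
    · exact Or.inl ⟨hn1, (hγ n hn1 _ (by positivity)).1 h⟩
    · push Not at h
      right
      have hex : ∃ i, ¬ γ n ≤ T / 2 ^ i := ⟨J, by linarith⟩
      set i := Nat.find hex with hi
      have h2 : ¬ γ n ≤ T / 2 ^ i := Nat.find_spec hex
      have h3 : i ≠ 0 := by
        intro h0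
        rw [h0] at h2
        apply h2
        rw [pow_zero, div_one]
        exact (hγ n hn1 T hT0.le).2 hn2
      obtain ⟨k, hk⟩ := Nat.exists_eq_succ_of_ne_zero h3
      have h4 : γ n ≤ T / 2 ^ k := by
        have := Nat.find_min hex (m := k) (by omega)
        rwa [not_not] at this
      have h5 : i ≤ J := Nat.find_min' hex (by linarith)
      have h6 : k < J := by omega
      have h7 := hn3 k h6
      rw [mem_blk] at h7
      rw [hk] at h2
      push Not at h2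
      have h8 : ¬ (T / 2 ^ (k + 1) + 1 < γ n ∧ γ n ≤ T / 2 ^ k - 1) := fun h => h7 ⟨Finset.mem_Icc.2 ⟨hn1, hn2⟩, h⟩
      by_cases h9 : T / 2 ^ k - 1 < γ n
      · refine ⟨k, Finset.mem_range.2 h6, ?_⟩
        unfold Win
        rw [Finset.mem_filter, Finset.mem_Icc]
        exact ⟨⟨hn1, hn2⟩, h9, by linarith⟩
      · push Not at h9
        have h10 : γ n ≤ T / 2 ^ (k + 1) + 1 := by
          by_contra h11
          push Not at h11
          exact h8 ⟨h11, h9⟩
        have h11 : k + 1 < J := by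
          by_contra h12
          have h13 : k + 1 = J := by omega
          rw [h13] at h10
          linarith
        refine ⟨k + 1, Finset.mem_range.2 h11, ?_⟩
        unfold Win
        rw [Finset.mem_filter, Finset.mem_Icc]
        have h2' : T / 2 ^ (k + 1) < γ n := h2
        exact ⟨⟨hn1, hn2⟩, (sub_le_self _ zero_le_one).trans_lt h2', by linarith⟩
  have h2 := (Finset.card_le_card h1).trans (Finset.card_union_le _ _)
  have h3 : (((Finset.range J).biUnion (fun i => Win T (T / 2 ^ i - 1))).card : ℝ) ≤ J * (C * Real.log T) := by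
    have h4 : (((Finset.range J).biUnion (fun i => Win T (T / 2 ^ i - 1))).card : ℝ) ≤
        ∑ i ∈ Finset.range J, ((Win T (T / 2 ^ i - 1)).card : ℝ) := by
      exact_mod_cast Finset.card_biUnion_le
    refine h4.trans ?_
    have h5 : ∀ i ∈ Finset.range J, ((Win T (T / 2 ^ i - 1)).card : ℝ) ≤ C * Real.log T := by
      intro i hi
      rw [Finset.mem_range] at hi
      have h6 : (2 : ℝ) ^ i ≤ T := (pow_le_pow_right₀ (by norm_num) hi.le).trans hT
      have h7 : 0 ≤ T / 2 ^ i - 1 := by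
        rw [sub_nonneg, le_div_iff₀ (by positivity), one_mul]
        exact h6
      have h8 : T / 2 ^ i ≤ T := div_le_self hT0.le (one_le_pow₀ (by norm_num))
      exact (win_card hNZ T _ h7).trans (hC _ h7 (by linarith))
    have h6 := Finset.sum_le_card_nsmul _ _ _ h5
    rw [Finset.card_range, nsmul_eq_mul] at h6
    exact h6
  rw [Nat.card_Icc, Nat.add_sub_cancel] at h2
  have h4 : ((Ex T J).card : ℝ) ≤ (NZ (T / 2 ^ J + 1) : ℝ) +
      (((Finset.range J).biUnion (fun i => Win T (T / 2 ^ i - 1))).card : ℝ) := by exact_mod_cast h2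
  linarith

/-- Cauchy-Schwarz twice -/
theorem cs (E : Finset ℕ) (t D : ℕ → ℝ) (a b c X : ℝ) (ha : 0 ≤ a) (hb : 0 ≤ b) (hc : 0 ≤ c) (hX : 0 ≤ X)
    (h1 : (E.card : ℝ) ≤ a * X) (h2 : ∑ n ∈ E, t n ^ 4 ≤ b * X) (h3 : ∑ n ∈ E, D n ^ 2 ≤ c * X) :
    |∑ n ∈ E, t n * D n| ≤ √(√(a * b) * c) * X := by
  have e1 : (∑ n ∈ E, t n ^ 2) ^ 2 ≤ (a * X) * (b * X) := by
    have h4 := Finset.sum_mul_sq_le_sq_mul_sq E (fun _ => (1 : ℝ)) (fun n => t n ^ 2)
    simp only [one_mul, one_pow, Finset.sum_const, nsmul_eq_mul, mul_one] at h4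
    refine h4.trans (mul_le_mul h1 ?_ (Finset.sum_nonneg fun _ _ => by positivity) (by positivity))
    refine le_trans (le_of_eq ?_) h2
    exact Finset.sum_congr rfl fun n _ => by ring
  have e2 : ∑ n ∈ E, t n ^ 2 ≤ √(a * b) * X := by
    have h5 : 0 ≤ ∑ n ∈ E, t n ^ 2 := Finset.sum_nonneg fun _ _ => by positivity
    have h6 : (√(a * b) * X) ^ 2 = (a * X) * (b * X) := by
      rw [mul_pow, Real.sq_sqrt (by positivity)]
      ring
    rw [← h6] at e1
    exact (pow_le_pow_iff_left₀ h5 (by positivity) (by norm_num)).1 e1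
  have e3 : (∑ n ∈ E, t n * D n) ^ 2 ≤ (√(√(a * b) * c) * X) ^ 2 := by
    have h7 := Finset.sum_mul_sq_le_sq_mul_sq E t D
    refine h7.trans ?_
    rw [mul_pow, Real.sq_sqrt (by positivity)]
    have h8 : √(a * b) * c * X ^ 2 = (√(a * b) * X) * (c * X) := by ring
    rw [h8]
    exact mul_le_mul e2 h3 (Finset.sum_nonneg fun _ _ => by positivity) (by positivity)
  exact abs_le_of_sq_le_sq e3 (by positivity)

/-- the choice of `J` -/
theorem choice (C1 C2 C3 C4 C5 e : ℝ) (he : 0 < e) (hC4 : 0 ≤ C4) : ∃ J : ℕ, 1 ≤ J ∧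
    C1 * (2 * (J : ℝ) ^ (-(1 / 4 : ℝ)) + (J : ℝ) ^ (-(1 / 2 : ℝ))) ≤ e ∧ C2 / J ≤ e ∧ C3 / J ≤ e ∧
    √(√(C4 * (1 / 2) ^ J) * (C5 * J)) ≤ e := by
  have t1 : Tendsto (fun J : ℕ => (J : ℝ) ^ (-(1 / 4 : ℝ))) atTop (𝓝 0) :=
    (tendsto_rpow_neg_atTop (by norm_num)).comp tendsto_natCast_atTop_atTop
  have t2 : Tendsto (fun J : ℕ => (J : ℝ) ^ (-(1 / 2 : ℝ))) atTop (𝓝 0) :=
    (tendsto_rpow_neg_atTop (by norm_num)).comp tendsto_natCast_atTop_atTop
  have t3 : Tendsto (fun J : ℕ => C1 * (2 * (J : ℝ) ^ (-(1 / 4 : ℝ)) + (J : ℝ) ^ (-(1 / 2 : ℝ)))) atTop (𝓝 0) := by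
    have := ((t1.const_mul 2).add t2).const_mul C1
    simpa using this
  have t4 : ∀ C : ℝ, Tendsto (fun J : ℕ => C / (J : ℝ)) atTop (𝓝 0) := fun C =>
    tendsto_const_div_atTop_nhds_zero_nat C
  have t5 : Tendsto (fun J : ℕ => √(√(C4 * (1 / 2) ^ J) * (C5 * J))) atTop (𝓝 0) := by
    have h1 : Tendsto (fun J : ℕ => (J : ℝ) * (√(1 / 2)) ^ J) atTop (𝓝 0) := by
      apply tendsto_self_mul_const_pow_of_lt_one (Real.sqrt_nonneg _)
      rw [Real.sqrt_lt' one_pos]
      norm_num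
    have h2 : Tendsto (fun J : ℕ => √C4 * C5 * ((J : ℝ) * (√(1 / 2)) ^ J)) atTop (𝓝 0) := by
      have := h1.const_mul (√C4 * C5)
      simpa using this
    have h3 : (fun J : ℕ => √(√(C4 * (1 / 2) ^ J) * (C5 * J))) = fun J : ℕ => √(√C4 * C5 * ((J : ℝ) * (√(1 / 2)) ^ J)) := by
      funext J
      congr 1
      rw [Real.sqrt_mul hC4]
      have : √((1 / 2 : ℝ) ^ J) = (√(1 / 2)) ^ J := by
        rw [← Real.sqrt_sq (pow_nonneg (Real.sqrt_nonneg (1 / 2 : ℝ)) J), ← pow_mul, mul_comm J 2, pow_mul,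
          Real.sq_sqrt (by norm_num)]
      rw [this]
      ring
    rw [h3]
    have := (Real.continuous_sqrt.tendsto 0).comp h2
    rw [Real.sqrt_zero] at this
    exact this
  have ev : ∀ᶠ J : ℕ in atTop, 1 ≤ J ∧ C1 * (2 * (J : ℝ) ^ (-(1 / 4 : ℝ)) + (J : ℝ) ^ (-(1 / 2 : ℝ))) ≤ e ∧
      C2 / J ≤ e ∧ C3 / J ≤ e ∧ √(√(C4 * (1 / 2) ^ J) * (C5 * J)) ≤ e := by
    filter_upwards [eventually_ge_atTop 1, t3.eventually_le_const he, (t4 C2).eventually_le_const he,
      (t4 C3).eventually_le_const he, t5.eventually_le_const he] with J a b c d f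
    exact ⟨a, b, c, d, f⟩
  exact ev.exists

/-- change of the scale -/
theorem scale (q J : ℕ) (K R : ℝ) (hK : 0 ≤ K) (hR : 0 ≤ R)
    (hlip : ∀ v w : ℝ, |gbar q J v - gbar q J w| ≤ K * |v - w|) (hsupp : ∀ v, R < |v| → gbar q J v = 0)
    (T ρ : ℝ) (hρ : 1 / 2 ≤ ρ) (hρ1 : ρ ≤ 1) (n : ℕ) :
    |∑ l ∈ Finset.Icc 1 (NZ T), gbar q J (ρ * ps T n l) - ∑ l ∈ Finset.Icc 1 (NZ T), gbar q J (ps T n l)| ≤
      K * ((1 - ρ) * (2 * R)) * ((Ws T n (Icc (-(2 * R)) (2 * R))).card : ℝ) := by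
  classical
  rw [← Finset.sum_sub_distrib]
  refine (Finset.abs_sum_le_sum_abs _ _).trans ?_
  have h1 : ∀ l ∈ Finset.Icc 1 (NZ T), |gbar q J (ρ * ps T n l) - gbar q J (ps T n l)| ≤
      if l ∈ Ws T n (Icc (-(2 * R)) (2 * R)) then K * ((1 - ρ) * (2 * R)) else 0 := by
    intro l hl
    split_ifs with h
    · have h2 : |ps T n l| ≤ 2 * R := by
        simp only [Ws, Finset.mem_filter, Set.mem_Icc] at h
        exact abs_le.2 h.2.2
      refine (hlip _ _).trans (mul_le_mul_of_nonneg_left ?_ hK)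
      have h3 : ρ * ps T n l - ps T n l = -((1 - ρ) * ps T n l) := by ring
      rw [h3, abs_neg, abs_mul, abs_of_nonneg (by linarith)]
      exact mul_le_mul_of_nonneg_left h2 (by linarith)
    · by_cases hln : l = n
      · have h2 : ps T n l = 0 := by rw [hln]; simp [ps]
        rw [h2, mul_zero, sub_self, abs_zero]
      · have h2 : ¬ |ps T n l| ≤ 2 * R := by
          intro h3
          apply h
          simp only [Ws, Finset.mem_filter, Set.mem_Icc]
          exact ⟨hl, hln, abs_le.1 h3⟩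
        push Not at h2
        have h3 : R < |ρ * ps T n l| := by
          rw [abs_mul, abs_of_nonneg (by linarith : (0 : ℝ) ≤ ρ)]
          nlinarith
        have h4 : R < |ps T n l| := by linarith
        rw [hsupp _ h3, hsupp _ h4, sub_self, abs_zero]
  refine (Finset.sum_le_sum h1).trans ?_
  rw [← Finset.sum_filter, Finset.sum_const, nsmul_eq_mul, mul_comm]
  apply mul_le_mul_of_nonneg_left _ (mul_nonneg hK (mul_nonneg (by linarith) (by linarith)))
  have h5 : ((Finset.Icc 1 (NZ T)).filter (fun l => l ∈ Ws T n (Icc (-(2 * R)) (2 * R)))).card ≤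
      (Ws T n (Icc (-(2 * R)) (2 * R))).card := by
    apply Finset.card_le_card
    intro l hl
    exact (Finset.mem_filter.1 hl).2
  exact_mod_cast h5

end Zc

open Zc in
theorem t_Zc (h1 : S_BLK) (h2 : S_L2) (h3 : S_MOMK) (h4 : S_NZ) (h5 : S_GB) : S_Z := by
  classical
  intro RH m x y ε hε
  obtain ⟨q, hq⟩ := h1 RH
  obtain ⟨Cb, hCb, hB⟩ := hq m x y
  obtain ⟨C2, hC2, hL⟩ := h2 RH q
  obtain ⟨Cg, hCg, hG⟩ := h5 q
  -- the box
  set R0 : ℝ := 1 + ∑ i, (|x i| + |y i|) with hR0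
  have hsum : ∀ i, |x i| + |y i| ≤ ∑ i, (|x i| + |y i|) := fun i =>
    Finset.single_le_sum (f := fun i => |x i| + |y i|) (fun _ _ => by positivity) (Finset.mem_univ i)
  have hR01 : 1 ≤ R0 := by
    have : 0 ≤ ∑ i, (|x i| + |y i|) := Finset.sum_nonneg fun _ _ => by positivity
    linarith
  have hx : ∀ i, -R0 ≤ x i := fun i => by
    have := hsum i
    have h6 := neg_abs_le (x i)
    have h7 := abs_nonneg (y i)
    linarith
  have hy : ∀ i, y i ≤ R0 := fun i => by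
    have := hsum i
    have h6 := le_abs_self (y i)
    have h7 := abs_nonneg (x i)
    linarith
  obtain ⟨C1, hC1, hM1⟩ := h3 RH m R0 hR01
  obtain ⟨C4, hC4, hM4⟩ := h3 RH (4 * m) R0 hR01
  obtain ⟨CN, hCN, hN⟩ := h4.1
  obtain ⟨CW, hCW, hW⟩ := h4.2.1
  -- the choice of `J`
  obtain ⟨J, hJ1, hJa, hJb, hJc, hJd⟩ := choice Cb (Cg * C1) (Cg * (1 + Real.log (1 + 1 / ε)))
    ((2 * CN + 1) * C4) (2 * C2 + 2 * Cg ^ 2 * CN) (min ε (ε / 8)) (lt_min hε (by positivity)) (by positivity)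
  have hJ0 : (0 : ℝ) < J := by exact_mod_cast hJ1
  have hJ1' : (1 : ℝ) ≤ J := by exact_mod_cast hJ1
  obtain ⟨⟨K, hK, hlip⟩, hnn, hle, hsupp, hflat, hint⟩ := hG J hJ1
  set R : ℝ := 2 ^ q * 4 ^ J + 1 with hR
  have hRpos : 0 < R := by positivity
  refine ⟨gbar q J, R, ⟨?_, hnn, hle, hsupp, ?_⟩, ?_⟩
  · -- continuity
    have : LipschitzWith (Real.toNNReal K) (gbar q J) := by
      apply LipschitzWith.of_dist_le_mul
      intro v w
      rw [Real.dist_eq, Real.dist_eq, Real.coe_toNNReal K hK]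
      exact hlip v w
    exact this.continuous
  · intro v hv
    have h6 := hflat v
    have h7 : Cg * (1 + Real.log (1 + |v|)) / J ≤ Cg * (1 + Real.log (1 + 1 / ε)) / J := by
      gcongr
    have h8 := hJc.trans (min_le_left _ _)
    linarith
  -- the estimate
  obtain ⟨Cm, hCm, hMm⟩ := h3 RH (m + 1) (max R0 (2 * R)) (hR01.trans (le_max_left _ _))
  have hT1 : ∀ i ∈ Finset.range J, ∀ᶠ T : ℝ in atTop, |∑ n ∈ blk T i, (tup T x y n : ℝ) *
      (2 ^ q * cc J - ∑ l ∈ Finset.Icc 1 (NZ T), gbar q J ((γ l - γ n) * sc (T / 2 ^ (i + 1))))| ≤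
      Cb * ((J : ℝ) ^ (-(1 / 4 : ℝ)) / 2 ^ i + (J : ℝ) ^ (-(3 / 2 : ℝ))) * (T * Real.log T) :=
    fun i _ => hB J hJ1 i
  have hT2 := (Filter.eventually_all_finset (Finset.range J)).2 hT1
  have hlogT : Tendsto Real.log atTop atTop := Real.tendsto_log_atTop
  -- `J log T` is small
  have hsm : ∀ c e : ℝ, 0 < e → ∀ᶠ T : ℝ in atTop, c * Real.log T ≤ e * (T * Real.log T) := by
    intro c e he
    filter_upwards [eventually_ge_atTop (max 1 (c / e))] with T hT
    have h6 : 1 ≤ T := (le_max_left _ _).trans hT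
    have h7 : c / e ≤ T := (le_max_right _ _).trans hT
    rw [div_le_iff₀ he] at h7
    have h8 := Real.log_nonneg h6
    nlinarith
  have hsm2 : ∀ c e : ℝ, 0 ≤ c → 0 < e → ∀ᶠ T : ℝ in atTop, c / Real.log T ≤ e := by
    intro c e hc he
    filter_upwards [hlogT.eventually_ge_atTop (max 1 (c / e))] with T hT
    have h6 : 1 ≤ Real.log T := (le_max_left _ _).trans hT
    have h7 : c / e ≤ Real.log T := (le_max_right _ _).trans hT
    rw [div_le_iff₀ he] at h7
    rw [div_le_iff₀ (by linarith)]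
    linarith
  have hNJ : ∀ᶠ T : ℝ in atTop, (NZ (T / 2 ^ J + 1) : ℝ) ≤ CN * ((T / 2 ^ J + 1) * Real.log (T / 2 ^ J + 1)) := by
    have h6 : Tendsto (fun T : ℝ => T / 2 ^ J + 1) atTop atTop :=
      tendsto_atTop_add_const_right _ _ (tendsto_id.atTop_div_const (by positivity))
    exact h6.eventually hN
  filter_upwards [hT2, hL J hJ1, hM1, hM4, hMm, hN, hW, hNJ, hlogT.eventually_ge_atTop 1,
    eventually_ge_atTop (max (2 ^ J) 2), hsm (J * CW) ((1 / 2) ^ J) (by positivity),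
    hsm2 (J * Real.log 2) (1 / 2) (by positivity) (by norm_num),
    hsm2 (J * Real.log 2 * (K * (2 * R) * Cm)) (ε / 8) (by positivity) (by positivity)]
    with T a1 a2 a3 a4 a5 a6 a7 a8 a9 a10 a11 a12 a13
  have hTJ : (2 : ℝ) ^ J ≤ T := (le_max_left _ _).trans a10
  have hT2' : (2 : ℝ) ≤ T := (le_max_right _ _).trans a10
  have hT0 : 0 < T := by linarith
  have hlog0 : 0 < Real.log T := by linarith
  set X : ℝ := T * Real.log T with hX
  have hX0 : 0 < X := by positivity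
  have htup : ∀ n, (tup T x y n : ℝ) ≤ ((Ws T n (Icc (-R0) R0)).card : ℝ) ^ m := fun n => tup_le T R0 x y hx hy n
  have htup0 : ∀ n, (0 : ℝ) ≤ tup T x y n := fun n => Nat.cast_nonneg _
  have hs1 : ∑ n ∈ Finset.Icc 1 (NZ T), (tup T x y n : ℝ) ≤ C1 * X := (Finset.sum_le_sum fun n _ => htup n).trans a3
  have hs4 : ∑ n ∈ Finset.Icc 1 (NZ T), (tup T x y n : ℝ) ^ 4 ≤ C4 * X := by
    refine (Finset.sum_le_sum fun n _ => ?_).trans a4
    calc (tup T x y n : ℝ) ^ 4 ≤ (((Ws T n (Icc (-R0) R0)).card : ℝ) ^ m) ^ 4 := pow_le_pow_left₀ (htup0 n) (htup n) 4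
      _ = _ := by rw [← pow_mul, mul_comm m 4]
  have hsm1 : ∑ n ∈ Finset.Icc 1 (NZ T), (tup T x y n : ℝ) * ((Ws T n (Icc (-(2 * R)) (2 * R))).card : ℝ) ≤ Cm * X := by
    refine (Finset.sum_le_sum fun n _ => ?_).trans a5
    have hw : ∀ r : ℝ, r ≤ max R0 (2 * R) → ((Ws T n (Icc (-r) r)).card : ℝ) ≤
        ((Ws T n (Icc (-(max R0 (2 * R))) (max R0 (2 * R)))).card : ℝ) := by
      intro r hr
      have : (Ws T n (Icc (-r) r)).card ≤ (Ws T n (Icc (-(max R0 (2 * R))) (max R0 (2 * R)))).card := by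
        apply Finset.card_le_card
        intro l hl
        simp only [Ws, Finset.mem_filter, Set.mem_Icc] at hl ⊢
        exact ⟨hl.1, hl.2.1, by linarith [hl.2.2.1], by linarith [hl.2.2.2]⟩
      exact_mod_cast this
    rw [pow_succ]
    exact mul_le_mul ((htup n).trans (pow_le_pow_left₀ (Nat.cast_nonneg _) (hw R0 (le_max_left _ _)) m))
      (hw (2 * R) (le_max_right _ _)) (Nat.cast_nonneg _) (by positivity)
  set D : ℕ → ℝ := fun n => (∫ v, gbar q J v) - ∑ l ∈ Finset.Icc 1 (NZ T), gbar q J (ps T n l) with hD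
  change |∑ n ∈ Finset.Icc 1 (NZ T), (tup T x y n : ℝ) * D n| ≤ ε * X
  rw [sum_split T hT0.le J]
  -- the blocks
  have hblk : ∀ i ∈ Finset.range J, |∑ n ∈ blk T i, (tup T x y n : ℝ) * D n| ≤
      Cb * ((J : ℝ) ^ (-(1 / 4 : ℝ)) / 2 ^ i + (J : ℝ) ^ (-(3 / 2 : ℝ))) * X +
      Cg / J * ∑ n ∈ blk T i, (tup T x y n : ℝ) +
      J * Real.log 2 / Real.log T * (K * (2 * R)) *
        ∑ n ∈ blk T i, (tup T x y n : ℝ) * ((Ws T n (Icc (-(2 * R)) (2 * R))).card : ℝ) := by
    intro i hi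
    have hiJ : i < J := Finset.mem_range.1 hi
    set ρ : ℝ := sc (T / 2 ^ (i + 1)) / sc T with hρ
    have hscT : 0 < sc T := by unfold sc; positivity
    have hρe : ρ = 1 - (i + 1) * Real.log 2 / Real.log T := by
      rw [hρ]
      unfold sc
      rw [Real.log_div hT0.ne' (by positivity), Real.log_pow]
      push_cast
      have : (2 * Real.pi) ≠ 0 := by positivity
      field_simp
    have hi1 : ((i : ℝ) + 1) ≤ J := by exact_mod_cast hiJ
    have hl2 : 0 < Real.log 2 := Real.log_pos (by norm_num)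
    have hρa : 1 - ρ ≤ J * Real.log 2 / Real.log T := by
      rw [hρe, sub_sub_cancel]
      gcongr
    have hρ1 : ρ ≤ 1 := by
      rw [hρe]
      have : 0 ≤ ((i : ℝ) + 1) * Real.log 2 / Real.log T := by positivity
      linarith
    have hρ2 : 1 / 2 ≤ ρ := by linarith
    have hps : ∀ n l, (γ l - γ n) * sc (T / 2 ^ (i + 1)) = ρ * ps T n l := by
      intro n l
      rw [hρ]
      unfold ps
      field_simp
    have e1 : ∑ n ∈ blk T i, (tup T x y n : ℝ) * D n =
        ∑ n ∈ blk T i, (tup T x y n : ℝ) *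
          (2 ^ q * cc J - ∑ l ∈ Finset.Icc 1 (NZ T), gbar q J ((γ l - γ n) * sc (T / 2 ^ (i + 1)))) +
        ∑ n ∈ blk T i, (tup T x y n : ℝ) * ((∫ v, gbar q J v) - 2 ^ q * cc J) +
        ∑ n ∈ blk T i, (tup T x y n : ℝ) * (∑ l ∈ Finset.Icc 1 (NZ T), gbar q J (ρ * ps T n l) -
          ∑ l ∈ Finset.Icc 1 (NZ T), gbar q J (ps T n l)) := by
      rw [← Finset.sum_add_distrib, ← Finset.sum_add_distrib]
      refine Finset.sum_congr rfl fun n _ => ?_
      rw [hD]
      dsimp only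
      simp only [hps]
      ring
    rw [e1]
    refine (abs_add_three _ _ _).trans (add_le_add (add_le_add (a1 i hi) ?_) ?_)
    · rw [← Finset.sum_mul, abs_mul, abs_of_nonneg (Finset.sum_nonneg fun n _ => htup0 n), mul_comm]
      apply mul_le_mul_of_nonneg_right _ (Finset.sum_nonneg fun n _ => htup0 n)
      rw [abs_sub_comm]
      exact hint
    · refine (Finset.abs_sum_le_sum_abs _ _).trans ?_
      rw [Finset.mul_sum]
      refine Finset.sum_le_sum fun n _ => ?_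
      rw [abs_mul, abs_of_nonneg (htup0 n)]
      have h6 := scale q J K R hK hRpos.le hlip hsupp T ρ hρ2 hρ1 n
      have h7 : K * ((1 - ρ) * (2 * R)) * ((Ws T n (Icc (-(2 * R)) (2 * R))).card : ℝ) ≤
          J * Real.log 2 / Real.log T * (K * (2 * R)) * ((Ws T n (Icc (-(2 * R)) (2 * R))).card : ℝ) := by
        apply mul_le_mul_of_nonneg_right _ (Nat.cast_nonneg _)
        calc K * ((1 - ρ) * (2 * R)) = (1 - ρ) * (K * (2 * R)) := by ring
          _ ≤ J * Real.log 2 / Real.log T * (K * (2 * R)) := mul_le_mul_of_nonneg_right hρa (by positivity)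
      calc (tup T x y n : ℝ) * |∑ l ∈ Finset.Icc 1 (NZ T), gbar q J (ρ * ps T n l) -
            ∑ l ∈ Finset.Icc 1 (NZ T), gbar q J (ps T n l)|
          ≤ (tup T x y n : ℝ) * (J * Real.log 2 / Real.log T * (K * (2 * R)) *
            ((Ws T n (Icc (-(2 * R)) (2 * R))).card : ℝ)) := mul_le_mul_of_nonneg_left (h6.trans h7) (htup0 n)
        _ = _ := by ring
  have hmain : |∑ i ∈ Finset.range J, ∑ n ∈ blk T i, (tup T x y n : ℝ) * D n| ≤ 3 * (ε / 8) * X := by
    refine (Finset.abs_sum_le_sum_abs _ _).trans ((Finset.sum_le_sum hblk).trans ?_)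
    have e0 : ∑ i ∈ Finset.range J, (Cb * ((J : ℝ) ^ (-(1 / 4 : ℝ)) / 2 ^ i + (J : ℝ) ^ (-(3 / 2 : ℝ))) * X +
      Cg / J * ∑ n ∈ blk T i, (tup T x y n : ℝ) +
      J * Real.log 2 / Real.log T * (K * (2 * R)) *
        ∑ n ∈ blk T i, (tup T x y n : ℝ) * ((Ws T n (Icc (-(2 * R)) (2 * R))).card : ℝ)) =
      Cb * (∑ i ∈ Finset.range J, ((J : ℝ) ^ (-(1 / 4 : ℝ)) / 2 ^ i + (J : ℝ) ^ (-(3 / 2 : ℝ)))) * X +
      Cg / J * ∑ i ∈ Finset.range J, ∑ n ∈ blk T i, (tup T x y n : ℝ) +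
      J * Real.log 2 / Real.log T * (K * (2 * R)) *
        ∑ i ∈ Finset.range J, ∑ n ∈ blk T i, (tup T x y n : ℝ) * ((Ws T n (Icc (-(2 * R)) (2 * R))).card : ℝ) := by
      rw [Finset.sum_add_distrib, Finset.sum_add_distrib]
      congr 1
      · congr 1
        · rw [Finset.mul_sum, Finset.sum_mul]
        · rw [Finset.mul_sum]
      · rw [Finset.mul_sum]
    rw [e0]
    have hsub : ∀ f : ℕ → ℝ, (∀ n, 0 ≤ f n) → ∑ i ∈ Finset.range J, ∑ n ∈ blk T i, f n ≤
        ∑ n ∈ Finset.Icc 1 (NZ T), f n := by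
      intro f hf
      rw [sum_split T hT0.le J f]
      have : 0 ≤ ∑ n ∈ Ex T J, f n := Finset.sum_nonneg fun n _ => hf n
      linarith
    have b1 : ∑ i ∈ Finset.range J, ((J : ℝ) ^ (-(1 / 4 : ℝ)) / 2 ^ i + (J : ℝ) ^ (-(3 / 2 : ℝ))) ≤
        2 * (J : ℝ) ^ (-(1 / 4 : ℝ)) + (J : ℝ) ^ (-(1 / 2 : ℝ)) := by
      rw [Finset.sum_add_distrib, Finset.sum_const, Finset.card_range, nsmul_eq_mul]
      have c1 : ∑ i ∈ Finset.range J, (J : ℝ) ^ (-(1 / 4 : ℝ)) / 2 ^ i ≤ 2 * (J : ℝ) ^ (-(1 / 4 : ℝ)) := by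
        have c2 : ∑ i ∈ Finset.range J, (J : ℝ) ^ (-(1 / 4 : ℝ)) / 2 ^ i =
            (J : ℝ) ^ (-(1 / 4 : ℝ)) * ∑ i ∈ Finset.range J, (1 / 2 : ℝ) ^ i := by
          rw [Finset.mul_sum]
          refine Finset.sum_congr rfl fun i _ => ?_
          rw [one_div_pow, mul_one_div]
        have c3 : ∑ i ∈ Finset.range J, (1 / 2 : ℝ) ^ i ≤ 2 := by
          have c4 := Summable.sum_le_tsum (Finset.range J) (fun i _ => by positivity) summable_geometric_two
          rw [tsum_geometric_two] at c4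
          exact c4
        rw [c2, mul_comm]
        exact mul_le_mul_of_nonneg_right c3 (by positivity)
      have c5 : (J : ℝ) * (J : ℝ) ^ (-(3 / 2 : ℝ)) = (J : ℝ) ^ (-(1 / 2 : ℝ)) := by
        conv_lhs => rw [← Real.rpow_one (J : ℝ)]
        rw [Real.rpow_one, ← Real.rpow_one_add' hJ0.le (by norm_num)]
        norm_num
      linarith
    have b2 := hsub (fun n => (tup T x y n : ℝ)) htup0
    have b3 := hsub (fun n => (tup T x y n : ℝ) * ((Ws T n (Icc (-(2 * R)) (2 * R))).card : ℝ))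
      (fun n => mul_nonneg (htup0 n) (Nat.cast_nonneg _))
    have d1 : Cb * (∑ i ∈ Finset.range J, ((J : ℝ) ^ (-(1 / 4 : ℝ)) / 2 ^ i + (J : ℝ) ^ (-(3 / 2 : ℝ)))) * X ≤
        (ε / 8) * X := by
      apply mul_le_mul_of_nonneg_right _ hX0.le
      exact (mul_le_mul_of_nonneg_left b1 hCb.le).trans (hJa.trans (min_le_right _ _))
    have d2 : Cg / J * ∑ i ∈ Finset.range J, ∑ n ∈ blk T i, (tup T x y n : ℝ) ≤ (ε / 8) * X := by
      calc Cg / J * ∑ i ∈ Finset.range J, ∑ n ∈ blk T i, (tup T x y n : ℝ) ≤ Cg / J * (C1 * X) :=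
            mul_le_mul_of_nonneg_left (b2.trans hs1) (by positivity)
        _ = Cg * C1 / J * X := by ring
        _ ≤ (ε / 8) * X := mul_le_mul_of_nonneg_right (hJb.trans (min_le_right _ _)) hX0.le
    have d3 : J * Real.log 2 / Real.log T * (K * (2 * R)) *
        ∑ i ∈ Finset.range J, ∑ n ∈ blk T i, (tup T x y n : ℝ) * ((Ws T n (Icc (-(2 * R)) (2 * R))).card : ℝ) ≤
        (ε / 8) * X := by
      calc J * Real.log 2 / Real.log T * (K * (2 * R)) *
            ∑ i ∈ Finset.range J, ∑ n ∈ blk T i, (tup T x y n : ℝ) * ((Ws T n (Icc (-(2 * R)) (2 * R))).card : ℝ)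
          ≤ J * Real.log 2 / Real.log T * (K * (2 * R)) * (Cm * X) :=
            mul_le_mul_of_nonneg_left (b3.trans hsm1) (by positivity)
        _ = J * Real.log 2 * (K * (2 * R) * Cm) / Real.log T * X := by ring
        _ ≤ (ε / 8) * X := mul_le_mul_of_nonneg_right a13 hX0.le
    linarith
  -- the exceptional indices
  have hex : |∑ n ∈ Ex T J, (tup T x y n : ℝ) * D n| ≤ (ε / 8) * X := by
    have c1 : ((Ex T J).card : ℝ) ≤ ((2 * CN + 1) * (1 / 2) ^ J) * X := by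
      have c2 := ex_card h4 T J hTJ CW a7
      have c3 : (NZ (T / 2 ^ J + 1) : ℝ) ≤ 2 * CN * (1 / 2) ^ J * X := by
        refine a8.trans ?_
        have c4 : T / 2 ^ J + 1 ≤ 2 * (T / 2 ^ J) := by
          have : 1 ≤ T / 2 ^ J := by rw [le_div_iff₀ (by positivity), one_mul]; exact hTJ
          linarith
        have c5 : T / 2 ^ J + 1 ≤ T := by
          have c6 : T / 2 ^ J ≤ T / 2 := by
            apply div_le_div_of_nonneg_left hT0.le (by norm_num)
            calc (2 : ℝ) = 2 ^ 1 := by norm_num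
              _ ≤ 2 ^ J := pow_le_pow_right₀ (by norm_num) hJ1
          linarith
        have c7 : Real.log (T / 2 ^ J + 1) ≤ Real.log T := Real.log_le_log (by positivity) c5
        have c8 : 0 ≤ Real.log (T / 2 ^ J + 1) := Real.log_nonneg (by
          have : 0 ≤ T / 2 ^ J := by positivity
          linarith)
        calc CN * ((T / 2 ^ J + 1) * Real.log (T / 2 ^ J + 1)) ≤ CN * ((2 * (T / 2 ^ J)) * Real.log T) := by
              gcongr
          _ = 2 * CN * (1 / 2) ^ J * X := by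
              rw [hX, one_div, inv_pow, div_eq_mul_inv]
              ring
      have c9 : (J : ℝ) * (CW * Real.log T) ≤ (1 / 2) ^ J * X := by
        rw [← mul_assoc]
        exact a11
      linarith
    have c2 : ∑ n ∈ Ex T J, D n ^ 2 ≤ ((2 * C2 + 2 * Cg ^ 2 * CN) * J) * X := by
      have c3 : ∑ n ∈ Ex T J, D n ^ 2 ≤ ∑ n ∈ Finset.Icc 1 (NZ T), D n ^ 2 :=
        Finset.sum_le_sum_of_subset_of_nonneg (fun n hn => ((mem_Ex T J n).1 hn).1) fun _ _ _ => sq_nonneg _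
      refine c3.trans ?_
      have c4 : ∀ n ∈ Finset.Icc 1 (NZ T), D n ^ 2 ≤
          2 * (2 ^ q * cc J - ∑ l ∈ Finset.Icc 1 (NZ T), gbar q J (1 * ps T n l)) ^ 2 + 2 * (Cg / J) ^ 2 := by
        intro n _
        have c5 : D n = (2 ^ q * cc J - ∑ l ∈ Finset.Icc 1 (NZ T), gbar q J (1 * ps T n l)) -
            (2 ^ q * cc J - ∫ v, gbar q J v) := by
          rw [hD]
          simp only [one_mul]
          ring
        have c6 : (2 ^ q * cc J - ∫ v, gbar q J v) ^ 2 ≤ (Cg / J) ^ 2 := sq_le_sq' (by linarith [(abs_le.1 hint).1]) (abs_le.1 hint).2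
        rw [c5]
        nlinarith [sq_nonneg ((2 ^ q * cc J - ∑ l ∈ Finset.Icc 1 (NZ T), gbar q J (1 * ps T n l)) +
            (2 ^ q * cc J - ∫ v, gbar q J v))]
      refine (Finset.sum_le_sum c4).trans ?_
      rw [Finset.sum_add_distrib, ← Finset.mul_sum, Finset.sum_const, Nat.card_Icc, Nat.add_sub_cancel, nsmul_eq_mul]
      have c7 := a2 1 (by
        have : (0 : ℝ) < 1 / 4 ^ J := by positivity
        linarith) le_rfl
      have c8 : (Cg / J) ^ 2 ≤ Cg ^ 2 := by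
        apply pow_le_pow_left₀ (by positivity)
        exact div_le_self hCg.le hJ1'
      have c9 : (NZ T : ℝ) * (2 * (Cg / J) ^ 2) ≤ (CN * X) * (2 * Cg ^ 2) :=
        mul_le_mul a6 (by linarith) (by positivity) (by positivity)
      have c10 : (CN * X) * (2 * Cg ^ 2) ≤ (CN * X) * (2 * Cg ^ 2) * J := le_mul_of_one_le_right (by positivity) hJ1'
      calc _ ≤ 2 * (C2 * J * X) + (CN * X) * (2 * Cg ^ 2) * J :=
            add_le_add (mul_le_mul_of_nonneg_left c7 (by norm_num)) (c9.trans c10)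
        _ = _ := by ring
    have c3 : ∑ n ∈ Ex T J, (tup T x y n : ℝ) ^ 4 ≤ C4 * X :=
      (Finset.sum_le_sum_of_subset_of_nonneg (fun n hn => ((mem_Ex T J n).1 hn).1) fun _ _ _ => by positivity).trans hs4
    have c4 := cs (Ex T J) (fun n => (tup T x y n : ℝ)) D _ _ _ X (by positivity) hC4.le (by positivity) hX0.le c1 c3 c2
    refine c4.trans (mul_le_mul_of_nonneg_right ?_ hX0.le)
    have c5 : (2 * CN + 1) * (1 / 2) ^ J * C4 = (2 * CN + 1) * C4 * (1 / 2) ^ J := by ring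
    rw [c5]
    exact hJd.trans (min_le_right _ _)
  calc |∑ i ∈ Finset.range J, ∑ n ∈ blk T i, (tup T x y n : ℝ) * D n + ∑ n ∈ Ex T J, (tup T x y n : ℝ) * D n|
      ≤ 3 * (ε / 8) * X + ε / 8 * X := (abs_add_le _ _).trans (add_le_add hmain hex)
    _ ≤ ε * X := by nlinarith

end

end Pool.Agent.J4.H44.RG
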