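import Pool.Agent.J4.H44.RG.Defs

set_option autoImplicit false
set_option linter.all false

open Filter Topology MeasureTheory Set

namespace Pool.Agent.J4.H44.RG.ZX

open Pool.Agent.J4.H44.RG

lemma mem_Ws (T : ℝ) (n : ℕ) (S : Set ℝ) (l : ℕ) :
    l ∈ Ws T n S ↔ l ∈ Finset.Icc 1 (NZ T) ∧ l ≠ n ∧ ps T n l ∈ S := by
  classical
  unfold Ws
  rw [Finset.mem_filter]

lemma tup_le {m : ℕ} (T R : ℝ) (x y : Fin m → ℝ) (hx : ∀ i, -R ≤ x i) (hy : ∀ i, y i ≤ R)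
    (n : ℕ) : tup T x y n ≤ (Ws T n (Icc (-R) R)).card ^ m := by
  classical
  unfold tup
  have h1 : {l : Fin m → ℕ | Function.Injective l ∧ ∀ i, l i ∈ Ws T n (Icc (x i) (y i))} ⊆
      (↑(Fintype.piFinset (fun _ : Fin m => Ws T n (Icc (-R) R))) : Set (Fin m → ℕ)) := by
    intro l hl
    obtain ⟨-, h2⟩ := hl
    rw [Finset.mem_coe, Fintype.mem_piFinset]
    intro i
    have h3 := h2 i
    rw [mem_Ws] at h3 ⊢
    refine ⟨h3.1, h3.2.1, ?_, ?_⟩
    · exact (hx i).trans h3.2.2.1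
    · exact h3.2.2.2.trans (hy i)
  have h2 := Set.ncard_le_ncard h1 (Finset.finite_toSet _)
  rw [Set.ncard_coe_finset, Fintype.card_piFinset] at h2
  simpa using h2

/-- a bound for a box -/
lemma box {m : ℕ} (x y : Fin m → ℝ) : ∃ R : ℝ, 1 ≤ R ∧ (∀ i, -R ≤ x i) ∧ (∀ i, y i ≤ R) := by
  refine ⟨1 + ∑ i, |x i| + ∑ i, |y i|, ?_, ?_, ?_⟩
  · have h1 : 0 ≤ ∑ i, |x i| := Finset.sum_nonneg fun i _ => abs_nonneg _
    have h2 : 0 ≤ ∑ i, |y i| := Finset.sum_nonneg fun i _ => abs_nonneg _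
    linarith
  · intro i
    have h1 : |x i| ≤ ∑ i, |x i| :=
      Finset.single_le_sum (f := fun i => |x i|) (fun j _ => abs_nonneg _) (Finset.mem_univ i)
    have h2 : 0 ≤ ∑ i, |y i| := Finset.sum_nonneg fun i _ => abs_nonneg _
    linarith [neg_abs_le (x i)]
  · intro i
    have h1 : |y i| ≤ ∑ i, |y i| :=
      Finset.single_le_sum (f := fun i => |y i|) (fun j _ => abs_nonneg _) (Finset.mem_univ i)
    have h2 : 0 ≤ ∑ i, |x i| := Finset.sum_nonneg fun i _ => abs_nonneg _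
    linarith [le_abs_self (y i)]

lemma sum_tup (hMK : S_MOMK) (hRH : RiemannHypothesis) {m : ℕ} (x y : Fin m → ℝ) (p : ℕ) :
    ∃ C : ℝ, 0 < C ∧ ∀ᶠ T : ℝ in atTop,
      ∑ n ∈ Finset.Icc 1 (NZ T), (tup T x y n : ℝ) ^ p ≤ C * (T * Real.log T) := by
  obtain ⟨R, hR, hx, hy⟩ := box x y
  obtain ⟨C, hC, h⟩ := hMK hRH (m * p) R hR
  refine ⟨C, hC, ?_⟩
  filter_upwards [h] with T hT
  refine le_trans (Finset.sum_le_sum fun n _ => ?_) hT
  rw [pow_mul]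
  apply pow_le_pow_left₀ (Nat.cast_nonneg _)
  exact_mod_cast tup_le T R x y hx hy n

/-- the number of exceptional indices -/
lemma card_exc (hNZ : S_NZ) : ∃ C : ℝ, 0 < C ∧ ∀ J : ℕ, 1 ≤ J → ∀ᶠ T : ℝ in atTop,
    ((((Finset.Icc 1 (NZ T)).filter (fun n => ∀ i < J, n ∉ blk T i)).card : ℕ) : ℝ) ≤
      C * (1 / 2 ^ J) * (T * Real.log T) := by
  classical
  obtain ⟨⟨C₁, hC₁, h1⟩, ⟨C₂, hC₂, h2⟩, hmono, hγ, -, -⟩ := hNZ
  refine ⟨2 * C₁ + 1, by linarith, fun J hJ => ?_⟩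
  have hpow : (0 : ℝ) < 2 ^ J := by positivity
  have htend : Tendsto (fun T : ℝ => T / 2 ^ J + 1) atTop atTop :=
    tendsto_atTop_add_const_right _ _ (tendsto_id.atTop_div_const hpow)
  filter_upwards [htend.eventually h1, h2, eventually_ge_atTop (2 ^ J : ℝ),
    eventually_ge_atTop (2 : ℝ), eventually_ge_atTop (J * C₂ * 2 ^ J),
    eventually_ge_atTop (Real.exp 1)] with T g1 g2 g3 g4 g5 g6
  have hlog : 1 ≤ Real.log T := by
    rw [Real.le_log_iff_exp_le (by linarith)]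
    exact g6
  have hJ2 : (2 : ℝ) ≤ 2 ^ J := by
    calc (2 : ℝ) = 2 ^ 1 := by norm_num
      _ ≤ 2 ^ J := pow_le_pow_right₀ (by norm_num) hJ
  have hT0 : 0 < T := by linarith
  have hpi : ∀ i < J, (1 : ℝ) ≤ T / 2 ^ i := by
    intro i hi
    rw [le_div_iff₀ (by positivity), one_mul]
    exact (pow_le_pow_right₀ (by norm_num) hi.le).trans g3
  -- the covering
  have hcov : (Finset.Icc 1 (NZ T)).filter (fun n => ∀ i < J, n ∉ blk T i) ⊆
      Finset.Icc 1 (NZ (T / 2 ^ J + 1)) ∪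
        (Finset.range J).biUnion (fun i => Finset.Ioc (NZ (T / 2 ^ i - 1)) (NZ (T / 2 ^ i - 1 + 2))) := by
    intro n hn
    rw [Finset.mem_filter, Finset.mem_Icc] at hn
    obtain ⟨⟨hn1, hnT⟩, hnb⟩ := hn
    rw [Finset.mem_union]
    by_cases hc : n ≤ NZ (T / 2 ^ J + 1)
    · left
      rw [Finset.mem_Icc]
      exact ⟨hn1, hc⟩
    · right
      have hγT : γ n ≤ T := (hγ n hn1 T hT0.le).2 hnT
      -- the smallest `i` with `T / 2 ^ (i + 1) + 1 < γ n`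
      have hex : ∃ i, i < J ∧ T / 2 ^ (i + 1) + 1 < γ n := by
        refine ⟨J - 1, by omega, ?_⟩
        rw [show J - 1 + 1 = J by omega]
        by_contra hcon
        push Not at hcon
        exact hc ((hγ n hn1 _ (by positivity)).1 hcon)
      set i := Nat.find hex with hi
      obtain ⟨hiJ, hi2⟩ := Nat.find_spec hex
      rw [← hi] at hiJ hi2
      have hup : γ n ≤ T / 2 ^ i + 1 := by
        rcases Nat.eq_zero_or_pos i with h0 | h0
        · rw [h0]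
          simp
          linarith
        · have h3 := Nat.find_min hex (m := i - 1) (by omega)
          push Not at h3
          have h4 := h3 (by omega)
          rw [show i - 1 + 1 = i by omega] at h4
          exact h4
      have hlow : T / 2 ^ i - 1 < γ n := by
        by_contra hcon
        push Not at hcon
        apply hnb i hiJ
        unfold blk
        rw [Finset.mem_filter, Finset.mem_Icc]
        exact ⟨⟨hn1, hnT⟩, hi2, hcon⟩
      rw [Finset.mem_biUnion]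
      refine ⟨i, Finset.mem_range.2 hiJ, ?_⟩
      rw [Finset.mem_Ioc]
      constructor
      · by_contra hcon
        push Not at hcon
        have h5 := (hγ n hn1 _ (by linarith [hpi i hiJ])).2 hcon
        linarith
      · apply (hγ n hn1 _ (by linarith [hpi i hiJ])).1
        linarith
  have hcard := Finset.card_le_card hcov
  have h3 : (((Finset.Icc 1 (NZ (T / 2 ^ J + 1)) ∪
        (Finset.range J).biUnion (fun i => Finset.Ioc (NZ (T / 2 ^ i - 1))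
          (NZ (T / 2 ^ i - 1 + 2)))).card : ℕ) : ℝ) ≤
      NZ (T / 2 ^ J + 1) + J * (C₂ * Real.log T) := by
    have h4 := (Finset.card_union_le (Finset.Icc 1 (NZ (T / 2 ^ J + 1)))
        ((Finset.range J).biUnion (fun i => Finset.Ioc (NZ (T / 2 ^ i - 1))
          (NZ (T / 2 ^ i - 1 + 2)))))
    have h5 := Finset.card_biUnion_le (s := Finset.range J)
      (t := fun i => Finset.Ioc (NZ (T / 2 ^ i - 1)) (NZ (T / 2 ^ i - 1 + 2)))
    have h6 : ((∑ i ∈ Finset.range J, (Finset.Ioc (NZ (T / 2 ^ i - 1))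
        (NZ (T / 2 ^ i - 1 + 2))).card : ℕ) : ℝ) ≤ J * (C₂ * Real.log T) := by
      push_cast
      calc ∑ i ∈ Finset.range J, ((Finset.Ioc (NZ (T / 2 ^ i - 1))
            (NZ (T / 2 ^ i - 1 + 2))).card : ℝ)
          ≤ ∑ _i ∈ Finset.range J, (C₂ * Real.log T) := by
            apply Finset.sum_le_sum
            intro i hi
            rw [Finset.mem_range] at hi
            have h7 := hpi i hi
            have h8 := g2 (T / 2 ^ i - 1) (by linarith) (by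
              have h9 : T / 2 ^ i ≤ T := div_le_self hT0.le (one_le_pow₀ (by norm_num))
              linarith)
            have h10 : NZ (T / 2 ^ i - 1) ≤ NZ (T / 2 ^ i - 1 + 2) := hmono (by linarith)
            rw [Nat.card_Ioc, Nat.cast_sub h10]
            exact h8
        _ = _ := by rw [Finset.sum_const, Finset.card_range, nsmul_eq_mul]
    rw [Nat.card_Icc, Nat.add_sub_cancel] at h4
    have h7 : (((Finset.Icc 1 (NZ (T / 2 ^ J + 1)) ∪
        (Finset.range J).biUnion (fun i => Finset.Ioc (NZ (T / 2 ^ i - 1))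
          (NZ (T / 2 ^ i - 1 + 2)))).card : ℕ) : ℝ) ≤
        ((NZ (T / 2 ^ J + 1) + ∑ i ∈ Finset.range J, (Finset.Ioc (NZ (T / 2 ^ i - 1))
        (NZ (T / 2 ^ i - 1 + 2))).card : ℕ) : ℝ) := by
      exact_mod_cast h4.trans (Nat.add_le_add_left h5 _)
    rw [Nat.cast_add] at h7
    linarith
  have h4 : (NZ (T / 2 ^ J + 1) : ℝ) ≤ 2 * C₁ * (1 / 2 ^ J) * (T * Real.log T) := by
    have h5 : T / 2 ^ J + 1 ≤ 2 * (1 / 2 ^ J) * T := by
      have h6 : (1 : ℝ) ≤ T / 2 ^ J := by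
        rw [le_div_iff₀ hpow, one_mul]
        exact g3
      have h7 : 2 * (1 / 2 ^ J) * T = T / 2 ^ J + T / 2 ^ J := by ring
      linarith
    have h6 : T / 2 ^ J + 1 ≤ T := by
      have h7 : T / 2 ^ J ≤ T / 2 := div_le_div_of_nonneg_left hT0.le (by norm_num) hJ2
      linarith
    have h7 : 0 < T / 2 ^ J + 1 := by positivity
    have h8 : Real.log (T / 2 ^ J + 1) ≤ Real.log T := Real.log_le_log h7 h6
    calc (NZ (T / 2 ^ J + 1) : ℝ) ≤ C₁ * ((T / 2 ^ J + 1) * Real.log (T / 2 ^ J + 1)) := g1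
      _ ≤ C₁ * ((2 * (1 / 2 ^ J) * T) * Real.log T) := by
          apply mul_le_mul_of_nonneg_left _ hC₁.le
          calc (T / 2 ^ J + 1) * Real.log (T / 2 ^ J + 1)
              ≤ (T / 2 ^ J + 1) * Real.log T := mul_le_mul_of_nonneg_left h8 h7.le
            _ ≤ _ := mul_le_mul_of_nonneg_right h5 (by linarith)
      _ = _ := by ring
  have h5 : J * (C₂ * Real.log T) ≤ 1 * (1 / 2 ^ J) * (T * Real.log T) := by
    have h6 : J * C₂ ≤ T / 2 ^ J := by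
      rw [le_div_iff₀ hpow]
      exact g5
    calc J * (C₂ * Real.log T) = (J * C₂) * Real.log T := by ring
      _ ≤ (T / 2 ^ J) * Real.log T := mul_le_mul_of_nonneg_right h6 (by linarith)
      _ = _ := by ring
  have h6 : (((Finset.Icc 1 (NZ T)).filter (fun n => ∀ i < J, n ∉ blk T i)).card : ℝ) ≤
      (((Finset.Icc 1 (NZ (T / 2 ^ J + 1)) ∪
        (Finset.range J).biUnion (fun i => Finset.Ioc (NZ (T / 2 ^ i - 1))
          (NZ (T / 2 ^ i - 1 + 2)))).card : ℕ) : ℝ) := by exact_mod_cast hcard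
  calc _ ≤ _ := h6
    _ ≤ NZ (T / 2 ^ J + 1) + J * (C₂ * Real.log T) := h3
    _ ≤ 2 * C₁ * (1 / 2 ^ J) * (T * Real.log T) + 1 * (1 / 2 ^ J) * (T * Real.log T) :=
        add_le_add h4 h5
    _ = _ := by ring

theorem exc (hL2 : S_L2) (hMK : S_MOMK) (hNZ : S_NZ) (hRH : RiemannHypothesis) (q m : ℕ)
    (x y : Fin m → ℝ) : ∃ C : ℝ, 0 < C ∧ ∀ J : ℕ, 1 ≤ J → ∀ᶠ T : ℝ in atTop,
      ∑ n ∈ (Finset.Icc 1 (NZ T)).filter (fun n => ∀ i < J, n ∉ blk T i),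
        (tup T x y n : ℝ) * |2 ^ q * cc J - ∑ l ∈ Finset.Icc 1 (NZ T), gbar q J (ps T n l)| ≤
      C * ((J : ℝ) ^ (1 / 2 : ℝ) * (2 : ℝ) ^ (-(J : ℝ) / 4)) * (T * Real.log T) := by
  obtain ⟨C₃, hC₃, h3⟩ := card_exc hNZ
  obtain ⟨C₄, hC₄, h4⟩ := sum_tup hMK hRH x y 4
  obtain ⟨C₅, hC₅, h5⟩ := hL2 hRH q
  set C : ℝ := 1 + C₃ * C₄ * C₅ ^ 2 with hC
  have hC1 : 1 ≤ C := by
    have : 0 < C₃ * C₄ * C₅ ^ 2 := by positivity
    linarith
  have hC4 : C₃ * C₄ * C₅ ^ 2 ≤ C ^ 4 := by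
    calc C₃ * C₄ * C₅ ^ 2 ≤ C := by linarith
      _ = C ^ 1 := (pow_one _).symm
      _ ≤ C ^ 4 := pow_le_pow_right₀ hC1 (by norm_num)
  refine ⟨C, by linarith, fun J hJ => ?_⟩
  filter_upwards [h3 J hJ, h4, h5 J hJ, eventually_ge_atTop (Real.exp 1)] with T g3 g4 g5 g6
  have hT1 : 1 ≤ T := le_trans (by
    have := Real.add_one_le_exp (1 : ℝ)
    linarith) g6
  have hlog : 1 ≤ Real.log T := by
    rw [Real.le_log_iff_exp_le (by linarith)]
    exact g6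
  have hL : 0 < T * Real.log T := by positivity
  set L := T * Real.log T with hLdef
  set E := (Finset.Icc 1 (NZ T)).filter (fun n => ∀ i < J, n ∉ blk T i) with hE
  set D : ℕ → ℝ := fun n => |2 ^ q * cc J - ∑ l ∈ Finset.Icc 1 (NZ T), gbar q J (ps T n l)|
    with hD
  have hEs : E ⊆ Finset.Icc 1 (NZ T) := Finset.filter_subset _ _
  have k1 : (∑ n ∈ E, (tup T x y n : ℝ) * D n) ^ 2 ≤
      (∑ n ∈ E, (tup T x y n : ℝ) ^ 2) * ∑ n ∈ E, D n ^ 2 :=
    Finset.sum_mul_sq_le_sq_mul_sq E _ _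
  have k2 : (∑ n ∈ E, 1 * (tup T x y n : ℝ) ^ 2) ^ 2 ≤
      (∑ n ∈ E, (1 : ℝ) ^ 2) * ∑ n ∈ E, ((tup T x y n : ℝ) ^ 2) ^ 2 :=
    Finset.sum_mul_sq_le_sq_mul_sq E _ _
  have k3 : ∑ n ∈ E, D n ^ 2 ≤ C₅ * J * L := by
    have h6 := g5 1 (by
      have : (0 : ℝ) < 1 / 4 ^ J := by positivity
      linarith) le_rfl
    refine le_trans ?_ h6
    calc ∑ n ∈ E, D n ^ 2 ≤ ∑ n ∈ Finset.Icc 1 (NZ T), D n ^ 2 :=
          Finset.sum_le_sum_of_subset_of_nonneg hEs fun n _ _ => by positivity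
      _ = _ := by
          refine Finset.sum_congr rfl fun n _ => ?_
          rw [hD]
          simp only [sq_abs, one_mul]
  have k4 : ∑ n ∈ E, ((tup T x y n : ℝ) ^ 2) ^ 2 ≤ C₄ * L := by
    refine le_trans ?_ g4
    calc ∑ n ∈ E, ((tup T x y n : ℝ) ^ 2) ^ 2
        ≤ ∑ n ∈ Finset.Icc 1 (NZ T), ((tup T x y n : ℝ) ^ 2) ^ 2 :=
          Finset.sum_le_sum_of_subset_of_nonneg hEs fun n _ _ => by positivity
      _ = _ := by
          refine Finset.sum_congr rfl fun n _ => ?_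
          rw [← pow_mul]
  have k5 : (∑ n ∈ E, (tup T x y n : ℝ) ^ 2) ^ 2 ≤ (C₃ * (1 / 2 ^ J) * L) * (C₄ * L) := by
    have h6 : ∑ n ∈ E, (1 : ℝ) ^ 2 = (E.card : ℝ) := by simp
    rw [h6] at k2
    simp only [one_mul] at k2
    refine k2.trans ?_
    exact mul_le_mul g3 k4 (Finset.sum_nonneg fun n _ => by positivity) (by positivity)
  have hS0 : 0 ≤ ∑ n ∈ E, (tup T x y n : ℝ) * D n :=
    Finset.sum_nonneg fun n _ => mul_nonneg (Nat.cast_nonneg _) (abs_nonneg _)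
  have hA0 : 0 ≤ ∑ n ∈ E, (tup T x y n : ℝ) ^ 2 := Finset.sum_nonneg fun n _ => by positivity
  have hB0 : 0 ≤ ∑ n ∈ E, D n ^ 2 := Finset.sum_nonneg fun n _ => by positivity
  have hJ0 : (0 : ℝ) < J := by exact_mod_cast hJ
  have k6 : (∑ n ∈ E, (tup T x y n : ℝ) * D n) ^ 4 ≤
      (C * ((J : ℝ) ^ (1 / 2 : ℝ) * (2 : ℝ) ^ (-(J : ℝ) / 4)) * L) ^ 4 := by
    have e1 : ((J : ℝ) ^ (1 / 2 : ℝ)) ^ 4 = (J : ℝ) ^ 2 := by
      rw [← Real.rpow_natCast, ← Real.rpow_mul hJ0.le]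
      norm_num
    have e2 : ((2 : ℝ) ^ (-(J : ℝ) / 4)) ^ 4 = 1 / 2 ^ J := by
      rw [← Real.rpow_natCast, ← Real.rpow_mul (by norm_num),
        show -(J : ℝ) / 4 * ((4 : ℕ) : ℝ) = -(J : ℝ) by push_cast; ring,
        Real.rpow_neg (by norm_num), Real.rpow_natCast, one_div]
    have e3 : (C * ((J : ℝ) ^ (1 / 2 : ℝ) * (2 : ℝ) ^ (-(J : ℝ) / 4)) * L) ^ 4 =
        C ^ 4 * ((J : ℝ) ^ 2 * (1 / 2 ^ J) * L ^ 4) := by
      rw [mul_pow, mul_pow, mul_pow ((J : ℝ) ^ (1 / 2 : ℝ)), e1, e2]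
      ring
    rw [e3]
    calc (∑ n ∈ E, (tup T x y n : ℝ) * D n) ^ 4
        = ((∑ n ∈ E, (tup T x y n : ℝ) * D n) ^ 2) ^ 2 := by rw [← pow_mul]
      _ ≤ ((∑ n ∈ E, (tup T x y n : ℝ) ^ 2) * ∑ n ∈ E, D n ^ 2) ^ 2 :=
          pow_le_pow_left₀ (by positivity) k1 2
      _ = (∑ n ∈ E, (tup T x y n : ℝ) ^ 2) ^ 2 * (∑ n ∈ E, D n ^ 2) ^ 2 := mul_pow _ _ _
      _ ≤ ((C₃ * (1 / 2 ^ J) * L) * (C₄ * L)) * (C₅ * J * L) ^ 2 :=
          mul_le_mul k5 (pow_le_pow_left₀ hB0 k3 2) (by positivity) (by positivity)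
      _ = (C₃ * C₄ * C₅ ^ 2) * ((J : ℝ) ^ 2 * (1 / 2 ^ J) * L ^ 4) := by ring
      _ ≤ C ^ 4 * ((J : ℝ) ^ 2 * (1 / 2 ^ J) * L ^ 4) :=
          mul_le_mul_of_nonneg_right hC4 (by positivity)
  exact le_of_pow_le_pow_left₀ (by norm_num) (by positivity) k6

end Pool.Agent.J4.H44.RG.ZX
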